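import Pool.Agent.Helper30.N9.Tiling2

/-! MP_9b91d1_co: open rows of the graph side (helper30). -/

open scoped RealInnerProductSpace Topology

namespace Pool.Agent.Helper30.N9

/-- PERI (Euclid XI.21, spherical form): perimeter of a convex polygon seen from an inner
point nu. -/
def ST_PERI : Prop :=
  ∀ (n : ℕ) (u : ℕ → E3) (ν : E3), 0 < n → (∀ i, ‖u i‖ = 1) → ‖ν‖ = 1 →
    (∀ i, u (i + n) = u i) → (∀ i, 0 < ⟪ν, u i⟫) → (∀ i, 0 < det3 ν (u i) (u (i + 1))) →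
    (∀ i, 0 ≤ det3 (u i) (u (i + 1)) (u (i + 2))) →
    (∃ i, 0 < det3 (u i) (u (i + 1)) (u (i + 2))) →
    ∑ i ∈ Finset.range n, (Om ν (u i) (u (i + 1)) - Om (-ν) (u i) (u (i + 1)))
      = 4 * Real.pi →
    ∑ i ∈ Finset.range n, ang (u i) (u (i + 1)) < 2 * Real.pi

/-- HEMIQ: a closed polygon of length < 2 pi lies in an open hemisphere. -/
def ST_HEMIQ : Prop :=
  ∀ (n : ℕ) (v : ℕ → E3), (∀ i, ‖v i‖ = 1) → v n = v 0 →
    ∑ i ∈ Finset.range n, ang (v i) (v (i + 1)) < 2 * Real.pi →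
    ∃ g : E3, ‖g‖ = 1 ∧ ∀ i ≤ n, 0 < ⟪g, v i⟫

/-- OPEN: C(G) is open. -/
def ST_OPEN : Prop :=
  ∀ (V : Type) [Fintype V] [DecidableEq V] (M : PlaneGraph V) (p : V → E3), M.InC p →
    ∃ ε > 0, ∀ q : V → E3, (∀ v, ‖q v‖ = 1) → (∀ v, dist (q v) (p v) < ε) → M.InC q

/-- FARKAS: pinned stress of a locally minimal realization (A = pinned vertices). -/
def ST_FARKAS : Prop :=
  ∀ (V : Type) [Fintype V] [DecidableEq V] (M : PlaneGraph V) (p : V → E3), M.LocMin p →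
    ∀ A : Set V, (∃ d : M.G.Dart, d.fst ∉ A) →
    ∃ om : M.G.Dart → ℝ, (∀ d, 0 ≤ om d) ∧ (∀ d, om d.symm = om d) ∧
      (∀ d, d.fst ∈ A → d.snd ∈ A → om d = 0) ∧ (∃ d, om d ≠ 0) ∧
      ∀ v, v ∉ A → ∑ d ∈ Finset.univ.filter (fun d : M.G.Dart => d.fst = v),
        om d • crs (p d.fst) (p d.snd) = 0

/-- EXACT: closed 1-forms on a plane graph are exact. -/
def ST_EXACT : Prop :=
  ∀ (V : Type) [Fintype V] [DecidableEq V] (M : PlaneGraph V), M.G.Connected →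
    ∀ c : M.G.Dart → ℝ, (∀ d, c d.symm = - c d) → (∀ d, ∑ e ∈ M.face d, c e = 0) →
    ∃ u : V → ℝ, ∀ d, c d = u d.snd - u d.fst

/-- LIFT: a flow on the inner darts of a set T of faces, divergence free at the vertices all of
whose faces are in T, is a difference of face values, if the boundary is connected in the sense
of potentials (hypothesis hA). -/
def ST_LIFT : Prop :=
  ∀ (V : Type) [Fintype V] [DecidableEq V] (M : PlaneGraph V), M.G.Connected →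
    ∀ (T : M.Face → Prop) (F : M.G.Dart → E3), (∀ d, F d.symm = - F d) →
    (∀ d, ¬ (T (M.fc d) ∧ T (M.fc d.symm)) → F d = 0) →
    (∀ v, (∀ d : M.G.Dart, d.fst = v → T (M.fc d)) →
      ∑ d ∈ Finset.univ.filter (fun d : M.G.Dart => d.fst = v), F d = 0) →
    (∀ u : V → ℝ, (∀ d : M.G.Dart, ¬ (T (M.fc d) ∧ T (M.fc d.symm)) → u d.fst = u d.snd) →
      ∀ a b : M.G.Dart, ¬ T (M.fc a) → ¬ T (M.fc b) → u a.fst = u b.fst) →
    ∃ x : M.Face → E3, ∀ d, T (M.fc d) → T (M.fc d.symm) →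
      x (M.fc d) - x (M.fc d.symm) = F d

/-- MM (M-matrix lemma): B = free vertices, c = stress, nn = pole. Either some stressed dart
joins B to a vertex outside B and then q = p at its end in B, or c vanishes on the darts
starting in B. -/
def ST_MM : Prop :=
  ∀ (V : Type) [Fintype V] [DecidableEq V] (M : PlaneGraph V) (p q : V → E3) (B : Set V)
    (c : M.G.Dart → ℝ) (nn : E3),
    (∀ v, ‖p v‖ = 1) → (∀ v, ‖q v‖ = 1) → (∀ d : M.G.Dart, p d.fst ≠ p d.snd) →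
    (∀ d, 0 ≤ c d) → (∀ d, c d.symm = c d) →
    (∀ d : M.G.Dart, d.fst ∈ B → c d ≠ 0 → d.snd ∉ B → q d.snd = p d.snd) →
    (∀ v ∈ B, ∑ d ∈ Finset.univ.filter (fun d : M.G.Dart => d.fst = v),
        c d • crs (p d.fst) (p d.snd) = 0) →
    (∀ d : M.G.Dart, d.fst ∈ B → c d ≠ 0 → 0 < ⟪nn, p d.fst⟫ ∧ 0 < ⟪nn, p d.snd⟫) →
    (∀ d : M.G.Dart, d.fst ∈ B → c d ≠ 0 → ⟪p d.fst, p d.snd⟫ ≤ ⟪q d.fst, q d.snd⟫) →
    (∃ d : M.G.Dart, d.fst ∈ B ∧ c d ≠ 0) →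
    ∃ d : M.G.Dart, d.fst ∈ B ∧ d.snd ∉ B ∧ c d ≠ 0 ∧ q d.fst = p d.fst

end Pool.Agent.Helper30.N9
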