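import Pool.Agent.Helper30.N9.Cx2

/-! MP_9b91d1_co: second sheet of rows (helper30): convex cells. -/

open scoped RealInnerProductSpace Topology

namespace Pool.Agent.Helper30.N9

namespace PlaneGraph

variable {V : Type} [Fintype V] [DecidableEq V] (M : PlaneGraph V)

open Classical in
/-- boundary darts of a set of faces: left face inside, right face outside -/
noncomputable def bd (T : Set M.Face) : Finset M.G.Dart :=
  Finset.univ.filter (fun d => M.fc d ∈ T ∧ M.fc d.symm ∉ T)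

/-- The faces of T fill the closed convex pointed cone N in the realization p. -/
structure Cell (p : V → E3) (h : M.Face → E3) (T : Set M.Face) (N : Set E3) : Prop where
  closed : IsClosed N
  cvx : ∀ x ∈ N, ∀ y ∈ N, ∀ s t : ℝ, 0 ≤ s → 0 ≤ t → s • x + t • y ∈ N
  reg : ∀ z, ‖z‖ = 1 → M.OffAll p z → ((∃ w ∈ T, M.FW p h w z = 1) ↔ z ∈ N)
  pointed : ∃ s : E3, ∀ y ∈ N, y ≠ 0 → 0 < ⟪s, y⟫
  ne : T.Nonempty

end PlaneGraph

/-- common hypotheses -/
structure Good {V : Type} [Fintype V] [DecidableEq V] (M : PlaneGraph V) (p : V → E3)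
    (h : M.Face → E3) : Prop where
  c3 : M.Conn3
  per : M.Peripheral
  inC : M.InC p
  cen : M.Cen p h

/-- C1: the cell lies to the left of its boundary darts. -/
def ST_C1 : Prop :=
  ∀ (V : Type) [Fintype V] [DecidableEq V] (M : PlaneGraph V) (p : V → E3)
    (h : M.Face → E3) (T : Set M.Face) (N : Set E3), Good M p h → M.Cell p h T N →
    ∀ d ∈ M.bd T, ∀ y ∈ N, 0 ≤ det3 (p d.fst) (p d.snd) y

/-- C2: the arcs of the faces of T lie in N. -/
def ST_C2 : Prop :=
  ∀ (V : Type) [Fintype V] [DecidableEq V] (M : PlaneGraph V) (p : V → E3)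
    (h : M.Face → E3) (T : Set M.Face) (N : Set E3), Good M p h → M.Cell p h T N →
    ∀ d : M.G.Dart, M.fc d ∈ T → arc (p d.fst) (p d.snd) ⊆ N

/-- C3: at most one outgoing boundary dart at every vertex. -/
def ST_C3 : Prop :=
  ∀ (V : Type) [Fintype V] [DecidableEq V] (M : PlaneGraph V) (p : V → E3)
    (h : M.Face → E3) (T : Set M.Face) (N : Set E3), Good M p h → M.Cell p h T N →
    ∀ d ∈ M.bd T, ∀ e ∈ M.bd T, d.fst = e.fst → d = e

/-- C4: an inner point nu with positive products with all vertices of T. -/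
def ST_C4 : Prop :=
  ∀ (V : Type) [Fintype V] [DecidableEq V] (M : PlaneGraph V) (p : V → E3)
    (h : M.Face → E3) (T : Set M.Face) (N : Set E3), Good M p h → M.Cell p h T N →
    (M.bd T).Nonempty ∧ ∃ ν : E3, ‖ν‖ = 1 ∧ M.OffAll p ν ∧ M.OffAll p (-ν) ∧ ν ∈ N ∧
      (∀ d ∈ M.bd T, 0 < det3 (p d.fst) (p d.snd) ν) ∧
      (∀ d : M.G.Dart, M.fc d ∈ T → 0 < ⟪ν, p d.fst⟫)

/-- C5: the boundary is one cycle. -/
def ST_C5 : Prop :=
  ∀ (V : Type) [Fintype V] [DecidableEq V] (M : PlaneGraph V) (p : V → E3)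
    (h : M.Face → E3) (T : Set M.Face) (N : Set E3), Good M p h → M.Cell p h T N →
    ∃ u : ℕ → M.G.Dart, (∀ i, u i ∈ M.bd T) ∧ (∀ i, (u (i + 1)).fst = (u i).snd) ∧
      (∀ i, u (i + (M.bd T).card) = u i) ∧
      ∀ d ∈ M.bd T, ∃ i < (M.bd T).card, u i = d

/-- C6: the perimeter of a cell is less than 2 pi. -/
def ST_C6 : Prop :=
  ∀ (V : Type) [Fintype V] [DecidableEq V] (M : PlaneGraph V) (p : V → E3)
    (h : M.Face → E3) (T : Set M.Face) (N : Set E3), Good M p h → M.Cell p h T N →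
    ∑ d ∈ M.bd T, ang (p d.fst) (p d.snd) < 2 * Real.pi

/-- C7: the boundary of a cell in a smaller realization lies in an open hemisphere. -/
def ST_C7 : Prop :=
  ∀ (V : Type) [Fintype V] [DecidableEq V] (M : PlaneGraph V) (p : V → E3)
    (h : M.Face → E3) (T : Set M.Face) (N : Set E3), Good M p h → M.Cell p h T N →
    ∀ q : V → E3, (∀ v, ‖q v‖ = 1) → M.Le q p →
    ∃ g : E3, Centre (M.bd T) (M.ga q) (M.gb q) g

/-- SPANBD: the planes of the boundary darts have no common line. -/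
def ST_SPANBD : Prop :=
  ∀ (V : Type) [Fintype V] [DecidableEq V] (M : PlaneGraph V) (p : V → E3)
    (h : M.Face → E3) (T : Set M.Face) (N : Set E3), Good M p h → M.Cell p h T N →
    ∀ y : E3, (∀ d ∈ M.bd T, det3 (p d.fst) (p d.snd) y = 0) → y = 0

/-- FLIP: the flip number is 0 or 1. -/
def ST_FLIP : Prop :=
  ∀ (V : Type) [Fintype V] [DecidableEq V] (M : PlaneGraph V) (q : V → E3)
    (h : M.Face → E3) (T : Finset M.Face) (g : E3), Good M q h →
    Centre (M.bd (T : Set M.Face)) (M.ga q) (M.gb q) g →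
    ∑ w ∈ T, SA (M.fdarts w) (M.ga q) (M.gb q) (h w)
      = SA (M.bd (T : Set M.Face)) (M.ga q) (M.gb q) g ∨
    ∑ w ∈ T, SA (M.fdarts w) (M.ga q) (M.gb q) (h w)
      = SA (M.bd (T : Set M.Face)) (M.ga q) (M.gb q) g + 4 * Real.pi

/-- A5: a cell without inner vertices is not flipped (T any set of faces). -/
def ST_A5 : Prop :=
  ∀ (V : Type) [Fintype V] [DecidableEq V] (M : PlaneGraph V) (q : V → E3)
    (h : M.Face → E3) (T : Finset M.Face) (g : E3), Good M q h →
    Centre (M.bd (T : Set M.Face)) (M.ga q) (M.gb q) g →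
    (∀ v, ∃ d : M.G.Dart, d.fst = v ∧ M.fc d ∉ T) →
    ∑ w ∈ T, SA (M.fdarts w) (M.ga q) (M.gb q) (h w)
      = SA (M.bd (T : Set M.Face)) (M.ga q) (M.gb q) g

/-- HA: potentials that are constant along the darts not inside T are constant on the outer
vertices. -/
def ST_HA : Prop :=
  ∀ (V : Type) [Fintype V] [DecidableEq V] (M : PlaneGraph V) (p : V → E3)
    (h : M.Face → E3) (T : Set M.Face) (N : Set E3), Good M p h → M.Cell p h T N →
    ∀ u : V → ℝ, (∀ d : M.G.Dart, ¬ (M.fc d ∈ T ∧ M.fc d.symm ∈ T) → u d.fst = u d.snd) →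
      ∀ a b : M.G.Dart, M.fc a ∉ T → M.fc b ∉ T → u a.fst = u b.fst

/-- FULLCX: the complex of a realization. -/
def ST_FULLCX : Prop :=
  ∀ (V : Type) [Fintype V] [DecidableEq V] (M : PlaneGraph V) (p : V → E3)
    (h : M.Face → E3), Good M p h →
    ∃ X : Cx V M.G.Dart M.Face, X.p = p ∧ X.fst = (fun d => d.fst) ∧
      X.snd = (fun d => d.snd) ∧ X.rev = (fun d => d.symm) ∧ X.left = M.fc ∧ X.hc = h

end Pool.Agent.Helper30.N9
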