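import Pool.Agent.Helper30.N9.Cx6
import Pool.Agent.Helper30.N9.Sheet2

/-! MP_9b91d1_co: third sheet (helper30): rows C1-C7, SPANBD on the level of complexes, hub
complex. -/

open scoped RealInnerProductSpace Topology

namespace Pool.Agent.Helper30.N9

namespace Cx

variable {U D C : Type} [Fintype U] [DecidableEq U] [Fintype D] [DecidableEq D]
    [Fintype C] [DecidableEq C] (X : Cx U D C)

open Classical in
/-- boundary darts of a set of cells -/
noncomputable def bd (T : Set C) : Finset D :=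
  Finset.univ.filter (fun d => X.left d ∈ T ∧ X.left (X.rev d) ∉ T)

/-- The cells of T fill the closed convex pointed cone N. -/
structure Cell (T : Set C) (N : Set E3) : Prop where
  closed : IsClosed N
  cvx : ∀ x ∈ N, ∀ y ∈ N, ∀ s t : ℝ, 0 ≤ s → 0 ≤ t → s • x + t • y ∈ N
  reg : ∀ z, ‖z‖ = 1 → X.Offa z → ((∃ c ∈ T, X.w c z = 1) ↔ z ∈ N)
  pointed : ∃ s : E3, ∀ y ∈ N, y ≠ 0 → 0 < ⟪s, y⟫
  ne : T.Nonempty

end Cx

section rows

/-- XC1: the cell lies to the left of its boundary darts. -/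
def ST_XC1 : Prop :=
  ∀ (U D C : Type) [Fintype U] [DecidableEq U] [Fintype D] [DecidableEq D]
    [Fintype C] [DecidableEq C] (X : Cx U D C) (T : Set C) (N : Set E3), X.Cell T N →
    ∀ d ∈ X.bd T, ∀ y ∈ N, 0 ≤ det3 (X.qa d) (X.qb d) y

/-- XC2: the arcs of the cells of T lie in N. -/
def ST_XC2 : Prop :=
  ∀ (U D C : Type) [Fintype U] [DecidableEq U] [Fintype D] [DecidableEq D]
    [Fintype C] [DecidableEq C] (X : Cx U D C) (T : Set C) (N : Set E3), X.Cell T N →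
    ∀ d, X.left d ∈ T → arc (X.qa d) (X.qb d) ⊆ N

/-- XC3: at most one outgoing boundary dart at every vertex. -/
def ST_XC3 : Prop :=
  ∀ (U D C : Type) [Fintype U] [DecidableEq U] [Fintype D] [DecidableEq D]
    [Fintype C] [DecidableEq C] (X : Cx U D C) (T : Set C) (N : Set E3), X.Cell T N →
    ∀ d ∈ X.bd T, ∀ e ∈ X.bd T, X.fst d = X.fst e → d = e

/-- XC4: an inner point nu with positive products with all vertices of T. -/
def ST_XC4 : Prop :=
  ∀ (U D C : Type) [Fintype U] [DecidableEq U] [Fintype D] [DecidableEq D]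
    [Fintype C] [DecidableEq C] (X : Cx U D C) (T : Set C) (N : Set E3), X.Cell T N →
    (X.bd T).Nonempty ∧ ∃ ν : E3, ‖ν‖ = 1 ∧ X.Offa ν ∧ X.Offa (-ν) ∧ ν ∈ N ∧
      (∀ d ∈ X.bd T, 0 < det3 (X.qa d) (X.qb d) ν) ∧
      (∀ d, X.left d ∈ T → 0 < ⟪ν, X.qa d⟫)

/-- XSPANBD -/
def ST_XSPANBD : Prop :=
  ∀ (U D C : Type) [Fintype U] [DecidableEq U] [Fintype D] [DecidableEq D]
    [Fintype C] [DecidableEq C] (X : Cx U D C) (T : Set C) (N : Set E3), X.Cell T N →
    ∀ y : E3, (∀ d ∈ X.bd T, det3 (X.qa d) (X.qb d) y = 0) → y = 0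

/-- XC5: the boundary is one cycle. -/
def ST_XC5 : Prop :=
  ∀ (U D C : Type) [Fintype U] [DecidableEq U] [Fintype D] [DecidableEq D]
    [Fintype C] [DecidableEq C] (X : Cx U D C) (T : Set C) (N : Set E3), X.Cell T N →
    ∃ u : ℕ → D, (∀ i, u i ∈ X.bd T) ∧ (∀ i, X.fst (u (i + 1)) = X.snd (u i)) ∧
      (∀ i, u (i + (X.bd T).card) = u i) ∧
      ∀ d ∈ X.bd T, ∃ i < (X.bd T).card, u i = d

/-- XC6: perimeter. -/
def ST_XC6 : Prop :=
  ∀ (U D C : Type) [Fintype U] [DecidableEq U] [Fintype D] [DecidableEq D]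
    [Fintype C] [DecidableEq C] (X : Cx U D C) (T : Set C) (N : Set E3), X.Cell T N →
    ∑ d ∈ X.bd T, ang (X.qa d) (X.qb d) < 2 * Real.pi

/-- XC7: the boundary of a cell in a map that contracts its edges lies in an open hemisphere. -/
def ST_XC7 : Prop :=
  ∀ (U D C : Type) [Fintype U] [DecidableEq U] [Fintype D] [DecidableEq D]
    [Fintype C] [DecidableEq C] (X : Cx U D C) (T : Set C) (N : Set E3), X.Cell T N →
    ∀ q : U → E3, (∀ u, ‖q u‖ = 1) →
    (∀ d ∈ X.bd T, ang (q (X.fst d)) (q (X.snd d)) ≤ ang (X.qa d) (X.qb d)) →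
    ∃ g : E3, Centre (X.bd T) (fun d => q (X.fst d)) (fun d => q (X.snd d)) g

/-- hypotheses of the hub construction: T is a set of faces lying to the left of all its boundary
darts, nu strictly. -/
structure HubHyp {V : Type} [Fintype V] [DecidableEq V] (M : PlaneGraph V) (p : V → E3)
    (T : Set M.Face) (ν : E3) : Prop where
  nu : ‖ν‖ = 1
  ne : (M.bd T).Nonempty
  strict : ∀ d ∈ M.bd T, 0 < det3 (p d.fst) (p d.snd) ν
  left : ∀ d ∈ M.bd T, ∀ e : M.G.Dart, M.fc e ∈ T → 0 ≤ det3 (p d.fst) (p d.snd) (p e.fst)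

/-- vertices of the faces in T -/
abbrev TV {V : Type} [Fintype V] [DecidableEq V] (M : PlaneGraph V) (T : Set M.Face) : Type :=
  {v : V // ∃ d : M.G.Dart, d.fst = v ∧ M.fc d ∈ T}

/-- darts of the faces in T and their reverses -/
abbrev TD {V : Type} [Fintype V] [DecidableEq V] (M : PlaneGraph V) (T : Set M.Face) : Type :=
  {d : M.G.Dart // M.fc d ∈ T ∨ M.fc d.symm ∈ T}

/-- boundary darts -/
abbrev BD {V : Type} [Fintype V] [DecidableEq V] (M : PlaneGraph V) (T : Set M.Face) : Type :=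
  {d : M.G.Dart // d ∈ M.bd T}

/-- faces in T -/
abbrev TC {V : Type} [Fintype V] [DecidableEq V] (M : PlaneGraph V) (T : Set M.Face) : Type :=
  {w : M.Face // w ∈ T}

noncomputable instance instTV {V : Type} [Fintype V] [DecidableEq V] (M : PlaneGraph V)
    (T : Set M.Face) : Fintype (TV M T) := Fintype.ofFinite _

noncomputable instance instTD {V : Type} [Fintype V] [DecidableEq V] (M : PlaneGraph V)
    (T : Set M.Face) : Fintype (TD M T) := Fintype.ofFinite _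

noncomputable instance instTC {V : Type} [Fintype V] [DecidableEq V] (M : PlaneGraph V)
    (T : Set M.Face) : Fintype (TC M T) := Fintype.ofFinite _

/-- vertices of the hub complex: `none` is the hub -/
abbrev HU {V : Type} [Fintype V] [DecidableEq V] (M : PlaneGraph V) (T : Set M.Face) : Type :=
  Option (TV M T)

/-- darts: the darts of T and their reverses; for e in bd T the darts hub -> snd e (first copy)
and fst e -> hub (second copy) -/
abbrev HD {V : Type} [Fintype V] [DecidableEq V] (M : PlaneGraph V) (T : Set M.Face) : Type :=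
  TD M T ⊕ (BD M T ⊕ BD M T)

/-- cells: the faces of T, and a hub triangle for every e in bd T -/
abbrev HC {V : Type} [Fintype V] [DecidableEq V] (M : PlaneGraph V) (T : Set M.Face) : Type :=
  TC M T ⊕ BD M T

/-- the hub complex and its data: `sc` is the successor on the boundary -/
structure HubX {V : Type} [Fintype V] [DecidableEq V] (M : PlaneGraph V) (p : V → E3)
    (h : M.Face → E3) (T : Set M.Face) (ν : E3)
    (X : Cx (HU M T) (HD M T) (HC M T)) (sc : Equiv.Perm (BD M T)) : Prop where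
  sc_fst : ∀ e, (sc e).1.fst = e.1.snd
  p_hub : X.p none = -ν
  p_some : ∀ v, X.p (some v) = p v.1
  fst_inl : ∀ d : TD M T, ∃ v, X.fst (Sum.inl d) = some v ∧ v.1 = d.1.fst
  snd_inl : ∀ d : TD M T, ∃ v, X.snd (Sum.inl d) = some v ∧ v.1 = d.1.snd
  rev_inl : ∀ d : TD M T, ∃ d' : TD M T, X.rev (Sum.inl d) = Sum.inl d' ∧ d'.1 = d.1.symm
  left_T : ∀ (d : TD M T) (hT : M.fc d.1 ∈ T), X.left (Sum.inl d) = Sum.inl ⟨M.fc d.1, hT⟩
  left_bd : ∀ (d : TD M T) (hT : d.1.symm ∈ M.bd T),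
    X.left (Sum.inl d) = Sum.inr ⟨d.1.symm, hT⟩
  a_fst : ∀ e, X.fst (Sum.inr (Sum.inl e)) = none
  a_snd : ∀ e, ∃ v, X.snd (Sum.inr (Sum.inl e)) = some v ∧ v.1 = e.1.snd
  b_fst : ∀ e, ∃ v, X.fst (Sum.inr (Sum.inr e)) = some v ∧ v.1 = e.1.fst
  b_snd : ∀ e, X.snd (Sum.inr (Sum.inr e)) = none
  left_a : ∀ e, X.left (Sum.inr (Sum.inl e)) = Sum.inr e
  left_b : ∀ e, X.left (Sum.inr (Sum.inr e)) = Sum.inr e
  rev_a : ∀ e, X.rev (Sum.inr (Sum.inl e)) = Sum.inr (Sum.inr (sc e))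
  rev_b : ∀ e, X.rev (Sum.inr (Sum.inr e)) = Sum.inr (Sum.inl (sc.symm e))
  hc : ∀ w, X.hc (Sum.inl w) = h w.1

/-- HUBCX: the hub complex exists. -/
def ST_HUBCX : Prop :=
  ∀ (V : Type) [Fintype V] [DecidableEq V] (M : PlaneGraph V) (p : V → E3)
    (h : M.Face → E3) (T : Set M.Face) (ν : E3), Good M p h → HubHyp M p T ν →
    ∃ (X : Cx (HU M T) (HD M T) (HC M T)) (sc : Equiv.Perm (BD M T)), HubX M p h T ν X sc

/-- HUBSTR: a stress of the faces of T extends to the hub complex. -/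
def ST_HUBSTR : Prop :=
  ∀ (V : Type) [Fintype V] [DecidableEq V] (M : PlaneGraph V) (p : V → E3)
    (h : M.Face → E3) (T : Set M.Face) (ν : E3), Good M p h → HubHyp M p T ν →
    ∀ (X : Cx (HU M T) (HD M T) (HC M T)) (sc : Equiv.Perm (BD M T)), HubX M p h T ν X sc →
    ∀ (x : M.Face → E3) (om : M.G.Dart → ℝ), (∀ d, 0 ≤ om d) → (∀ d, om d.symm = om d) →
    (∀ d : M.G.Dart, M.fc d ∈ T → M.fc d.symm ∈ T →
      x (M.fc d) - x (M.fc d.symm) = om d • crs (p d.fst) (p d.snd)) →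
    (∀ y : E3, (∀ d ∈ M.bd T, det3 (p d.fst) (p d.snd) y = 0) →
      (∀ d : M.G.Dart, M.fc d ∈ T → M.fc d.symm ∈ T → om d ≠ 0 →
        det3 (p d.fst) (p d.snd) y = 0) → y = 0) →
    ∃ (S : Str X) (s : BD M T → ℝ) (Tp : ℝ),
      (∀ w, S.x (Sum.inl w) = x w.1) ∧
      (∀ e, 0 < s e ∧
        S.x (Sum.inr e) = x (M.fc e.1) - s e • crs (p e.1.fst) (p e.1.snd)) ∧
      (∀ d : TD M T, M.fc d.1 ∈ T → M.fc d.1.symm ∈ T → S.om (Sum.inl d) = om d.1) ∧
      (∀ (d : TD M T) (hT : d.1 ∈ M.bd T), S.om (Sum.inl d) = s ⟨d.1, hT⟩) ∧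
      (∀ (d : TD M T) (hT : d.1.symm ∈ M.bd T), S.om (Sum.inl d) = s ⟨d.1.symm, hT⟩) ∧
      (∀ e, ⟪-ν, S.x (Sum.inr e)⟫ = Tp) ∧ (∀ w, ⟪-ν, S.x (Sum.inl w)⟫ < Tp)

end rows

end Pool.Agent.Helper30.N9
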