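import Pool.Agent.Helper30.N9.Cx7
import Pool.Agent.Helper30.N9.Sheet3

/-! MP_9b91d1_co: fourth sheet (helper30): statements of the big blocks. -/

open scoped RealInnerProductSpace Topology

namespace Pool.Agent.Helper30.N9

open Classical in
/-- the set T of faces is not flipped in q (h = centres of the faces of q) -/
def NotFl {V : Type} [Fintype V] [DecidableEq V] (M : PlaneGraph V) (q : V → E3)
    (h : M.Face → E3) (T : Set M.Face) : Prop :=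
  ∀ g, Centre (M.bd T) (M.ga q) (M.gb q) g →
    ∑ w ∈ Finset.univ.filter (fun w => w ∈ T), SA (M.fdarts w) (M.ga q) (M.gb q) (h w)
      = SA (M.bd T) (M.ga q) (M.gb q) g

/-- SP: the polytope contraction theorem for a stress of a complex. -/
def ST_SP : Prop :=
  ∀ (U D C : Type) [Fintype U] [DecidableEq U] [Fintype D] [DecidableEq D]
    [Fintype C] [DecidableEq C] (X : Cx U D C) (S : Str X) (q : U → E3),
    (∀ u, ‖q u‖ = 1) →
    (∀ d, S.om d ≠ 0 → ang (q (X.fst d)) (q (X.snd d)) ≤ ang (X.qa d) (X.qb d)) →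
    ∀ g : E3 → E3,
    (∀ k ∈ S.KF, Centre (X.bd {c | S.x c = k}) (fun d => q (X.fst d)) (fun d => q (X.snd d))
      (g k)) →
    ∑ k ∈ S.KF, SA (X.bd {c | S.x c = k}) (fun d => q (X.fst d)) (fun d => q (X.snd d)) (g k)
      = 4 * Real.pi →
    ∃ R : E3 ≃ₗᵢ[ℝ] E3, LinearMap.det (R.toLinearEquiv : E3 →ₗ[ℝ] E3) = 1 ∧
      (∀ u, S.Fac u → q u = R (X.p u)) ∧ ∀ d, S.om d ≠ 0 → q (X.fst d) = R (X.p (X.fst d))

/-- CELLK: the cells of one value of the stress form a convex cell. -/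
def ST_CELLK : Prop :=
  ∀ (U D C : Type) [Fintype U] [DecidableEq U] [Fintype D] [DecidableEq D]
    [Fintype C] [DecidableEq C] (X : Cx U D C) (S : Str X), ∀ k ∈ S.KF,
    X.Cell {c | S.x c = k} {y | k ∈ S.Mx y}

open Classical in
/-- HUB: the hub theorem. -/
def ST_HUB : Prop :=
  ∀ (V : Type) [Fintype V] [DecidableEq V] (M : PlaneGraph V) (p q : V → E3)
    (h hq : M.Face → E3) (T : Set M.Face) (ν m : E3) (om : M.G.Dart → ℝ),
    Good M p h → Good M q hq → M.Le q p → HubHyp M p T ν → ‖m‖ = 1 →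
    (∀ d, 0 ≤ om d) → (∀ d, om d.symm = om d) →
    (∀ d, ¬ (M.fc d ∈ T ∧ M.fc d.symm ∈ T) → om d = 0) →
    (∀ v, (∀ d : M.G.Dart, d.fst = v → M.fc d ∈ T) →
      ∑ d ∈ Finset.univ.filter (fun d : M.G.Dart => d.fst = v),
        om d • crs (p d.fst) (p d.snd) = 0) →
    (∀ u : V → ℝ, (∀ d : M.G.Dart, ¬ (M.fc d ∈ T ∧ M.fc d.symm ∈ T) → u d.fst = u d.snd) →
      ∀ a b : M.G.Dart, M.fc a ∉ T → M.fc b ∉ T → u a.fst = u b.fst) →
    (∀ d ∈ M.bd T, -⟪ν, p d.fst⟫ ≤ ⟪m, q d.fst⟫) →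
    (∀ y : E3, (∀ d ∈ M.bd T, det3 (p d.fst) (p d.snd) y = 0) →
      (∀ d : M.G.Dart, om d ≠ 0 → det3 (p d.fst) (p d.snd) y = 0) → y = 0) →
    (∀ᶠ z in 𝓝 (-m), ‖z‖ = 1 → M.OffAll q z →
      ∑ w ∈ Finset.univ.filter (fun w => w ∈ T), M.FW q hq w z = 1) →
    (∀ T' : Set M.Face, T' ⊆ T → T' ≠ T → (∃ N, M.Cell p h T' N) → NotFl M q hq T') →
    ((∃ d, om d ≠ 0) ∨ ¬ ∃ N, M.Cell p h T N) →
    ∃ R : E3 ≃ₗᵢ[ℝ] E3, LinearMap.det (R.toLinearEquiv : E3 →ₗ[ℝ] E3) = 1 ∧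
      R (-ν) = m ∧ (∀ d ∈ M.bd T, q d.fst = R (p d.fst)) ∧
      ∀ d, om d ≠ 0 → q d.fst = R (p d.fst)

/-- FIVEB: convex cells of a locally minimal realization are not flipped. -/
def ST_FIVEB : Prop :=
  ∀ (V : Type) [Fintype V] [DecidableEq V] (M : PlaneGraph V) (p q : V → E3)
    (h hq : M.Face → E3), Good M p h → Good M q hq → M.LocMin p → M.Le q p →
    ∀ T : Set M.Face, (∃ N, M.Cell p h T N) → NotFl M q hq T

/-- FIVEC: a full stress whose lift is 3-dimensional gives uniqueness. -/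
def ST_FIVEC : Prop :=
  ∀ (V : Type) [Fintype V] [DecidableEq V] (M : PlaneGraph V) (p q : V → E3)
    (h hq : M.Face → E3), Good M p h → Good M q hq → M.LocMin p → M.Le q p →
    ∀ (om : M.G.Dart → ℝ) (x : M.Face → E3), (∀ d, 0 ≤ om d) →
    (∀ d : M.G.Dart, x (M.fc d) - x (M.fc d.symm) = om d • crs (p d.fst) (p d.snd)) →
    (∀ y : E3, (∀ w w', ⟪x w - x w', y⟫ = 0) → y = 0) →
    ∃ R : E3 ≃ₗᵢ[ℝ] E3, LinearMap.det (R.toLinearEquiv : E3 →ₗ[ℝ] E3) = 1 ∧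
      ∀ v, q v = R (p v)

end Pool.Agent.Helper30.N9
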