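import Pool.Agent.Helper30.N9.Cx2

open scoped RealInnerProductSpace Topology

namespace Pool.Agent.Helper30.N9

theorem exists_perp2 (a b : E3) : ∃ v : E3, v ≠ 0 ∧ ⟪a, v⟫ = 0 ∧ ⟪b, v⟫ = 0 := by
  obtain ⟨f, hf⟩ : ∃ f : E3 →ₗ[ℝ] (ℝ × ℝ), f = (innerₛₗ ℝ a).prod (innerₛₗ ℝ b) := ⟨_, rfl⟩
  have hk : LinearMap.ker f ≠ ⊥ := by
    apply LinearMap.ker_ne_bot_of_finrank_lt
    rw [Module.finrank_prod, Module.finrank_self, finrank_euclideanSpace_fin]
    norm_num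
  obtain ⟨v, hv, hv0⟩ := Submodule.exists_mem_ne_zero_of_ne_bot hk
  refine ⟨v, hv0, ?_⟩
  rw [LinearMap.mem_ker, hf] at hv
  simpa using hv

theorem par_of_crs {a b y : E3} (h : crs a b ≠ 0) (h1 : ⟪a, y⟫ = 0) (h2 : ⟪b, y⟫ = 0) :
    y = (⟪crs a b, y⟫ / ⟪crs a b, crs a b⟫) • crs a b := by
  have hn : 0 < ⟪crs a b, crs a b⟫ := by
    rw [real_inner_self_eq_norm_sq]
    have := norm_pos_iff.mpr h
    positivity
  obtain ⟨s, hs⟩ : ∃ s, s = ⟪crs a b, y⟫ / ⟪crs a b, crs a b⟫ := ⟨_, rfl⟩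
  rw [← hs]
  have hs' : s * ⟪crs a b, crs a b⟫ = ⟪crs a b, y⟫ := by rw [hs]; field_simp
  have key : ‖y - s • crs a b‖ ^ 2 * ⟪crs a b, crs a b⟫ = 0 := by
    rw [← real_inner_self_eq_norm_sq]
    have e : ⟪y - s • crs a b, y - s • crs a b⟫ = ⟪y, y⟫ - s * ⟪crs a b, y⟫ := by
      simp only [inner_sub_left, inner_sub_right, real_inner_smul_left, real_inner_smul_right]
      rw [real_inner_comm (crs a b) y]
      linear_combination s * hs'
    rw [e]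
    have g : ⟪crs a b, y⟫ ^ 2 = ⟪y, y⟫ * ⟪crs a b, crs a b⟫
        + 2 * ⟪a, y⟫ * ⟪b, y⟫ * ⟪a, b⟫ - ⟪a, a⟫ * ⟪b, y⟫ ^ 2 - ⟪b, b⟫ * ⟪a, y⟫ ^ 2 := by
      simp only [inner_def]
      simp [crs]
      ring
    rw [h1, h2] at g
    linear_combination (-⟪crs a b, y⟫) * hs' - g
  have h3 : ‖y - s • crs a b‖ ^ 2 = 0 := by
    rcases mul_eq_zero.mp key with h | h
    · exact h
    · exact absurd h hn.ne'
  have h4 : y - s • crs a b = 0 := by
    rw [← norm_eq_zero]; exact pow_eq_zero_iff two_ne_zero |>.mp h3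
  exact sub_eq_zero.mp h4

theorem crs_zero_par {a b : E3} (ha : a ≠ 0) (h : crs a b = 0) :
    b = (⟪a, b⟫ / ⟪a, a⟫) • a := by
  have hn : 0 < ⟪a, a⟫ := by
    rw [real_inner_self_eq_norm_sq]
    have := norm_pos_iff.mpr ha
    positivity
  obtain ⟨s, hs⟩ : ∃ s, s = ⟪a, b⟫ / ⟪a, a⟫ := ⟨_, rfl⟩
  rw [← hs]
  have hs' : s * ⟪a, a⟫ = ⟪a, b⟫ := by rw [hs]; field_simp
  have hc := crs_inner_self a b
  rw [h, inner_zero_left] at hc
  have key : ‖b - s • a‖ ^ 2 * ⟪a, a⟫ = 0 := by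
    rw [← real_inner_self_eq_norm_sq]
    simp only [inner_sub_left, inner_sub_right, real_inner_smul_left, real_inner_smul_right]
    rw [real_inner_comm a b]
    linear_combination (s * ⟪a, a⟫ - ⟪a, b⟫) * hs' - hc
  have h3 : ‖b - s • a‖ ^ 2 = 0 := by
    rcases mul_eq_zero.mp key with h | h
    · exact h
    · exact absurd h hn.ne'
  have h4 : b - s • a = 0 := by
    rw [← norm_eq_zero]; exact pow_eq_zero_iff two_ne_zero |>.mp h3
  exact sub_eq_zero.mp h4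

namespace Str

variable {U D C : Type} [Fintype U] [DecidableEq U] [Fintype D] [DecidableEq D]
    [Fintype C] [DecidableEq C] {X : Cx U D C} (S : Str X)

open Cx

open Classical in
/-- the vertices of the polytope -/
noncomputable def KF : Finset E3 := Finset.univ.image S.x

open Classical in
/-- maximizers in direction y -/
noncomputable def Mx (y : E3) : Finset E3 := S.KF.filter (fun k => ∀ l ∈ S.KF, ⟪l, y⟫ ≤ ⟪k, y⟫)

variable {S}

theorem mem_KF {k : E3} : k ∈ S.KF ↔ ∃ c, S.x c = k := by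
  classical
  unfold KF
  simp

theorem x_mem (c : C) : S.x c ∈ S.KF := mem_KF.mpr ⟨c, rfl⟩

theorem mem_Mx {k y : E3} : k ∈ S.Mx y ↔ k ∈ S.KF ∧ ∀ l ∈ S.KF, ⟪l, y⟫ ≤ ⟪k, y⟫ := by
  classical
  unfold Mx
  rw [Finset.mem_filter]

theorem Mx_eq {k l y : E3} (hk : k ∈ S.Mx y) (hl : l ∈ S.Mx y) : ⟪k, y⟫ = ⟪l, y⟫ :=
  le_antisymm ((mem_Mx.mp hl).2 k (mem_Mx.mp hk).1) ((mem_Mx.mp hk).2 l (mem_Mx.mp hl).1)

theorem mem_Mx_of_eq {k l y : E3} (hk : k ∈ S.Mx y) (hl : l ∈ S.KF) (h : ⟪l, y⟫ = ⟪k, y⟫) :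
    l ∈ S.Mx y := by
  rw [mem_Mx]
  refine ⟨hl, fun m hm => ?_⟩
  rw [h]
  exact (mem_Mx.mp hk).2 m hm

theorem span' {k y : E3} (h : ∀ l ∈ S.KF, ⟪k - l, y⟫ = 0) : y = 0 := by
  apply S.span
  intro c c'
  have h1 := h _ (x_mem c)
  have h2 := h _ (x_mem c')
  rw [inner_sub_left] at h1 h2 ⊢
  linarith

theorem KF_nonempty : S.KF.Nonempty := by
  by_contra h
  rw [Finset.not_nonempty_iff_eq_empty] at h
  have hC : ∀ c : C, False := fun c => by
    have := x_mem (S := S) c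
    rw [h] at this
    simp at this
  obtain ⟨v, hv, _⟩ := exists_perp2 0 0
  exact hv (S.span v (fun c _ => (hC c).elim))

theorem Mx_nonempty (y : E3) : (S.Mx y).Nonempty := by
  obtain ⟨k, hk, h⟩ := Finset.exists_max_image S.KF (fun k => ⟪k, y⟫) KF_nonempty
  exact ⟨k, mem_Mx.mpr ⟨hk, h⟩⟩

theorem Mx_off {y : E3} (hy : y ≠ 0) (ho : X.Offa (nrm y)) {c : C}
    (hc : X.w c (nrm y) = 1) : S.Mx y = {S.x c} := by
  ext k
  rw [Finset.mem_singleton]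
  have hm : S.x c ∈ S.Mx y := by
    rw [mem_Mx]
    refine ⟨x_mem c, fun l hl => ?_⟩
    obtain ⟨c', rfl⟩ := mem_KF.mp hl
    exact (S.maxprop hy ho hc c').1
  constructor
  · intro hk
    obtain ⟨c', rfl⟩ := mem_KF.mp (mem_Mx.mp hk).1
    exact (S.maxprop hy ho hc c').2 (Mx_eq hk hm)
  · rintro rfl; exact hm

theorem exists_strict {k : E3} (hk : k ∈ S.KF) : ∃ y, y ≠ 0 ∧ S.Mx y = {k} := by
  obtain ⟨c, rfl⟩ := mem_KF.mp hk
  obtain ⟨y, h1, h2, h3⟩ := exists_region (X := X) c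
  exact ⟨y, h1, Mx_off h1 h2 h3⟩

theorem lt_of_strict {k l y : E3} (h : S.Mx y = {k}) (hl : l ∈ S.KF) (hlk : l ≠ k) :
    ⟪l, y⟫ < ⟪k, y⟫ := by
  have hk : k ∈ S.Mx y := by rw [h]; simp
  apply lt_of_le_of_ne ((mem_Mx.mp hk).2 l hl)
  intro he
  have := mem_Mx_of_eq hk hl he
  rw [h, Finset.mem_singleton] at this
  exact hlk this

theorem eventually_Mx (y : E3) : ∀ᶠ y' in 𝓝 y, S.Mx y' ⊆ S.Mx y := by
  have h1 : ∀ᶠ y' in 𝓝 y, ∀ k ∈ S.KF, k ∉ S.Mx y → k ∉ S.Mx y' := by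
    rw [Filter.eventually_all_finset]
    intro k hk
    by_cases hm : k ∈ S.Mx y
    · exact Filter.Eventually.of_forall fun _ h => absurd hm h
    · have : ∃ l ∈ S.KF, ⟪k, y⟫ < ⟪l, y⟫ := by
        by_contra hcon
        push Not at hcon
        exact hm (mem_Mx.mpr ⟨hk, hcon⟩)
      obtain ⟨l, hl, hlt⟩ := this
      have hc : ContinuousAt (fun y' : E3 => ⟪l, y'⟫ - ⟪k, y'⟫) y := by fun_prop
      have h2 : ∀ᶠ y' in 𝓝 y, 0 < ⟪l, y'⟫ - ⟪k, y'⟫ :=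
        hc.eventually (lt_mem_nhds (by linarith))
      filter_upwards [h2] with y' h2 _ hm'
      have := (mem_Mx.mp hm').2 l hl
      linarith
  filter_upwards [h1] with y' h1 k hk
  by_contra hcon
  exact h1 k (mem_Mx.mp hk).1 hcon hk

theorem Mx_smul {t : ℝ} (ht : 0 < t) (y : E3) : S.Mx (t • y) = S.Mx y := by
  ext k
  rw [mem_Mx, mem_Mx]
  simp only [real_inner_smul_right, mul_le_mul_iff_right₀ ht]

theorem Mx_nrm {y : E3} (hy : y ≠ 0) : S.Mx (nrm y) = S.Mx y := by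
  unfold nrm
  exact Mx_smul (inv_pos.mpr (norm_pos_iff.mpr hy)) y

/-- closure of the left side -/
theorem left_max (d : D) {x : E3} (hx : x ∈ arc (X.qa d) (X.qb d)) (hx1 : x ≠ X.qa d)
    (hx2 : x ≠ X.qb d) : ∀ᶠ y in 𝓝 x, 0 ≤ det3 (X.qa d) (X.qb d) y →
      S.x (X.left d) ∈ S.Mx y := by
  obtain ⟨δ, hδ, hb⟩ := Metric.mem_nhds_iff.mp (edge_left d hx hx1 hx2)
  have h0 : ∀ᶠ y in 𝓝 x, y ≠ 0 := isOpen_ne.mem_nhds (ne_zero_of_unit hx.1)
  obtain ⟨δ2, hδ2, hb2⟩ := Metric.mem_nhds_iff.mp h0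
  have hcp : 0 < ⟪crs (X.qa d) (X.qb d), crs (X.qa d) (X.qb d)⟫ :=
    crs_pos (X.unit (X.fst d)) (X.unit (X.snd d)) (qne d) (X.nn d)
  filter_upwards [Metric.ball_mem_nhds x hδ, Metric.ball_mem_nhds x hδ2] with y hy hy2 hd
  rw [mem_Mx]
  refine ⟨x_mem _, fun l hl => ?_⟩
  have hcont : Continuous (fun t : ℝ => y + t • crs (X.qa d) (X.qb d)) := by fun_prop
  have ht := hcont.tendsto 0
  simp only [zero_smul, add_zero] at ht
  have ht' := ht.mono_left (nhdsWithin_le_nhds (s := Set.Ioi 0))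
  have hev : ∀ᶠ t : ℝ in 𝓝[>] 0, ⟪l, y + t • crs (X.qa d) (X.qb d)⟫
      ≤ ⟪S.x (X.left d), y + t • crs (X.qa d) (X.qb d)⟫ := by
    filter_upwards [ht'.eventually (Metric.isOpen_ball.mem_nhds hy),
      ht'.eventually (Metric.isOpen_ball.mem_nhds hy2), self_mem_nhdsWithin] with t h1 h2 h3
    have h3' : 0 < t := h3
    have hdet : 0 < det3 (X.qa d) (X.qb d) (y + t • crs (X.qa d) (X.qb d)) := by
      rw [det3_add_right, det3_smul_right, det3_crs]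
      have := mul_pos h3' hcp
      linarith
    have h4 := hb h1 hdet
    have h5 := Mx_off (S := S) (hb2 h2) h4.1 h4.2
    have h6 : S.x (X.left d) ∈ S.Mx (y + t • crs (X.qa d) (X.qb d)) := by rw [h5]; simp
    exact (mem_Mx.mp h6).2 l hl
  have hl1 : Filter.Tendsto (fun t : ℝ => ⟪l, y + t • crs (X.qa d) (X.qb d)⟫) (𝓝[>] 0)
      (𝓝 ⟪l, y⟫) := by
    have hc : Continuous (fun z : E3 => ⟪l, z⟫) := by fun_prop
    exact (hc.tendsto y).comp ht'
  have hl2 : Filter.Tendsto (fun t : ℝ => ⟪S.x (X.left d), y + t • crs (X.qa d) (X.qb d)⟫)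
      (𝓝[>] 0) (𝓝 ⟪S.x (X.left d), y⟫) := by
    have hc : Continuous (fun z : E3 => ⟪S.x (X.left d), z⟫) := by fun_prop
    exact (hc.tendsto y).comp ht'
  exact le_of_tendsto_of_tendsto hl1 hl2 hev

theorem right_max (d : D) {x : E3} (hx : x ∈ arc (X.qa d) (X.qb d)) (hx1 : x ≠ X.qa d)
    (hx2 : x ≠ X.qb d) : ∀ᶠ y in 𝓝 x, det3 (X.qa d) (X.qb d) y ≤ 0 →
      S.x (X.left (X.rev d)) ∈ S.Mx y := by
  have h := left_max (S := S) (X.rev d) (x := x) (by rw [qa_rev, qb_rev, arc_comm]; exact hx)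
    (by rw [qa_rev]; exact hx2) (by rw [qb_rev]; exact hx1)
  filter_upwards [h] with y hy hd
  apply hy
  rw [det_rev]
  linarith

/-- maximizers at an interior point of an arc -/
theorem Mx_edge (d : D) {x : E3} (hx : x ∈ arc (X.qa d) (X.qb d)) (hx1 : x ≠ X.qa d)
    (hx2 : x ≠ X.qb d) : S.x (X.left d) ∈ S.Mx x ∧ S.x (X.left (X.rev d)) ∈ S.Mx x ∧
      ∀ m ∈ S.Mx x, m = S.x (X.left d) ∨ m = S.x (X.left (X.rev d)) := by
  obtain ⟨δ1, hδ1, hb1⟩ := Metric.mem_nhds_iff.mp (left_max (S := S) d hx hx1 hx2)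
  obtain ⟨δ2, hδ2, hb2⟩ := Metric.mem_nhds_iff.mp (right_max (S := S) d hx hx1 hx2)
  obtain ⟨n, hn⟩ : ∃ n, n = crs (X.qa d) (X.qb d) := ⟨_, rfl⟩
  have hcp : 0 < ⟪n, n⟫ := by
    rw [hn]
    exact crs_pos (X.unit (X.fst d)) (X.unit (X.snd d)) (qne d) (X.nn d)
  have hdn : ∀ y, det3 (X.qa d) (X.qb d) y = ⟪n, y⟫ := fun y => by rw [hn, crs_inner]
  have hdx : ⟪n, x⟫ = 0 := by
    rw [← hdn]
    by_contra hcon
    have := not_mem_arc_of_det hcon
    rw [nrm_unit hx.1] at this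
    exact this hx
  have hk := hb1 (Metric.mem_ball_self hδ1) (by rw [hdn, hdx])
  have hl := hb2 (Metric.mem_ball_self hδ2) (by rw [hdn, hdx])
  refine ⟨hk, hl, ?_⟩
  intro m hm
  by_contra hcon
  push Not at hcon
  obtain ⟨hmk, hml⟩ := hcon
  obtain ⟨k, hkd⟩ : ∃ k, k = S.x (X.left d) := ⟨_, rfl⟩
  obtain ⟨l, hld⟩ : ∃ l, l = S.x (X.left (X.rev d)) := ⟨_, rfl⟩
  have hrel : k - l = S.om d • n := by rw [hkd, hld, hn]; exact S.rel d
  rw [← hkd] at hk hmk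
  rw [← hld] at hl hml
  have hmKF := (mem_Mx.mp hm).1
  have hgx : ⟪m - k, x⟫ = 0 := by rw [inner_sub_left, Mx_eq hm hk, sub_self]
  have hgx' : ⟪m - l, x⟫ = 0 := by rw [inner_sub_left, Mx_eq hm hl, sub_self]
  have hL : ∀ y ∈ Metric.ball x δ1, 0 ≤ ⟪n, y⟫ → ⟪m - k, y⟫ ≤ 0 := by
    intro y hy hd
    have := hb1 hy (by rw [hdn]; exact hd)
    rw [← hkd] at this
    rw [inner_sub_left]
    linarith [(mem_Mx.mp this).2 m hmKF]
  have hR : ∀ y ∈ Metric.ball x δ2, ⟪n, y⟫ ≤ 0 → ⟪m - l, y⟫ ≤ 0 := by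
    intro y hy hd
    have := hb2 hy (by rw [hdn]; exact hd)
    rw [← hld] at this
    rw [inner_sub_left]
    linarith [(mem_Mx.mp this).2 m hmKF]
  -- directions orthogonal to n
  have hperp : ∀ e : E3, ⟪n, e⟫ = 0 → ⟪m - k, e⟫ ≤ 0 := by
    intro e he
    obtain ⟨τ, hτ, hmem⟩ := PlaneGraph.exists_left (n := e) (Metric.ball_mem_nhds x hδ1)
    have h1 := hL _ hmem (by
      rw [inner_add_right, real_inner_smul_right, he, hdx]; norm_num)
    rw [inner_add_right, real_inner_smul_right, hgx, zero_add] at h1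
    by_contra hcon
    push Not at hcon
    have := mul_pos hτ hcon
    linarith
  have hperp0 : ∀ e : E3, ⟪n, e⟫ = 0 → ⟪m - k, e⟫ = 0 := by
    intro e he
    apply le_antisymm (hperp e he)
    have := hperp (-e) (by rw [inner_neg_right, he, neg_zero])
    rw [inner_neg_right] at this
    linarith
  obtain ⟨σ, hσ⟩ : ∃ σ, σ = ⟪m - k, n⟫ / ⟪n, n⟫ := ⟨_, rfl⟩
  have hσ' : σ * ⟪n, n⟫ = ⟪m - k, n⟫ := by rw [hσ]; field_simp
  have hgσ : m - k = σ • n := by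
    have h1 : ⟪n, (m - k) - σ • n⟫ = 0 := by
      rw [inner_sub_right, real_inner_smul_right, real_inner_comm, ← hσ']
      ring
    have h2 := hperp0 _ h1
    have h3 : ⟪(m - k) - σ • n, (m - k) - σ • n⟫ = 0 := by
      rw [inner_sub_left (m - k), h2, real_inner_smul_left, h1]; ring
    rw [inner_self_eq_zero] at h3
    exact sub_eq_zero.mp h3
  have hσ0 : σ ≤ 0 := by
    obtain ⟨τ, hτ, hmem⟩ := PlaneGraph.exists_left (n := n) (Metric.ball_mem_nhds x hδ1)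
    have h1 := hL _ hmem (by
      rw [inner_add_right, real_inner_smul_right, hdx]
      have := mul_pos hτ hcp
      linarith)
    rw [inner_add_right, real_inner_smul_right, hgx, zero_add, hgσ, real_inner_smul_left] at h1
    by_contra hcon
    push Not at hcon
    have := mul_pos hτ (mul_pos hcon hcp)
    linarith
  have hgl : m - l = (σ + S.om d) • n := by
    rw [add_smul, ← hgσ, ← hrel]; abel
  have hσ1 : 0 ≤ σ + S.om d := by
    obtain ⟨τ, hτ, hmem⟩ := PlaneGraph.exists_left (n := -n) (Metric.ball_mem_nhds x hδ2)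
    have h1 := hR _ hmem (by
      rw [inner_add_right, real_inner_smul_right, inner_neg_right, hdx]
      have := mul_pos hτ hcp
      linarith)
    rw [inner_add_right, real_inner_smul_right, hgx', zero_add, hgl, real_inner_smul_left,
      inner_neg_right] at h1
    by_contra hcon
    push Not at hcon
    have := mul_pos hτ (mul_pos_of_neg_of_neg hcon (by linarith : -⟪n, n⟫ < 0))
    linarith
  obtain ⟨y1, _, hy1⟩ := exists_strict hmKF
  have h1 := lt_of_strict hy1 (mem_Mx.mp hk).1 (Ne.symm hmk)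
  have h2 := lt_of_strict hy1 (mem_Mx.mp hl).1 (Ne.symm hml)
  have h3 : 0 < σ * ⟪n, y1⟫ := by
    rw [← real_inner_smul_left, ← hgσ, inner_sub_left]; linarith
  have h4 : 0 < (σ + S.om d) * ⟪n, y1⟫ := by
    rw [← real_inner_smul_left, ← hgl, inner_sub_left]; linarith
  rcases pos_and_pos_or_neg_and_neg_of_mul_pos h3 with h5 | h5
  · linarith [h5.1]
  · have := mul_nonpos_of_nonneg_of_nonpos hσ1 h5.2.le
    linarith

/-- position of a direction relative to the drawing -/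
theorem position {y : E3} (hy : y ≠ 0) : (∃ c, X.Offa (nrm y) ∧ X.w c (nrm y) = 1) ∨
    (∃ u, nrm y = X.p u) ∨
    (∃ d, nrm y ∈ arc (X.qa d) (X.qb d) ∧ nrm y ≠ X.qa d ∧ nrm y ≠ X.qb d) := by
  by_cases ho : X.Offa (nrm y)
  · left
    obtain ⟨c, hc⟩ := exists_cell (norm_nrm hy) ho
    exact ⟨c, ho, hc⟩
  · right
    unfold Offa at ho
    push Not at ho
    obtain ⟨d, hd⟩ := ho
    by_cases h1 : nrm y = X.qa d
    · left; exact ⟨_, h1⟩
    by_cases h2 : nrm y = X.qb d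
    · left; exact ⟨_, h2⟩
    right; exact ⟨d, hd, h1, h2⟩

theorem vertex_of_three {y : E3} (hy : y ≠ 0) (h3 : 3 ≤ (S.Mx y).card) :
    ∃ u, nrm y = X.p u := by
  rcases position (X := X) hy with ⟨c, h1, h2⟩ | h | ⟨d, h1, h2, h4⟩
  · rw [Mx_off hy h1 h2] at h3
    simp at h3
  · exact h
  · exfalso
    obtain ⟨_, _, h5⟩ := Mx_edge (S := S) d h1 h2 h4
    rw [Mx_nrm hy] at h5
    classical
    have h6 : S.Mx y ⊆ {S.x (X.left d), S.x (X.left (X.rev d))} := by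
      intro m hm
      rw [Finset.mem_insert, Finset.mem_singleton]
      exact h5 m hm
    have := (Finset.card_le_card h6).trans Finset.card_le_two
    omega

/-- no three vertices are collinear -/
theorem noncol {k1 k2 k3 : E3} (h1 : k1 ∈ S.KF) (h2 : k2 ∈ S.KF) (h3 : k3 ∈ S.KF)
    (h12 : k1 ≠ k2) (h13 : k1 ≠ k3) (h23 : k2 ≠ k3) : crs (k2 - k1) (k3 - k1) ≠ 0 := by
  intro h0
  have ha : k2 - k1 ≠ 0 := sub_ne_zero.mpr h12.symm
  have hp := crs_zero_par ha h0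
  obtain ⟨t, ht⟩ : ∃ t, t = ⟪k2 - k1, k3 - k1⟫ / ⟪k2 - k1, k2 - k1⟫ := ⟨_, rfl⟩
  rw [← ht] at hp
  have hin : ∀ y, ⟪k3, y⟫ - ⟪k1, y⟫ = t * (⟪k2, y⟫ - ⟪k1, y⟫) := by
    intro y
    rw [← inner_sub_left, ← inner_sub_left, hp, real_inner_smul_left]
  obtain ⟨y1, _, hy1⟩ := exists_strict h1
  obtain ⟨y2, _, hy2⟩ := exists_strict h2
  obtain ⟨y3, _, hy3⟩ := exists_strict h3
  have a12 := lt_of_strict hy1 h2 h12.symm
  have a13 := lt_of_strict hy1 h3 h13.symm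
  have a21 := lt_of_strict hy2 h1 h12
  have a23 := lt_of_strict hy2 h3 h23.symm
  have a31 := lt_of_strict hy3 h1 h13
  have a32 := lt_of_strict hy3 h2 h23
  have e1 := hin y1
  have e2 := hin y2
  have e3 := hin y3
  have t0 : 0 < t := by
    by_contra hcon
    push Not at hcon
    nlinarith
  have t1 : t < 1 := by
    by_contra hcon
    push Not at hcon
    nlinarith
  -- k3 is between
  nlinarith

theorem par_of_three {k1 k2 k3 y y' : E3} (h1 : k1 ∈ S.KF) (h2 : k2 ∈ S.KF) (h3 : k3 ∈ S.KF)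
    (h12 : k1 ≠ k2) (h13 : k1 ≠ k3) (h23 : k2 ≠ k3) (hy : y ≠ 0)
    (a1 : ⟪k2, y⟫ = ⟪k1, y⟫) (a2 : ⟪k3, y⟫ = ⟪k1, y⟫)
    (b1 : ⟪k2, y'⟫ = ⟪k1, y'⟫) (b2 : ⟪k3, y'⟫ = ⟪k1, y'⟫) : ∃ t : ℝ, y' = t • y := by
  have hn := noncol h1 h2 h3 h12 h13 h23
  have p1 := par_of_crs hn (y := y) (by rw [inner_sub_left, a1, sub_self])
    (by rw [inner_sub_left, a2, sub_self])
  have p2 := par_of_crs hn (y := y') (by rw [inner_sub_left, b1, sub_self])
    (by rw [inner_sub_left, b2, sub_self])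
  obtain ⟨s, hs⟩ : ∃ s, s = ⟪crs (k2 - k1) (k3 - k1), y⟫
    / ⟪crs (k2 - k1) (k3 - k1), crs (k2 - k1) (k3 - k1)⟫ := ⟨_, rfl⟩
  rw [← hs] at p1
  have hs0 : s ≠ 0 := by
    rintro rfl
    rw [zero_smul] at p1
    exact hy p1
  refine ⟨⟪crs (k2 - k1) (k3 - k1), y'⟫
    / ⟪crs (k2 - k1) (k3 - k1), crs (k2 - k1) (k3 - k1)⟫ * s⁻¹, ?_⟩
  rw [mul_smul]
  conv_rhs => rw [p1]
  rw [smul_smul s⁻¹, inv_mul_cancel₀ hs0, one_smul]
  exact p2

end Str

end Pool.Agent.Helper30.N9
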