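import Pool.Agent.Helper30.N9.Cx4

open scoped RealInnerProductSpace Topology

namespace Pool.Agent.Helper30.N9

theorem crs_smul_left (t : ℝ) (a b : E3) : crs (t • a) b = t • crs a b := by
  ext i; fin_cases i <;> simp [crs] <;> ring

theorem crs_smul_right (t : ℝ) (a b : E3) : crs a (t • b) = t • crs a b := by
  ext i; fin_cases i <;> simp [crs] <;> ring

theorem crs_add_left (a b c : E3) : crs (a + b) c = crs a c + crs b c := by
  ext i; fin_cases i <;> simp [crs] <;> ring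

theorem crs_add_right (a b c : E3) : crs a (b + c) = crs a b + crs a c := by
  ext i; fin_cases i <;> simp [crs] <;> ring

theorem crs_self (a : E3) : crs a a = 0 := by
  ext i; fin_cases i <;> simp [crs] <;> ring

theorem crs_swap (a b : E3) : crs b a = - crs a b := by
  ext i; fin_cases i <;> simp [crs] <;> ring

theorem crs_ne_zero {u v : E3} (hu : ‖u‖ = 1) (hv : ‖v‖ = 1) (huv : u ≠ v) (huv' : u ≠ -v) :
    crs u v ≠ 0 := by
  intro h
  have := crs_pos hu hv huv huv'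
  rw [h, inner_zero_left] at this
  exact lt_irrefl _ this

namespace Str

variable {U D C : Type} [Fintype U] [DecidableEq U] [Fintype D] [DecidableEq D]
    [Fintype C] [DecidableEq C] {X : Cx U D C} {S : Str X}

open Cx

theorem Mx_comb {k y1 y2 : E3} (h1 : k ∈ S.Mx y1) (h2 : k ∈ S.Mx y2) {s t : ℝ} (hs : 0 ≤ s)
    (ht : 0 ≤ t) : k ∈ S.Mx (s • y1 + t • y2) := by
  rw [mem_Mx]
  refine ⟨(mem_Mx.mp h1).1, fun l hl => ?_⟩
  rw [inner_add_right, inner_add_right, real_inner_smul_right, real_inner_smul_right,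
    real_inner_smul_right, real_inner_smul_right]
  have a1 := mul_le_mul_of_nonneg_left ((mem_Mx.mp h1).2 l hl) hs
  have a2 := mul_le_mul_of_nonneg_left ((mem_Mx.mp h2).2 l hl) ht
  linarith

/-- a common maximizer of a and b: the maximizers of a positive combination are the common
ones. -/
theorem Mx_comb_sub {k m a b : E3} (ha : k ∈ S.Mx a) (hb : k ∈ S.Mx b) {s t : ℝ} (hs : 0 < s)
    (ht : 0 < t) (hm : m ∈ S.Mx (s • a + t • b)) : m ∈ S.Mx a ∧ m ∈ S.Mx b := by
  have hk := Mx_comb ha hb hs.le ht.le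
  have e := Mx_eq hm hk
  rw [inner_add_right, inner_add_right, real_inner_smul_right, real_inner_smul_right,
    real_inner_smul_right, real_inner_smul_right] at e
  have hmK := (mem_Mx.mp hm).1
  have a1 := (mem_Mx.mp ha).2 m hmK
  have a2 := (mem_Mx.mp hb).2 m hmK
  have b1 : s * ⟪m, a⟫ ≤ s * ⟪k, a⟫ := mul_le_mul_of_nonneg_left a1 hs.le
  have b2 : t * ⟪m, b⟫ ≤ t * ⟪k, b⟫ := mul_le_mul_of_nonneg_left a2 ht.le
  constructor
  · exact mem_Mx_of_eq ha hmK (mul_left_cancel₀ hs.ne' (by linarith))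
  · exact mem_Mx_of_eq hb hmK (mul_left_cancel₀ ht.ne' (by linarith))

theorem ht_add_neg {y : E3} (hy : y ≠ 0) : 0 < S.ht y + S.ht (-y) := by
  by_contra hcon
  push Not at hcon
  apply hy
  apply S.span
  intro c c'
  have h1 := le_ht (S := S) (y := y) (x_mem c)
  have h2 := le_ht (S := S) (y := y) (x_mem c')
  have h3 := le_ht (S := S) (y := -y) (x_mem c)
  have h4 := le_ht (S := S) (y := -y) (x_mem c')
  rw [inner_neg_right] at h3 h4
  rw [inner_sub_left]
  linarith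

theorem not_both {k y : E3} (hy : y ≠ 0) (h1 : k ∈ S.Mx y) (h2 : k ∈ S.Mx (-y)) : False := by
  have := ht_add_neg (S := S) hy
  rw [ht_eq h1, ht_eq h2, inner_neg_right] at this
  linarith

/-- facet vertices are extreme -/
theorem Fac.extreme {u : U} (hu : S.Fac u) {a b : E3} {s t : ℝ} (hs : 0 < s) (ht : 0 < t)
    (h : X.p u = s • a + t • b) {k : E3} (ha : k ∈ S.Mx a) (hb : k ∈ S.Mx b) :
    (∃ r : ℝ, a = r • X.p u) ∧ (∃ r : ℝ, b = r • X.p u) := by
  have hsub : ∀ m ∈ S.Mx (X.p u), m ∈ S.Mx a ∧ m ∈ S.Mx b := by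
    intro m hm
    rw [h] at hm
    exact Mx_comb_sub ha hb hs ht hm
  constructor
  · exact hu.par fun k hk l hl => Mx_eq (hsub k hk).1 (hsub l hl).1
  · exact hu.par fun k hk l hl => Mx_eq (hsub k hk).2 (hsub l hl).2

/-- darts between the cells of k and l -/
noncomputable def DK (S : Str X) (k l : E3) : Finset D := by
  classical exact Finset.univ.filter (fun d => S.x (X.left d) = k ∧ S.x (X.left (X.rev d)) = l)

theorem mem_DK {k l : E3} {d : D} : d ∈ S.DK k l ↔
    S.x (X.left d) = k ∧ S.x (X.left (X.rev d)) = l := by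
  classical
  unfold DK
  simp

theorem rev_DK {k l : E3} {d : D} (h : d ∈ S.DK k l) : X.rev d ∈ S.DK l k := by
  rw [mem_DK] at h ⊢
  rw [X.rev_rev]
  exact ⟨h.2, h.1⟩

theorem om_pos {k l : E3} (hkl : k ≠ l) {d : D} (h : d ∈ S.DK k l) : 0 < S.om d ∧
    k - l = S.om d • crs (X.qa d) (X.qb d) := by
  rw [mem_DK] at h
  have hr := S.rel d
  rw [h.1, h.2] at hr
  refine ⟨lt_of_le_of_ne (S.nonneg d) ?_, hr⟩
  intro h0
  rw [← h0, zero_smul] at hr
  exact hkl (sub_eq_zero.mp hr)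

theorem open_pt (d : D) {t : ℝ} (ht : 0 < t) :
    X.qa d + t • X.qb d ≠ 0 ∧ nrm (X.qa d + t • X.qb d) ∈ arc (X.qa d) (X.qb d) ∧
      nrm (X.qa d + t • X.qb d) ≠ X.qa d ∧ nrm (X.qa d + t • X.qb d) ≠ X.qb d :=
  pt_props (X.unit (X.fst d)) (X.unit (X.snd d)) (qne d) (X.nn d) ht

theorem left_qa (d : D) : S.x (X.left d) ∈ S.Mx (X.qa d) := by
  rw [mem_Mx]
  refine ⟨x_mem _, fun l hl => ?_⟩
  by_contra hcon
  push Not at hcon
  obtain ⟨A, hA⟩ : ∃ A, A = ⟪l, X.qa d⟫ - ⟪S.x (X.left d), X.qa d⟫ := ⟨_, rfl⟩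
  obtain ⟨B, hB⟩ : ∃ B, B = ⟪l, X.qb d⟫ - ⟪S.x (X.left d), X.qb d⟫ := ⟨_, rfl⟩
  have hA0 : 0 < A := by rw [hA]; linarith
  have key : ∀ t : ℝ, 0 < t → A + t * B ≤ 0 := by
    intro t ht
    obtain ⟨q0, q1, q2, q3⟩ := open_pt (X := X) d ht
    have h1 := (Mx_edge (S := S) d q1 q2 q3).1
    rw [Mx_nrm q0] at h1
    have h2 := (mem_Mx.mp h1).2 l hl
    rw [inner_add_right, inner_add_right, real_inner_smul_right, real_inner_smul_right] at h2
    rw [hA, hB]
    linarith
  have h3 := key (A / (2 * (|B| + 1))) (by positivity)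
  have h4 : A / (2 * (|B| + 1)) * B ≥ -(A / 2) := by
    have h5 : A / (2 * (|B| + 1)) * B ≥ - (A / (2 * (|B| + 1)) * |B|) := by
      have : 0 ≤ A / (2 * (|B| + 1)) := by positivity
      nlinarith [neg_abs_le B]
    have h6 : A / (2 * (|B| + 1)) * |B| ≤ A / 2 := by
      rw [div_mul_eq_mul_div, div_le_div_iff₀ (by positivity) (by norm_num)]
      nlinarith [abs_nonneg B]
    linarith
  linarith

theorem left_qb (d : D) : S.x (X.left d) ∈ S.Mx (X.qb d) := by
  rw [mem_Mx]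
  refine ⟨x_mem _, fun l hl => ?_⟩
  by_contra hcon
  push Not at hcon
  obtain ⟨A, hA⟩ : ∃ A, A = ⟪l, X.qb d⟫ - ⟪S.x (X.left d), X.qb d⟫ := ⟨_, rfl⟩
  obtain ⟨B, hB⟩ : ∃ B, B = ⟪l, X.qa d⟫ - ⟪S.x (X.left d), X.qa d⟫ := ⟨_, rfl⟩
  have hA0 : 0 < A := by rw [hA]; linarith
  have key : ∀ t : ℝ, 0 < t → B + t * A ≤ 0 := by
    intro t ht
    obtain ⟨q0, q1, q2, q3⟩ := open_pt (X := X) d ht
    have h1 := (Mx_edge (S := S) d q1 q2 q3).1
    rw [Mx_nrm q0] at h1
    have h2 := (mem_Mx.mp h1).2 l hl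
    rw [inner_add_right, inner_add_right, real_inner_smul_right, real_inner_smul_right] at h2
    rw [hA, hB]
    linarith
  have h3 := key ((|B| + 1) / A) (by positivity)
  rw [div_mul_cancel₀ _ hA0.ne'] at h3
  linarith [neg_abs_le B]

theorem DK_qa {k l : E3} {d : D} (h : d ∈ S.DK k l) : k ∈ S.Mx (X.qa d) ∧ l ∈ S.Mx (X.qa d) := by
  have h1 := left_qa (S := S) d
  have h2 := left_qb (S := S) (X.rev d)
  rw [qb_rev] at h2
  rw [mem_DK] at h
  rw [h.1] at h1
  rw [h.2] at h2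
  exact ⟨h1, h2⟩

theorem DK_qb {k l : E3} {d : D} (h : d ∈ S.DK k l) : k ∈ S.Mx (X.qb d) ∧ l ∈ S.Mx (X.qb d) := by
  have h1 := DK_qa (rev_DK h)
  rw [qa_rev] at h1
  exact ⟨h1.2, h1.1⟩

/-- data of the 2-face of the normal fan between k and l -/
structure Ends (S : Str X) (k l : E3) (i j : U) : Prop where
  ne : k ≠ l
  fi : S.Fac i
  fj : S.Fac j
  ki : k ∈ S.Mx (X.p i)
  li : l ∈ S.Mx (X.p i)
  kj : k ∈ S.Mx (X.p j)
  lj : l ∈ S.Mx (X.p j)
  ori : ∃ c : ℝ, 0 < c ∧ crs (X.p i) (X.p j) = c • (k - l)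
  only : ∀ u, S.Fac u → k ∈ S.Mx (X.p u) → l ∈ S.Mx (X.p u) → u = i ∨ u = j

theorem Ends.ij {k l : E3} {i j : U} (h : Ends S k l i j) : i ≠ j := by
  rintro rfl
  obtain ⟨c, hc, h1⟩ := h.ori
  rw [crs_self] at h1
  rcases smul_eq_zero.mp h1.symm with h2 | h2
  · exact hc.ne' h2
  · exact h.ne (sub_eq_zero.mp h2)

theorem Ends.swap {k l : E3} {i j : U} (h : Ends S k l i j) : Ends S l k j i where
  ne := h.ne.symm
  fi := h.fj
  fj := h.fi
  ki := h.lj
  li := h.kj
  kj := h.li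
  lj := h.ki
  ori := by
    obtain ⟨c, hc, h1⟩ := h.ori
    exact ⟨c, hc, by rw [crs_swap, h1, ← smul_neg, neg_sub]⟩
  only := fun u hu h1 h2 => (h.only u hu h2 h1).symm

theorem Ends.cone {k l : E3} {i j : U} (h : Ends S k l i j) {y : E3} (hk : k ∈ S.Mx y)
    (hl : l ∈ S.Mx y) : ∃ s t : ℝ, 0 ≤ s ∧ 0 ≤ t ∧ y = s • X.p i + t • X.p j := by
  obtain ⟨c, c1, c2, c3⟩ := cone_gen (S := S) y
  refine ⟨c i, c j, c1 i, c1 j, ?_⟩
  rw [c3]
  rw [← Finset.sum_subset (Finset.subset_univ ({i, j} : Finset U)) (f := fun u => c u • X.p u)]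
  · rw [Finset.sum_pair h.ij]
  · intro u _ hu
    by_cases h0 : c u = 0
    · rw [h0, zero_smul]
    · exfalso
      obtain ⟨hf, hs⟩ := c2 u h0
      apply hu
      rw [Finset.mem_insert, Finset.mem_singleton]
      exact h.only u hf (hs hk) (hs hl)

theorem Ends.of_cone {k l : E3} {i j : U} (h : Ends S k l i j) {s t : ℝ} (hs : 0 ≤ s)
    (ht : 0 ≤ t) : k ∈ S.Mx (s • X.p i + t • X.p j) ∧ l ∈ S.Mx (s • X.p i + t • X.p j) :=
  ⟨Mx_comb h.ki h.kj hs ht, Mx_comb h.li h.lj hs ht⟩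

theorem plane_par {k l a b : E3} (ha : ⟪k - l, a⟫ = 0) (hb : ⟪k - l, b⟫ = 0)
    (hc : crs a b ≠ 0) : ∃ r : ℝ, k - l = r • crs a b := by
  rw [real_inner_comm] at ha hb
  exact ⟨_, par_of_crs hc ha hb⟩

/-- existence of the two ends, from two independent directions -/
theorem exists_ends_aux {k l : E3} (hkl : k ≠ l) {i j : U} (fi : S.Fac i) (fj : S.Fac j)
    (ki : k ∈ S.Mx (X.p i)) (li : l ∈ S.Mx (X.p i)) (kj : k ∈ S.Mx (X.p j))
    (lj : l ∈ S.Mx (X.p j)) (hn : crs (X.p i) (X.p j) ≠ 0) :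
    Ends S k l i j ∨ Ends S k l j i := by
  have pk : ∀ u, k ∈ S.Mx (X.p u) → l ∈ S.Mx (X.p u) → ⟪k - l, X.p u⟫ = 0 := by
    intro u h1 h2
    rw [inner_sub_left, Mx_eq h1 h2, sub_self]
  obtain ⟨r, hr⟩ := plane_par (pk i ki li) (pk j kj lj) hn
  have hr0 : r ≠ 0 := by
    rintro rfl
    rw [zero_smul] at hr
    exact hkl (sub_eq_zero.mp hr)
  have only : ∀ u, S.Fac u → k ∈ S.Mx (X.p u) → l ∈ S.Mx (X.p u) → u = i ∨ u = j := by
    intro u fu ku lu
    by_contra hcon
    push Not at hcon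
    obtain ⟨hui, huj⟩ := hcon
    have hij : X.p i ≠ X.p j := by
      intro h
      rw [h, crs_self] at hn
      exact hn rfl
    have hij' : X.p i ≠ - X.p j := by
      intro h
      apply hn
      have : crs (X.p i) (X.p j) = crs (- X.p j) (X.p j) := by rw [h]
      rw [this, ← neg_one_smul ℝ, crs_smul_left, crs_self, smul_zero]
    have hdet : det3 (X.p i) (X.p j) (X.p u) = 0 := by
      rw [← crs_inner]
      have : crs (X.p i) (X.p j) = r⁻¹ • (k - l) := by
        rw [hr, smul_smul, inv_mul_cancel₀ hr0, one_smul]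
      rw [this, real_inner_smul_left, pk u ku lu, mul_zero]
    obtain ⟨α, β, hsp⟩ : ∃ α β : ℝ, X.p u = α • X.p i + β • X.p j :=
      ⟨_, _, span_det (X.unit i) (X.unit j) hij hij' hdet⟩
    have hne : ∀ {a b : U}, X.p a = X.p b → a = b := fun h => X.inj h
    have hneg : ∀ {a b : U}, k ∈ S.Mx (X.p a) → k ∈ S.Mx (X.p b) → X.p a ≠ - X.p b := by
      intro a b ha hb h
      rw [h] at ha
      exact not_both (ne_zero_of_unit (X.unit b)) hb ha
    have habs : ∀ {r : ℝ} {a b : U}, X.p a = r • X.p b → k ∈ S.Mx (X.p a) →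
        k ∈ S.Mx (X.p b) → a = b := by
      intro r a b h ha hb
      have h1 : |r| = 1 := by
        have := X.unit a
        rw [h, norm_smul, X.unit b, mul_one, Real.norm_eq_abs] at this
        exact this
      rcases (abs_eq zero_le_one).mp h1 with h2 | h2
      · apply hne; rw [h, h2, one_smul]
      · exfalso
        apply hneg ha hb
        rw [h, h2, neg_one_smul]
    rcases lt_trichotomy α 0 with hα | hα | hα
    · rcases lt_trichotomy β 0 with hβ | hβ | hβ
      · -- both negative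
        have hz : ∀ m ∈ S.KF, ⟪k - m, X.p i⟫ = 0 := by
          intro m hm
          have a1 := (mem_Mx.mp ki).2 m hm
          have a2 := (mem_Mx.mp kj).2 m hm
          have a3 := (mem_Mx.mp ku).2 m hm
          rw [hsp, inner_add_right, inner_add_right, real_inner_smul_right,
            real_inner_smul_right, real_inner_smul_right, real_inner_smul_right] at a3
          have b1 : 0 ≤ (-α) * (⟪k, X.p i⟫ - ⟪m, X.p i⟫) := mul_nonneg (by linarith) (by linarith)
          have b2 : 0 ≤ (-β) * (⟪k, X.p j⟫ - ⟪m, X.p j⟫) := mul_nonneg (by linarith) (by linarith)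
          have b3 : (-α) * (⟪k, X.p i⟫ - ⟪m, X.p i⟫) = 0 := by linarith
          rcases mul_eq_zero.mp b3 with h | h
          · linarith
          · rw [inner_sub_left]; exact h
        exact ne_zero_of_unit (X.unit i) (span' hz)
      · rw [hβ, zero_smul, add_zero] at hsp
        exact hui (habs hsp ku ki)
      · -- j = (u - alpha i)/beta
        have hj : X.p j = β⁻¹ • X.p u + (β⁻¹ * (-α)) • X.p i := by
          rw [hsp, smul_add, smul_smul, smul_smul, inv_mul_cancel₀ hβ.ne', one_smul,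
            add_comm (_ • X.p i), add_assoc, ← add_smul]
          have : β⁻¹ * α + β⁻¹ * -α = 0 := by ring
          rw [this, zero_smul, add_zero]
        have hb : 0 < β⁻¹ := inv_pos.mpr hβ
        obtain ⟨⟨r, hr⟩, _⟩ := fj.extreme hb (mul_pos hb (by linarith)) hj ku ki
        exact huj (habs hr ku kj)
    · rw [hα, zero_smul, zero_add] at hsp
      exact huj (habs hsp ku kj)
    · rcases lt_trichotomy β 0 with hβ | hβ | hβ
      · have hi : X.p i = α⁻¹ • X.p u + (α⁻¹ * (-β)) • X.p j := by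
          rw [hsp, smul_add, smul_smul, smul_smul, inv_mul_cancel₀ hα.ne', one_smul,
            add_assoc, ← add_smul]
          have : α⁻¹ * β + α⁻¹ * -β = 0 := by ring
          rw [this, zero_smul, add_zero]
        have hb : 0 < α⁻¹ := inv_pos.mpr hα
        obtain ⟨⟨r, hr⟩, _⟩ := fi.extreme hb (mul_pos hb (by linarith)) hi ku kj
        exact hui (habs hr ku ki)
      · rw [hβ, zero_smul, add_zero] at hsp
        exact hui (habs hsp ku ki)
      · obtain ⟨⟨r1, hr1⟩, _⟩ := fu.extreme hα hβ hsp ki kj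
        exact hui (habs hr1 ki ku).symm
  have hri : crs (X.p i) (X.p j) = r⁻¹ • (k - l) := by
    rw [hr, smul_smul, inv_mul_cancel₀ hr0, one_smul]
  rcases lt_or_gt_of_ne hr0 with h | h
  · right
    refine ⟨hkl, fj, fi, kj, lj, ki, li, ⟨-r⁻¹, ?_, ?_⟩, fun u hu h1 h2 => (only u hu h1 h2).symm⟩
    · have := inv_lt_zero.mpr h
      linarith
    · rw [crs_swap, hri, neg_smul]
  · left
    exact ⟨hkl, fi, fj, ki, li, kj, lj, ⟨r⁻¹, inv_pos.mpr h, hri⟩, only⟩

theorem exists_ends {k l : E3} (hkl : k ≠ l) {d : D} (h : d ∈ S.DK k l) :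
    ∃ i j, Ends S k l i j := by
  obtain ⟨ka, la⟩ := DK_qa h
  obtain ⟨kb, lb⟩ := DK_qb h
  obtain ⟨c, c1, c2, c3⟩ := cone_gen (S := S) (X.qa d)
  obtain ⟨e, e1, e2, e3⟩ := cone_gen (S := S) (X.qb d)
  have hn : crs (X.qa d) (X.qb d) ≠ 0 := crs_ne_zero (X.unit _) (X.unit _) (qne d) (X.nn d)
  -- there are i, j in the supports with crs ≠ 0
  have : ∃ i j, c i ≠ 0 ∧ e j ≠ 0 ∧ crs (X.p i) (X.p j) ≠ 0 := by
    by_contra hcon
    push Not at hcon
    apply hn
    have hl : ∀ (s : Finset U) (f : U → ℝ) (b : E3), crs (∑ u ∈ s, f u • X.p u) b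
        = ∑ u ∈ s, f u • crs (X.p u) b := by
      intro s f b
      classical
      induction s using Finset.induction_on with
      | empty =>
        rw [Finset.sum_empty, Finset.sum_empty]
        ext i; fin_cases i <;> simp [crs]
      | insert a s ha ih =>
        rw [Finset.sum_insert ha, Finset.sum_insert ha, crs_add_left, crs_smul_left, ih]
    rw [c3, hl]
    apply Finset.sum_eq_zero
    intro i _
    by_cases hi : c i = 0
    · rw [hi, zero_smul]
    · have : crs (X.p i) (X.qb d) = 0 := by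
        rw [crs_swap, e3, hl, neg_eq_zero]
        apply Finset.sum_eq_zero
        intro j _
        by_cases hj : e j = 0
        · rw [hj, zero_smul]
        · rw [crs_swap, hcon i j hi hj, neg_zero, smul_zero]
      rw [this, smul_zero]
  obtain ⟨i, j, hi, hj, hn'⟩ := this
  rcases exists_ends_aux hkl (c2 i hi).1 (e2 j hj).1 ((c2 i hi).2 ka) ((c2 i hi).2 la)
    ((e2 j hj).2 kb) ((e2 j hj).2 lb) hn' with h | h
  · exact ⟨i, j, h⟩
  · exact ⟨j, i, h⟩

end Str

end Pool.Agent.Helper30.N9
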