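import Pool.Agent.Helper30.N9.Sheet3
import Pool.Agent.Helper67.N9.FullCx

open scoped RealInnerProductSpace Topology

namespace Pool.Agent.Helper30.N9

open PlaneGraph

variable {V : Type} [Fintype V] [DecidableEq V] {M : PlaneGraph V} {p : V → E3}
  {h : M.Face → E3} {T : Set M.Face} {N : Set E3}

theorem full_cell (H : Good M p h) (hC : M.Cell p h T N) : (fullCx H).Cell T N where
  closed := hC.closed
  cvx := hC.cvx
  reg := fun z hz ho => hC.reg z hz ho
  pointed := hC.pointed
  ne := hC.ne

theorem st_C1 (hX : ST_XC1) : ST_C1 := by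
  intro V _ _ M p h T N H hC d hd y hy
  exact hX _ _ _ (fullCx H) T N (full_cell H hC) d hd y hy

theorem st_C2 (hX : ST_XC2) : ST_C2 := by
  intro V _ _ M p h T N H hC d hd
  exact hX _ _ _ (fullCx H) T N (full_cell H hC) d hd

theorem st_C3 (hX : ST_XC3) : ST_C3 := by
  intro V _ _ M p h T N H hC d hd e he hde
  exact hX _ _ _ (fullCx H) T N (full_cell H hC) d hd e he hde

theorem st_C4 (hX : ST_XC4) : ST_C4 := by
  intro V _ _ M p h T N H hC
  exact hX _ _ _ (fullCx H) T N (full_cell H hC)

theorem st_SPANBD (hX : ST_XSPANBD) : ST_SPANBD := by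
  intro V _ _ M p h T N H hC y hy
  exact hX _ _ _ (fullCx H) T N (full_cell H hC) y hy

theorem st_C7 (hX : ST_XC7) : ST_C7 := by
  intro V _ _ M p h T N H hC q hq hle
  exact hX _ _ _ (fullCx H) T N (full_cell H hC) q hq (fun d _ => hle d)

end Pool.Agent.Helper30.N9
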