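import Pool.Agent.Helper30.N9.Sheet4

open scoped RealInnerProductSpace Topology

namespace Pool.Agent.Helper30.N9

open Cx Str in
theorem st_CELLK : ST_CELLK := by
  intro U D C _ _ _ _ _ _ X S k hk
  refine ⟨?_, ?_, ?_, ?_, ?_⟩
  · have : {y | k ∈ S.Mx y} = ⋂ l ∈ S.KF, {y : E3 | ⟪l, y⟫ ≤ ⟪k, y⟫} := by
      ext y
      rw [Set.mem_iInter₂]
      change k ∈ S.Mx y ↔ ∀ l ∈ S.KF, ⟪l, y⟫ ≤ ⟪k, y⟫
      rw [mem_Mx]
      exact ⟨fun h => h.2, fun h => ⟨hk, h⟩⟩
    rw [this]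
    apply isClosed_biInter
    intro l _
    apply isClosed_le <;> fun_prop
  · intro x hx y hy s t hs ht
    exact Mx_comb hx hy hs ht
  · intro z hz ho
    have hz0 := ne_zero_of_unit hz
    have hn := nrm_unit hz
    obtain ⟨c0, hc0⟩ := exists_cell hz ho
    have hM : S.Mx z = {S.x c0} := Mx_off hz0 (by rwa [hn]) (by rwa [hn])
    change (∃ c ∈ {c | S.x c = k}, X.w c z = 1) ↔ k ∈ S.Mx z
    rw [hM, Finset.mem_singleton]
    constructor
    · rintro ⟨c, hc, hw⟩
      by_cases h : c = c0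
      · rw [← h]; exact hc.symm
      · have := w_unique hz ho hc0 c h
        rw [hw] at this
        norm_num at this
    · intro h
      exact ⟨c0, h.symm, hc0⟩
  · refine ⟨∑ l ∈ S.KF, (k - l), fun y hy hy0 => ?_⟩
    have hy' : k ∈ S.Mx y := hy
    rw [sum_inner]
    have hnn : ∀ l ∈ S.KF, 0 ≤ ⟪k - l, y⟫ := by
      intro l hl
      rw [inner_sub_left]
      have := (mem_Mx.mp hy').2 l hl
      linarith
    rcases (Finset.sum_nonneg hnn).lt_or_eq with h | h
    · exact h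
    · exfalso
      apply hy0
      have h1 := (Finset.sum_eq_zero_iff_of_nonneg hnn).mp h.symm
      exact span' h1
  · obtain ⟨c, hc⟩ := mem_KF.mp hk
    exact ⟨c, hc⟩

end Pool.Agent.Helper30.N9
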