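import Pool.Agent.Helper30.N9.Rot

open scoped RealInnerProductSpace Topology Quaternion

namespace Pool.Agent.Helper30.N9

namespace Str

variable {U D C : Type} [Fintype U] [DecidableEq U] [Fintype D] [DecidableEq D]
    [Fintype C] [DecidableEq C] {X : Cx U D C} {S : Str X}

open Cx

/-- facet normals -/
abbrev FI (S : Str X) : Type := {u : U // S.Fac u}
/-- vertices -/
abbrev VK (S : Str X) : Type := {k : E3 // k ∈ S.KF}

noncomputable instance instFI (S : Str X) : Fintype S.FI := Fintype.ofFinite _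

noncomputable def pP (S : Str X) : S.FI → N9.V3 := fun i => toV (X.p i.1)
noncomputable def pH (S : Str X) : S.FI → ℝ :=
  fun i => S.ht (X.p i.1) - ⟪S.bary, X.p i.1⟫
noncomputable def pX (S : Str X) : S.VK → N9.V3 := fun k => toV (k.1 - S.bary)

theorem mem_actAt' {I : Type} [Fintype I] {P : I → N9.V3} {h : I → ℝ}
    {y : N9.V3} {i : I} : i ∈ N9.actAt P h y ↔ N9.ip (P i) y = h i := by
  classical
  unfold N9.actAt
  simp

theorem mem_act {k : S.VK} {i : S.FI} : i ∈ N9.actAt S.pP S.pH (S.pX k) ↔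
    k.1 ∈ S.Mx (X.p i.1) := by
  rw [mem_actAt', mem_Mx_iff_ht k.2]
  unfold pP pH pX
  rw [ip_toV, real_inner_comm, inner_sub_left]
  constructor
  · intro h; linarith
  · intro h; linarith

theorem poly (S : Str X) : N9.Poly S.pP S.pH S.pX where
  unit := fun i => by
    unfold pP
    rw [nsq_toV, X.unit, one_pow]
  hpos := fun i => by
    unfold pH
    have := bary_lt (S := S) (ne_zero_of_unit (X.unit i.1))
    linarith
  bdd := by
    obtain ⟨c, hc, hb⟩ := bounded (S := S)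
    refine ⟨c, hc, fun y => ?_⟩
    obtain ⟨u, hu, h⟩ := hb (N9.toE y)
    refine ⟨⟨u, hu⟩, ?_⟩
    have e1 : N9.nsq y = ‖N9.toE y‖ ^ 2 := by rw [← nsq_toV]; rfl
    have e2 : N9.ip (S.pP ⟨u, hu⟩) y = ⟪X.p u, N9.toE y⟫ := by
      rw [← ip_toV]; rfl
    rw [e1, e2, Real.sqrt_sq (norm_nonneg _)]
    exact h
  facet := fun i => by
    obtain ⟨y, h1, h2⟩ := facet_pt i.2
    refine ⟨toV (y - S.bary), ?_, ?_⟩
    · unfold pP pH
      rw [ip_toV, inner_sub_right, h1, real_inner_comm]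
    · intro j hj
      unfold pP pH
      rw [ip_toV, inner_sub_right, real_inner_comm _ S.bary]
      have := h2 j.1 j.2 (fun h => hj (Subtype.ext h))
      linarith
  inj := fun k l h => by
    unfold pX at h
    have h1 : N9.toE (toV (k.1 - S.bary)) = N9.toE (toV (l.1 - S.bary)) := congrArg N9.toE h
    rw [toE_toV, toE_toV] at h1
    exact Subtype.ext (sub_left_injective h1)
  mem := fun k i => by
    unfold pP pH pX
    rw [ip_toV, inner_sub_right, real_inner_comm, real_inner_comm _ (X.p i.1)]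
    have := le_ht (S := S) (y := X.p i.1) k.2
    linarith
  span := fun k => by
    obtain ⟨i, j, l, hi, hj, hl, hd⟩ := act_span k.2
    refine ⟨⟨i, hi.1⟩, mem_act.mpr hi.2, ⟨j, hj.1⟩, mem_act.mpr hj.2, ⟨l, hl.1⟩,
      mem_act.mpr hl.2, ?_⟩
    unfold pP
    rw [dt_toV]
    exact hd
  all := fun y hy hs => by
    obtain ⟨i, hi, j, hj, l, hl, hd⟩ := hs
    rw [mem_actAt'] at hi hj hl
    have e : ∀ u (hu : S.Fac u), N9.ip (S.pP ⟨u, hu⟩) y = ⟪X.p u, N9.toE y⟫ := by
      intro u hu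
      rw [← ip_toV]; rfl
    have e' : ∀ u, ⟪X.p u, N9.toE y + S.bary⟫ = ⟪X.p u, N9.toE y⟫ + ⟪S.bary, X.p u⟫ := by
      intro u
      rw [inner_add_right, real_inner_comm (X.p u) S.bary]
    have key := all_vertices (S := S) (y := N9.toE y + S.bary) (fun u hu => by
        have := hy ⟨u, hu⟩
        rw [e] at this
        rw [e']
        unfold pH at this
        linarith) (i := i.1) (j := j.1) (l := l.1)
      ⟨i.2, by rw [e', ← e i.1 i.2, hi]; unfold pH; ring⟩
      ⟨j.2, by rw [e', ← e j.1 j.2, hj]; unfold pH; ring⟩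
      ⟨l.2, by rw [e', ← e l.1 l.2, hl]; unfold pH; ring⟩ hd
    refine ⟨⟨_, key⟩, ?_⟩
    unfold pX
    rw [add_sub_cancel_right, toV_toE]

theorem side_iff {k : S.VK} {i j : S.FI} :
    N9.Side S.pP (N9.actAt S.pP S.pH (S.pX k)) i j ↔ S.SideE k.1 i.1 j.1 := by
  unfold N9.Side SideE
  rw [mem_act, mem_act]
  constructor
  · rintro ⟨h1, h2, h3, h4⟩
    refine ⟨⟨i.2, h1⟩, ⟨j.2, h2⟩, fun h => h3 (Subtype.ext h), fun u fu ku hi hj => ?_⟩
    have := h4 ⟨u, fu⟩ (mem_act.mpr ku) (fun h => hi (congrArg Subtype.val h))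
      (fun h => hj (congrArg Subtype.val h))
    unfold pP at this
    rwa [dt_toV] at this
  · rintro ⟨⟨_, h1⟩, ⟨_, h2⟩, h3, h4⟩
    refine ⟨h1, h2, fun h => h3 (congrArg Subtype.val h), fun u hu hi hj => ?_⟩
    unfold pP
    rw [dt_toV]
    exact h4 u.1 u.2 (mem_act.mp hu) (fun h => hi (Subtype.ext h)) (fun h => hj (Subtype.ext h))

theorem mem_sides {k : S.VK} {e : S.FI × S.FI} :
    e ∈ N9.sides S.pP S.pH S.pX k ↔ S.SideE k.1 e.1.1 e.2.1 := by
  classical
  unfold N9.sides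
  simp only [Finset.mem_filter, Finset.mem_univ, true_and]
  exact side_iff

/-- every facet vertex of k is the start of a dart of the boundary of k -/
theorem corner {k : S.VK} {i : S.FI} (hi : k.1 ∈ S.Mx (X.p i.1)) :
    ∃ l j, Ends S k.1 l i.1 j := by
  obtain ⟨j, hj⟩ := (N9.G67.g0 S.poly k).exists_succ (mem_act.mpr hi)
  rw [side_iff] at hj
  obtain ⟨l, _, hE⟩ := side_ends k.2 hj
  exact ⟨l, j.1, hE⟩

theorem Ends.dk {k l : E3} {i j : U} (h : Ends S k l i j) : (S.DK k l).Nonempty := by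
  obtain ⟨d, hd, _⟩ := h.start
  exact ⟨d, hd⟩

/-- the sum over the sides of k -/
theorem sum_sides {k : E3} (hk : k ∈ S.KF) (f : U → U → ℝ) (F : E3 → ℝ)
    (hF : ∀ l i j, Ends S k l i j → F l = f i j)
    (hF0 : ∀ l ∈ S.KF, (¬ ∃ i j, Ends S k l i j) → F l = 0) :
    ∑ e ∈ N9.sides S.pP S.pH S.pX ⟨k, hk⟩, f e.1.1 e.2.1 = ∑ l ∈ S.KF, F l := by
  classical
  obtain ⟨L, hL⟩ : ∃ L, L = S.KF.filter (fun l => ∃ i j, Ends S k l i j) := ⟨_, rfl⟩
  have h1 : ∑ l ∈ S.KF, F l = ∑ l ∈ L, F l := by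
    symm
    rw [hL]
    apply Finset.sum_subset (Finset.filter_subset _ _)
    intro l hl hl'
    apply hF0 l hl
    intro h
    exact hl' (Finset.mem_filter.mpr ⟨hl, h⟩)
  rw [h1]
  have hex : ∀ e ∈ N9.sides S.pP S.pH S.pX ⟨k, hk⟩, ∃ l, Ends S k l e.1.1 e.2.1 := by
    intro e he
    obtain ⟨l, _, hE⟩ := side_ends hk (mem_sides.mp he)
    exact ⟨l, hE⟩
  choose! lam hlam using hex
  apply Finset.sum_bij (fun e _ => lam e)
  · intro e he
    have := hlam e he
    rw [hL, Finset.mem_filter]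
    exact ⟨this.lK, _, _, this⟩
  · intro e he e' he' hee
    have h2 := hlam e he
    have h3 := hlam e' he'
    rw [← hee] at h3
    obtain ⟨h4, h5⟩ := h2.uniq h3
    exact Prod.ext (Subtype.ext h4) (Subtype.ext h5)
  · intro l hl
    rw [hL, Finset.mem_filter] at hl
    obtain ⟨i, j, hE⟩ := hl.2
    refine ⟨(⟨i, hE.fi⟩, ⟨j, hE.fj⟩), mem_sides.mpr hE.side, ?_⟩
    exact (hlam (⟨i, hE.fi⟩, ⟨j, hE.fj⟩) (mem_sides.mpr hE.side)).unique hE
  · intro e he
    exact (hF _ _ _ (hlam e he)).symm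

/-- the sum over the boundary of k -/
theorem sum_bk (k : E3) (F : D → ℝ) :
    ∑ d ∈ S.bk k, F d = ∑ l ∈ S.KF, if k = l then 0 else ∑ d ∈ S.DK k l, F d := by
  classical
  rw [← Finset.sum_fiberwise_of_maps_to (s := S.bk k) (t := S.KF)
    (g := fun d => S.x (X.left (X.rev d))) (fun d _ => x_mem _)]
  apply Finset.sum_congr rfl
  intro l _
  split_ifs with h
  · apply Finset.sum_eq_zero
    intro d hd
    rw [Finset.mem_filter, mem_bk] at hd
    exact absurd (hd.2.trans h.symm) hd.1.2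
  · apply Finset.sum_congr _ (fun _ _ => rfl)
    ext d
    rw [Finset.mem_filter, mem_bk, mem_DK]
    constructor
    · rintro ⟨⟨h1, _⟩, h3⟩; exact ⟨h1, h3⟩
    · rintro ⟨h1, h2⟩; exact ⟨⟨h1, by rw [h2]; exact fun h' => h h'.symm⟩, h2⟩

/-- area sums over the sides and over the boundaries agree -/
theorem Map.area {q : U → E3} {g : E3 → E3} (hq : Map S q g) :
    ∑ k : S.VK, ∑ e ∈ N9.sides S.pP S.pH S.pX k, Om (g k.1) (q e.1.1) (q e.2.1)
      = ∑ k ∈ S.KF, SA (S.bk k) (fun d => q (X.fst d)) (fun d => q (X.snd d)) (g k) := by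
  classical
  -- the value of the side
  obtain ⟨F, hFd⟩ : ∃ F : E3 → E3 → ℝ, F = fun k l =>
      if h : ∃ i j, Ends S k l i j then Om (g k) (q h.choose) (q h.choose_spec.choose) else 0 :=
    ⟨_, rfl⟩
  have hF : ∀ k l i j, Ends S k l i j → F k l = Om (g k) (q i) (q j) := by
    intro k l i j hE
    have h : ∃ i j, Ends S k l i j := ⟨i, j, hE⟩
    rw [hFd]
    change (if h : ∃ i j, Ends S k l i j then Om (g k) (q h.choose)
      (q h.choose_spec.choose) else 0) = _
    rw [dif_pos h]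
    obtain ⟨h1, h2⟩ := h.choose_spec.choose_spec.uniq hE
    have a1 : q h.choose = q i := congrArg q h1
    have a2 : q h.choose_spec.choose = q j := congrArg q h2
    rw [a1, a2]
  have hF0 : ∀ k l, (¬ ∃ i j, Ends S k l i j) → F k l = 0 := by
    intro k l h
    rw [hFd]
    exact dif_neg h
  have e1 : ∑ k : S.VK, ∑ e ∈ N9.sides S.pP S.pH S.pX k, Om (g k.1) (q e.1.1) (q e.2.1)
      = ∑ k ∈ S.KF, ∑ l ∈ S.KF, F k l := by
    rw [← Finset.sum_coe_sort S.KF]
    apply Finset.sum_congr rfl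
    intro k _
    exact sum_sides k.2 (fun i j => Om (g k.1) (q i) (q j)) (F k.1) (hF k.1)
      (fun l _ => hF0 k.1 l)
  obtain ⟨B, hB⟩ : ∃ B : E3 → E3 → ℝ, B = fun k l => if k = l then 0 else
      ∑ d ∈ S.DK k l, Om (g k) (q (X.fst d)) (q (X.snd d)) := ⟨_, rfl⟩
  have e2 : ∑ k ∈ S.KF, SA (S.bk k) (fun d => q (X.fst d)) (fun d => q (X.snd d)) (g k)
      = ∑ k ∈ S.KF, ∑ l ∈ S.KF, B k l := by
    apply Finset.sum_congr rfl
    intro k _
    unfold SA
    rw [sum_bk, hB]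
  rw [e1, e2]
  have hanti : ∀ k ∈ S.KF, ∀ l ∈ S.KF, B k l - F k l = -(B l k - F l k) := by
    intro k _ l _
    by_cases hkl : k = l
    · subst hkl
      have h1 : F k k = 0 := hF0 k k (fun ⟨i, j, h⟩ => h.ne rfl)
      have h2 : B k k = 0 := by rw [hB]; simp
      rw [h1, h2]; simp
    by_cases hex : ∃ i j, Ends S k l i j
    · obtain ⟨i, j, hE⟩ := hex
      have := hq.antisymm hE
      rw [hF k l i j hE, hF l k j i hE.swap, hB]
      simp only [if_neg hkl, if_neg (Ne.symm hkl)]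
      exact this
    · have hex' : ¬ ∃ i j, Ends S l k i j := fun ⟨i, j, h⟩ => hex ⟨j, i, h.swap⟩
      have h1 : B k l = 0 := by
        rw [hB]
        simp only [if_neg hkl]
        apply Finset.sum_eq_zero
        intro d hd
        exfalso
        obtain ⟨i, j, hE⟩ := exists_ends hkl hd
        exact hex ⟨i, j, hE⟩
      have h2 : B l k = 0 := by
        rw [hB]
        simp only [if_neg (Ne.symm hkl)]
        apply Finset.sum_eq_zero
        intro d hd
        exfalso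
        obtain ⟨i, j, hE⟩ := exists_ends (Ne.symm hkl) hd
        exact hex' ⟨i, j, hE⟩
      rw [h1, h2, hF0 k l hex, hF0 l k hex']
      simp
  have key : ∑ k ∈ S.KF, ∑ l ∈ S.KF, (B k l - F k l) = 0 := by
    have h1 : ∑ k ∈ S.KF, ∑ l ∈ S.KF, (B k l - F k l)
        = ∑ k ∈ S.KF, ∑ l ∈ S.KF, -(B l k - F l k) :=
      Finset.sum_congr rfl (fun k hk => Finset.sum_congr rfl (fun l hl => hanti k hk l hl))
    have h2 : ∑ k ∈ S.KF, ∑ l ∈ S.KF, -(B l k - F l k)
        = - ∑ k ∈ S.KF, ∑ l ∈ S.KF, (B k l - F k l) := by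
      rw [Finset.sum_comm]
      simp only [Finset.sum_neg_distrib]
    rw [h2] at h1
    linarith
  simp only [Finset.sum_sub_distrib] at key
  linarith

end Str

/-- SP from PCT. -/
theorem st_SP (hPCT : N9.ST_PCT) : ST_SP := by
  intro U D C _ _ _ _ _ _ X S q hu hcon g hcen harea
  have hq : Str.Map S q g := ⟨hu, hcon, hcen⟩
  have hA := hq.area
  have harea' : ∑ k ∈ S.KF, SA (S.bk k) (fun d => q (X.fst d)) (fun d => q (X.snd d)) (g k)
      = 4 * Real.pi := harea
  rw [harea'] at hA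
  obtain ⟨y, hy, hym⟩ := hPCT S.FI S.VK S.pP (fun i => toV (q i.1)) S.pH S.pX S.poly
    (fun i => by rw [nsq_toV, hu, one_pow])
    (by
      intro k e he
      rw [Str.mem_sides] at he
      obtain ⟨l, _, hE⟩ := Str.side_ends k.2 he
      have h1 := hq.ends_con hE
      rw [ang_le_iff (hu _) (hu _) (X.unit _) (X.unit _)] at h1
      unfold Str.pP
      rw [ip_toV, ip_toV]
      exact h1)
    (fun k => toV (g k.1)) (fun k => by rw [nsq_toV, (hcen k.1 k.2).1, one_pow])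
    (by
      intro k i hi
      rw [Str.mem_act] at hi
      obtain ⟨l, j, hE⟩ := Str.corner hi
      rw [ip_toV]
      exact (hq.pos_ends hE).1)
    (by
      rw [← hA]
      apply Finset.sum_congr rfl
      intro k _
      apply Finset.sum_congr rfl
      intro e _
      unfold N9.Omv
      rw [toE_toV, toE_toV, toE_toV])
  obtain ⟨R, hR1, hR2⟩ := rot_of_quat hy
  have hfac : ∀ u, S.Fac u → q u = R (X.p u) := fun u hf => hR2 _ _ (hym ⟨u, hf⟩)
  refine ⟨R, hR1, hfac, ?_⟩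
  intro d hd
  have hkl : S.x (X.left d) ≠ S.x (X.left (X.rev d)) := by
    intro h
    have h1 := S.rel d
    rw [h, sub_self] at h1
    rcases smul_eq_zero.mp h1.symm with h2 | h2
    · exact hd h2
    · exact crs_ne_zero (X.unit _) (X.unit _) (Cx.qne d) (X.nn d) h2
  have hdk : d ∈ S.DK (S.x (X.left d)) (S.x (X.left (X.rev d))) := Str.mem_DK.mpr ⟨rfl, rfl⟩
  obtain ⟨i, j, hE⟩ := Str.exists_ends hkl hdk
  obtain ⟨k1, l1⟩ := Str.DK_qa hdk
  obtain ⟨s, t, hs, ht, he⟩ := hE.cone k1 l1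
  have c1 := hE.contract hu (hq.con_DK hkl) (u := X.fst d) k1 l1
  have c2 := hE.swap.contract hu (hq.con_DK hkl.symm) (u := X.fst d) l1 k1
  rw [ang_le_iff (hu _) (hu _) (X.unit _) (X.unit _)] at c1 c2
  obtain ⟨v, hv⟩ : ∃ v, v = R.symm (q (X.fst d)) := ⟨_, rfl⟩
  have hv1 : ‖v‖ = 1 := by rw [hv, LinearIsometryEquiv.norm_map]; exact hu _
  have hvq : R v = q (X.fst d) := by rw [hv, LinearIsometryEquiv.apply_symm_apply]
  have d1 : ⟪X.p i, X.p (X.fst d)⟫ ≤ ⟪X.p i, v⟫ := by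
    rw [← LinearIsometryEquiv.inner_map_map R (X.p i) v, hvq, ← hfac i hE.fi]
    exact c1
  have d2 : ⟪X.p j, X.p (X.fst d)⟫ ≤ ⟪X.p j, v⟫ := by
    rw [← LinearIsometryEquiv.inner_map_map R (X.p j) v, hvq, ← hfac j hE.fj]
    exact c2
  have hz : X.p (X.fst d) = s • X.p i + t • X.p j := he
  have d3 : (1 : ℝ) ≤ ⟪X.p (X.fst d), v⟫ := by
    have e1 : ⟪X.p (X.fst d), v⟫ = s * ⟪X.p i, v⟫ + t * ⟪X.p j, v⟫ := by
      rw [hz, inner_add_left, real_inner_smul_left, real_inner_smul_left]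
    have e2 : (1 : ℝ) = s * ⟪X.p i, X.p (X.fst d)⟫ + t * ⟪X.p j, X.p (X.fst d)⟫ := by
      rw [← inner_self_one (X.unit (X.fst d))]
      conv_lhs => lhs; rw [hz]
      rw [inner_add_left, real_inner_smul_left, real_inner_smul_left]
    rw [e1, e2]
    have := mul_le_mul_of_nonneg_left d1 hs
    have := mul_le_mul_of_nonneg_left d2 ht
    linarith
  have d4 : ⟪X.p (X.fst d), v⟫ = 1 := le_antisymm (inner_le_one (X.unit _) hv1) d3
  have d5 : X.p (X.fst d) = v := (inner_eq_one_iff_of_norm_eq_one (X.unit _) hv1).mp d4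
  rw [d5, hvq]

end Pool.Agent.Helper30.N9
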