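import Pool.Agent.Helper30.N9.HubC
import Pool.Agent.Helper30.N9.Sheet

open scoped RealInnerProductSpace Topology

namespace Pool.Agent.Helper30.N9

open PlaneGraph

theorem conn3_connected {V : Type} [Fintype V] [DecidableEq V] {M : PlaneGraph V}
    (h3 : M.Conn3) : M.G.Connected := by
  have h1 := h3.2 ∅ (by simp)
  exact (SimpleGraph.Iso.connected_iff (G := M.G.induce {v | v ∉ (∅ : Finset V)})
    (H := M.G) ⟨(Equiv.subtypeUnivEquiv (by simp) :
      {v : V // v ∈ ({v | v ∉ (∅ : Finset V)} : Set V)} ≃ V), by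
        intro a b
        rfl⟩).mp h1

theorem st_HUB (hPCT : N9.ST_PCT) (hCX : ST_HUBCX) (hSTR : ST_HUBSTR) (hL : ST_LIFT)
    (hXC7 : ST_XC7) : ST_HUB := by
  classical
  intro V _ _ M p q h hq T ν m om HG HGq hle HH hm hom0 homs homT heq hA hbdm h3 hcov hNF hcase
  have hconn := conn3_connected HG.c3
  have hin : ∀ d, om d ≠ 0 → M.fc d ∈ T ∧ M.fc d.symm ∈ T := by
    intro d hd
    by_contra hcon
    exact hd (homT d hcon)
  obtain ⟨x, hx⟩ := hL V M hconn (fun w => w ∈ T) (fun d => om d • crs (p d.fst) (p d.snd))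
    (by
      intro d
      change om d.symm • crs (p d.symm.fst) (p d.symm.snd) = -(om d • crs (p d.fst) (p d.snd))
      rw [homs, ← smul_neg, ← crs_swap]
      rfl)
    (by
      intro d hd
      change om d • crs (p d.fst) (p d.snd) = 0
      rw [homT d hd, zero_smul])
    (by
      intro v hv
      have := heq v hv
      convert this)
    hA
  obtain ⟨X, sc, HX⟩ := hCX V M p h T ν HG HH
  obtain ⟨S, s, Tp, hS1, hS2, hS3, hS4, _, hS6, hS7⟩ := hSTR V M p h T ν HG HH X sc HX x om hom0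
    homs hx (fun y h1 h2 => h3 y h1 (fun d hd => h2 d (hin d hd).1 (hin d hd).2 hd))
  have HS : HubS M p T ν X x om S s Tp := ⟨hS1, hS2, hS3, hS4, hS6, hS7⟩
  have hν := HH.nu
  have hν' : ‖-ν‖ = 1 := by rwa [norm_neg]
  -- the map
  have hunit : ∀ u, ‖qh M T q m u‖ = 1 := by
    intro u
    rcases u with _ | v
    · exact hm
    · exact HGq.inC.unit _
  have hconA : ∀ e ∈ M.bd T, ang m (q e.fst) ≤ ang (-ν) (p e.fst) := by
    intro e he
    rw [ang_le_iff hm (HGq.inC.unit _) hν' (HG.inC.unit _), inner_neg_left]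
    exact hbdm e he
  have hcon : ∀ d, ang (qh M T q m (X.fst d)) (qh M T q m (X.snd d))
      ≤ ang (X.qa d) (X.qb d) := by
    intro d
    rcases d with d' | e | e
    · rw [HX.q_fst, HX.q_snd, HX.p_fst, HX.p_snd]
      exact hle d'.1
    · have e1 : X.qa (Sum.inr (Sum.inl e)) = -ν := by
        unfold Cx.qa; rw [HX.a_fst, HX.p_hub]
      obtain ⟨v, h1, h2⟩ := HX.a_snd e
      have e2 : X.qb (Sum.inr (Sum.inl e)) = p e.1.snd := by
        unfold Cx.qb; rw [h1, HX.p_some, h2]
      rw [(HX.q_a q m e).1, (HX.q_a q m e).2, e1, e2, ← HX.sc_fst e]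
      exact hconA _ (sc e).2
    · have e1 : X.qb (Sum.inr (Sum.inr e)) = -ν := by
        unfold Cx.qb; rw [HX.b_snd, HX.p_hub]
      obtain ⟨v, h1, h2⟩ := HX.b_fst e
      have e2 : X.qa (Sum.inr (Sum.inr e)) = p e.1.fst := by
        unfold Cx.qa; rw [h1, HX.p_some, h2]
      rw [(HX.q_b q m e).1, (HX.q_b q m e).2, e1, e2, ang_comm, ang_comm (p e.1.fst)]
      exact hconA _ e.2
  have hex : ∀ k ∈ S.KF, ∃ g, Centre (S.bk k) (fun d => qh M T q m (X.fst d))
      (fun d => qh M T q m (X.snd d)) g := by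
    intro k hk
    exact hXC7 _ _ _ X _ _ (st_CELLK _ _ _ X S k hk) (qh M T q m) hunit (fun d _ => hcon d)
  choose! g hg using hex
  have HM : Str.Map S (qh M T q m) g := ⟨hunit, fun d _ => hcon d, hg⟩
  -- the hub is a facet
  have hfac : S.Fac none := by
    by_contra hno
    obtain ⟨⟨e0, he0⟩⟩ : Nonempty (BD M T) := by
      obtain ⟨e, he⟩ := HH.ne
      exact ⟨⟨e, he⟩⟩
    obtain ⟨c, c0, c1, c2⟩ := Str.cone_gen (S := S) (-ν)
    have h1 : 0 ≤ det3 (p e0.fst) (p e0.snd) (-ν) := by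
      rw [c2, det3_sum3]
      apply Finset.sum_nonneg
      intro u _
      by_cases hu : c u = 0
      · rw [hu, zero_mul]
      · apply mul_nonneg (c0 u)
        rcases u with _ | v
        · exact absurd (c1 none hu).1 hno
        · rw [HX.p_some]
          obtain ⟨d, hd1, hd2⟩ := v.2
          rw [← hd1]
          exact HH.left e0 he0 d hd2
    have h2 := HH.strict e0 he0
    rw [det3_neg_right] at h1
    linarith
  -- the area
  have hneT : ∀ w0 : TC M T, {w | w ∈ T ∧ x w = S.x (Sum.inl w0)} ≠ T := by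
    intro w0 hT
    rcases hcase with ⟨d, hd⟩ | hno
    · obtain ⟨h1, h2⟩ := hin d hd
      have h4 := hx d h1 h2
      have h5 : M.fc d ∈ {w | w ∈ T ∧ x w = S.x (Sum.inl w0)} := by rw [hT]; exact h1
      have h6 : M.fc d.symm ∈ {w | w ∈ T ∧ x w = S.x (Sum.inl w0)} := by rw [hT]; exact h2
      rw [h5.2, h6.2, sub_self] at h4
      rcases smul_eq_zero.mp h4.symm with h7 | h7
      · exact hd h7
      · exact crs_ne_zero (HG.inC.unit _) (HG.inC.unit _) (HG.inC.q_ne d) (HG.inC.ne_neg d) h7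
    · apply hno
      have h4 := HS.cell HG HX w0
      rw [hT] at h4
      exact ⟨_, h4⟩
  have hval : ∀ k ∈ S.KF, SA (S.bk k) (fun d => qh M T q m (X.fst d))
      (fun d => qh M T q m (X.snd d)) (g k)
      = (∑ w : TC M T, if S.x (Sum.inl w) = k then
          SA (M.fdarts w.1) (M.ga q) (M.gb q) (hq w.1) else 0)
        + ∑ e : BD M T, if S.x (Sum.inr e) = k then Om m (q e.1.snd) (q e.1.fst) else 0 := by
    intro k hk
    obtain ⟨c, rfl⟩ := Str.mem_KF.mp hk
    rcases c with w0 | e0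
    · have h1 := HS.claimA HG HX HM hNF w0 (hneT w0)
      have h2 : ∑ e : BD M T, (if S.x (Sum.inr e) = S.x (Sum.inl w0) then
          Om m (q e.1.snd) (q e.1.fst) else 0) = 0 := by
        apply Finset.sum_eq_zero
        intro e _
        rw [if_neg (HS.ne e w0)]
      rw [h2, add_zero, h1]
    · have h1 := HS.claimB HX HM hfac e0
      have h2 : ∑ w : TC M T, (if S.x (Sum.inl w) = S.x (Sum.inr e0) then
          SA (M.fdarts w.1) (M.ga q) (M.gb q) (hq w.1) else 0) = 0 := by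
        apply Finset.sum_eq_zero
        intro w _
        rw [if_neg (HS.ne e0 w).symm]
      rw [h2, zero_add, h1]
  obtain ⟨hq1, hq2⟩ := hub_q HGq hm (by
    filter_upwards [hcov] with z hz h1 h2
    have := hz h1 h2
    convert this)
  have harea : ∑ k ∈ S.KF, SA (S.bk k) (fun d => qh M T q m (X.fst d))
      (fun d => qh M T q m (X.snd d)) (g k) = 4 * Real.pi := by
    rw [Finset.sum_congr rfl hval, Finset.sum_add_distrib, Finset.sum_comm,
      Finset.sum_comm (s := S.KF)]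
    have e1 : ∑ w : TC M T, ∑ k ∈ S.KF, (if S.x (Sum.inl w) = k then
          SA (M.fdarts w.1) (M.ga q) (M.gb q) (hq w.1) else 0)
        = ∑ w ∈ Finset.univ.filter (fun w => w ∈ T),
            SA (M.fdarts w) (M.ga q) (M.gb q) (hq w) := by
      have e2 : ∀ w : TC M T, ∑ k ∈ S.KF, (if S.x (Sum.inl w) = k then
          SA (M.fdarts w.1) (M.ga q) (M.gb q) (hq w.1) else 0)
          = SA (M.fdarts w.1) (M.ga q) (M.gb q) (hq w.1) := by
        intro w
        rw [Finset.sum_ite_eq, if_pos (Str.x_mem _)]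
      rw [Finset.sum_congr rfl (fun w _ => e2 w)]
      refine Finset.sum_bij (fun w _ => w.1) ?_ ?_ ?_ ?_
      · intro w _
        rw [Finset.mem_filter]
        exact ⟨Finset.mem_univ _, w.2⟩
      · intro w _ w' _ hww
        exact Subtype.ext hww
      · intro w hw
        rw [Finset.mem_filter] at hw
        exact ⟨⟨w, hw.2⟩, Finset.mem_univ _, rfl⟩
      · intro w _; rfl
    have e3 : ∑ e : BD M T, ∑ k ∈ S.KF, (if S.x (Sum.inr e) = k then
          Om m (q e.1.snd) (q e.1.fst) else 0) = - SA (M.bd T) (M.ga q) (M.gb q) m := by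
      have e2 : ∀ e : BD M T, ∑ k ∈ S.KF, (if S.x (Sum.inr e) = k then
          Om m (q e.1.snd) (q e.1.fst) else 0) = - Om m (q e.1.fst) (q e.1.snd) := by
        intro e
        rw [Finset.sum_ite_eq, if_pos (Str.x_mem _)]
        exact Om_swap (hq1 e.1 e.2)
      rw [Finset.sum_congr rfl (fun e _ => e2 e), Finset.sum_neg_distrib]
      congr 1
      unfold SA
      exact Finset.sum_coe_sort (M.bd T) (fun d => Om m (M.ga q d) (M.gb q d))
    rw [e1, e3, hq2]
    have : (∑ w ∈ Finset.univ.filter (fun w => w ∈ T),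
            SA (M.fdarts w) (M.ga q) (M.gb q) (hq w)) +
        -(∑ w ∈ Finset.univ.filter (fun w => w ∈ T),
            SA (M.fdarts w) (M.ga q) (M.gb q) (hq w) - 4 * Real.pi) = 4 * Real.pi := by ring
    convert this
  obtain ⟨R, hR1, hR2, hR3⟩ := st_SP hPCT _ _ _ X S (qh M T q m) hunit (fun d _ => hcon d) g hg
    harea
  have hst : ∀ (d : M.G.Dart) (hd : M.fc d ∈ T ∨ M.fc d.symm ∈ T), S.om (Sum.inl ⟨d, hd⟩) ≠ 0 →
      q d.fst = R (p d.fst) := by
    intro d hd h1
    have h2 := hR3 _ h1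
    rw [HX.q_fst] at h2
    have h4 : X.p (X.fst (Sum.inl ⟨d, hd⟩)) = p d.fst := HX.p_fst ⟨d, hd⟩
    rw [h4] at h2
    exact h2
  refine ⟨R, hR1, ?_, ?_, ?_⟩
  · have h1 := hR2 none hfac
    rw [HX.p_hub] at h1
    exact h1.symm
  · intro d hd
    have hT := (flip_mem_bd.mp hd).1
    apply hst d (Or.inl hT)
    rw [HS.omb ⟨d, Or.inl hT⟩ hd]
    exact (HS.xs _).1.ne'
  · intro d hd
    obtain ⟨h1, h2⟩ := hin d hd
    apply hst d (Or.inl h1)
    rw [HS.omT ⟨d, Or.inl h1⟩ h1 h2]
    exact hd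

end Pool.Agent.Helper30.N9
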