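import Pool.Agent.Helper30.N9.Cx5

open scoped RealInnerProductSpace Topology

namespace Pool.Agent.Helper30.N9

/-- additivity of the distance along an arc -/
theorem ang_add {a b v : E3} (ha : ‖a‖ = 1) (hb : ‖b‖ = 1) (hab : a ≠ b) (hab' : a ≠ -b)
    (hv : v ∈ arc a b) : ang a v + ang v b = ang a b := by
  obtain ⟨hv1, l, m, hl, hm, he⟩ := hv
  obtain ⟨c, hc⟩ : ∃ c, c = ⟪a, b⟫ := ⟨_, rfl⟩
  have h1 := inner_gt_neg_one ha hb hab'
  have h2 := inner_lt_one ha hb hab
  rw [← hc] at h1 h2
  have hk : 0 < 1 - c ^ 2 := by nlinarith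
  have hav : ⟪a, v⟫ = l + m * c := by
    rw [he, inner_add_right, real_inner_smul_right, real_inner_smul_right, inner_self_one ha, hc]
    ring
  have hvb : ⟪v, b⟫ = l * c + m := by
    rw [he, inner_add_left, real_inner_smul_left, real_inner_smul_left, inner_self_one hb, hc]
    ring
  have hvv : l ^ 2 + m ^ 2 + 2 * l * m * c = 1 := by
    have := inner_self_one hv1
    have e : ⟪v, v⟫ = l * ⟪a, v⟫ + m * ⟪v, b⟫ := by
      conv_lhs => rw [he]
      rw [← he, he, inner_add_left, real_inner_smul_left, real_inner_smul_left, ← he,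
        real_inner_comm b v]
    rw [e, hav, hvb] at this
    linear_combination this
  obtain ⟨s, hs⟩ : ∃ s, s = Real.sqrt (1 - c ^ 2) := ⟨_, rfl⟩
  have hs0 : 0 < s := by rw [hs]; exact Real.sqrt_pos.mpr hk
  have hs2 : s ^ 2 = 1 - c ^ 2 := by rw [hs]; exact Real.sq_sqrt hk.le
  have cA : Real.cos (ang a v) = l + m * c := by
    unfold ang
    rw [Real.cos_arccos]
    · exact hav
    · rw [hav]; nlinarith [mul_nonneg hl hm, mul_nonneg hm hm]
    · have := real_inner_le_norm a v
      rwa [ha, hv1, one_mul] at this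
  have cB : Real.cos (ang v b) = l * c + m := by
    unfold ang
    rw [Real.cos_arccos]
    · exact hvb
    · rw [hvb]; nlinarith [mul_nonneg hl hm, mul_nonneg hl hl]
    · have := real_inner_le_norm v b
      rwa [hb, hv1, one_mul] at this
  have sA : Real.sin (ang a v) = m * s := by
    unfold ang
    rw [Real.sin_arccos, hav]
    have : 1 - (l + m * c) ^ 2 = (m * s) ^ 2 := by
      rw [mul_pow, hs2]; linear_combination - hvv
    rw [this, Real.sqrt_sq (by positivity)]
  have sB : Real.sin (ang v b) = l * s := by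
    unfold ang
    rw [Real.sin_arccos, hvb]
    have : 1 - (l * c + m) ^ 2 = (l * s) ^ 2 := by
      rw [mul_pow, hs2]; linear_combination - hvv
    rw [this, Real.sqrt_sq (by positivity)]
  have hcos : Real.cos (ang a v + ang v b) = c := by
    rw [Real.cos_add, cA, cB, sA, sB]
    have : (l + m * c) * (l * c + m) - m * s * (l * s) = c * (l ^ 2 + m ^ 2 + 2 * l * m * c) := by
      linear_combination (-(l * m)) * hs2
    rw [this, hvv, mul_one]
  have hsin : Real.sin (ang a v + ang v b) = s := by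
    rw [Real.sin_add, cA, cB, sA, sB]
    have : m * s * (l * c + m) + (l + m * c) * (l * s) = s * (l ^ 2 + m ^ 2 + 2 * l * m * c) := by
      ring
    rw [this, hvv, mul_one]
  have r1 : 0 ≤ ang a v := Real.arccos_nonneg _
  have r2 : 0 ≤ ang v b := Real.arccos_nonneg _
  have r3 : ang a v ≤ Real.pi := Real.arccos_le_pi _
  have r4 : ang v b ≤ Real.pi := Real.arccos_le_pi _
  have hle : ang a v + ang v b ≤ Real.pi := by
    by_contra hcon
    push Not at hcon
    have h5 : Real.sin (ang a v + ang v b) ≤ 0 := by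
      have h6 : Real.sin (ang a v + ang v b - 2 * Real.pi) ≤ 0 :=
        Real.sin_nonpos_of_nonpos_of_neg_pi_le (by linarith) (by linarith)
      rwa [Real.sin_sub_two_pi] at h6
    linarith
  have : ang a b = Real.arccos (Real.cos (ang a v + ang v b)) := by
    rw [hcos]; unfold ang; rw [hc]
  rw [this, Real.arccos_cos (by linarith) hle]

theorem ang_pos {a b : E3} (ha : ‖a‖ = 1) (hb : ‖b‖ = 1) (hab : a ≠ b) : 0 < ang a b := by
  unfold ang
  rw [Real.arccos_pos]
  exact inner_lt_one ha hb hab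

theorem ang_comm (a b : E3) : ang a b = ang b a := by
  unfold ang; rw [real_inner_comm]

theorem ang_eq_angle {a b : E3} (ha : ‖a‖ = 1) (hb : ‖b‖ = 1) :
    ang a b = InnerProductGeometry.angle a b := by
  unfold ang InnerProductGeometry.angle
  rw [ha, hb, mul_one, div_one]

theorem ang_triangle {a b c : E3} (ha : ‖a‖ = 1) (hb : ‖b‖ = 1) (hc : ‖c‖ = 1) :
    ang a c ≤ ang a b + ang b c := by
  rw [ang_eq_angle ha hb, ang_eq_angle hb hc, ang_eq_angle ha hc]
  exact InnerProductGeometry.angle_le_angle_add_angle a b c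

theorem ang_self {a : E3} (ha : ‖a‖ = 1) : ang a a = 0 := by
  unfold ang
  rw [inner_self_one ha, Real.arccos_one]

namespace Str

variable {U D C : Type} [Fintype U] [DecidableEq U] [Fintype D] [DecidableEq D]
    [Fintype C] [DecidableEq C] {X : Cx U D C} {S : Str X}

open Cx

theorem Ends.card_two {k l : E3} {i j : U} (h : Ends S k l i j) {s t : ℝ} (hs : 0 < s)
    (ht : 0 < t) : ∀ m ∈ S.Mx (s • X.p i + t • X.p j), m = k ∨ m = l := by
  obtain ⟨c, hc, hori⟩ := h.ori
  have hcr : crs (X.p i) (X.p j) ≠ 0 := by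
    rw [hori]
    exact smul_ne_zero hc.ne' (sub_ne_zero.mpr h.ne)
  obtain ⟨y, hy⟩ : ∃ y, y = s • X.p i + t • X.p j := ⟨_, rfl⟩
  have hy0 : y ≠ 0 := by
    intro h0
    apply hcr
    have : crs y (X.p j) = s • crs (X.p i) (X.p j) := by
      rw [hy, crs_add_left, crs_smul_left, crs_smul_left, crs_self, smul_zero, add_zero]
    rw [h0] at this
    have h2 : crs (0 : E3) (X.p j) = 0 := by
      ext i; fin_cases i <;> simp [crs]
    rw [h2] at this
    rcases smul_eq_zero.mp this.symm with h3 | h3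
    · exact absurd h3 hs.ne'
    · exact h3
  rw [← hy]
  intro m hm
  by_contra hcon
  push Not at hcon
  have hk : k ∈ S.Mx y := by rw [hy]; exact (h.of_cone hs.le ht.le).1
  have hl : l ∈ S.Mx y := by rw [hy]; exact (h.of_cone hs.le ht.le).2
  have h3 : 3 ≤ (S.Mx y).card := by
    have := Finset.two_lt_card.mpr ⟨k, hk, l, hl, m, hm, h.ne, hcon.1.symm, hcon.2.symm⟩
    omega
  obtain ⟨u, hu⟩ := vertex_of_three hy0 h3
  have hM : S.Mx (X.p u) = S.Mx y := by rw [← hu, Mx_nrm hy0]
  have fu : S.Fac u := by unfold Fac; rw [hM]; exact h3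
  have hyu : y = ‖y‖ • X.p u := by
    rw [← hu]; unfold nrm
    rw [smul_smul, mul_inv_cancel₀ (norm_ne_zero_iff.mpr hy0), one_smul]
  have hyp : 0 < ‖y‖ := norm_pos_iff.mpr hy0
  rcases h.only u fu (by rw [hM]; exact hk) (by rw [hM]; exact hl) with h4 | h4
  · rw [h4] at hyu
    apply hcr
    have e1 : crs (X.p i) y = t • crs (X.p i) (X.p j) := by
      rw [hy, crs_add_right, crs_smul_right, crs_smul_right, crs_self, smul_zero, zero_add]
    rw [hyu, crs_smul_right, crs_self, smul_zero] at e1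
    rcases smul_eq_zero.mp e1.symm with h5 | h5
    · exact absurd h5 ht.ne'
    · exact h5
  · rw [h4] at hyu
    apply hcr
    have e1 : crs y (X.p j) = s • crs (X.p i) (X.p j) := by
      rw [hy, crs_add_left, crs_smul_left, crs_smul_left, crs_self, smul_zero, add_zero]
    rw [hyu, crs_smul_left, crs_self, smul_zero] at e1
    rcases smul_eq_zero.mp e1.symm with h5 | h5
    · exact absurd h5 hs.ne'
    · exact h5

theorem Ends.cone_pos {k l : E3} {i j : U} (h : Ends S k l i j) {u : U} (hk : k ∈ S.Mx (X.p u))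
    (hl : l ∈ S.Mx (X.p u)) (hui : u ≠ i) : ∃ s t : ℝ, 0 ≤ s ∧ 0 < t ∧
      X.p u = s • X.p i + t • X.p j := by
  obtain ⟨s, t, hs, ht, he⟩ := h.cone hk hl
  refine ⟨s, t, hs, lt_of_le_of_ne ht ?_, he⟩
  rintro rfl
  apply hui
  apply X.inj
  rw [zero_smul, add_zero] at he
  have h1 := X.unit u
  rw [he, norm_smul, X.unit i, mul_one, Real.norm_of_nonneg hs] at h1
  rw [he, h1, one_smul]

/-- ingoing dart -/
theorem Ends.exists_in {k l : E3} {i j : U} (h : Ends S k l i j) {u : U}
    (hk : k ∈ S.Mx (X.p u)) (hl : l ∈ S.Mx (X.p u)) (hui : u ≠ i) :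
    ∃ d ∈ S.DK k l, X.snd d = u := by
  obtain ⟨c, hc, hori⟩ := h.ori
  obtain ⟨α, β, hα, hβ, hu⟩ := h.cone_pos hk hl hui
  have hne : X.p u ≠ X.p i := fun h' => hui (X.inj h')
  have hnn : X.p u ≠ - X.p i := by
    intro h'
    rw [h'] at hk
    exact not_both (ne_zero_of_unit (X.unit i)) h.ki hk
  -- points z t = p u + t p i
  have hcont : Continuous (fun t : ℝ => X.p u + t • X.p i) := by fun_prop
  have htend := hcont.tendsto 0
  simp only [zero_smul, add_zero] at htend
  have htend' := htend.mono_left (nhdsWithin_le_nhds (s := Set.Ioi 0))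
  have hu0 := ne_zero_of_unit (X.unit u)
  have hnu := nrm_unit (X.unit u)
  have ev1 : ∀ᶠ y in 𝓝 (X.p u), ∀ v, v ≠ u → nrm y ≠ X.p v := by
    rw [Filter.eventually_all]
    intro v
    by_cases hv : v = u
    · exact Filter.Eventually.of_forall fun _ h => absurd hv h
    · have : ∀ᶠ y in 𝓝 (X.p u), nrm y ≠ X.p v :=
        (continuousAt_nrm hu0).eventually_ne (by rw [hnu]; exact fun h => hv (X.inj h).symm)
      filter_upwards [this] with y hy _
      exact hy
  have ev2 : ∀ᶠ y in 𝓝 (X.p u), ∀ e, X.p u ∉ arc (X.qa e) (X.qb e) →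
      nrm y ∉ arc (X.qa e) (X.qb e) := by
    rw [Filter.eventually_all]
    intro e
    by_cases he : X.p u ∈ arc (X.qa e) (X.qb e)
    · exact Filter.Eventually.of_forall fun _ h => absurd he h
    · filter_upwards [eventually_not_arc (X.unit _) (X.unit _) (qne e) (X.nn e) hu0
        (by rw [hnu]; exact he)] with y hy _
      exact hy
  have ev3 : ∀ᶠ t : ℝ in 𝓝[>] 0, 0 < t := self_mem_nhdsWithin
  obtain ⟨t, ⟨h1, h2⟩, ht⟩ := ((htend'.eventually (ev1.and ev2)).and ev3).exists
  obtain ⟨z, hz⟩ : ∃ z, z = X.p u + t • X.p i := ⟨_, rfl⟩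
  rw [← hz] at h1 h2
  obtain ⟨q0, q1, q2, q3⟩ := pt_props (X.unit u) (X.unit i) hne hnn ht
  rw [← hz] at q0 q1 q2 q3
  have hzc : z = (α + t) • X.p i + β • X.p j := by
    rw [hz, hu, add_smul]; abel
  have hMz : ∀ m ∈ S.Mx z, m = k ∨ m = l := by
    rw [hzc]; exact h.card_two (by linarith) hβ
  have hkz : k ∈ S.Mx z := by rw [hzc]; exact (h.of_cone (by linarith) hβ.le).1
  have hlz : l ∈ S.Mx z := by rw [hzc]; exact (h.of_cone (by linarith) hβ.le).2
  have hnv : ∀ v, nrm z ≠ X.p v := by
    intro v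
    by_cases hv : v = u
    · rw [hv]; exact q2
    · exact h1 v hv
  rcases position (X := X) q0 with ⟨c', ho, hw⟩ | ⟨v, hv⟩ | ⟨e, e1, e2, e3⟩
  · exfalso
    rw [Mx_off q0 ho hw, Finset.mem_singleton] at hkz hlz
    exact h.ne (hkz.trans hlz.symm)
  · exact absurd hv (hnv v)
  · -- orient e
    have key : ∀ e, nrm z ∈ arc (X.qa e) (X.qb e) → nrm z ≠ X.qa e → nrm z ≠ X.qb e →
        X.snd e = u → ∃ d ∈ S.DK k l, X.snd d = u := by
      intro e e1 e2 e3 hsu
      obtain ⟨m1, m2, m3⟩ := Mx_edge (S := S) e e1 e2 e3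
      rw [Mx_nrm q0] at m1 m2 m3
      have hr := S.rel e
      have hqb : X.qb e = X.p u := by unfold qb; rw [hsu]
      -- p (fst e) in terms of p u and p i
      obtain ⟨_, a, b, ha, hb, hab⟩ := e1
      have ha0 : 0 < a := by
        apply lt_of_le_of_ne ha
        rintro rfl
        rw [zero_smul, zero_add] at hab
        apply e3
        have h5 := norm_nrm q0
        rw [hab, norm_smul, show ‖X.qb e‖ = 1 from X.unit _, mul_one, Real.norm_of_nonneg hb]
          at h5
        rw [hab, h5, one_smul]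
      have hnz : 0 < ‖z‖⁻¹ := inv_pos.mpr (norm_pos_iff.mpr q0)
      have hcrs : a • crs (X.qa e) (X.qb e) = (‖z‖⁻¹ * t * β * c) • (k - l) := by
        have e5 : crs (nrm z) (X.p u) = a • crs (X.qa e) (X.qb e) := by
          rw [hab, hqb, crs_add_left, crs_smul_left, crs_smul_left, crs_self, smul_zero,
            add_zero]
        rw [← e5]
        unfold nrm
        rw [crs_smul_left, hz, crs_add_left, crs_self, zero_add, crs_smul_left]
        have e6 : crs (X.p i) (X.p u) = β • crs (X.p i) (X.p j) := by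
          rw [hu, crs_add_right, crs_smul_right, crs_smul_right, crs_self, smul_zero, zero_add]
        rw [← hz, e6, hori]
        simp only [smul_smul]
        congr 1
        ring
      have hpos : 0 < ‖z‖⁻¹ * t * β * c := by positivity
      refine ⟨e, ?_, hsu⟩
      rw [mem_DK]
      rcases hMz _ m1 with h6 | h6
      · refine ⟨h6, ?_⟩
        rcases hMz _ m2 with h7 | h7
        · exfalso
          rcases m3 l hlz with h8 | h8
          · exact h.ne (h6.symm.trans h8.symm)
          · exact h.ne (h7.symm.trans h8.symm)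
        · exact h7
      · exfalso
        have h7 : S.x (X.left (X.rev e)) = k := by
          rcases hMz _ m2 with h7 | h7
          · exact h7
          · exfalso
            rcases m3 k hkz with h8 | h8
            · exact h.ne (h8.trans h6)
            · exact h.ne (h8.trans h7)
        rw [h6, h7] at hr
        have h8 : a • (l - k) = (S.om e * (‖z‖⁻¹ * t * β * c)) • (k - l) := by
          rw [hr, smul_comm, hcrs, smul_smul]
        have h9 : (a + S.om e * (‖z‖⁻¹ * t * β * c)) • (k - l) = 0 := by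
          rw [add_smul, ← h8, ← smul_add]
          rw [show k - l + (l - k) = 0 by abel, smul_zero]
        rcases smul_eq_zero.mp h9 with h10 | h10
        · have := mul_nonneg (S.nonneg e) hpos.le
          linarith
        · exact h.ne (sub_eq_zero.mp h10)
    have hmem : X.p u ∈ arc (X.qa e) (X.qb e) := by
      by_contra hcon
      exact h2 e hcon e1
    rcases X.vert u e hmem with h4 | h4
    · apply key (X.rev e)
      · rw [qa_rev, qb_rev, arc_comm]; exact e1
      · rw [qa_rev]; exact e3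
      · rw [qb_rev]; exact e2
      · rw [X.snd_rev, ← h4]
    · exact key e e1 e2 e3 h4.symm

theorem Ends.in_unique {k l : E3} {i j : U} (h : Ends S k l i j) {d e : D}
    (hd : d ∈ S.DK k l) (he : e ∈ S.DK k l) (hde : X.snd d = X.snd e) : d = e := by
  obtain ⟨hod, hrd⟩ := om_pos h.ne hd
  obtain ⟨hoe, hre⟩ := om_pos h.ne he
  obtain ⟨kd, ld⟩ := DK_qa hd
  obtain ⟨ke, le⟩ := DK_qa he
  have hqb : X.qb d = X.qb e := by unfold qb; rw [hde]
  -- qa d = α qa e + β qb e
  have hdet : det3 (X.qa e) (X.qb e) (X.qa d) = 0 := by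
    rw [← crs_inner]
    have h1 : crs (X.qa e) (X.qb e) = (S.om e)⁻¹ • (k - l) := by
      rw [hre, smul_smul, inv_mul_cancel₀ hoe.ne', one_smul]
    rw [h1, real_inner_smul_left, inner_sub_left, Mx_eq kd ld, sub_self, mul_zero]
  obtain ⟨β, α, hsp⟩ : ∃ β α : ℝ, X.qa d = β • X.qa e + α • X.qb e :=
    ⟨_, _, span_det (X.unit _) (X.unit _) (qne e) (X.nn e) hdet⟩
  have hβ : 0 < β := by
    have h1 : crs (X.qa d) (X.qb d) = β • crs (X.qa e) (X.qb e) := by
      rw [hqb, hsp, crs_add_left, crs_smul_left, crs_smul_left, crs_self, smul_zero, add_zero]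
    rw [h1, hre, smul_smul] at hrd
    have hcn : crs (X.qa e) (X.qb e) ≠ 0 :=
      crs_ne_zero (X.unit _) (X.unit _) (qne e) (X.nn e)
    have h2 : (S.om e - S.om d * β) • crs (X.qa e) (X.qb e) = 0 := by
      rw [sub_smul, hrd, sub_self]
    rcases smul_eq_zero.mp h2 with h3 | h3
    · have h4 : S.om d * β = S.om e := by linarith
      by_contra hcon
      push Not at hcon
      have := mul_nonpos_of_nonneg_of_nonpos hod.le hcon
      linarith
    · exact absurd h3 hcn
  have hfst : X.fst d = X.fst e := by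
    rcases le_or_gt 0 α with hα | hα
    · have hm : X.p (X.fst d) ∈ arc (X.p (X.fst e)) (X.p (X.snd e)) :=
        ⟨X.unit _, β, α, hβ.le, hα, hsp⟩
      rcases X.vert _ _ hm with h1 | h1
      · exact h1
      · exfalso
        apply X.ne d
        rw [h1, hde]
    · have hm : X.p (X.fst e) ∈ arc (X.p (X.fst d)) (X.p (X.snd d)) := by
        refine ⟨X.unit _, β⁻¹, β⁻¹ * (-α), by positivity, mul_nonneg (by positivity)
          (by linarith), ?_⟩
        have h1 : X.p (X.fst d) = β • X.p (X.fst e) + α • X.p (X.snd e) := hsp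
        rw [h1, smul_add, smul_smul, smul_smul, inv_mul_cancel₀ hβ.ne', one_smul, hde, add_assoc,
          ← add_smul]
        have : β⁻¹ * α + β⁻¹ * -α = 0 := by ring
        rw [this, zero_smul, add_zero]
      rcases X.vert _ _ hm with h1 | h1
      · exact h1.symm
      · exfalso
        apply X.ne e
        rw [h1, hde]
  by_contra hne
  have hrev : d ≠ X.rev e := by
    intro h1
    apply X.ne d
    have : X.snd d = X.fst e := by rw [h1]; exact X.snd_rev e
    rw [this, hfst]
  obtain ⟨x, x1, x2, x3⟩ := exists_mid (X := X) e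
  have hx2 : x ∈ arc (X.p (X.fst d)) (X.p (X.snd d)) := by
    rw [hfst, hde]; exact x1
  rcases X.embed e d hne hrev x x1 hx2 with h1 | h1
  · exact x2 h1
  · exact x3 h1

theorem Ends.no_in {k l : E3} {i j : U} (h : Ends S k l i j) {d : D} (hd : d ∈ S.DK k l) :
    X.snd d ≠ i := by
  intro hi
  obtain ⟨hod, hrd⟩ := om_pos h.ne hd
  obtain ⟨c, hc, hori⟩ := h.ori
  obtain ⟨kd, ld⟩ := DK_qa hd
  obtain ⟨s, t, hs, ht, he⟩ := h.cone kd ld
  have hqb : X.qb d = X.p i := by unfold qb; rw [hi]
  have h1 : crs (X.qa d) (X.qb d) = -(t * c) • (k - l) := by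
    rw [hqb, he, crs_add_left, crs_smul_left, crs_smul_left, crs_self, smul_zero, zero_add,
      crs_swap, hori, smul_neg, smul_smul, neg_smul]
  rw [h1, smul_smul] at hrd
  have h2 : (1 + S.om d * (t * c)) • (k - l) = 0 := by
    rw [add_smul, one_smul]
    conv_lhs => lhs; rw [hrd]
    rw [← add_smul]
    have : S.om d * -(t * c) + S.om d * (t * c) = 0 := by ring
    rw [this, zero_smul]
  rcases smul_eq_zero.mp h2 with h3 | h3
  · have : 0 ≤ S.om d * (t * c) := by positivity
    linarith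
  · exact h.ne (sub_eq_zero.mp h3)

/-- vertices on the 2-face -/
noncomputable def UK (S : Str X) (k l : E3) : Finset U := by
  classical exact Finset.univ.filter (fun u => k ∈ S.Mx (X.p u) ∧ l ∈ S.Mx (X.p u))

theorem mem_UK {k l : E3} {u : U} : u ∈ S.UK k l ↔ k ∈ S.Mx (X.p u) ∧ l ∈ S.Mx (X.p u) := by
  classical
  unfold UK
  simp

theorem UK_comm (k l : E3) : S.UK k l = S.UK l k := by
  ext u
  rw [mem_UK, mem_UK, and_comm]

theorem Ends.sum_snd {k l : E3} {i j : U} (h : Ends S k l i j) {A : Type*} [AddCommMonoid A]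
    (g : U → A) : ∑ d ∈ S.DK k l, g (X.snd d) = ∑ u ∈ (S.UK k l).erase i, g u := by
  classical
  apply Finset.sum_bij (fun d _ => X.snd d)
  · intro d hd
    rw [Finset.mem_erase, mem_UK]
    exact ⟨h.no_in hd, DK_qb hd⟩
  · intro d hd e he hde
    exact h.in_unique hd he hde
  · intro u hu
    rw [Finset.mem_erase, mem_UK] at hu
    obtain ⟨d, hd, hd2⟩ := h.exists_in hu.2.1 hu.2.2 hu.1
    exact ⟨d, hd, hd2⟩
  · intro d _; rfl

theorem Ends.sum_fst {k l : E3} {i j : U} (h : Ends S k l i j) {A : Type*} [AddCommMonoid A]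
    (g : U → A) : ∑ d ∈ S.DK k l, g (X.fst d) = ∑ u ∈ (S.UK k l).erase j, g u := by
  rw [UK_comm, ← h.swap.sum_snd g]
  refine Finset.sum_bij' (fun d _ => X.rev d) (fun d _ => X.rev d) ?_ ?_ ?_ ?_ ?_
  · intro d hd; exact rev_DK hd
  · intro d hd; exact rev_DK hd
  · intro d _; exact X.rev_rev d
  · intro d _; exact X.rev_rev d
  · intro d _; rw [X.snd_rev]

/-- telescoping along the straight path from i to j. -/
theorem Ends.telescope {k l : E3} {i j : U} (h : Ends S k l i j) {A : Type*} [AddCommGroup A]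
    (g : U → A) : ∑ d ∈ S.DK k l, g (X.snd d) - ∑ d ∈ S.DK k l, g (X.fst d) = g j - g i := by
  have hi : i ∈ S.UK k l := mem_UK.mpr ⟨h.ki, h.li⟩
  have hj : j ∈ S.UK k l := mem_UK.mpr ⟨h.kj, h.lj⟩
  rw [h.sum_snd, h.sum_fst]
  have h1 := Finset.add_sum_erase (S.UK k l) g hi
  have h2 := Finset.add_sum_erase (S.UK k l) g hj
  have h3 : g i + ∑ u ∈ (S.UK k l).erase i, g u = g j + ∑ u ∈ (S.UK k l).erase j, g u :=
    h1.trans h2.symm
  have h4 : ∑ u ∈ (S.UK k l).erase i, g u = g j + ∑ u ∈ (S.UK k l).erase j, g u - g i := by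
    rw [← h3]; abel
  rw [h4]; abel

/-- straight paths contract -/
theorem Ends.contract {k l : E3} {i j : U} (h : Ends S k l i j) {q : U → E3}
    (hq : ∀ u, ‖q u‖ = 1) (hle : ∀ d ∈ S.DK k l,
      ang (q (X.fst d)) (q (X.snd d)) ≤ ang (X.qa d) (X.qb d)) {u : U}
    (hk : k ∈ S.Mx (X.p u)) (hl : l ∈ S.Mx (X.p u)) :
    ang (q i) (q u) ≤ ang (X.p i) (X.p u) := by
  obtain ⟨c, hc, hori⟩ := h.ori
  obtain ⟨n, hn⟩ : ∃ n, n = ((S.UK k l).filter
    (fun v => ang (X.p i) (X.p v) < ang (X.p i) (X.p u))).card := ⟨_, rfl⟩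
  induction n using Nat.strong_induction_on generalizing u with
  | _ n ih =>
    by_cases hui : u = i
    · rw [hui, ang_self (hq i), ang_self (X.unit i)]
    obtain ⟨d, hd, hdu⟩ := h.exists_in hk hl hui
    obtain ⟨hod, hrd⟩ := om_pos h.ne hd
    obtain ⟨v, hv⟩ : ∃ v, v = X.fst d := ⟨_, rfl⟩
    have hkv : k ∈ S.Mx (X.p v) := by rw [hv]; exact (DK_qa hd).1
    have hlv : l ∈ S.Mx (X.p v) := by rw [hv]; exact (DK_qa hd).2
    obtain ⟨α2, β2, hα2, hβ2, hu2⟩ := h.cone_pos hk hl hui
    obtain ⟨α1, β1, hα1, hβ1, hv1⟩ := h.cone hkv hlv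
    have hcn : crs (X.p i) (X.p j) ≠ 0 := by
      rw [hori]; exact smul_ne_zero hc.ne' (sub_ne_zero.mpr h.ne)
    have hqa : X.qa d = X.p v := by rw [hv]; rfl
    have hqb : X.qb d = X.p u := by unfold qb; rw [hdu]
    have hdet : 0 < α1 * β2 - β1 * α2 := by
      have e1 : crs (X.qa d) (X.qb d) = (α1 * β2 - β1 * α2) • crs (X.p i) (X.p j) := by
        rw [hqa, hqb, hv1, hu2]
        simp only [crs_add_left, crs_add_right, crs_smul_left, crs_smul_right, crs_self,
          smul_zero, zero_add, add_zero]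
        rw [crs_swap (X.p i) (X.p j)]
        module
      rw [e1, hori, smul_smul, smul_smul] at hrd
      have e2 : (1 - S.om d * ((α1 * β2 - β1 * α2) * c)) • (k - l) = 0 := by
        rw [sub_smul, one_smul]
        conv_lhs => lhs; rw [hrd]
        rw [← sub_smul]
        have : S.om d * (α1 * β2 - β1 * α2) * c - S.om d * ((α1 * β2 - β1 * α2) * c) = 0 := by
          ring
        rw [this, zero_smul]
      rcases smul_eq_zero.mp e2 with h3 | h3
      · by_contra hcon
        push Not at hcon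
        have h4 : (α1 * β2 - β1 * α2) * c ≤ 0 := mul_nonpos_of_nonpos_of_nonneg hcon hc.le
        have h5 : S.om d * ((α1 * β2 - β1 * α2) * c) ≤ 0 :=
          mul_nonpos_of_nonneg_of_nonpos hod.le h4
        linarith
      · exact absurd (sub_eq_zero.mp h3) h.ne
    have hmem : X.p v ∈ arc (X.p i) (X.p u) := by
      refine ⟨X.unit v, (α1 * β2 - β1 * α2) / β2, β1 / β2, by positivity, by positivity, ?_⟩
      rw [hu2, hv1, smul_add, smul_smul, smul_smul]
      have e1 : β1 / β2 * β2 = β1 := by field_simp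
      have e2 : (α1 * β2 - β1 * α2) / β2 + β1 / β2 * α2 = α1 := by field_simp; ring
      rw [e1, ← add_assoc, ← add_smul, e2]
    have hne : X.p i ≠ X.p u := fun h' => hui (X.inj h').symm
    have hnn : X.p i ≠ - X.p u := by
      intro h'
      have h5 := h.ki
      rw [h'] at h5
      exact not_both (ne_zero_of_unit (X.unit u)) hk h5
    have hadd := ang_add (X.unit i) (X.unit u) hne hnn hmem
    have hpos : 0 < ang (X.p v) (X.p u) := by
      rw [← hqa, ← hqb]
      exact ang_pos (X.unit _) (X.unit _) (qne d)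
    have hcard : ((S.UK k l).filter (fun w => ang (X.p i) (X.p w) < ang (X.p i) (X.p v))).card
        < ((S.UK k l).filter (fun w => ang (X.p i) (X.p w) < ang (X.p i) (X.p u))).card := by
      apply Finset.card_lt_card
      rw [Finset.ssubset_iff_of_subset]
      · refine ⟨v, ?_, ?_⟩
        · rw [Finset.mem_filter, mem_UK]
          exact ⟨⟨hkv, hlv⟩, by linarith⟩
        · rw [Finset.mem_filter]
          exact fun h' => lt_irrefl _ h'.2
      · intro w hw
        rw [Finset.mem_filter] at hw ⊢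
        exact ⟨hw.1, by linarith [hw.2]⟩
    have hih := ih _ (by rw [hn]; exact hcard) hkv hlv rfl
    have hstep := hle d hd
    rw [hqa, hqb, hdu, ← hv] at hstep
    have htri := ang_triangle (hq i) (hq v) (hq u)
    linarith

end Str

end Pool.Agent.Helper30.N9
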