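import Pool.Agent.Helper30.N9.Wind2

open scoped RealInnerProductSpace Topology

namespace Pool.Agent.Helper30.N9

/-- the four point defect -/
noncomputable def E4 (a b u v : E3) : ℝ := Om b u v - Om a u v + Om a b v - Om a b u

theorem Om_lt {a b c : E3} (h : zc a b c ∈ Complex.slitPlane) :
    -(2 * Real.pi) < Om a b c ∧ Om a b c < 2 * Real.pi := by
  unfold Om
  have h1 := Complex.neg_pi_lt_arg (zc a b c)
  have h2 := Complex.arg_le_pi (zc a b c)
  have h3 : (zc a b c).arg ≠ Real.pi := (Complex.mem_slitPlane_iff_arg.mp h).1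
  have h4 : (zc a b c).arg < Real.pi := lt_of_le_of_ne h2 h3
  constructor <;> linarith

theorem Om_neg_iff (a b c : E3) : Om a b c < 0 ↔ det3 a b c < 0 := by
  unfold Om
  have h1 : (zc a b c).arg < 0 ↔ (zc a b c).im < 0 := Complex.arg_neg_iff
  have h2 : (zc a b c).im = det3 a b c := rfl
  rw [h2] at h1
  rw [← h1]
  constructor <;> intro h <;> linarith

theorem Om_pos_iff {a b c : E3} (h : zc a b c ∈ Complex.slitPlane) :
    0 < Om a b c ↔ 0 < det3 a b c := by
  have him : (zc a b c).im = det3 a b c := rfl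
  constructor
  · intro h1
    have h2 : ¬ det3 a b c < 0 := by
      rw [← Om_neg_iff]; linarith
    push Not at h2
    rcases h2.eq_or_lt with h3 | h3
    · exfalso
      rw [Complex.mem_slitPlane_iff] at h
      rcases h with h4 | h4
      · have : (zc a b c).arg = 0 := Complex.arg_eq_zero_iff.mpr ⟨h4.le, by rw [him, ← h3]⟩
        unfold Om at h1
        rw [this] at h1
        norm_num at h1
      · exact h4 (by rw [him, ← h3])
    · exact h3
  · intro h1
    have h2 : ¬ Om a b c < 0 := by rw [Om_neg_iff]; linarith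
    push Not at h2
    rcases h2.eq_or_lt with h3 | h3
    · exfalso
      unfold Om at h3
      have h4 : (zc a b c).arg = 0 := by linarith
      have := (Complex.arg_eq_zero_iff.mp h4).2
      rw [him] at this
      linarith
    · exact h3

theorem slit_hemi {h x y z : E3} (hx : ‖x‖ = 1) (hy : ‖y‖ = 1) (hz : ‖z‖ = 1)
    (px : 0 < ⟪h, x⟫) (py : 0 < ⟪h, y⟫) (pz : 0 < ⟪h, z⟫) :
    zc x y z ∈ Complex.slitPlane := by
  have hnn : ∀ {y z : E3}, 0 < ⟪h, y⟫ → 0 < ⟪h, z⟫ → y ≠ -z := by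
    intro y z py pz he
    rw [he, inner_neg_right] at py
    linarith
  by_cases hyz : y = z
  · subst hyz
    have h1 := inner_gt_neg_one hx hy (hnn px py)
    rw [Complex.mem_slitPlane_iff]
    left
    simp only [zc]
    rw [inner_self_one hy, real_inner_comm x y]
    linarith
  · have := slit_of_not_mem (z := -x) (by rwa [norm_neg]) hy hz hyz (hnn py pz) (fun hm => by
      have := arc_pos py pz hm
      rw [inner_neg_right] at this
      linarith)
    rwa [neg_neg] at this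

theorem za_def (a b c : E3) : ((zc a b c).arg : Real.Angle) = za a b c := rfl

theorem E4_int {a b u v : E3} (ha : ‖a‖ = 1) (hb : ‖b‖ = 1) (hu : ‖u‖ = 1) (hv : ‖v‖ = 1)
    (h1 : zc b u v ∈ Complex.slitPlane) (h2 : zc a u v ∈ Complex.slitPlane)
    (h3 : zc a b v ∈ Complex.slitPlane) (h4 : zc a b u ∈ Complex.slitPlane)
    (hau : a ≠ -u) (hbv : b ≠ -v) : ∃ k : ℤ, E4 a b u v = 4 * Real.pi * k := by
  have hf := za_flip ha hb hu hv hau hbv (Complex.slitPlane_ne_zero h4)
    (Complex.slitPlane_ne_zero h2) (Complex.slitPlane_ne_zero h1) (Complex.slitPlane_ne_zero h3)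
  simp only [← za_def] at hf
  rw [← Real.Angle.coe_add, ← Real.Angle.coe_add, Real.Angle.angle_eq_iff_two_pi_dvd_sub] at hf
  obtain ⟨k, hk⟩ := hf
  refine ⟨-k, ?_⟩
  unfold E4 Om
  push_cast
  linarith

theorem inner_seg_pos {h x : E3} (hh : ‖h‖ = 1) (px : 0 < ⟪h, x⟫) {t : ℝ} (h0 : 0 ≤ t)
    (h1 : t ≤ 1) : 0 < ⟪h, (1 - t) • x + t • h⟫ := by
  rw [inner_add_right, real_inner_smul_right, real_inner_smul_right, inner_self_one hh]
  rcases h0.eq_or_lt with h' | h'
  · rw [← h']; linarith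
  · have h1' : 0 ≤ 1 - t := by linarith
    have : 0 ≤ (1 - t) * ⟪h, x⟫ := mul_nonneg h1' px.le
    linarith

/-- four points in an open hemisphere have defect zero. -/
theorem E4_hemi {a b u v h : E3} (ha : ‖a‖ = 1) (hb : ‖b‖ = 1) (hu : ‖u‖ = 1) (hv : ‖v‖ = 1)
    (hh : ‖h‖ = 1) (pa : 0 < ⟪h, a⟫) (pb : 0 < ⟪h, b⟫) (pu : 0 < ⟪h, u⟫) (pv : 0 < ⟪h, v⟫) :
    E4 a b u v = 0 := by
  obtain ⟨f, hf⟩ : ∃ f : E3 → ℝ → E3, f = fun x t => nrm ((1 - t) • x + t • h) := ⟨_, rfl⟩
  have hne : ∀ x, 0 < ⟪h, x⟫ → ∀ t ∈ Set.Icc (0 : ℝ) 1, (1 - t) • x + t • h ≠ 0 := by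
    intro x px t ht h0
    have := inner_seg_pos hh px ht.1 ht.2
    rw [h0, inner_zero_right] at this
    exact lt_irrefl _ this
  have hfn : ∀ x, 0 < ⟪h, x⟫ → ∀ t ∈ Set.Icc (0 : ℝ) 1, ‖f x t‖ = 1 := by
    intro x px t ht
    rw [hf]
    exact norm_nrm (hne x px t ht)
  have hfp : ∀ x, 0 < ⟪h, x⟫ → ∀ t ∈ Set.Icc (0 : ℝ) 1, 0 < ⟪h, f x t⟫ := by
    intro x px t ht
    rw [hf]
    simp only
    rw [inner_nrm]
    have h1 := norm_pos_iff.mpr (hne x px t ht)
    have h2 := inner_seg_pos hh px ht.1 ht.2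
    positivity
  have hfc : ∀ x, 0 < ⟪h, x⟫ → ContinuousOn (f x) (Set.Icc (0 : ℝ) 1) := by
    intro x px t ht
    rw [hf]
    apply ContinuousAt.continuousWithinAt
    have h1 : ContinuousAt (fun t : ℝ => (1 - t) • x + t • h) t := by fun_prop
    exact (continuousAt_nrm (hne x px t ht)).comp_of_eq h1 rfl
  have hs : ∀ x y z, 0 < ⟪h, x⟫ → 0 < ⟪h, y⟫ → 0 < ⟪h, z⟫ → ∀ t ∈ Set.Icc (0 : ℝ) 1,
      zc (f x t) (f y t) (f z t) ∈ Complex.slitPlane := by
    intro x y z px py pz t ht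
    exact slit_hemi (hfn x px t ht) (hfn y py t ht) (hfn z pz t ht) (hfp x px t ht)
      (hfp y py t ht) (hfp z pz t ht)
  have hnn : ∀ {y z : E3}, 0 < ⟪h, y⟫ → 0 < ⟪h, z⟫ → y ≠ -z := by
    intro y z py pz he
    rw [he, inner_neg_right] at py
    linarith
  have hint : ∀ t ∈ Set.Icc (0 : ℝ) 1, ∃ k : ℤ, E4 (f a t) (f b t) (f u t) (f v t)
      = 4 * Real.pi * k := by
    intro t ht
    exact E4_int (hfn a pa t ht) (hfn b pb t ht) (hfn u pu t ht) (hfn v pv t ht)
      (hs b u v pb pu pv t ht) (hs a u v pa pu pv t ht) (hs a b v pa pb pv t ht)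
      (hs a b u pa pb pu t ht) (hnn (hfp a pa t ht) (hfp u pu t ht))
      (hnn (hfp b pb t ht) (hfp v pv t ht))
  have key := const_of_int (isPreconnected_Icc (a := (0 : ℝ)) (b := 1))
    (f := fun t => E4 (f a t) (f b t) (f u t) (f v t)) (by
      unfold E4
      intro t ht
      have c : ∀ x y z, 0 < ⟪h, x⟫ → 0 < ⟪h, y⟫ → 0 < ⟪h, z⟫ →
          ContinuousWithinAt (fun t => Om (f x t) (f y t) (f z t)) (Set.Icc (0 : ℝ) 1) t :=
        fun x y z px py pz => continuousWithinAt_Om (hfc x px t ht) (hfc y py t ht)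
          (hfc z pz t ht) (hs x y z px py pz t ht)
      exact (((c b u v pb pu pv).sub (c a u v pa pu pv)).add (c a b v pa pb pv)).sub
        (c a b u pa pb pu)) (c := 4 * Real.pi) (by positivity) (by
      intro s hs' t ht'
      obtain ⟨k1, hk1⟩ := hint s hs'
      obtain ⟨k2, hk2⟩ := hint t ht'
      refine ⟨k1 - k2, ?_⟩
      rw [hk1, hk2]
      push_cast
      ring) (Set.left_mem_Icc.mpr zero_le_one) (Set.right_mem_Icc.mpr zero_le_one)
  have e0 : ∀ x, ‖x‖ = 1 → f x 0 = x := by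
    intro x hx
    rw [hf]; simp only
    rw [sub_zero, one_smul, zero_smul, add_zero, nrm_unit hx]
  have e1 : ∀ x, f x 1 = h := by
    intro x
    rw [hf]; simp only
    rw [sub_self, zero_smul, one_smul, zero_add, nrm_unit hh]
  rw [e0 a ha, e0 b hb, e0 u hu, e0 v hv, e1, e1, e1, e1] at key
  rw [key]
  unfold E4
  ring

theorem exists_dual {x y z : E3} (h : det3 x y z ≠ 0) :
    ∃ g : E3, ⟪g, x⟫ = 1 ∧ ⟪g, y⟫ = 1 ∧ ⟪g, z⟫ = 1 := by
  refine ⟨(det3 x y z)⁻¹ • (crs y z + crs z x + crs x y), ?_, ?_, ?_⟩ <;>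
  · rw [real_inner_smul_left, inner_add_left, inner_add_left, crs_inner, crs_inner, crs_inner,
      inv_mul_eq_one₀ h]
    simp only [det3]; ring

theorem pluecker (a b u v : E3) : det3 b u v • a - det3 a u v • b + det3 a b v • u
    - det3 a b u • v = 0 := by
  ext i
  fin_cases i <;> simp [det3] <;> ring

theorem arc_of_comb {a u v : E3} (ha : ‖a‖ = 1) {c1 c2 c3 : ℝ} (h1 : 0 < c1)
    (h2 : 0 ≤ c2) (h3 : 0 ≤ c3) (h : c1 • a + c2 • u + c3 • v = 0) : -a ∈ arc u v := by
  rw [mem_arc_iff (by rwa [norm_neg])]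
  refine ⟨c1⁻¹ * c2, c1⁻¹ * c3, by positivity, by positivity, ?_⟩
  have h4 : c1 • a = -(c2 • u + c3 • v) := by
    rw [add_assoc] at h
    exact eq_neg_of_add_eq_zero_left h
  have h5 : a = - ((c1⁻¹ * c2) • u + (c1⁻¹ * c3) • v) := by
    rw [mul_smul, mul_smul, ← smul_add, ← smul_neg, ← h4, smul_smul, inv_mul_cancel₀ h1.ne',
      one_smul]
  rw [h5, neg_neg]

theorem not_slit_arc {a u v : E3} (hu : ‖u‖ = 1) (hv : ‖v‖ = 1) (huv : u ≠ -v)
    (h : -a ∈ arc u v) : zc a u v ∉ Complex.slitPlane := by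
  have := not_slit_of_mem hu hv huv h
  rwa [neg_neg] at this

/-- sign of the defect, positive case. -/
theorem E4_pos {a b u v : E3} (ha : ‖a‖ = 1) (hb : ‖b‖ = 1) (hu : ‖u‖ = 1) (hv : ‖v‖ = 1)
    (h1 : zc b u v ∈ Complex.slitPlane) (h2 : zc a u v ∈ Complex.slitPlane)
    (h3 : zc a b v ∈ Complex.slitPlane) (h4 : zc a b u ∈ Complex.slitPlane)
    (hau : a ≠ -u) (hbv : b ≠ -v) (huv : u ≠ -v) (hE : 0 < E4 a b u v) :
    0 < det3 b u v ∧ det3 a u v < 0 := by
  obtain ⟨k, hk⟩ := E4_int ha hb hu hv h1 h2 h3 h4 hau hbv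
  have hpi := Real.pi_pos
  have hk1 : (0 : ℝ) < k := by
    rw [hk] at hE
    by_contra hcon
    push Not at hcon
    have := mul_nonpos_of_nonneg_of_nonpos (by positivity : (0 : ℝ) ≤ 4 * Real.pi) hcon
    linarith
  have hk2 : (0 : ℤ) < k := by exact_mod_cast hk1
  have hk3 : (1 : ℝ) ≤ k := by exact_mod_cast hk2
  have hE4 : 4 * Real.pi ≤ E4 a b u v := by
    rw [hk]; nlinarith
  have t1 := Om_lt h1
  have t2 := Om_lt h2
  have t3 := Om_lt h3
  have t4 := Om_lt h4
  have s1 := Om_pos_iff h1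
  have s3 := Om_pos_iff h3
  have s2 := Om_neg_iff a u v
  have s4 := Om_neg_iff a b u
  have hpl := pluecker a b u v
  have hEd : E4 a b u v = Om b u v - Om a u v + Om a b v - Om a b u := rfl
  have hfin : ∀ g : E3, 0 < ⟪g, a⟫ → 0 < ⟪g, b⟫ → 0 < ⟪g, u⟫ → 0 < ⟪g, v⟫ → False := by
    intro g ga gb gu gv
    have hg0 : g ≠ 0 := by
      rintro rfl
      rw [inner_zero_left] at ga
      exact lt_irrefl _ ga
    have hgp : 0 < ‖g‖⁻¹ := inv_pos.mpr (norm_pos_iff.mpr hg0)
    have := E4_hemi (h := nrm g) ha hb hu hv (norm_nrm hg0)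
      (by unfold nrm; rw [real_inner_smul_left]; positivity)
      (by unfold nrm; rw [real_inner_smul_left]; positivity)
      (by unfold nrm; rw [real_inner_smul_left]; positivity)
      (by unfold nrm; rw [real_inner_smul_left]; positivity)
    linarith
  have hin : ∀ g : E3, det3 b u v * ⟪g, a⟫ - det3 a u v * ⟪g, b⟫ + det3 a b v * ⟪g, u⟫
      - det3 a b u * ⟪g, v⟫ = 0 := by
    intro g
    have := congrArg (fun x : E3 => ⟪g, x⟫) hpl
    simp only [inner_sub_right, inner_add_right, real_inner_smul_right, inner_zero_right] at this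
    linarith
  constructor
  · by_contra hcon
    have c1 : ¬ 0 < Om b u v := by rw [s1]; exact hcon
    push Not at hcon c1
    have q2 : Om a u v < 0 := by linarith
    have q3 : 0 < Om a b v := by linarith
    have q4 : Om a b u < 0 := by linarith
    have r2 := s2.mp q2
    have r3 := s3.mp q3
    have r4 := s4.mp q4
    rcases hcon.eq_or_lt with c0 | c0
    · rw [c0] at hpl
      refine not_slit_arc hu hv huv (arc_of_comb hb (c1 := - det3 a u v)
        (c2 := det3 a b v) (c3 := - det3 a b u) (by linarith) r3.le (by linarith) ?_) h1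
      rw [neg_smul, neg_smul, ← hpl, zero_smul]
      abel
    · obtain ⟨g, g1, g2, g3⟩ := exists_dual c0.ne
      have hga := hin g
      rw [g1, g2, g3] at hga
      apply hfin g _ (by rw [g1]; exact one_pos) (by rw [g2]; exact one_pos)
        (by rw [g3]; exact one_pos)
      by_contra hneg
      push Not at hneg
      have := mul_nonneg_of_nonpos_of_nonpos c0.le hneg
      linarith
  · by_contra hcon
    have c1 : ¬ Om a u v < 0 := by rw [s2]; exact hcon
    push Not at hcon c1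
    have q1 : 0 < Om b u v := by linarith
    have q3 : 0 < Om a b v := by linarith
    have q4 : Om a b u < 0 := by linarith
    have r1 := s1.mp q1
    have r3 := s3.mp q3
    have r4 := s4.mp q4
    rcases hcon.eq_or_lt with c0 | c0
    · rw [← c0] at hpl
      refine not_slit_arc hu hv huv (arc_of_comb ha (c1 := det3 b u v)
        (c2 := det3 a b v) (c3 := - det3 a b u) r1 r3.le (by linarith) ?_) h2
      rw [neg_smul, ← hpl, zero_smul]
      abel
    · obtain ⟨g, g1, g2, g3⟩ := exists_dual c0.ne'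
      have hga := hin g
      rw [g1, g2, g3] at hga
      apply hfin g (by rw [g1]; exact one_pos) _ (by rw [g2]; exact one_pos)
        (by rw [g3]; exact one_pos)
      by_contra hneg
      push Not at hneg
      have := mul_nonpos_of_nonneg_of_nonpos c0.le hneg
      linarith

theorem E4_swap {a b u v : E3} (h3 : zc a b v ∈ Complex.slitPlane)
    (h4 : zc a b u ∈ Complex.slitPlane) : E4 b a u v = - E4 a b u v := by
  have e : ∀ {w : E3}, zc a b w ∈ Complex.slitPlane → Om b a w = - Om a b w := by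
    intro w hw
    have h1 : Om b a w = Om a w b := by
      unfold Om; rw [← zc_rot b a w]
    rw [h1]
    exact Om_swap hw
  unfold E4
  rw [e h3, e h4]
  ring

theorem slit_swap12 {a b w : E3} (h : zc a b w ∈ Complex.slitPlane) :
    zc b a w ∈ Complex.slitPlane := by
  rw [← zc_rot, zc_swap]
  rw [Complex.mem_slitPlane_iff] at h ⊢
  simpa using h

/-- X4: sign of the defect. -/
theorem E4_sign {a b u v : E3} (ha : ‖a‖ = 1) (hb : ‖b‖ = 1) (hu : ‖u‖ = 1) (hv : ‖v‖ = 1)
    (h1 : zc b u v ∈ Complex.slitPlane) (h2 : zc a u v ∈ Complex.slitPlane)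
    (h3 : zc a b v ∈ Complex.slitPlane) (h4 : zc a b u ∈ Complex.slitPlane)
    (hau : a ≠ -u) (hav : a ≠ -v) (hbu : b ≠ -u) (hbv : b ≠ -v) (huv : u ≠ -v) :
    E4 a b u v = 0 ∨ (0 < E4 a b u v ∧ 0 < det3 b u v ∧ det3 a u v < 0)
      ∨ (E4 a b u v < 0 ∧ det3 b u v < 0 ∧ 0 < det3 a u v) := by
  rcases lt_trichotomy (E4 a b u v) 0 with h | h | h
  · right; right
    have h' : 0 < E4 b a u v := by rw [E4_swap h3 h4]; linarith
    have := E4_pos hb ha hu hv h2 h1 (slit_swap12 h3) (slit_swap12 h4) hbu hav huv h'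
    exact ⟨h, this.2, this.1⟩
  · left; exact h
  · right; left
    exact ⟨h, E4_pos ha hb hu hv h1 h2 h3 h4 hau hbv huv h⟩

end Pool.Agent.Helper30.N9
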