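import Pool.Agent.Helper30.N9.Tiling2
import Pool.Agent.Helper30.N9.Hemi

open scoped RealInnerProductSpace Topology

namespace Pool.Agent.Helper30.N9

/-- An embedded oriented complex of geodesic arcs on the sphere, with cells. -/
structure Cx (U D C : Type) [Fintype U] [DecidableEq U] [Fintype D] [DecidableEq D]
    [Fintype C] [DecidableEq C] where
  p : U → E3
  fst : D → U
  snd : D → U
  rev : D → D
  left : D → C
  unit : ∀ u, ‖p u‖ = 1
  inj : Function.Injective p
  rev_rev : ∀ d, rev (rev d) = d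
  fst_rev : ∀ d, fst (rev d) = snd d
  ne : ∀ d, fst d ≠ snd d
  nn : ∀ d, p (fst d) ≠ - p (snd d)
  closed : ∀ c u, (Finset.univ.filter (fun d => left d = c ∧ snd d = u)).card
    = (Finset.univ.filter (fun d => left d = c ∧ fst d = u)).card
  surj : Function.Surjective left
  inc : ∀ u, ∃ d, fst d = u
  lr : ∀ d, left d ≠ left (rev d)
  embed : ∀ d e, e ≠ d → e ≠ rev d → ∀ x ∈ arc (p (fst d)) (p (snd d)),
    x ∈ arc (p (fst e)) (p (snd e)) → x = p (fst d) ∨ x = p (snd d)
  vert : ∀ u d, p u ∈ arc (p (fst d)) (p (snd d)) → u = fst d ∨ u = snd d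
  hc : C → E3
  cen : ∀ c, Centre (Finset.univ.filter (fun d => left d = c)) (fun d => p (fst d))
    (fun d => p (snd d)) (hc c)
  w01 : ∀ c z, ‖z‖ = 1 → (∀ d, z ∉ arc (p (fst d)) (p (snd d))) →
    W (Finset.univ.filter (fun d => left d = c)) (fun d => p (fst d))
      (fun d => p (snd d)) (hc c) z = 0 ∨
    W (Finset.univ.filter (fun d => left d = c)) (fun d => p (fst d))
      (fun d => p (snd d)) (hc c) z = 1
  wsum : ∀ z, ‖z‖ = 1 → (∀ d, z ∉ arc (p (fst d)) (p (snd d))) →
    ∑ c, W (Finset.univ.filter (fun d => left d = c)) (fun d => p (fst d))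
      (fun d => p (snd d)) (hc c) z = 1

namespace Cx

variable {U D C : Type} [Fintype U] [DecidableEq U] [Fintype D] [DecidableEq D]
    [Fintype C] [DecidableEq C] (X : Cx U D C)

/-- darts of a cell -/
def cd (c : C) : Finset D := Finset.univ.filter (fun d => X.left d = c)

def qa (d : D) : E3 := X.p (X.fst d)
def qb (d : D) : E3 := X.p (X.snd d)

theorem mem_cd {c : C} {d : D} : d ∈ X.cd c ↔ X.left d = c := by simp [cd]

theorem snd_rev (d : D) : X.snd (X.rev d) = X.fst d := by
  rw [← X.fst_rev, X.rev_rev]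

/-- winding number -/
noncomputable def w (c : C) (z : E3) : ℝ := W (X.cd c) X.qa X.qb (X.hc c) z

def Offa (z : E3) : Prop := ∀ d, z ∉ arc (X.qa d) (X.qb d)

variable {X}

theorem qne (d : D) : X.qa d ≠ X.qb d := fun h => X.ne d (X.inj h)

theorem sum_closed {A : Type*} [AddCommMonoid A] (c : C) (g : U → A) :
    ∑ d ∈ X.cd c, g (X.snd d) = ∑ d ∈ X.cd c, g (X.fst d) := by
  have h1 : ∀ f : D → U, ∑ d ∈ X.cd c, g (f d)
      = ∑ u : U, (Finset.univ.filter (fun d => X.left d = c ∧ f d = u)).card • g u := by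
    intro f
    rw [← Finset.sum_fiberwise (X.cd c) f]
    apply Finset.sum_congr rfl
    intro u _
    rw [← Finset.sum_const]
    apply Finset.sum_congr
    · ext d
      simp [cd]
    · intro d hd
      rw [Finset.mem_filter] at hd
      rw [hd.2.2]
  rw [h1, h1]
  apply Finset.sum_congr rfl
  intro u _
  rw [X.closed c u]

theorem chain (c : C) : Chain (X.cd c) X.qa X.qb where
  ua := fun _ _ => X.unit _
  ub := fun _ _ => X.unit _
  ne := fun i _ => qne i
  nn := fun i _ => X.nn i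
  closed := fun g => sum_closed c (fun u => g (X.p u))

theorem sum_cells {A : Type*} [AddCommMonoid A] (f : D → A) :
    ∑ c : C, ∑ d ∈ X.cd c, f d = ∑ d : D, f d := by
  unfold cd
  exact Finset.sum_fiberwise Finset.univ X.left f

theorem sum_rev {A : Type*} [AddCommMonoid A] (f : D → A) :
    ∑ d : D, f (X.rev d) = ∑ d : D, f d :=
  Finset.sum_bij' (fun d _ => X.rev d) (fun d _ => X.rev d) (by simp) (by simp)
    (by intro d _; exact X.rev_rev d) (by intro d _; exact X.rev_rev d) (by simp)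

theorem off_ne {z : E3} (h : X.Offa z) (u : U) : z ≠ X.p u := by
  obtain ⟨d, hd⟩ := X.inc u
  rintro rfl
  apply h d
  unfold qa
  rw [hd]
  exact left_mem_arc (X.unit u)

theorem w_cases {z : E3} (hz : ‖z‖ = 1) (ho : X.Offa z) (c : C) :
    X.w c z = 0 ∨ X.w c z = 1 := X.w01 c z hz ho

theorem w_sum {z : E3} (hz : ‖z‖ = 1) (ho : X.Offa z) : ∑ c, X.w c z = 1 := X.wsum z hz ho

theorem w_unique {z : E3} (hz : ‖z‖ = 1) (ho : X.Offa z) {c : C} (hc : X.w c z = 1) :
    ∀ c', c' ≠ c → X.w c' z = 0 := by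
  intro c' hc'
  rcases w_cases hz ho c' with h1 | h1
  · exact h1
  · exfalso
    have h2 : ∀ x, 0 ≤ X.w x z := fun x => by
      rcases w_cases hz ho x with h | h <;> rw [h] <;> norm_num
    have h4 : X.w c z + X.w c' z ≤ ∑ x, X.w x z := by
      rw [← Finset.sum_pair (f := fun x => X.w x z) hc'.symm]
      exact Finset.sum_le_sum_of_subset_of_nonneg (Finset.subset_univ _) (fun x _ _ => h2 x)
    rw [hc, h1, w_sum hz ho] at h4
    norm_num at h4

theorem exists_cell {z : E3} (hz : ‖z‖ = 1) (ho : X.Offa z) : ∃ c, X.w c z = 1 := by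
  by_contra hcon
  push Not at hcon
  have h1 : ∀ c, X.w c z = 0 := fun c => (w_cases hz ho c).resolve_right (hcon c)
  have h2 := w_sum hz ho
  rw [Finset.sum_eq_zero (fun c _ => h1 c)] at h2
  norm_num at h2

theorem sum_w_smul {z : E3} (hz : ‖z‖ = 1) (ho : X.Offa z) {c : C} (hc : X.w c z = 1)
    (x : C → E3) : ∑ c', X.w c' z • x c' = x c := by
  rw [Finset.sum_eq_single c]
  · rw [hc, one_smul]
  · intro c' _ hc'
    rw [w_unique hz ho hc c' hc', zero_smul]
  · intro h
    exact absurd (Finset.mem_univ c) h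

/-- slit conditions -/
theorem slit_d {z : E3} (hz : ‖z‖ = 1) (ho : X.Offa z) (d : D) :
    zc (-z) (X.qa d) (X.qb d) ∈ Complex.slitPlane :=
  slit_of_not_mem hz (X.unit _) (X.unit _) (qne d) (X.nn d) (ho d)

theorem slit_gen {z z' : E3} (hz : ‖z‖ = 1) (hz' : ‖z'‖ = 1) (ho' : X.Offa z') (u : U)
    (hg : z ≠ -X.p u → det3 (X.p u) z z' ≠ 0) :
    zc (-z) (-z') (X.p u) ∈ Complex.slitPlane := by
  by_cases h : z = -X.p u
  · rw [h, neg_neg, Complex.mem_slitPlane_iff]
    left
    simp only [zc]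
    rw [inner_neg_left, inner_neg_right, inner_self_one (X.unit u), real_inner_comm]
    have h1 := inner_lt_one hz' (X.unit u) (off_ne ho' u)
    linarith
  · rw [Complex.mem_slitPlane_iff]
    right
    have h1 := hg h
    simp only [zc]
    intro h2
    apply h1
    rw [← h2]
    simp only [det3, PiLp.neg_apply]
    ring

/-- the jump formula -/
theorem jump {z z' : E3} (hz : ‖z‖ = 1) (hz' : ‖z'‖ = 1) (ho : X.Offa z) (ho' : X.Offa z')
    (hg : ∀ u, z ≠ -X.p u → det3 (X.p u) z z' ≠ 0) (x : C → E3) :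
    ∑ c, X.w c z' • x c - ∑ c, X.w c z • x c
      = -(8 * Real.pi)⁻¹ • ∑ d, E4 (-z) (-z') (X.qa d) (X.qb d)
        • (x (X.left d) - x (X.left (X.rev d))) := by
  have hpi := Real.pi_pos
  obtain ⟨g, hgd⟩ : ∃ g : U → ℝ, g = fun u => Om (-z) (-z') (X.p u) := ⟨_, rfl⟩
  -- rewrite the left side
  have e1 : ∑ c, X.w c z' • x c - ∑ c, X.w c z • x c
      = (4 * Real.pi)⁻¹ • ∑ d, (Om (-z) (X.qa d) (X.qb d) - Om (-z') (X.qa d) (X.qb d))
        • x (X.left d) := by
    rw [← Finset.sum_sub_distrib, ← sum_cells (X := X), Finset.smul_sum]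
    apply Finset.sum_congr rfl
    intro c _
    have : ∑ d ∈ X.cd c, (Om (-z) (X.qa d) (X.qb d) - Om (-z') (X.qa d) (X.qb d))
        • x (X.left d) = (SA (X.cd c) X.qa X.qb (-z) - SA (X.cd c) X.qa X.qb (-z')) • x c := by
      unfold SA
      rw [← Finset.sum_sub_distrib, Finset.sum_smul]
      apply Finset.sum_congr rfl
      intro d hd
      rw [X.mem_cd.mp hd]
    rw [this, ← sub_smul, smul_smul]
    congr 1
    unfold w W
    field_simp
    ring
  have e2 : ∑ d, (Om (-z) (X.qa d) (X.qb d) - Om (-z') (X.qa d) (X.qb d)) • x (X.left d)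
      = - ∑ d, E4 (-z) (-z') (X.qa d) (X.qb d) • x (X.left d) := by
    have e3 : ∑ d, (g (X.snd d) - g (X.fst d)) • x (X.left d) = 0 := by
      rw [← sum_cells (X := X)]
      apply Finset.sum_eq_zero
      intro c _
      have : ∑ d ∈ X.cd c, (g (X.snd d) - g (X.fst d)) • x (X.left d)
          = (∑ d ∈ X.cd c, g (X.snd d) - ∑ d ∈ X.cd c, g (X.fst d)) • x c := by
        rw [← Finset.sum_sub_distrib, Finset.sum_smul]
        apply Finset.sum_congr rfl
        intro d hd
        rw [X.mem_cd.mp hd]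
      rw [this, sum_closed, sub_self, zero_smul]
    have e4 : ∑ d, (Om (-z) (X.qa d) (X.qb d) - Om (-z') (X.qa d) (X.qb d)) • x (X.left d)
        + ∑ d, E4 (-z) (-z') (X.qa d) (X.qb d) • x (X.left d)
        = ∑ d, (g (X.snd d) - g (X.fst d)) • x (X.left d) := by
      rw [← Finset.sum_add_distrib]
      apply Finset.sum_congr rfl
      intro d _
      rw [← add_smul]
      congr 1
      rw [hgd]
      unfold E4 qa qb
      ring
    rw [e3] at e4
    exact eq_neg_of_add_eq_zero_left e4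
  have e5 : ∀ d, E4 (-z) (-z') (X.qa (X.rev d)) (X.qb (X.rev d))
      = - E4 (-z) (-z') (X.qa d) (X.qb d) := by
    intro d
    have h1 := Om_swap (slit_d hz ho d)
    have h2 := Om_swap (slit_d hz' ho' d)
    have q1 : X.qa (X.rev d) = X.qb d := by unfold qa qb; rw [X.fst_rev]
    have q2 : X.qb (X.rev d) = X.qa d := by unfold qa qb; rw [X.snd_rev]
    unfold E4
    rw [q1, q2, h1, h2]
    ring
  have e6 : ∑ d, E4 (-z) (-z') (X.qa d) (X.qb d) • x (X.left (X.rev d))
      = - ∑ d, E4 (-z) (-z') (X.qa d) (X.qb d) • x (X.left d) := by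
    rw [← sum_rev (X := X) (fun d => E4 (-z) (-z') (X.qa d) (X.qb d) • x (X.left (X.rev d))),
      ← Finset.sum_neg_distrib]
    apply Finset.sum_congr rfl
    intro d _
    rw [e5, X.rev_rev, neg_smul]
  rw [e1, e2]
  simp only [smul_sub]
  rw [Finset.sum_sub_distrib, e6, sub_neg_eq_add, ← two_smul ℝ, smul_smul, smul_neg, neg_mul,
    neg_smul]
  congr 2
  field_simp
  ring

end Cx

/-- a generic point of an open set -/
theorem exists_generic (s : Finset E3) (hs : ∀ n ∈ s, n ≠ 0) {O : Set E3} (hO : IsOpen O)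
    (hne : O.Nonempty) : ∃ y ∈ O, ∀ n ∈ s, ⟪n, y⟫ ≠ 0 := by
  classical
  induction s using Finset.induction_on generalizing O with
  | empty => obtain ⟨y, hy⟩ := hne; exact ⟨y, hy, by simp⟩
  | insert n s _ ih =>
    have hn : n ≠ 0 := hs n (Finset.mem_insert_self _ _)
    have hO' : IsOpen (O ∩ {y | ⟪n, y⟫ ≠ 0}) := by
      apply hO.inter
      have : Continuous (fun y : E3 => ⟪n, y⟫) := by fun_prop
      exact isOpen_ne.preimage this
    have hne' : (O ∩ {y | ⟪n, y⟫ ≠ 0}).Nonempty := by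
      obtain ⟨y, hy⟩ := hne
      by_cases h0 : ⟪n, y⟫ = 0
      · obtain ⟨τ, hτ, hm⟩ := PlaneGraph.exists_left (n := n) (hO.mem_nhds hy)
        refine ⟨y + τ • n, hm, ?_⟩
        show ⟪n, y + τ • n⟫ ≠ 0
        rw [inner_add_right, real_inner_smul_right, h0, zero_add, real_inner_self_eq_norm_sq]
        have := norm_pos_iff.mpr hn
        positivity
      · exact ⟨y, hy, h0⟩
    obtain ⟨y, hy, hy'⟩ := ih (fun m hm => hs m (Finset.mem_insert_of_mem hm)) hO' hne'
    refine ⟨y, hy.1, fun m hm => ?_⟩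
    rcases Finset.mem_insert.mp hm with rfl | h
    · exact hy.2
    · exact hy' m h

end Pool.Agent.Helper30.N9
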