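import Pool.Agent.Helper30.N9.Wind2

open scoped RealInnerProductSpace Topology

namespace Pool.Agent.Helper30.N9

variable {ι : Type*}

theorem det3_add_right (a b c d : E3) : det3 a b (c + d) = det3 a b c + det3 a b d := by
  simp only [det3, PiLp.add_apply]; ring

theorem det3_smul_right (a b c : E3) (t : ℝ) : det3 a b (t • c) = t * det3 a b c := by
  simp only [det3, PiLp.smul_apply, smul_eq_mul]; ring

theorem det3_sub_right (a b c d : E3) : det3 a b (c - d) = det3 a b c - det3 a b d := by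
  simp only [det3, PiLp.sub_apply]; ring

theorem det3_neg_right (a b c : E3) : det3 a b (-c) = - det3 a b c := by
  simp only [det3, PiLp.neg_apply]; ring

theorem det3_crs (a b : E3) : det3 a b (crs a b) = ⟪crs a b, crs a b⟫ := by
  rw [crs_inner]

theorem crs_pos {u v : E3} (hu : ‖u‖ = 1) (hv : ‖v‖ = 1) (huv : u ≠ v) (huv' : u ≠ -v) :
    0 < ⟪crs u v, crs u v⟫ := by
  rw [crs_inner_self, inner_self_one hu, inner_self_one hv]
  have h1 := inner_gt_neg_one hu hv huv'
  have h2 := inner_lt_one hu hv huv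
  nlinarith

theorem det3_nrm (a b y : E3) : det3 a b (nrm y) = ‖y‖⁻¹ * det3 a b y := by
  unfold nrm; rw [det3_smul_right]

theorem continuous_det3 (a b : E3) : Continuous (fun y => det3 a b y) := by
  unfold det3; fun_prop

theorem convex_det_pos (a b : E3) : Convex ℝ {y | 0 < det3 a b y} := by
  intro x hx y hy α β hα hβ hαβ
  simp only [Set.mem_ofPred_eq] at hx hy ⊢
  rw [det3_add_right, det3_smul_right, det3_smul_right]
  rcases hα.eq_or_lt with h | h
  · have : β = 1 := by linarith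
    rw [← h, this]; linarith
  · have := mul_pos h hx
    have := mul_nonneg hβ hy.le
    linarith

theorem convex_det_neg (a b : E3) : Convex ℝ {y | det3 a b y < 0} := by
  intro x hx y hy α β hα hβ hαβ
  simp only [Set.mem_ofPred_eq] at hx hy ⊢
  rw [det3_add_right, det3_smul_right, det3_smul_right]
  rcases hα.eq_or_lt with h | h
  · have : β = 1 := by linarith
    rw [← h, this]; linarith
  · have := mul_neg_of_pos_of_neg h hx
    have := mul_nonpos_of_nonneg_of_nonpos hβ hy.le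
    linarith

/-- points with non zero determinant are off the arc -/
theorem not_mem_arc_of_det {u v y : E3} (h : det3 u v y ≠ 0) : nrm y ∉ arc u v := by
  rintro ⟨_, s, t, _, _, he⟩
  have h1 : det3 u v (nrm y) = 0 := by
    rw [he, det3_add_right, det3_smul_right, det3_smul_right]
    simp only [det3]; ring
  rw [det3_nrm] at h1
  rcases mul_eq_zero.mp h1 with h2 | h2
  · rw [inv_eq_zero, norm_eq_zero] at h2
    rw [h2] at h
    apply h
    simp [det3]
  · exact h h2

theorem eventually_not_arc {u v x : E3} (hu : ‖u‖ = 1) (hv : ‖v‖ = 1) (huv : u ≠ v)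
    (huv' : u ≠ -v) (hx : x ≠ 0) (h : nrm x ∉ arc u v) :
    ∀ᶠ y in 𝓝 x, nrm y ∉ arc u v := by
  have h1 : zc (-nrm x) u v ∈ Complex.slitPlane :=
    slit_of_not_mem (norm_nrm hx) hu hv huv huv' h
  have h2 : ContinuousAt (fun y => zc (-nrm y) u v) x :=
    continuous_zc.continuousAt.comp (x := x) (f := fun y => (-nrm y, u, v))
      ((continuousAt_nrm hx).neg.prodMk (continuousAt_const.prodMk continuousAt_const))
  filter_upwards [h2 (Complex.isOpen_slitPlane.mem_nhds h1)] with y hy hm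
  exact not_slit_of_mem hu hv huv' hm hy

theorem span_det {u v y : E3} (hu : ‖u‖ = 1) (hv : ‖v‖ = 1) (huv : u ≠ v) (huv' : u ≠ -v)
    (h : det3 u v y = 0) :
    y = ((⟪y, u⟫ - ⟪u, v⟫ * ⟪y, v⟫) / (1 - ⟪u, v⟫ ^ 2)) • u
      + ((⟪y, v⟫ - ⟪u, v⟫ * ⟪y, u⟫) / (1 - ⟪u, v⟫ ^ 2)) • v := by
  apply det_zero_span hu hv huv huv'
  rw [← h]; unfold det3; ring

/-- limits of the area at a point of the arc. -/
theorem zc_neg_real {z u v : E3} (hz : ‖z‖ = 1) (hu : ‖u‖ = 1) (hv : ‖v‖ = 1)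
    (huv' : u ≠ -v) (h : z ∈ arc u v) (h1 : z ≠ u) (h2 : z ≠ v) :
    (zc (-z) u v).re < 0 ∧ (zc (-z) u v).im = 0 := by
  have h3 := not_slit_of_mem hu hv huv' h
  rw [Complex.mem_slitPlane_iff, not_or, not_lt, not_not] at h3
  refine ⟨lt_of_le_of_ne h3.1 ?_, h3.2⟩
  intro h4
  have h5 : zc (-z) u v = 0 := Complex.ext h4 h3.2
  refine zc_ne_zero (by rwa [norm_neg]) hu hv ?_ huv' ?_ h5
  · intro h; exact h1 (neg_injective h)
  · rw [neg_neg]; exact fun h => h2 h.symm

theorem im_zc (z u v : E3) : (zc (-z) u v).im = - det3 u v z := by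
  simp only [zc]
  rw [det3_neg_left, ← det3_rot]

/-- Local structure at an interior point of one arc of a chain. -/
theorem local1 {s : Finset ι} {a b : ι → E3} (hc : Chain s a b) {i0 : ι}
    (hi0 : i0 ∈ s) {x : E3} (hx : x ≠ 0) (hxm : nrm x ∈ arc (a i0) (b i0))
    (hxa : nrm x ≠ a i0) (hxb : nrm x ≠ b i0)
    (hoth : ∀ j ∈ s, j ≠ i0 → nrm x ∉ arc (a j) (b j)) (h : E3) :
    ∃ δ > 0, ∃ w : ℝ, ∀ y ∈ Metric.ball x δ, y ≠ 0
      ∧ (∀ j ∈ s, j ≠ i0 → nrm y ∉ arc (a j) (b j))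
      ∧ (det3 (a i0) (b i0) y = 0 → nrm y ∈ arc (a i0) (b i0))
      ∧ (0 < det3 (a i0) (b i0) y → Off s a b (nrm y) ∧ W s a b h (nrm y) = w + 1)
      ∧ (det3 (a i0) (b i0) y < 0 → Off s a b (nrm y) ∧ W s a b h (nrm y) = w) := by
  classical
  have ua := hc.ua i0 hi0
  have ub := hc.ub i0 hi0
  have hne := hc.ne i0 hi0
  have hnn := hc.nn i0 hi0
  obtain ⟨u, hu⟩ : ∃ u, u = a i0 := ⟨_, rfl⟩
  obtain ⟨v, hv⟩ : ∃ v, v = b i0 := ⟨_, rfl⟩
  rw [← hu, ← hv] at hxm hne hnn
  rw [← hu] at hxa ua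
  rw [← hv] at hxb ub
  rw [← hu, ← hv]
  -- coefficients
  have hk : 0 < 1 - ⟪u, v⟫ ^ 2 := by
    have h1 := inner_gt_neg_one ua ub hnn
    have h2 := inner_lt_one ua ub hne
    nlinarith
  have hdx : det3 u v x = 0 := by
    by_contra hcon
    exact not_mem_arc_of_det hcon hxm
  have hcoef : 0 < (⟪x, u⟫ - ⟪u, v⟫ * ⟪x, v⟫) / (1 - ⟪u, v⟫ ^ 2)
      ∧ 0 < (⟪x, v⟫ - ⟪u, v⟫ * ⟪x, u⟫) / (1 - ⟪u, v⟫ ^ 2) := by
    rw [nrm_mem_arc hx] at hxm
    obtain ⟨s', t', hs', ht', he⟩ := hxm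
    have hxu : ⟪x, u⟫ = s' + t' * ⟪u, v⟫ := by
      rw [he, inner_add_left, real_inner_smul_left, real_inner_smul_left,
        inner_self_one ua, real_inner_comm u v]; ring
    have hxv : ⟪x, v⟫ = s' * ⟪u, v⟫ + t' := by
      rw [he, inner_add_left, real_inner_smul_left, real_inner_smul_left,
        inner_self_one ub]; ring
    have e1 : (⟪x, u⟫ - ⟪u, v⟫ * ⟪x, v⟫) / (1 - ⟪u, v⟫ ^ 2) = s' := by
      rw [hxu, hxv, div_eq_iff hk.ne']; ring
    have e2 : (⟪x, v⟫ - ⟪u, v⟫ * ⟪x, u⟫) / (1 - ⟪u, v⟫ ^ 2) = t' := by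
      rw [hxu, hxv, div_eq_iff hk.ne']; ring
    rw [e1, e2]
    constructor
    · apply lt_of_le_of_ne hs'
      rintro rfl
      rw [zero_smul, zero_add] at he
      have ht0 : 0 < t' := by
        apply lt_of_le_of_ne ht'
        rintro rfl
        rw [zero_smul] at he
        exact hx he
      apply hxb
      rw [he, nrm_smul ht0, nrm_unit ub]
    · apply lt_of_le_of_ne ht'
      rintro rfl
      rw [zero_smul, add_zero] at he
      have ht0 : 0 < s' := by
        apply lt_of_le_of_ne hs'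
        rintro rfl
        rw [zero_smul] at he
        exact hx he
      apply hxa
      rw [he, nrm_smul ht0, nrm_unit ua]
  have ev1 : ∀ᶠ y in 𝓝 x, y ≠ 0 := isOpen_ne.mem_nhds hx
  have ev2 : ∀ᶠ y in 𝓝 x, ∀ j ∈ s.erase i0, nrm y ∉ arc (a j) (b j) := by
    rw [Filter.eventually_all_finset]
    intro j hj
    have hj' := Finset.mem_of_mem_erase hj
    exact eventually_not_arc (hc.ua j hj') (hc.ub j hj') (hc.ne j hj') (hc.nn j hj') hx
      (hoth j hj' (Finset.ne_of_mem_erase hj))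
  have ev3 : ∀ᶠ y in 𝓝 x, 0 < (⟪y, u⟫ - ⟪u, v⟫ * ⟪y, v⟫) / (1 - ⟪u, v⟫ ^ 2) := by
    have hcn : Continuous (fun y : E3 => (⟪y, u⟫ - ⟪u, v⟫ * ⟪y, v⟫) / (1 - ⟪u, v⟫ ^ 2)) := by
      fun_prop
    exact hcn.continuousAt.eventually (lt_mem_nhds hcoef.1)
  have ev4 : ∀ᶠ y in 𝓝 x, 0 < (⟪y, v⟫ - ⟪u, v⟫ * ⟪y, u⟫) / (1 - ⟪u, v⟫ ^ 2) := by
    have hcn : Continuous (fun y : E3 => (⟪y, v⟫ - ⟪u, v⟫ * ⟪y, u⟫) / (1 - ⟪u, v⟫ ^ 2)) := by
      fun_prop
    exact hcn.continuousAt.eventually (lt_mem_nhds hcoef.2)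
  obtain ⟨δ, hδ, hball⟩ := Metric.mem_nhds_iff.mp (ev1.and (ev2.and (ev3.and ev4)))
  -- the rest of the sum
  obtain ⟨R, hR⟩ : ∃ R : ℝ, R = ∑ j ∈ s.erase i0, Om (-nrm x) (a j) (b j) := ⟨_, rfl⟩
  have hsum : ∀ y, SA s a b (-nrm y) = Om (-nrm y) u v
      + ∑ j ∈ s.erase i0, Om (-nrm y) (a j) (b j) := by
    intro y
    unfold SA
    rw [← Finset.add_sum_erase s _ hi0, ← hu, ← hv]
  have hRc : ContinuousAt (fun y => ∑ j ∈ s.erase i0, Om (-nrm y) (a j) (b j)) x := by
    apply tendsto_finsetSum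
    intro j hj
    have hj' := Finset.mem_of_mem_erase hj
    exact continuousAt_Om (continuousAt_nrm hx).neg continuousAt_const continuousAt_const
      (slit_of_not_mem (norm_nrm hx) (hc.ua j hj') (hc.ub j hj') (hc.ne j hj') (hc.nn j hj')
      (hoth j hj' (Finset.ne_of_mem_erase hj)))
  have hzc := zc_neg_real (norm_nrm hx) ua ub hnn hxm hxa hxb
  have hzcc : ContinuousAt (fun y => zc (-nrm y) u v) x :=
    continuous_zc.continuousAt.comp (x := x) (f := fun y => (-nrm y, u, v))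
      ((continuousAt_nrm hx).neg.prodMk (continuousAt_const.prodMk continuousAt_const))
  have hoff : ∀ y ∈ Metric.ball x δ, det3 u v y ≠ 0 → Off s a b (nrm y) := by
    intro y hy hd j hj
    by_cases hji : j = i0
    · rw [hji, ← hu, ← hv]
      exact not_mem_arc_of_det hd
    · exact (hball hy).2.1 j (Finset.mem_erase.mpr ⟨hji, hj⟩)
  have hn := crs_pos ua ub hne hnn
  -- the curves
  have hcurve : ∀ σ : ℝ, Filter.Tendsto (fun τ : ℝ => x + (τ * σ) • crs u v) (𝓝[>] 0) (𝓝 x) := by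
    intro σ
    have h1 : Continuous (fun τ : ℝ => x + (τ * σ) • crs u v) := by fun_prop
    have h2 := h1.tendsto 0
    simp only [zero_mul, zero_smul, add_zero] at h2
    exact h2.mono_left nhdsWithin_le_nhds
  have hdet : ∀ σ τ : ℝ, det3 u v (x + (τ * σ) • crs u v)
      = τ * σ * ⟪crs u v, crs u v⟫ := by
    intro σ τ
    rw [det3_add_right, det3_smul_right, det3_crs, hdx, zero_add]
  have hSp : ∀ y ∈ Metric.ball x δ, 0 < det3 u v y →
      SA s a b (-nrm y) = -(2 * Real.pi) + R := by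
    intro y hy hdy
    have hconst : ∀ᶠ τ : ℝ in 𝓝[>] 0, SA s a b (-nrm (x + (τ * 1) • crs u v))
        = SA s a b (-nrm y) := by
      have h1 := (hcurve 1).eventually (Metric.ball_mem_nhds x hδ)
      filter_upwards [h1, self_mem_nhdsWithin] with τ h1 h2
      have h2' : 0 < τ := h2
      apply hc.constN (T := Metric.ball x δ ∩ {y | 0 < det3 u v y})
        ((convex_ball x δ).inter (convex_det_pos u v)).isPreconnected
      · intro z hz; exact (hball hz.1).1
      · intro z hz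
        exact hoff z hz.1 (ne_of_gt hz.2)
      · refine ⟨h1, ?_⟩
        simp only [Set.mem_ofPred_eq]
        rw [hdet]; positivity
      · exact ⟨hy, hdy⟩
    have hlim : Filter.Tendsto (fun τ : ℝ => SA s a b (-nrm (x + (τ * 1) • crs u v)))
        (𝓝[>] 0) (𝓝 (-(2 * Real.pi) + R)) := by
      have e : (fun τ : ℝ => SA s a b (-nrm (x + (τ * 1) • crs u v))) = fun τ =>
          Om (-nrm (x + (τ * 1) • crs u v)) u v
          + ∑ j ∈ s.erase i0, Om (-nrm (x + (τ * 1) • crs u v)) (a j) (b j) :=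
        funext fun τ => hsum _
      rw [e, hR]
      apply Filter.Tendsto.add
      · unfold Om
        have h3 : Filter.Tendsto (fun τ : ℝ => (zc (-nrm (x + (τ * 1) • crs u v)) u v).arg)
            (𝓝[>] 0) (𝓝 (-Real.pi)) := by
          apply (Complex.tendsto_arg_nhdsWithin_im_neg_of_re_neg_of_im_zero hzc.1 hzc.2).comp
          apply tendsto_nhdsWithin_iff.mpr
          refine ⟨hzcc.tendsto.comp (hcurve 1), ?_⟩
          filter_upwards [self_mem_nhdsWithin, (hcurve 1).eventually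
            (isOpen_ne.mem_nhds hx)] with τ h2 h4
          have h2' : 0 < τ := h2
          change (zc (-nrm (x + (τ * 1) • crs u v)) u v).im < 0
          rw [im_zc, det3_nrm, hdet]
          have h5 : 0 < ‖x + (τ * 1) • crs u v‖ := norm_pos_iff.mpr h4
          have : 0 < ‖x + (τ * 1) • crs u v‖⁻¹ * (τ * 1 * ⟪crs u v, crs u v⟫) := by positivity
          linarith
        have h6 := h3.const_mul 2
        have h7 : 2 * -Real.pi = -(2 * Real.pi) := by ring
        rwa [h7] at h6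
      · exact hRc.tendsto.comp (hcurve 1)
    exact tendsto_nhds_unique (tendsto_const_nhds.congr' (hconst.mono fun τ h => h.symm)) hlim
  have hSn : ∀ y ∈ Metric.ball x δ, det3 u v y < 0 →
      SA s a b (-nrm y) = 2 * Real.pi + R := by
    intro y hy hdy
    have hconst : ∀ᶠ τ : ℝ in 𝓝[>] 0, SA s a b (-nrm (x + (τ * (-1)) • crs u v))
        = SA s a b (-nrm y) := by
      have h1 := (hcurve (-1)).eventually (Metric.ball_mem_nhds x hδ)
      filter_upwards [h1, self_mem_nhdsWithin] with τ h1 h2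
      have h2' : 0 < τ := h2
      apply hc.constN (T := Metric.ball x δ ∩ {y | det3 u v y < 0})
        ((convex_ball x δ).inter (convex_det_neg u v)).isPreconnected
      · intro z hz; exact (hball hz.1).1
      · intro z hz
        exact hoff z hz.1 (ne_of_lt hz.2)
      · refine ⟨h1, ?_⟩
        simp only [Set.mem_ofPred_eq]
        rw [hdet]
        have : 0 < τ * ⟪crs u v, crs u v⟫ := by positivity
        nlinarith
      · exact ⟨hy, hdy⟩
    have hlim : Filter.Tendsto (fun τ : ℝ => SA s a b (-nrm (x + (τ * (-1)) • crs u v)))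
        (𝓝[>] 0) (𝓝 (2 * Real.pi + R)) := by
      have e : (fun τ : ℝ => SA s a b (-nrm (x + (τ * (-1)) • crs u v))) = fun τ =>
          Om (-nrm (x + (τ * (-1)) • crs u v)) u v
          + ∑ j ∈ s.erase i0, Om (-nrm (x + (τ * (-1)) • crs u v)) (a j) (b j) :=
        funext fun τ => hsum _
      rw [e, hR]
      apply Filter.Tendsto.add
      · unfold Om
        have h3 : Filter.Tendsto (fun τ : ℝ => (zc (-nrm (x + (τ * (-1)) • crs u v)) u v).arg)
            (𝓝[>] 0) (𝓝 Real.pi) := by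
          apply (Complex.tendsto_arg_nhdsWithin_im_nonneg_of_re_neg_of_im_zero hzc.1
            hzc.2).comp
          apply tendsto_nhdsWithin_iff.mpr
          refine ⟨hzcc.tendsto.comp (hcurve (-1)), ?_⟩
          filter_upwards [self_mem_nhdsWithin, (hcurve (-1)).eventually
            (isOpen_ne.mem_nhds hx)] with τ h2 h4
          have h2' : 0 < τ := h2
          change 0 ≤ (zc (-nrm (x + (τ * (-1)) • crs u v)) u v).im
          rw [im_zc, det3_nrm, hdet]
          have h5 : 0 < ‖x + (τ * (-1)) • crs u v‖ := norm_pos_iff.mpr h4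
          have : 0 < ‖x + (τ * (-1)) • crs u v‖⁻¹ * (τ * ⟪crs u v, crs u v⟫) := by positivity
          have e2 : -(‖x + (τ * (-1)) • crs u v‖⁻¹ * (τ * (-1) * ⟪crs u v, crs u v⟫))
            = ‖x + (τ * (-1)) • crs u v‖⁻¹ * (τ * ⟪crs u v, crs u v⟫) := by ring
          rw [e2]
          exact this.le
        exact h3.const_mul 2
      · exact hRc.tendsto.comp (hcurve (-1))
    exact tendsto_nhds_unique (tendsto_const_nhds.congr' (hconst.mono fun τ h => h.symm)) hlim
  refine ⟨δ, hδ, (SA s a b h - (2 * Real.pi + R)) / (4 * Real.pi), ?_⟩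
  intro y hy
  obtain ⟨p1, p2, p3, p4⟩ := hball hy
  refine ⟨p1, fun j hj hji => p2 j (Finset.mem_erase.mpr ⟨hji, hj⟩), ?_, ?_, ?_⟩
  · intro hd
    rw [nrm_mem_arc p1]
    exact ⟨_, _, p3.le, p4.le, span_det ua ub hne hnn hd⟩
  · intro hd
    refine ⟨hoff y hy (ne_of_gt hd), ?_⟩
    unfold W
    rw [hSp y hy hd]
    have := Real.pi_pos
    field_simp
    ring
  · intro hd
    refine ⟨hoff y hy (ne_of_lt hd), ?_⟩
    unfold W
    rw [hSn y hy hd]

end Pool.Agent.Helper30.N9
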