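import Pool.Agent.Helper30.N9.Area

open scoped RealInnerProductSpace

namespace Pool.Agent.Helper30.N9

theorem det3_neg_left (a b c : E3) : det3 (-a) b c = - det3 a b c := by
  simp only [det3, PiLp.neg_apply]; ring

/-- If `zc (-z) u v` is not in the slit plane then z lies on the arc u v. -/
theorem mem_arc_of_not_slit {z u v : E3} (hz : ‖z‖ = 1) (hu : ‖u‖ = 1) (hv : ‖v‖ = 1)
    (huv : u ≠ v) (huv' : u ≠ -v) (h : zc (-z) u v ∉ Complex.slitPlane) :
    z ∈ arc u v := by
  rw [Complex.mem_slitPlane_iff, not_or, not_lt, not_not] at h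
  obtain ⟨hre, him⟩ := h
  simp only [zc] at hre him
  rw [det3_neg_left, neg_eq_zero] at him
  rw [inner_neg_left, inner_neg_right] at hre
  have hc1 := inner_gt_neg_one hu hv huv'
  have hc2 := inner_lt_one hu hv huv
  have hsp := det_zero_span hu hv huv huv' him
  obtain ⟨s, hs⟩ : ∃ s, s = (⟪z, u⟫ - ⟪u, v⟫ * ⟪z, v⟫) / (1 - ⟪u, v⟫ ^ 2) := ⟨_, rfl⟩
  obtain ⟨t, ht⟩ : ∃ t, t = (⟪z, v⟫ - ⟪u, v⟫ * ⟪z, u⟫) / (1 - ⟪u, v⟫ ^ 2) := ⟨_, rfl⟩
  rw [← hs, ← ht] at hsp
  have hzu : ⟪z, u⟫ = s + t * ⟪u, v⟫ := by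
    rw [hsp, inner_add_left, real_inner_smul_left, real_inner_smul_left,
      inner_self_one hu, real_inner_comm u v]; ring
  have hzv : ⟪z, v⟫ = s * ⟪u, v⟫ + t := by
    rw [hsp, inner_add_left, real_inner_smul_left, real_inner_smul_left,
      inner_self_one hv]; ring
  have hzz : s ^ 2 + t ^ 2 + 2 * s * t * ⟪u, v⟫ = 1 := by
    have h1 := inner_self_one hz
    have h2 : ⟪z, z⟫ = s * ⟪z, u⟫ + t * ⟪z, v⟫ := by
      conv_lhs => rw [hsp]
      rw [← hsp, hsp, inner_add_right, real_inner_smul_right, real_inner_smul_right, ← hsp]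
    rw [h2, hzu, hzv] at h1
    linear_combination h1
  rw [hzu, real_inner_comm z v, hzv] at hre
  have hst : 1 ≤ s + t := by
    by_contra hcon
    push Not at hcon
    have : 0 < (1 + ⟪u, v⟫) * (1 - (s + t)) := mul_pos hc1 (by linarith)
    linarith
  have hprod : 0 ≤ s * t := by
    have h1 : 2 * (s * t) * (1 - ⟪u, v⟫) = (s + t) ^ 2 - 1 := by linear_combination - hzz
    have h2 : 0 ≤ (s + t) ^ 2 - 1 := by nlinarith
    by_contra hcon
    push Not at hcon
    have : 2 * (s * t) * (1 - ⟪u, v⟫) < 0 := by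
      apply mul_neg_of_neg_of_pos <;> linarith
    linarith
  refine ⟨hz, s, t, ?_, ?_, hsp⟩
  · by_contra hcon
    push Not at hcon
    nlinarith
  · by_contra hcon
    push Not at hcon
    nlinarith

theorem slit_of_not_mem {z u v : E3} (hz : ‖z‖ = 1) (hu : ‖u‖ = 1) (hv : ‖v‖ = 1)
    (huv : u ≠ v) (huv' : u ≠ -v) (h : z ∉ arc u v) : zc (-z) u v ∈ Complex.slitPlane := by
  by_contra hcon
  exact h (mem_arc_of_not_slit hz hu hv huv huv' hcon)

/-- every vector of an arc has positive product with h, if the ends have. -/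
theorem arc_pos {u v h x : E3} (hu : 0 < ⟪h, u⟫) (hv : 0 < ⟪h, v⟫) (hx : x ∈ arc u v) :
    0 < ⟪h, x⟫ := by
  obtain ⟨h1, s, t, hs, ht, rfl⟩ := hx
  rw [inner_add_right, real_inner_smul_right, real_inner_smul_right]
  rcases hs.eq_or_lt with rfl | hs'
  · rcases ht.eq_or_lt with rfl | ht'
    · simp at h1
    · have := mul_pos ht' hv; linarith
  · have := mul_pos hs' hu
    have := mul_nonneg ht hv.le
    linarith

theorem slit_of_pos {h u v : E3} (hh : ‖h‖ = 1) (hu : ‖u‖ = 1) (hv : ‖v‖ = 1)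
    (huv : u ≠ v) (huv' : u ≠ -v) (h1 : 0 < ⟪h, u⟫) (h2 : 0 < ⟪h, v⟫) :
    zc h u v ∈ Complex.slitPlane := by
  have := slit_of_not_mem (z := -h) (by rwa [norm_neg]) hu hv huv huv' (fun hx => by
    have h3 := arc_pos h1 h2 hx
    rw [inner_neg_right, inner_self_one hh] at h3
    linarith)
  rwa [neg_neg] at this

theorem Om_swap {a b c : E3} (h : zc a b c ∈ Complex.slitPlane) :
    Om a c b = - Om a b c := by
  unfold Om
  rw [zc_swap, Complex.arg_conj, if_neg]
  · ring
  · intro h'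
    rw [Complex.mem_slitPlane_iff_arg] at h
    exact h.1 h'

theorem continuous_zc : Continuous (fun x : E3 × E3 × E3 => zc x.1 x.2.1 x.2.2) := by
  have h1 : (fun x : E3 × E3 × E3 => zc x.1 x.2.1 x.2.2) = fun x =>
      ((1 + ⟪x.1, x.2.1⟫ + ⟪x.2.1, x.2.2⟫ + ⟪x.2.2, x.1⟫ : ℝ) : ℂ)
        + ((det3 x.1 x.2.1 x.2.2 : ℝ) : ℂ) * Complex.I := by
    funext x
    apply Complex.ext <;> simp [zc]
  rw [h1]
  have h2 : Continuous (fun x : E3 × E3 × E3 => det3 x.1 x.2.1 x.2.2) := by
    unfold det3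
    fun_prop
  have h3 : Continuous (fun x : E3 × E3 × E3 =>
      1 + ⟪x.1, x.2.1⟫ + ⟪x.2.1, x.2.2⟫ + ⟪x.2.2, x.1⟫) := by
    fun_prop
  exact (Complex.continuous_ofReal.comp h3).add
    ((Complex.continuous_ofReal.comp h2).mul continuous_const)

/-- continuity of the signed area where it is defined. -/
theorem continuousAt_Om {X : Type*} [TopologicalSpace X] {f g k : X → E3} {x : X}
    (hf : ContinuousAt f x) (hg : ContinuousAt g x) (hk : ContinuousAt k x)
    (h : zc (f x) (g x) (k x) ∈ Complex.slitPlane) :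
    ContinuousAt (fun y => Om (f y) (g y) (k y)) x := by
  unfold Om
  apply ContinuousAt.mul continuousAt_const
  have h1 : ContinuousAt (fun y => zc (f y) (g y) (k y)) x :=
    continuous_zc.continuousAt.comp (x := x) (f := fun y => (f y, g y, k y))
      (hf.prodMk (hg.prodMk hk))
  exact (Complex.continuousAt_arg h).comp_of_eq h1 rfl

theorem continuousWithinAt_Om {X : Type*} [TopologicalSpace X] {f g k : X → E3} {x : X}
    {s : Set X} (hf : ContinuousWithinAt f s x) (hg : ContinuousWithinAt g s x)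
    (hk : ContinuousWithinAt k s x)
    (h : zc (f x) (g x) (k x) ∈ Complex.slitPlane) :
    ContinuousWithinAt (fun y => Om (f y) (g y) (k y)) s x := by
  unfold Om
  apply ContinuousWithinAt.mul continuousWithinAt_const
  have h1 : ContinuousWithinAt (fun y => zc (f y) (g y) (k y)) s x :=
    continuous_zc.continuousAt.comp_continuousWithinAt (x := x) (f := fun y => (f y, g y, k y))
      (hf.prodMk (hg.prodMk hk))
  exact ContinuousAt.comp_continuousWithinAt (f := fun y => zc (f y) (g y) (k y))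
    (g := Complex.arg) (Complex.continuousAt_arg h) h1

/-- the angle class of the argument. -/
noncomputable def za (a b c : E3) : Real.Angle := ((zc a b c).arg : Real.Angle)

theorem za_flip {a b c d : E3} (ha : ‖a‖ = 1) (hb : ‖b‖ = 1) (hc : ‖c‖ = 1)
    (hd : ‖d‖ = 1) (hac : a ≠ -c) (hbd : b ≠ -d) (h1 : zc a b c ≠ 0) (h2 : zc a c d ≠ 0)
    (h3 : zc b c d ≠ 0) (h4 : zc a b d ≠ 0) :
    za a b c + za a c d = za b c d + za a b d := by
  have hf := zc_flip ha hb hc hd
  have p1 := inner_gt_neg_one ha hc hac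
  have p2 := inner_gt_neg_one hb hd hbd
  have e := congrArg Complex.arg hf
  rw [Complex.arg_real_mul _ p2, Complex.arg_real_mul _ p1] at e
  unfold za
  rw [← Complex.arg_mul_coe_angle h1 h2, ← Complex.arg_mul_coe_angle h3 h4, e]

end Pool.Agent.Helper30.N9
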