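import Pool.Agent.Helper30.N9.Area2

open scoped RealInnerProductSpace

namespace Pool.Agent.Helper30.N9

variable {ι : Type*}

/-- points of the arc are not in the domain of the area seen from -z. -/
theorem not_slit_of_mem {z u v : E3} (hu : ‖u‖ = 1) (hv : ‖v‖ = 1)
    (huv' : u ≠ -v) (h : z ∈ arc u v) : zc (-z) u v ∉ Complex.slitPlane := by
  obtain ⟨hz, s, t, hs, ht, hx⟩ := h
  have hc1 := inner_gt_neg_one hu hv huv'
  have hc2 : ⟪u, v⟫ ≤ 1 := by
    have := real_inner_le_norm u v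
    rwa [hu, hv, one_mul] at this
  have hzu : ⟪z, u⟫ = s + t * ⟪u, v⟫ := by
    rw [hx, inner_add_left, real_inner_smul_left, real_inner_smul_left,
      inner_self_one hu, real_inner_comm u v]; ring
  have hzv : ⟪z, v⟫ = s * ⟪u, v⟫ + t := by
    rw [hx, inner_add_left, real_inner_smul_left, real_inner_smul_left,
      inner_self_one hv]; ring
  have hzz : s ^ 2 + t ^ 2 + 2 * s * t * ⟪u, v⟫ = 1 := by
    have h1 := inner_self_one hz
    have h2 : ⟪z, z⟫ = s * ⟪z, u⟫ + t * ⟪z, v⟫ := by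
      conv_lhs => rw [hx]
      rw [← hx, hx, inner_add_right, real_inner_smul_right, real_inner_smul_right, ← hx]
    rw [h2, hzu, hzv] at h1
    linear_combination h1
  have hst : 1 ≤ s + t := by
    have : 0 ≤ s * t := mul_nonneg hs ht
    nlinarith
  have hdet : det3 z u v = 0 := by
    rw [hx]
    simp only [det3, PiLp.add_apply, PiLp.smul_apply, smul_eq_mul]
    ring
  rw [Complex.mem_slitPlane_iff, not_or, not_lt, not_not]
  constructor
  · simp only [zc]
    rw [inner_neg_left, inner_neg_right, real_inner_comm z v, hzu, hzv]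
    nlinarith
  · simp only [zc]
    rw [det3_neg_left, hdet, neg_zero]

theorem left_mem_arc {u v : E3} (hu : ‖u‖ = 1) : u ∈ arc u v :=
  ⟨hu, 1, 0, zero_le_one, le_refl _, by simp⟩

theorem right_mem_arc {u v : E3} (hv : ‖v‖ = 1) : v ∈ arc u v :=
  ⟨hv, 0, 1, le_refl _, zero_le_one, by simp⟩

theorem arc_comm (u v : E3) : arc u v = arc v u := by
  ext x
  constructor
  · rintro ⟨h, s, t, hs, ht, hx⟩
    exact ⟨h, t, s, ht, hs, by rw [hx, add_comm]⟩
  · rintro ⟨h, s, t, hs, ht, hx⟩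
    exact ⟨h, t, s, ht, hs, by rw [hx, add_comm]⟩

/-- A closed chain of geodesic arcs. -/
structure Chain (s : Finset ι) (a b : ι → E3) : Prop where
  ua : ∀ i ∈ s, ‖a i‖ = 1
  ub : ∀ i ∈ s, ‖b i‖ = 1
  ne : ∀ i ∈ s, a i ≠ b i
  nn : ∀ i ∈ s, a i ≠ - b i
  closed : ∀ g : E3 → Real.Angle, ∑ i ∈ s, g (b i) = ∑ i ∈ s, g (a i)

/-- total signed area seen from x. -/
noncomputable def SA (s : Finset ι) (a b : ι → E3) (x : E3) : ℝ := ∑ i ∈ s, Om x (a i) (b i)

def Slit (s : Finset ι) (a b : ι → E3) (x : E3) : Prop :=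
  ∀ i ∈ s, zc x (a i) (b i) ∈ Complex.slitPlane

def Off (s : Finset ι) (a b : ι → E3) (z : E3) : Prop := ∀ i ∈ s, z ∉ arc (a i) (b i)

theorem Chain.slit_iff {s : Finset ι} {a b : ι → E3} (hc : Chain s a b) {z : E3}
    (hz : ‖z‖ = 1) : Slit s a b (-z) ↔ Off s a b z := by
  constructor
  · intro h i hi hm
    exact not_slit_of_mem (hc.ua i hi) (hc.ub i hi) (hc.nn i hi) hm (h i hi)
  · intro h i hi
    exact slit_of_not_mem hz (hc.ua i hi) (hc.ub i hi) (hc.ne i hi) (hc.nn i hi) (h i hi)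

theorem Chain.slit_iff' {s : Finset ι} {a b : ι → E3} (hc : Chain s a b) {x : E3}
    (hx : ‖x‖ = 1) : Slit s a b x ↔ Off s a b (-x) := by
  have := hc.slit_iff (z := -x) (by rwa [norm_neg])
  rwa [neg_neg] at this

theorem Chain.ne_neg {s : Finset ι} {a b : ι → E3} (hc : Chain s a b) {x : E3}
    (hx : ‖x‖ = 1) (h : Slit s a b x) {i : ι} (hi : i ∈ s) :
    x ≠ - a i ∧ x ≠ - b i := by
  have ho := (hc.slit_iff' hx).mp h i hi
  constructor
  · rintro rfl
    rw [neg_neg] at ho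
    exact ho (left_mem_arc (hc.ua i hi))
  · rintro rfl
    rw [neg_neg] at ho
    exact ho (right_mem_arc (hc.ub i hi))

theorem Chain.int1 {s : Finset ι} {a b : ι → E3} (hc : Chain s a b) {x y : E3}
    (hx : ‖x‖ = 1) (hy : ‖y‖ = 1) (hxy : x ≠ -y) (h1 : Slit s a b x) (h2 : Slit s a b y) :
    ∃ k : ℤ, SA s a b x - SA s a b y = 4 * Real.pi * k := by
  have key : ∑ i ∈ s, za x (a i) (b i) = ∑ i ∈ s, za y (a i) (b i) := by
    have h3 : ∑ i ∈ s, (za x y (a i) + za x (a i) (b i))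
        = ∑ i ∈ s, (za y (a i) (b i) + za x y (b i)) := by
      apply Finset.sum_congr rfl
      intro i hi
      obtain ⟨n1, n2⟩ := hc.ne_neg hx h1 hi
      obtain ⟨n3, n4⟩ := hc.ne_neg hy h2 hi
      have n5 : a i ≠ - x := fun h => n1 (by rw [h, neg_neg])
      have n6 : b i ≠ - x := fun h => n2 (by rw [h, neg_neg])
      have n7 : a i ≠ - y := fun h => n3 (by rw [h, neg_neg])
      have n8 : b i ≠ - y := fun h => n4 (by rw [h, neg_neg])
      have ua := hc.ua i hi
      have ub := hc.ub i hi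
      exact za_flip hx hy ua ub n1 n4
        (zc_ne_zero hx hy ua hxy n3 n5)
        (zc_ne_zero hx ua ub n1 (hc.nn i hi) n6)
        (zc_ne_zero hy ua ub n3 (hc.nn i hi) n8)
        (zc_ne_zero hx hy ub hxy n4 n6)
    rw [Finset.sum_add_distrib, Finset.sum_add_distrib, hc.closed (za x y), add_comm] at h3
    exact add_right_cancel h3
  have key2 : ((∑ i ∈ s, (zc x (a i) (b i)).arg : ℝ) : Real.Angle)
      = ((∑ i ∈ s, (zc y (a i) (b i)).arg : ℝ) : Real.Angle) := by
    have e1 : ∀ w, ((∑ i ∈ s, (zc w (a i) (b i)).arg : ℝ) : Real.Angle)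
        = ∑ i ∈ s, za w (a i) (b i) := by
      intro w
      simp only [za]
      exact map_sum Real.Angle.coeHom _ _
    rw [e1, e1, key]
  rw [Real.Angle.angle_eq_iff_two_pi_dvd_sub] at key2
  obtain ⟨k, hk⟩ := key2
  refine ⟨k, ?_⟩
  unfold SA Om
  rw [← Finset.mul_sum, ← Finset.mul_sum]
  linarith

/-- cross product -/
noncomputable def crs (a b : E3) : E3 :=
  !₂[a 1 * b 2 - a 2 * b 1, a 2 * b 0 - a 0 * b 2, a 0 * b 1 - a 1 * b 0]

theorem crs_inner (a b c : E3) : ⟪crs a b, c⟫ = det3 a b c := by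
  rw [inner_def]
  simp [crs, det3]
  ring

theorem crs_inner_self (a b : E3) : ⟪crs a b, crs a b⟫ = ⟪a, a⟫ * ⟪b, b⟫ - ⟪a, b⟫ ^ 2 := by
  simp only [inner_def]
  simp [crs]
  ring

theorem exists_perp {x : E3} (hx : ‖x‖ = 1) : ∃ e : E3, ‖e‖ = 1 ∧ ⟪x, e⟫ = 0 := by
  have h1 : ∃ i : Fin 3, crs x (EuclideanSpace.single i 1) ≠ 0 := by
    by_contra hcon
    push Not at hcon
    have h0 := hcon 0
    have h1 := hcon 1
    have e2 : x 2 = 0 := by
      have := congrArg (fun y : E3 => y 1) h0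
      simpa [crs] using this
    have e1 : x 1 = 0 := by
      have := congrArg (fun y : E3 => y 2) h0
      simpa [crs] using this
    have e0 : x 0 = 0 := by
      have := congrArg (fun y : E3 => y 2) h1
      simpa [crs] using this
    have := inner_self_one hx
    rw [inner_def, e0, e1, e2] at this
    norm_num at this
  obtain ⟨i, hi⟩ := h1
  refine ⟨‖crs x (EuclideanSpace.single i 1)‖⁻¹ • crs x (EuclideanSpace.single i 1), ?_, ?_⟩
  · rw [norm_smul, norm_inv, norm_norm, inv_mul_cancel₀ (norm_ne_zero_iff.mpr hi)]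
  · rw [real_inner_smul_right, real_inner_comm, crs_inner]
    simp only [det3]
    ring

end Pool.Agent.Helper30.N9
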