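import Pool.Agent.Helper30.N9.Defs

open scoped RealInnerProductSpace

namespace Pool.Agent.Helper30.N9

theorem inner_def (a b : E3) : ⟪a, b⟫ = a 0 * b 0 + a 1 * b 1 + a 2 * b 2 := by
  simp [PiLp.inner_apply, Fin.sum_univ_three, mul_comm]

theorem inner_self_one {a : E3} (h : ‖a‖ = 1) : ⟪a, a⟫ = 1 := by
  rw [real_inner_self_eq_norm_sq, h]; norm_num

theorem norm_one_iff {a : E3} : ‖a‖ = 1 ↔ ⟪a, a⟫ = 1 := by
  rw [real_inner_self_eq_norm_sq]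
  constructor
  · intro h; rw [h]; norm_num
  · intro h
    nlinarith [norm_nonneg a, sq_nonneg (‖a‖ - 1)]

theorem det3_rot (a b c : E3) : det3 b c a = det3 a b c := by
  unfold det3; ring

theorem det3_swap (a b c : E3) : det3 a c b = - det3 a b c := by
  unfold det3; ring

theorem zc_rot (a b c : E3) : zc b c a = zc a b c := by
  unfold zc
  rw [det3_rot]
  congr 1
  ring

theorem zc_swap (a b c : E3) : zc a c b = (starRingEnd ℂ) (zc a b c) := by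
  apply Complex.ext
  · simp only [zc, Complex.conj_re]
    rw [real_inner_comm c a, real_inner_comm b c, real_inner_comm b a]
    ring
  · simp only [zc, Complex.conj_im]
    rw [det3_swap]

/-- Gram determinant. -/
theorem gram (a b c : E3) : det3 a b c ^ 2 = ⟪a, a⟫ * ⟪b, b⟫ * ⟪c, c⟫
    + 2 * ⟪a, b⟫ * ⟪b, c⟫ * ⟪c, a⟫ - ⟪a, a⟫ * ⟪b, c⟫ ^ 2 - ⟪b, b⟫ * ⟪c, a⟫ ^ 2
    - ⟪c, c⟫ * ⟪a, b⟫ ^ 2 := by
  simp only [inner_def, det3]; ring

theorem zc_normSq {a b c : E3} (ha : ‖a‖ = 1) (hb : ‖b‖ = 1) (hc : ‖c‖ = 1) :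
    Complex.normSq (zc a b c) = 2 * (1 + ⟪a, b⟫) * (1 + ⟪b, c⟫) * (1 + ⟪c, a⟫) := by
  have h := gram a b c
  rw [inner_self_one ha, inner_self_one hb, inner_self_one hc] at h
  simp only [Complex.normSq_apply, zc]
  linear_combination h

/-- the four-term polynomial -/
noncomputable def q4 (a b c d : E3) : ℂ :=
  ⟨1 + ⟪a, b⟫ + ⟪a, c⟫ + ⟪a, d⟫ + ⟪b, c⟫ + ⟪b, d⟫ + ⟪c, d⟫ + ⟪a, b⟫ * ⟪c, d⟫
    - ⟪a, c⟫ * ⟪b, d⟫ + ⟪a, d⟫ * ⟪b, c⟫,
   det3 a b c + det3 a b d + det3 a c d + det3 b c d⟩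

theorem q4_rot (a b c d : E3) : q4 b c d a = q4 a b c d := by
  apply Complex.ext
  · simp only [q4]
    rw [real_inner_comm a b, real_inner_comm a c, real_inner_comm a d]
    ring
  · simp only [q4, det3]
    ring

theorem zc_mul {a b c d : E3} (ha : ‖a‖ = 1) (hc : ‖c‖ = 1) :
    zc a b c * zc a c d = ((1 + ⟪a, c⟫ : ℝ) : ℂ) * q4 a b c d := by
  have h1 : det3 a b c * det3 a c d = ⟪a, a⟫ * (⟪b, c⟫ * ⟪c, d⟫ - ⟪b, d⟫ * ⟪c, c⟫)
      - ⟪a, c⟫ * (⟪a, b⟫ * ⟪c, d⟫ - ⟪b, d⟫ * ⟪a, c⟫)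
      + ⟪a, d⟫ * (⟪a, b⟫ * ⟪c, c⟫ - ⟪b, c⟫ * ⟪a, c⟫) := by
    simp only [inner_def, det3]; ring
  have h2 : ⟪a, a⟫ * det3 b c d - ⟪a, b⟫ * det3 a c d + ⟪a, c⟫ * det3 a b d
      - ⟪a, d⟫ * det3 a b c = 0 := by
    simp only [inner_def, det3]; ring
  have h3 : ⟪a, c⟫ * det3 b c d - ⟪b, c⟫ * det3 a c d + ⟪c, c⟫ * det3 a b d
      - ⟪c, d⟫ * det3 a b c = 0 := by
    simp only [inner_def, det3]; ring
  rw [inner_self_one ha, inner_self_one hc] at h1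
  rw [inner_self_one ha] at h2
  rw [inner_self_one hc] at h3
  apply Complex.ext
  · simp only [zc, q4, Complex.mul_re, Complex.ofReal_re, Complex.ofReal_im]
    rw [real_inner_comm a c, real_inner_comm a d]
    linear_combination - h1
  · simp only [zc, q4, Complex.mul_im, Complex.ofReal_re, Complex.ofReal_im]
    rw [real_inner_comm a c, real_inner_comm a d]
    linear_combination - h2 - h3

/-- flip of a quadrilateral -/
theorem zc_flip {a b c d : E3} (ha : ‖a‖ = 1) (hb : ‖b‖ = 1) (hc : ‖c‖ = 1)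
    (hd : ‖d‖ = 1) :
    ((1 + ⟪b, d⟫ : ℝ) : ℂ) * (zc a b c * zc a c d)
      = ((1 + ⟪a, c⟫ : ℝ) : ℂ) * (zc b c d * zc a b d) := by
  rw [zc_mul ha hc, ← zc_rot a b d, zc_mul hb hd, q4_rot a b c d]
  ring

theorem inner_gt_neg_one {a b : E3} (ha : ‖a‖ = 1) (hb : ‖b‖ = 1) (h : a ≠ -b) :
    0 < 1 + ⟪a, b⟫ := by
  have h1 : 0 < ‖a + b‖ ^ 2 := by
    have : a + b ≠ 0 := fun h' => h (eq_neg_of_add_eq_zero_left h')
    positivity
  rw [norm_add_sq_real, ha, hb] at h1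
  linarith

theorem inner_lt_one {a b : E3} (ha : ‖a‖ = 1) (hb : ‖b‖ = 1) (h : a ≠ b) :
    ⟪a, b⟫ < 1 := by
  have h1 : 0 < ‖a - b‖ ^ 2 := by
    have : a - b ≠ 0 := sub_ne_zero.mpr h
    positivity
  rw [norm_sub_sq_real, ha, hb] at h1
  linarith

theorem zc_ne_zero {a b c : E3} (ha : ‖a‖ = 1) (hb : ‖b‖ = 1) (hc : ‖c‖ = 1)
    (hab : a ≠ -b) (hbc : b ≠ -c) (hca : c ≠ -a) : zc a b c ≠ 0 := by
  intro h
  have h1 := zc_normSq ha hb hc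
  rw [h, map_zero] at h1
  have h2 := inner_gt_neg_one ha hb hab
  have h3 := inner_gt_neg_one hb hc hbc
  have h4 := inner_gt_neg_one hc ha hca
  have : 0 < 2 * (1 + ⟪a, b⟫) * (1 + ⟪b, c⟫) * (1 + ⟪c, a⟫) := by positivity
  linarith

/-- z with det = 0 lies in the plane of u and v. -/
theorem det_zero_span {z u v : E3} (hu : ‖u‖ = 1) (hv : ‖v‖ = 1)
    (huv : u ≠ v) (huv' : u ≠ -v) (h : det3 z u v = 0) :
    z = ((⟪z, u⟫ - ⟪u, v⟫ * ⟪z, v⟫) / (1 - ⟪u, v⟫ ^ 2)) • u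
      + ((⟪z, v⟫ - ⟪u, v⟫ * ⟪z, u⟫) / (1 - ⟪u, v⟫ ^ 2)) • v := by
  have h1 := inner_gt_neg_one hu hv huv'
  have h2 := inner_lt_one hu hv huv
  have hk : 0 < 1 - ⟪u, v⟫ ^ 2 := by nlinarith
  obtain ⟨c, hc⟩ : ∃ c, c = ⟪u, v⟫ := ⟨_, rfl⟩
  rw [← hc] at h1 h2 hk ⊢
  obtain ⟨k, hkd⟩ : ∃ k, k = 1 - c ^ 2 := ⟨_, rfl⟩
  rw [← hkd] at hk ⊢
  obtain ⟨s, hs⟩ : ∃ s, s = (⟪z, u⟫ - c * ⟪z, v⟫) / k := ⟨_, rfl⟩
  obtain ⟨t, ht⟩ : ∃ t, t = (⟪z, v⟫ - c * ⟪z, u⟫) / k := ⟨_, rfl⟩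
  rw [← hs, ← ht]
  have hs' : s * k = ⟪z, u⟫ - c * ⟪z, v⟫ := by rw [hs]; field_simp
  have ht' : t * k = ⟪z, v⟫ - c * ⟪z, u⟫ := by rw [ht]; field_simp
  have e1 : s + c * t = ⟪z, u⟫ := by
    apply mul_right_cancel₀ hk.ne'
    linear_combination hs' + c * ht' - ⟪z, u⟫ * hkd
  have e2 : t + c * s = ⟪z, v⟫ := by
    apply mul_right_cancel₀ hk.ne'
    linear_combination ht' + c * hs' - ⟪z, v⟫ * hkd
  have hg := gram z u v
  rw [inner_self_one hu, inner_self_one hv, h, ← hc, real_inner_comm z v] at hg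
  have key : ‖z - (s • u + t • v)‖ ^ 2 * k = 0 := by
    rw [← real_inner_self_eq_norm_sq]
    simp only [inner_sub_left, inner_sub_right, inner_add_left, inner_add_right,
      real_inner_smul_left, real_inner_smul_right]
    rw [inner_self_one hu, inner_self_one hv, real_inner_comm z u, real_inner_comm z v,
      real_inner_comm u v, ← hc]
    linear_combination s * k * e1 + t * k * e2 - ⟪z, u⟫ * hs' - ⟪z, v⟫ * ht' - hg
      + ⟪z, z⟫ * hkd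
  have h3 : ‖z - (s • u + t • v)‖ ^ 2 = 0 := by
    rcases mul_eq_zero.mp key with h | h
    · exact h
    · exact absurd h hk.ne'
  have h4 : z - (s • u + t • v) = 0 := by
    rw [← norm_eq_zero]; exact pow_eq_zero_iff (two_ne_zero) |>.mp h3
  exact sub_eq_zero.mp h4

end Pool.Agent.Helper30.N9
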