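import Pool.Agent.Helper30.N9.Local

open scoped RealInnerProductSpace Topology

namespace Pool.Agent.Helper30.N9

theorem det3_comb (c u v : E3) (α β : ℝ) : det3 c u (α • c + β • v) = β * det3 c u v := by
  simp only [det3, PiLp.add_apply, PiLp.smul_apply, smul_eq_mul]; ring

theorem det3_self_right (c u : E3) : det3 c u u = 0 := by
  simp only [det3]; ring

theorem det3_self_left (c u : E3) : det3 c u c = 0 := by
  simp only [det3]; ring

theorem crs_comb (n c u : E3) (α β : ℝ) :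
    ⟪n, crs c (α • c + β • u)⟫ = β * ⟪n, crs c u⟫ := by
  simp only [inner_def]
  simp [crs]
  ring

/-- The abstract local structure at a vertex with two arcs. -/
theorem core {c u1 u2 : E3} (hc : ‖c‖ = 1) (hu1 : ‖u1‖ = 1) (hu2 : ‖u2‖ = 1)
    (n1 : c ≠ u1) (n1' : c ≠ -u1) (n2 : c ≠ u2) (n2' : c ≠ -u2)
    (m1 : u1 ∉ cone c u2) (m2 : u2 ∉ cone c u1) (hD : 0 ≤ det3 c u1 u2)
    {f : E3 → ℝ} {δ0 : ℝ} (hδ0 : 0 < δ0)
    (hA : ∀ T : Set E3, Convex ℝ T → T ⊆ Metric.ball c δ0 →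
      (∀ y ∈ T, y ∉ cone c u1 ∧ y ∉ cone c u2) → ∀ y ∈ T, ∀ y' ∈ T, f y = f y')
    (hB : ∀ t : ℝ, 0 < t → c + t • u1 ∈ Metric.ball c δ0 → ∃ δ' > 0, ∃ w : ℝ,
      ∀ y ∈ Metric.ball (c + t • u1) δ', (0 < det3 c u1 y → f y = w + 1)
        ∧ (det3 c u1 y < 0 → f y = w))
    (hB' : ∀ t : ℝ, 0 < t → c + t • u2 ∈ Metric.ball c δ0 → ∃ δ' > 0, ∃ w : ℝ,
      ∀ y ∈ Metric.ball (c + t • u2) δ', (det3 c u2 y < 0 → f y = w + 1)
        ∧ (0 < det3 c u2 y → f y = w)) :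
    ∃ δ > 0, ∃ w : ℝ,
      (∀ y ∈ Metric.ball c δ, y ∉ cone c u1 → y ∉ cone c u2 → f y = w ∨ f y = w + 1)
      ∧ (∀ t : ℝ, 0 < t → c + t • u1 ∈ Metric.ball c δ → ∃ δ' > 0,
        ∀ y ∈ Metric.ball (c + t • u1) δ', (0 < det3 c u1 y → f y = w + 1)
          ∧ (det3 c u1 y < 0 → f y = w))
      ∧ (∀ t : ℝ, 0 < t → c + t • u2 ∈ Metric.ball c δ → ∃ δ' > 0,
        ∀ y ∈ Metric.ball (c + t • u2) δ', (det3 c u2 y < 0 → f y = w + 1)
          ∧ (0 < det3 c u2 y → f y = w)) := by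
  -- normals
  have p1 := crs_pos hc hu1 n1 n1'
  have p2 := crs_pos hc hu2 n2 n2'
  obtain ⟨k1, hk1⟩ : ∃ k, k = ‖crs c u1‖ := ⟨_, rfl⟩
  obtain ⟨k2, hk2⟩ : ∃ k, k = ‖crs c u2‖ := ⟨_, rfl⟩
  have e1 : ⟪crs c u1, crs c u1⟫ = k1 ^ 2 := by rw [real_inner_self_eq_norm_sq, hk1]
  have e2 : ⟪crs c u2, crs c u2⟫ = k2 ^ 2 := by rw [real_inner_self_eq_norm_sq, hk2]
  have hk1p : 0 < k1 := by
    rcases (norm_nonneg (crs c u1)).eq_or_lt with h | h
    · rw [e1, hk1, ← h] at p1; norm_num at p1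
    · rw [hk1]; exact h
  have hk2p : 0 < k2 := by
    rcases (norm_nonneg (crs c u2)).eq_or_lt with h | h
    · rw [e2, hk2, ← h] at p2; norm_num at p2
    · rw [hk2]; exact h
  -- if D = 0 then the product of the normals is negative
  have hDz : det3 c u1 u2 = 0 → ⟪crs c u1, crs c u2⟫ < 0 := by
    intro hD0
    have hsp := span_det hc hu1 n1 n1' hD0
    obtain ⟨α, hα⟩ : ∃ α, α = (⟪u2, c⟫ - ⟪c, u1⟫ * ⟪u2, u1⟫) / (1 - ⟪c, u1⟫ ^ 2) := ⟨_, rfl⟩
    obtain ⟨β, hβ⟩ : ∃ β, β = (⟪u2, u1⟫ - ⟪c, u1⟫ * ⟪u2, c⟫) / (1 - ⟪c, u1⟫ ^ 2) := ⟨_, rfl⟩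
    rw [← hα, ← hβ] at hsp
    have e3 : ⟪crs c u1, crs c u2⟫ = β * k1 ^ 2 := by
      rw [← e1, ← crs_comb (crs c u1) c u1 α β, ← hsp]
    have hβn : β < 0 := by
      by_contra hcon
      push Not at hcon
      rcases hcon.eq_or_lt with h0 | h0
      · rw [← h0, zero_smul, add_zero] at hsp
        have h5 : ‖u2‖ = |α| := by rw [hsp, norm_smul, hc, mul_one, Real.norm_eq_abs]
        rw [hu2] at h5
        rcases le_total 0 α with h6 | h6
        · rw [abs_of_nonneg h6] at h5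
          rw [← h5, one_smul] at hsp
          exact n2 hsp.symm
        · rw [abs_of_nonpos h6] at h5
          have : α = -1 := by linarith
          rw [this, neg_one_smul] at hsp
          exact n2' (by rw [hsp, neg_neg])
      · rcases le_total 0 α with h6 | h6
        · exact m2 ⟨α, β, h6, h0.le, hsp⟩
        · apply m1
          refine ⟨-α * β⁻¹, β⁻¹, mul_nonneg (by linarith) (by positivity), by positivity, ?_⟩
          rw [hsp, smul_add, smul_smul, smul_smul, inv_mul_cancel₀ h0.ne', one_smul,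
            ← add_assoc, ← add_smul]
          have : -α * β⁻¹ + β⁻¹ * α = 0 := by ring
          rw [this, zero_smul, zero_add]
    rw [e3]
    have : 0 < k1 ^ 2 := by positivity
    nlinarith
  obtain ⟨g, hg⟩ : ∃ g : E3, g = k1 • crs c u2 - k2 • crs c u1 := ⟨_, rfl⟩
  have hlt : ⟪crs c u1, crs c u2⟫ < k1 * k2 := by
    rcases (real_inner_le_norm (crs c u1) (crs c u2)).eq_or_lt with h | h
    · exfalso
      have h3 := inner_eq_norm_mul_iff_real.mp h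
      have h4 : k2 * ⟪crs c u1, u2⟫ = 0 := by
        have := congrArg (fun x : E3 => ⟪x, u2⟫) h3
        simp only [real_inner_smul_left] at this
        rw [← hk2, ← hk1] at this
        rw [this, crs_inner, det3_self_right, mul_zero]
      rw [crs_inner] at h4
      rcases mul_eq_zero.mp h4 with h5 | h5
      · exact hk2p.ne' h5
      · have h6 := hDz h5
        rw [h, ← hk1, ← hk2] at h6
        have : 0 < k1 * k2 := mul_pos hk1p hk2p
        linarith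
    · rw [hk1, hk2]; exact h
  have hg1 : det3 c u1 g < 0 := by
    rw [← crs_inner, hg, inner_sub_right, real_inner_smul_right, real_inner_smul_right, e1]
    nlinarith
  have hg2 : 0 < det3 c u2 g := by
    rw [← crs_inner, hg, inner_sub_right, real_inner_smul_right, real_inner_smul_right, e2,
      real_inner_comm]
    nlinarith
  -- the ball
  have hq1 : 0 < 1 - ⟪c, u1⟫ ^ 2 := by
    have h1 := inner_gt_neg_one hc hu1 n1'
    have h2 := inner_lt_one hc hu1 n1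
    nlinarith
  have hq2 : 0 < 1 - ⟪c, u2⟫ ^ 2 := by
    have h1 := inner_gt_neg_one hc hu2 n2'
    have h2 := inner_lt_one hc hu2 n2
    nlinarith
  have ev1 : ∀ᶠ y in 𝓝 c, 0 < (⟪y, c⟫ - ⟪c, u1⟫ * ⟪y, u1⟫) / (1 - ⟪c, u1⟫ ^ 2) := by
    have hcn : Continuous (fun y : E3 => (⟪y, c⟫ - ⟪c, u1⟫ * ⟪y, u1⟫) / (1 - ⟪c, u1⟫ ^ 2)) := by
      fun_prop
    apply hcn.continuousAt.eventually (lt_mem_nhds _)
    change 0 < (⟪c, c⟫ - ⟪c, u1⟫ * ⟪c, u1⟫) / (1 - ⟪c, u1⟫ ^ 2)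
    rw [inner_self_one hc]
    have : 1 - ⟪c, u1⟫ * ⟪c, u1⟫ = 1 - ⟪c, u1⟫ ^ 2 := by ring
    rw [this, div_self hq1.ne']
    exact one_pos
  have ev2 : ∀ᶠ y in 𝓝 c, 0 < (⟪y, c⟫ - ⟪c, u2⟫ * ⟪y, u2⟫) / (1 - ⟪c, u2⟫ ^ 2) := by
    have hcn : Continuous (fun y : E3 => (⟪y, c⟫ - ⟪c, u2⟫ * ⟪y, u2⟫) / (1 - ⟪c, u2⟫ ^ 2)) := by
      fun_prop
    apply hcn.continuousAt.eventually (lt_mem_nhds _)
    change 0 < (⟪c, c⟫ - ⟪c, u2⟫ * ⟪c, u2⟫) / (1 - ⟪c, u2⟫ ^ 2)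
    rw [inner_self_one hc]
    have : 1 - ⟪c, u2⟫ * ⟪c, u2⟫ = 1 - ⟪c, u2⟫ ^ 2 := by ring
    rw [this, div_self hq2.ne']
    exact one_pos
  have ev0 : ∀ᶠ y in 𝓝 c, y ∈ Metric.ball c δ0 := Metric.ball_mem_nhds c hδ0
  obtain ⟨δ, hδ, hball⟩ := Metric.mem_nhds_iff.mp (ev0.and (ev1.and ev2))
  have hsub : Metric.ball c δ ⊆ Metric.ball c δ0 := fun y hy => (hball hy).1
  -- curves
  have hcurve : ∀ (x : E3) (σ : ℝ), Filter.Tendsto (fun τ : ℝ => x + (τ * σ) • g) (𝓝[>] 0)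
      (𝓝 x) := by
    intro x σ
    have h1 : Continuous (fun τ : ℝ => x + (τ * σ) • g) := by fun_prop
    have h2 := h1.tendsto 0
    simp only [zero_mul, zero_smul, add_zero] at h2
    exact h2.mono_left nhdsWithin_le_nhds
  have hpick : ∀ (x : E3) (σ : ℝ) (U : Set E3), U ∈ 𝓝 x → ∃ τ : ℝ, 0 < τ
      ∧ x + (τ * σ) • g ∈ U := by
    intro x σ U hU
    have h1 := (hcurve x σ).eventually hU
    have h2 : ∀ᶠ τ : ℝ in 𝓝[>] 0, 0 < τ := self_mem_nhdsWithin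
    obtain ⟨τ, h3, h4⟩ := (h1.and h2).exists
    exact ⟨τ, h4, h3⟩
  have hdc1 : ∀ (y : E3) (r : ℝ), det3 c u1 (y + r • g) = det3 c u1 y + r * det3 c u1 g := by
    intro y r; rw [det3_add_right, det3_smul_right]
  have hdc2 : ∀ (y : E3) (r : ℝ), det3 c u2 (y + r • g) = det3 c u2 y + r * det3 c u2 g := by
    intro y r; rw [det3_add_right, det3_smul_right]
  have hswap : det3 c u2 u1 = - det3 c u1 u2 := by
    simp only [det3]; ring
  have hc1 : det3 c u1 c = 0 := det3_self_left c u1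
  have hc2 : det3 c u2 c = 0 := det3_self_left c u2
  -- cones
  have hcone1 : ∀ y ∈ cone c u1, det3 c u1 y = 0 ∧ det3 c u2 y ≤ 0 := by
    rintro y ⟨s, t, hs, ht, rfl⟩
    rw [det3_comb, det3_comb, det3_self_right, hswap]
    constructor
    · ring
    · have := mul_nonneg ht hD; linarith
  have hcone2 : ∀ y ∈ cone c u2, det3 c u2 y = 0 ∧ 0 ≤ det3 c u1 y := by
    rintro y ⟨s, t, hs, ht, rfl⟩
    rw [det3_comb, det3_comb, det3_self_right]
    constructor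
    · ring
    · exact mul_nonneg ht hD
  -- constancy
  have hL : ∀ y ∈ Metric.ball c δ, ∀ y' ∈ Metric.ball c δ, 0 < det3 c u1 y →
      det3 c u2 y < 0 → 0 < det3 c u1 y' → det3 c u2 y' < 0 → f y = f y' := by
    intro y hy y' hy' h1 h2 h3 h4
    refine hA ((Metric.ball c δ ∩ {y | 0 < det3 c u1 y}) ∩ {y | det3 c u2 y < 0})
      (((convex_ball c δ).inter (convex_det_pos c u1)).inter (convex_det_neg c u2)) ?_ ?_
      y ⟨⟨hy, h1⟩, h2⟩ y' ⟨⟨hy', h3⟩, h4⟩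
    · exact fun z hz => hsub hz.1.1
    · intro z hz
      have q1 : 0 < det3 c u1 z := hz.1.2
      have q2 : det3 c u2 z < 0 := hz.2
      exact ⟨fun h => by have := (hcone1 z h).1; linarith,
        fun h => by have := (hcone2 z h).1; linarith⟩
  have hR1 : ∀ y ∈ Metric.ball c δ, ∀ y' ∈ Metric.ball c δ, det3 c u1 y < 0 →
      det3 c u1 y' < 0 → f y = f y' := by
    intro y hy y' hy' h1 h2
    refine hA (Metric.ball c δ ∩ {y | det3 c u1 y < 0})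
      ((convex_ball c δ).inter (convex_det_neg c u1)) ?_ ?_
      y ⟨hy, h1⟩ y' ⟨hy', h2⟩
    · exact fun z hz => hsub hz.1
    · intro z hz
      have q1 : det3 c u1 z < 0 := hz.2
      exact ⟨fun h => by have := (hcone1 z h).1; linarith,
        fun h => by have := (hcone2 z h).2; linarith⟩
  have hR2 : ∀ y ∈ Metric.ball c δ, ∀ y' ∈ Metric.ball c δ, 0 < det3 c u2 y →
      0 < det3 c u2 y' → f y = f y' := by
    intro y hy y' hy' h1 h2
    refine hA (Metric.ball c δ ∩ {y | 0 < det3 c u2 y})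
      ((convex_ball c δ).inter (convex_det_pos c u2)) ?_ ?_
      y ⟨hy, h1⟩ y' ⟨hy', h2⟩
    · exact fun z hz => hsub hz.1
    · intro z hz
      have q1 : 0 < det3 c u2 z := hz.2
      exact ⟨fun h => by have := (hcone1 z h).2; linarith,
        fun h => by have := (hcone2 z h).1; linarith⟩
  -- base points
  obtain ⟨τR, hτR, hyR⟩ := hpick c 1 _ (Metric.ball_mem_nhds c hδ)
  obtain ⟨yR, hyRe⟩ : ∃ y, y = c + (τR * 1) • g := ⟨_, rfl⟩
  rw [← hyRe] at hyR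
  have yR1 : det3 c u1 yR < 0 := by rw [hyRe, hdc1, hc1]; nlinarith
  have yR2 : 0 < det3 c u2 yR := by rw [hyRe, hdc2, hc2]; nlinarith
  obtain ⟨τL, hτL, hyL⟩ := hpick c (-1) _ (Metric.ball_mem_nhds c hδ)
  obtain ⟨yL, hyLe⟩ : ∃ y, y = c + (τL * (-1)) • g := ⟨_, rfl⟩
  rw [← hyLe] at hyL
  have yL1 : 0 < det3 c u1 yL := by rw [hyLe, hdc1, hc1]; nlinarith
  have yL2 : det3 c u2 yL < 0 := by rw [hyLe, hdc2, hc2]; nlinarith
  have fR : ∀ y ∈ Metric.ball c δ, (det3 c u1 y < 0 ∨ 0 < det3 c u2 y) → f y = f yR := by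
    rintro y hy (h | h)
    · exact hR1 y hy yR hyR h yR1
    · exact hR2 y hy yR hyR h yR2
  have fL : ∀ y ∈ Metric.ball c δ, 0 < det3 c u1 y → det3 c u2 y < 0 → f y = f yL :=
    fun y hy h1 h2 => hL y hy yL hyL h1 h2 yL1 yL2
  -- relation at the points c + t u1
  have rel1 : ∀ t : ℝ, 0 < t → c + t • u1 ∈ Metric.ball c δ → ∃ δ' > 0,
      (∀ y ∈ Metric.ball (c + t • u1) δ', (0 < det3 c u1 y → f y = f yR + 1)
        ∧ (det3 c u1 y < 0 → f y = f yR)) ∧ f yL = f yR + 1 := by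
    intro t ht hmem
    obtain ⟨δ', hδ', w, hw⟩ := hB t ht (hsub hmem)
    have hU : Metric.ball (c + t • u1) δ' ∩ Metric.ball c δ ∈ 𝓝 (c + t • u1) :=
      Filter.inter_mem (Metric.ball_mem_nhds _ hδ') (Metric.isOpen_ball.mem_nhds hmem)
    have hdx : det3 c u1 (c + t • u1) = 0 := by
      rw [det3_add_right, det3_smul_right, hc1, det3_self_right]; ring
    have hdx2 : det3 c u2 (c + t • u1) ≤ 0 := by
      rw [det3_add_right, det3_smul_right, hc2, hswap]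
      have := mul_nonneg ht.le hD
      linarith
    obtain ⟨τ1, hτ1, hm1⟩ := hpick (c + t • u1) (-1) _ hU
    obtain ⟨τ2, hτ2, hm2⟩ := hpick (c + t • u1) 1 _ hU
    have a1 : 0 < det3 c u1 (c + t • u1 + (τ1 * (-1)) • g) := by
      rw [hdc1, hdx]; nlinarith
    have a2 : det3 c u2 (c + t • u1 + (τ1 * (-1)) • g) < 0 := by
      rw [hdc2]; nlinarith
    have a3 : det3 c u1 (c + t • u1 + (τ2 * 1) • g) < 0 := by
      rw [hdc1, hdx]; nlinarith
    have b1 := (hw _ hm1.1).1 a1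
    rw [fL _ hm1.2 a1 a2] at b1
    have b2 := (hw _ hm2.1).2 a3
    rw [fR _ hm2.2 (Or.inl a3)] at b2
    rw [← b2] at hw b1
    exact ⟨δ', hδ', hw, b1⟩
  have rel2 : ∀ t : ℝ, 0 < t → c + t • u2 ∈ Metric.ball c δ → ∃ δ' > 0,
      ∀ y ∈ Metric.ball (c + t • u2) δ', (det3 c u2 y < 0 → f y = f yR + 1)
        ∧ (0 < det3 c u2 y → f y = f yR) := by
    intro t ht hmem
    obtain ⟨δ', hδ', w, hw⟩ := hB' t ht (hsub hmem)
    have hU : Metric.ball (c + t • u2) δ' ∩ Metric.ball c δ ∈ 𝓝 (c + t • u2) :=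
      Filter.inter_mem (Metric.ball_mem_nhds _ hδ') (Metric.isOpen_ball.mem_nhds hmem)
    have hdx : det3 c u2 (c + t • u2) = 0 := by
      rw [det3_add_right, det3_smul_right, hc2, det3_self_right]; ring
    obtain ⟨τ2, hτ2, hm2⟩ := hpick (c + t • u2) 1 _ hU
    have a3 : 0 < det3 c u2 (c + t • u2 + (τ2 * 1) • g) := by
      rw [hdc2, hdx]; nlinarith
    have b2 := (hw _ hm2.1).2 a3
    rw [fR _ hm2.2 (Or.inr a3)] at b2
    rw [← b2] at hw
    exact ⟨δ', hδ', hw⟩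
  -- some t
  have hLR : f yL = f yR + 1 := by
    have h1 : Continuous (fun t : ℝ => c + t • u1) := by fun_prop
    have h2 := h1.tendsto 0
    simp only [zero_smul, add_zero] at h2
    have h3 := (h2.mono_left (nhdsWithin_le_nhds (s := Set.Ioi 0))).eventually
      (Metric.ball_mem_nhds c hδ)
    have h4 : ∀ᶠ τ : ℝ in 𝓝[>] 0, 0 < τ := self_mem_nhdsWithin
    obtain ⟨t, ht, ht0⟩ := (h3.and h4).exists
    obtain ⟨_, _, _, h5⟩ := rel1 t ht0 ht
    exact h5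
  refine ⟨δ, hδ, f yR, ?_, ?_, rel2⟩
  · intro y hy h1 h2
    by_cases c1 : det3 c u1 y < 0
    · left; exact fR y hy (Or.inl c1)
    by_cases c2 : 0 < det3 c u2 y
    · left; exact fR y hy (Or.inr c2)
    push Not at c1 c2
    rcases c1.eq_or_lt with c3 | c3
    · exfalso
      have hsp := span_det hc hu1 n1 n1' c3.symm
      obtain ⟨α, hα⟩ : ∃ α, α = (⟪y, c⟫ - ⟪c, u1⟫ * ⟪y, u1⟫) / (1 - ⟪c, u1⟫ ^ 2) := ⟨_, rfl⟩
      obtain ⟨β, hβ⟩ : ∃ β, β = (⟪y, u1⟫ - ⟪c, u1⟫ * ⟪y, c⟫) / (1 - ⟪c, u1⟫ ^ 2) := ⟨_, rfl⟩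
      have hα0 := (hball hy).2.1
      rw [← hα, ← hβ] at hsp
      rw [← hα] at hα0
      have hβ0 : β < 0 := by
        by_contra hcon
        push Not at hcon
        exact h1 ⟨α, β, hα0.le, hcon, hsp⟩
      have h3 : det3 c u2 y = β * det3 c u2 u1 := by rw [hsp, det3_comb]
      rw [hswap] at h3
      have hD0 : det3 c u1 u2 = 0 := by
        rcases hD.eq_or_lt with h | h
        · exact h.symm
        · exfalso
          have := mul_neg_of_neg_of_pos hβ0 h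
          linarith
      have h4 : det3 c u2 y = 0 := by rw [h3, hD0]; ring
      have hsp2 := span_det hc hu2 n2 n2' h4
      obtain ⟨α', hα'⟩ : ∃ α, α = (⟪y, c⟫ - ⟪c, u2⟫ * ⟪y, u2⟫) / (1 - ⟪c, u2⟫ ^ 2) := ⟨_, rfl⟩
      obtain ⟨β', hβ'⟩ : ∃ β, β = (⟪y, u2⟫ - ⟪c, u2⟫ * ⟪y, c⟫) / (1 - ⟪c, u2⟫ ^ 2) := ⟨_, rfl⟩
      have hα1 := (hball hy).2.2
      rw [← hα', ← hβ'] at hsp2
      rw [← hα'] at hα1
      have hβ1 : β' < 0 := by
        by_contra hcon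
        push Not at hcon
        exact h2 ⟨α', β', hα1.le, hcon, hsp2⟩
      have q1 : ⟪crs c u1, crs c y⟫ = β * k1 ^ 2 := by
        rw [← e1, ← crs_comb (crs c u1) c u1 α β, ← hsp]
      have q2 : ⟪crs c u1, crs c y⟫ = β' * ⟪crs c u1, crs c u2⟫ := by
        rw [← crs_comb (crs c u1) c u2 α' β', ← hsp2]
      have q3 := mul_pos_of_neg_of_neg hβ1 (hDz hD0)
      have q4 : 0 < k1 ^ 2 := by positivity
      nlinarith
    · rcases c2.eq_or_lt with c4 | c4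
      · exfalso
        have hsp := span_det hc hu2 n2 n2' c4
        obtain ⟨α, hα⟩ : ∃ α, α = (⟪y, c⟫ - ⟪c, u2⟫ * ⟪y, u2⟫) / (1 - ⟪c, u2⟫ ^ 2) := ⟨_, rfl⟩
        obtain ⟨β, hβ⟩ : ∃ β, β = (⟪y, u2⟫ - ⟪c, u2⟫ * ⟪y, c⟫) / (1 - ⟪c, u2⟫ ^ 2) := ⟨_, rfl⟩
        have hα0 := (hball hy).2.2
        rw [← hα, ← hβ] at hsp
        rw [← hα] at hα0
        have hβ0 : β < 0 := by
          by_contra hcon
          push Not at hcon
          exact h2 ⟨α, β, hα0.le, hcon, hsp⟩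
        have h3 : det3 c u1 y = β * det3 c u1 u2 := by rw [hsp, det3_comb]
        have := mul_nonpos_of_nonpos_of_nonneg hβ0.le hD
        linarith
      · right
        rw [fL y hy c3 c4, hLR]
  · intro t ht hmem
    obtain ⟨δ', hδ', hw, _⟩ := rel1 t ht hmem
    exact ⟨δ', hδ', hw⟩

end Pool.Agent.Helper30.N9
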