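import Pool.Agent.Helper30.N9.Cx

open scoped RealInnerProductSpace Topology

namespace Pool.Agent.Helper30.N9

namespace Cx

variable {U D C : Type} [Fintype U] [DecidableEq U] [Fintype D] [DecidableEq D]
    [Fintype C] [DecidableEq C] {X : Cx U D C}

theorem qa_rev (d : D) : X.qa (X.rev d) = X.qb d := by unfold qa qb; rw [X.fst_rev]
theorem qb_rev (d : D) : X.qb (X.rev d) = X.qa d := by unfold qa qb; rw [X.snd_rev]

theorem eventually_offa {y : E3} (hy : y ≠ 0) (ho : X.Offa (nrm y)) :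
    ∀ᶠ y' in 𝓝 y, y' ≠ 0 ∧ X.Offa (nrm y') := by
  have h1 : ∀ᶠ y' in 𝓝 y, y' ≠ 0 := isOpen_ne.mem_nhds hy
  have h2 : ∀ᶠ y' in 𝓝 y, ∀ d, nrm y' ∉ arc (X.qa d) (X.qb d) := by
    rw [Filter.eventually_all]
    intro d
    exact eventually_not_arc (X.unit _) (X.unit _) (qne d) (X.nn d) hy (ho d)
  exact h1.and h2

theorem eventually_w {y : E3} (hy : y ≠ 0) (ho : X.Offa (nrm y)) (c : C) :
    ∀ᶠ y' in 𝓝 y, y' ≠ 0 ∧ X.Offa (nrm y') ∧ X.w c (nrm y') = X.w c (nrm y) := by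
  filter_upwards [eventually_offa hy ho,
    (chain (X := X) c).W_eventually hy (fun d _ => ho d) (X.hc c)] with y' h1 h2
  exact ⟨h1.1, h1.2, h2.2.2⟩

theorem not_other {d : D} {x : E3} (hx : x ∈ arc (X.qa d) (X.qb d)) (hx1 : x ≠ X.qa d)
    (hx2 : x ≠ X.qb d) {e : D} (h1 : e ≠ d) (h2 : e ≠ X.rev d) :
    x ∉ arc (X.qa e) (X.qb e) := by
  intro hm
  rcases X.embed d e h1 h2 x hx hm with h | h
  · exact hx1 h
  · exact hx2 h

/-- near an interior point of an arc everything else is off -/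
theorem eventually_others (d : D) {x : E3} (hx : x ∈ arc (X.qa d) (X.qb d))
    (hx1 : x ≠ X.qa d) (hx2 : x ≠ X.qb d) :
    ∀ᶠ y in 𝓝 x, y ≠ 0 ∧ (∀ e, e ≠ d → e ≠ X.rev d → nrm y ∉ arc (X.qa e) (X.qb e)) ∧
      (det3 (X.qa d) (X.qb d) y ≠ 0 → X.Offa (nrm y)) := by
  have hx0 := ne_zero_of_unit hx.1
  have hnx := nrm_unit hx.1
  have h0 : ∀ᶠ y in 𝓝 x, y ≠ 0 := isOpen_ne.mem_nhds hx0
  have h1 : ∀ᶠ y in 𝓝 x, ∀ e, e ≠ d → e ≠ X.rev d → nrm y ∉ arc (X.qa e) (X.qb e) := by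
    rw [Filter.eventually_all]
    intro e
    by_cases h1 : e = d
    · exact Filter.Eventually.of_forall fun _ h => absurd h1 h
    by_cases h2 : e = X.rev d
    · exact Filter.Eventually.of_forall fun _ _ h => absurd h2 h
    filter_upwards [eventually_not_arc (X.unit _) (X.unit _) (qne e) (X.nn e) hx0
      (by rw [hnx]; exact not_other hx hx1 hx2 h1 h2)] with y hy _ _
    exact hy
  filter_upwards [h0, h1] with y h0 h1
  refine ⟨h0, h1, fun hd e => ?_⟩
  by_cases e1 : e = d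
  · rw [e1]; exact not_mem_arc_of_det hd
  by_cases e2 : e = X.rev d
  · have : arc (X.p (X.fst e)) (X.p (X.snd e)) = arc (X.qa d) (X.qb d) := by
      have a1 : X.p (X.fst e) = X.qb d := by rw [e2]; exact qa_rev d
      have a2 : X.p (X.snd e) = X.qa d := by rw [e2]; exact qb_rev d
      rw [a1, a2, arc_comm]
    show nrm y ∉ arc (X.p (X.fst e)) (X.p (X.snd e))
    rw [this]; exact not_mem_arc_of_det hd
  exact h1 e e1 e2

theorem edge_left (d : D) {x : E3} (hx : x ∈ arc (X.qa d) (X.qb d)) (hx1 : x ≠ X.qa d)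
    (hx2 : x ≠ X.qb d) : ∀ᶠ y in 𝓝 x, 0 < det3 (X.qa d) (X.qb d) y →
      X.Offa (nrm y) ∧ X.w (X.left d) (nrm y) = 1 := by
  have hx0 := ne_zero_of_unit hx.1
  have hnx := nrm_unit hx.1
  obtain ⟨δ, hδ, k, hk⟩ := local1 (chain (X := X) (X.left d)) (i0 := d) (X.mem_cd.mpr rfl) hx0
    (by rw [hnx]; exact hx) (by rw [hnx]; exact hx1) (by rw [hnx]; exact hx2) (by
      intro j hj hjd
      rw [hnx]
      apply not_other hx hx1 hx2 hjd
      intro h
      have := X.mem_cd.mp hj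
      rw [h] at this
      exact X.lr d this.symm) (X.hc (X.left d))
  have hev := eventually_others d hx hx1 hx2
  have hb : ∀ᶠ y in 𝓝 x, y ∈ Metric.ball x δ := Metric.ball_mem_nhds x hδ
  have hdx : det3 (X.qa d) (X.qb d) x = 0 := by
    by_contra hcon
    have := not_mem_arc_of_det hcon
    rw [hnx] at this
    exact this hx
  have hcp := crs_pos (X.unit (X.fst d)) (X.unit (X.snd d)) (qne d) (X.nn d)
  have hcp' : 0 < ⟪crs (X.qa d) (X.qb d), crs (X.qa d) (X.qb d)⟫ := hcp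
  obtain ⟨τ1, hτ1, hb1, hm1⟩ := PlaneGraph.exists_left (n := crs (X.qa d) (X.qb d))
    (hb.and hev)
  obtain ⟨τ2, hτ2, hb2, hm2⟩ := PlaneGraph.exists_left (n := - crs (X.qa d) (X.qb d))
    (hb.and hev)
  have d1 : 0 < det3 (X.qa d) (X.qb d) (x + τ1 • crs (X.qa d) (X.qb d)) := by
    rw [det3_add_right, det3_smul_right, det3_crs, hdx]
    have := mul_pos hτ1 hcp'
    linarith
  have d2 : det3 (X.qa d) (X.qb d) (x + τ2 • -crs (X.qa d) (X.qb d)) < 0 := by
    rw [det3_add_right, det3_smul_right, det3_neg_right, det3_crs, hdx]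
    have := mul_pos hτ2 hcp'
    linarith
  have w1 := ((hk _ hb1).2.2.2.1 d1).2
  have w2 := ((hk _ hb2).2.2.2.2 d2).2
  have c1 := w_cases (norm_nrm hm1.1) (hm1.2.2 d1.ne') (X.left d)
  have c2 := w_cases (norm_nrm hm2.1) (hm2.2.2 d2.ne) (X.left d)
  unfold w at c1 c2
  rw [w1] at c1
  rw [w2] at c2
  have hk0 : k = 0 := by
    rcases c2 with h | h
    · exact h
    · rcases c1 with h' | h' <;> linarith
  filter_upwards [hb, hev] with y hy hy' hd
  refine ⟨hy'.2.2 hd.ne', ?_⟩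
  unfold w
  rw [((hk y hy).2.2.2.1 hd).2, hk0, zero_add]

theorem det_rev (d : D) (y : E3) : det3 (X.qa (X.rev d)) (X.qb (X.rev d)) y
    = - det3 (X.qa d) (X.qb d) y := by
  rw [qa_rev, qb_rev]
  simp only [det3]; ring

theorem edge_right (d : D) {x : E3} (hx : x ∈ arc (X.qa d) (X.qb d)) (hx1 : x ≠ X.qa d)
    (hx2 : x ≠ X.qb d) : ∀ᶠ y in 𝓝 x, det3 (X.qa d) (X.qb d) y < 0 →
      X.Offa (nrm y) ∧ X.w (X.left (X.rev d)) (nrm y) = 1 := by
  have h := edge_left (X.rev d) (x := x) (by rw [qa_rev, qb_rev, arc_comm]; exact hx)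
    (by rw [qa_rev]; exact hx2) (by rw [qb_rev]; exact hx1)
  filter_upwards [h] with y hy hd
  apply hy
  rw [det_rev]
  linarith

/-- points of the arc near an interior point -/
theorem edge_on (d : D) {x : E3} (hx : x ∈ arc (X.qa d) (X.qb d)) (hx1 : x ≠ X.qa d)
    (hx2 : x ≠ X.qb d) : ∀ᶠ y in 𝓝 x, det3 (X.qa d) (X.qb d) y = 0 →
      nrm y ∈ arc (X.qa d) (X.qb d) ∧ nrm y ≠ X.qa d ∧ nrm y ≠ X.qb d := by
  have hx0 := ne_zero_of_unit hx.1
  have hnx := nrm_unit hx.1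
  obtain ⟨δ, hδ, k, hk⟩ := local1 (chain (X := X) (X.left d)) (i0 := d) (X.mem_cd.mpr rfl) hx0
    (by rw [hnx]; exact hx) (by rw [hnx]; exact hx1) (by rw [hnx]; exact hx2) (by
      intro j hj hjd
      rw [hnx]
      apply not_other hx hx1 hx2 hjd
      intro h
      have := X.mem_cd.mp hj
      rw [h] at this
      exact X.lr d this.symm) (X.hc (X.left d))
  have h1 : ∀ᶠ y in 𝓝 x, nrm y ≠ X.qa d :=
    (continuousAt_nrm hx0).eventually_ne (by rw [hnx]; exact hx1)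
  have h2 : ∀ᶠ y in 𝓝 x, nrm y ≠ X.qb d :=
    (continuousAt_nrm hx0).eventually_ne (by rw [hnx]; exact hx2)
  filter_upwards [Metric.ball_mem_nhds x hδ, h1, h2] with y hy h1 h2 hd
  exact ⟨(hk y hy).2.2.1 hd, h1, h2⟩

/-- midpoint of an arc -/
theorem exists_mid (d : D) : ∃ x, x ∈ arc (X.qa d) (X.qb d) ∧ x ≠ X.qa d ∧ x ≠ X.qb d := by
  obtain ⟨_, h1, h2, h3⟩ := pt_props (X.unit (X.fst d)) (X.unit (X.snd d)) (qne d) (X.nn d)
    one_pos
  exact ⟨_, h1, h2, h3⟩

theorem exists_left_pt (d : D) {x : E3} (hx : x ∈ arc (X.qa d) (X.qb d)) {U' : Set E3}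
    (hU : U' ∈ 𝓝 x) :
    ∃ y ∈ U', 0 < det3 (X.qa d) (X.qb d) y ∧ ∃ τ : ℝ, 0 < τ ∧
      y = x + τ • crs (X.qa d) (X.qb d) := by
  have hnx := nrm_unit hx.1
  have hdx : det3 (X.qa d) (X.qb d) x = 0 := by
    by_contra hcon
    have := not_mem_arc_of_det hcon
    rw [hnx] at this
    exact this hx
  have hcp : 0 < ⟪crs (X.qa d) (X.qb d), crs (X.qa d) (X.qb d)⟫ :=
    crs_pos (X.unit (X.fst d)) (X.unit (X.snd d)) (qne d) (X.nn d)
  obtain ⟨τ1, hτ1, hb1⟩ := PlaneGraph.exists_left (n := crs (X.qa d) (X.qb d)) hU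
  refine ⟨_, hb1, ?_, τ1, hτ1, rfl⟩
  rw [det3_add_right, det3_smul_right, det3_crs, hdx]
  have := mul_pos hτ1 hcp
  linarith

theorem exists_region (c : C) : ∃ y, y ≠ 0 ∧ X.Offa (nrm y) ∧ X.w c (nrm y) = 1 := by
  obtain ⟨d, hd⟩ := X.surj c
  obtain ⟨x, h1, h2, h3⟩ := exists_mid (X := X) d
  have hx0 : ∀ᶠ y in 𝓝 x, y ≠ 0 := isOpen_ne.mem_nhds (ne_zero_of_unit h1.1)
  obtain ⟨y, hy, hdet, _⟩ := exists_left_pt d h1 (hx0.and (edge_left d h1 h2 h3))
  have := hy.2 hdet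
  rw [hd] at this
  exact ⟨y, hy.1, this.1, this.2⟩

end Cx

/-- a stress of the complex with its lift x -/
structure Str {U D C : Type} [Fintype U] [DecidableEq U] [Fintype D] [DecidableEq D]
    [Fintype C] [DecidableEq C] (X : Cx U D C) where
  x : C → E3
  om : D → ℝ
  nonneg : ∀ d, 0 ≤ om d
  rel : ∀ d, x (X.left d) - x (X.left (X.rev d)) = om d • crs (X.qa d) (X.qb d)
  span : ∀ y, (∀ c c', ⟪x c - x c', y⟫ = 0) → y = 0

namespace Str

variable {U D C : Type} [Fintype U] [DecidableEq U] [Fintype D] [DecidableEq D]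
    [Fintype C] [DecidableEq C] {X : Cx U D C} (S : Str X)

open Cx

/-- maximum property -/
theorem maxprop {y : E3} (hy : y ≠ 0) (ho : X.Offa (nrm y)) {c : C}
    (hc : X.w c (nrm y) = 1) (c' : C) : ⟪S.x c', y⟫ ≤ ⟪S.x c, y⟫ ∧
      (⟪S.x c', y⟫ = ⟪S.x c, y⟫ → S.x c' = S.x c) := by
  classical
  obtain ⟨z, hz⟩ : ∃ z, z = nrm y := ⟨_, rfl⟩
  have hzu : ‖z‖ = 1 := by rw [hz]; exact norm_nrm hy
  rw [← hz] at ho hc
  -- a generic point in the region of c'
  have hOo : IsOpen {y' | y' ≠ 0 ∧ X.Offa (nrm y') ∧ X.w c' (nrm y') = 1} := by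
    rw [isOpen_iff_mem_nhds]
    rintro y' ⟨h1, h2, h3⟩
    filter_upwards [eventually_w h1 h2 c'] with y'' h
    exact ⟨h.1, h.2.1, by rw [h.2.2, h3]⟩
  have hOn : {y' | y' ≠ 0 ∧ X.Offa (nrm y') ∧ X.w c' (nrm y') = 1}.Nonempty := by
    obtain ⟨y', h1, h2, h3⟩ := exists_region (X := X) c'
    exact ⟨y', h1, h2, h3⟩
  obtain ⟨y', ⟨h1, h2, h3⟩, hgen⟩ := exists_generic
    ((Finset.univ.filter (fun u => z ≠ - X.p u)).image (fun u => crs (X.p u) z)) (by
      intro n hn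
      rw [Finset.mem_image] at hn
      obtain ⟨u, hu, rfl⟩ := hn
      rw [Finset.mem_filter] at hu
      intro h0
      have := crs_pos (X.unit u) hzu (off_ne ho u).symm (fun h => hu.2 (by rw [h, neg_neg]))
      rw [h0, inner_zero_left] at this
      exact lt_irrefl _ this) hOo hOn
  obtain ⟨z', hz'⟩ : ∃ z', z' = nrm y' := ⟨_, rfl⟩
  have hzu' : ‖z'‖ = 1 := by rw [hz']; exact norm_nrm h1
  rw [← hz'] at h2 h3
  have hg : ∀ u, z ≠ -X.p u → det3 (X.p u) z z' ≠ 0 := by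
    intro u hu
    have h4 := hgen (crs (X.p u) z) (Finset.mem_image.mpr ⟨u, by simp [hu], rfl⟩)
    rw [crs_inner] at h4
    rw [hz', det3_nrm]
    have h5 : 0 < ‖y'‖⁻¹ := inv_pos.mpr (norm_pos_iff.mpr h1)
    exact mul_ne_zero h5.ne' h4
  have hj := jump hzu hzu' ho h2 hg S.x
  rw [sum_w_smul hzu' h2 h3, sum_w_smul hzu ho hc] at hj
  simp only [S.rel] at hj
  -- signs
  have hsign : ∀ d, (E4 (-z) (-z') (X.qa d) (X.qb d) = 0) ∨
      0 < E4 (-z) (-z') (X.qa d) (X.qb d) * det3 (X.qa d) (X.qb d) z := by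
    intro d
    have hs := E4_sign (a := -z) (b := -z') (u := X.qa d) (v := X.qb d)
      (by rwa [norm_neg]) (by rwa [norm_neg]) (X.unit _) (X.unit _)
      (slit_d hzu' h2 d) (slit_d hzu ho d)
      (slit_gen hzu hzu' h2 _ (hg _)) (slit_gen hzu hzu' h2 _ (hg _))
      (fun h => off_ne ho _ (neg_injective h)) (fun h => off_ne ho _ (neg_injective h))
      (fun h => off_ne h2 _ (neg_injective h)) (fun h => off_ne h2 _ (neg_injective h))
      (X.nn d)
    have e : det3 (-z) (X.qa d) (X.qb d) = - det3 (X.qa d) (X.qb d) z := by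
      simp only [det3, PiLp.neg_apply]; ring
    rw [e] at hs
    rcases hs with h | h | h
    · left; exact h
    · right; exact mul_pos h.1 (by linarith)
    · right; exact mul_pos_of_neg_of_neg h.1 (by linarith)
  have hpi := Real.pi_pos
  have hk : 0 < (8 * Real.pi)⁻¹ := by positivity
  have hin : ⟪S.x c' - S.x c, z⟫ = -(8 * Real.pi)⁻¹ *
      ∑ d, S.om d * (E4 (-z) (-z') (X.qa d) (X.qb d) * det3 (X.qa d) (X.qb d) z) := by
    rw [hj, real_inner_smul_left, sum_inner]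
    congr 1
    apply Finset.sum_congr rfl
    intro d _
    rw [real_inner_smul_left, real_inner_smul_left, crs_inner]
    ring
  have hterm : ∀ d ∈ Finset.univ, 0 ≤
      S.om d * (E4 (-z) (-z') (X.qa d) (X.qb d) * det3 (X.qa d) (X.qb d) z) := by
    intro d _
    rcases hsign d with h | h
    · rw [h]; simp
    · exact mul_nonneg (S.nonneg d) h.le
  have hsum := Finset.sum_nonneg hterm
  have hyz : y = ‖y‖ • z := by
    rw [hz]
    unfold nrm
    rw [smul_smul, mul_inv_cancel₀ (norm_ne_zero_iff.mpr hy), one_smul]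
  have hyp : 0 < ‖y‖ := norm_pos_iff.mpr hy
  have hle : ⟪S.x c' - S.x c, z⟫ ≤ 0 := by
    rw [hin]
    have := mul_nonneg hk.le hsum
    linarith
  rw [inner_sub_left] at hle
  constructor
  · rw [hyz, real_inner_smul_right, real_inner_smul_right]
    exact mul_le_mul_of_nonneg_left (by linarith) hyp.le
  · intro heq
    rw [hyz, real_inner_smul_right, real_inner_smul_right] at heq
    have h6 := mul_left_cancel₀ hyp.ne' heq
    have h7 : ⟪S.x c' - S.x c, z⟫ = 0 := by rw [inner_sub_left, h6, sub_self]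
    rw [hin] at h7
    have h8 : ∑ d, S.om d * (E4 (-z) (-z') (X.qa d) (X.qb d) * det3 (X.qa d) (X.qb d) z) = 0 := by
      rcases mul_eq_zero.mp h7 with h | h
      · linarith
      · exact h
    have h9 := (Finset.sum_eq_zero_iff_of_nonneg hterm).mp h8
    have h10 : S.x c' - S.x c = 0 := by
      rw [hj]
      have : ∑ d, E4 (-z) (-z') (X.qa d) (X.qb d) • S.om d • crs (X.qa d) (X.qb d) = 0 := by
        apply Finset.sum_eq_zero
        intro d _
        rcases hsign d with h | h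
        · rw [h, zero_smul]
        · have h11 := h9 d (Finset.mem_univ d)
          rcases mul_eq_zero.mp h11 with h12 | h12
          · rw [h12, zero_smul, smul_zero]
          · exact absurd h12 h.ne'
      rw [this, smul_zero]
    exact sub_eq_zero.mp h10

end Str

end Pool.Agent.Helper30.N9
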