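import Pool.Agent.Helper30.N9.Cx3

open scoped RealInnerProductSpace Topology

namespace Pool.Agent.Helper30.N9

namespace Str

variable {U D C : Type} [Fintype U] [DecidableEq U] [Fintype D] [DecidableEq D]
    [Fintype C] [DecidableEq C] {X : Cx U D C} {S : Str X}

open Cx

/-- facet vertices -/
def Fac (S : Str X) (u : U) : Prop := 3 ≤ (S.Mx (X.p u)).card

theorem Mx_subset_KF (y : E3) : S.Mx y ⊆ S.KF := fun _ h => (mem_Mx.mp h).1

/-- moving in the direction v until a new maximizer appears -/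
theorem move {k y v : E3} (hk : k ∈ S.Mx y) (hv : v ≠ 0)
    (hv1 : ∀ m ∈ S.Mx y, ⟪k - m, v⟫ = 0) (hv2 : ⟪∑ l ∈ S.KF, (k - l), v⟫ = 0) :
    ∃ t : ℝ, 0 < t ∧ S.Mx y ⊆ S.Mx (y + t • v) ∧ (S.Mx y).card < (S.Mx (y + t • v)).card := by
  rw [sum_inner] at hv2
  have hne : ∃ l ∈ S.KF, ⟪k - l, v⟫ ≠ 0 := by
    by_contra hcon
    push Not at hcon
    exact hv (span' hcon)
  have hneg : ∃ l ∈ S.KF, ⟪k - l, v⟫ < 0 := by
    have h1 : ∑ l ∈ S.KF, (-⟪k - l, v⟫) = 0 := by rw [Finset.sum_neg_distrib, hv2, neg_zero]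
    obtain ⟨l, hl, hlt⟩ := Finset.exists_pos_of_sum_zero_of_exists_nonzero _ h1 (by
      obtain ⟨l, hl, h⟩ := hne
      exact ⟨l, hl, neg_ne_zero.mpr h⟩)
    exact ⟨l, hl, by linarith⟩
  classical
  obtain ⟨l0, hl0, hmin⟩ := Finset.exists_min_image (S.KF.filter (fun l => ⟪k - l, v⟫ < 0))
    (fun l => ⟪k - l, y⟫ / (-⟪k - l, v⟫)) (by
      obtain ⟨l, hl, h⟩ := hneg
      exact ⟨l, Finset.mem_filter.mpr ⟨hl, h⟩⟩)
  rw [Finset.mem_filter] at hl0
  obtain ⟨hl0K, hl0n⟩ := hl0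
  have hkK := (mem_Mx.mp hk).1
  have hge : ∀ l ∈ S.KF, 0 ≤ ⟪k - l, y⟫ := by
    intro l hl
    rw [inner_sub_left]
    linarith [(mem_Mx.mp hk).2 l hl]
  have hl0y : 0 < ⟪k - l0, y⟫ := by
    apply lt_of_le_of_ne (hge l0 hl0K)
    intro h0
    have : l0 ∈ S.Mx y := mem_Mx_of_eq hk hl0K (by rw [inner_sub_left] at h0; linarith)
    have := hv1 l0 this
    linarith
  obtain ⟨t, ht⟩ : ∃ t, t = ⟪k - l0, y⟫ / (-⟪k - l0, v⟫) := ⟨_, rfl⟩
  have ht0 : 0 < t := by rw [ht]; apply div_pos hl0y; linarith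
  have hkt : k ∈ S.Mx (y + t • v) := by
    rw [mem_Mx]
    refine ⟨hkK, fun l hl => ?_⟩
    have h1 : 0 ≤ ⟪k - l, y + t • v⟫ := by
      rw [inner_add_right, real_inner_smul_right]
      by_cases hn : ⟪k - l, v⟫ < 0
      · have h2 := hmin l (Finset.mem_filter.mpr ⟨hl, hn⟩)
        rw [← ht, le_div_iff₀ (by linarith)] at h2
        linarith
      · push Not at hn
        have := mul_nonneg ht0.le hn
        linarith [hge l hl]
    rw [inner_sub_left] at h1
    linarith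
  have hsub : S.Mx y ⊆ S.Mx (y + t • v) := by
    intro m hm
    apply mem_Mx_of_eq hkt (mem_Mx.mp hm).1
    have h1 := hv1 m hm
    have h2 := Mx_eq hm hk
    rw [inner_sub_left] at h1
    rw [inner_add_right, inner_add_right, real_inner_smul_right, real_inner_smul_right, h2]
    have : ⟪m, v⟫ = ⟪k, v⟫ := by linarith
    rw [this]
  refine ⟨t, ht0, hsub, ?_⟩
  apply Finset.card_lt_card
  rw [Finset.ssubset_iff_of_subset hsub]
  refine ⟨l0, ?_, ?_⟩
  · apply mem_Mx_of_eq hkt hl0K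
    have h1 : ⟪k - l0, y + t • v⟫ = 0 := by
      rw [inner_add_right, real_inner_smul_right, ht]
      have : ⟪k - l0, v⟫ ≠ 0 := hl0n.ne
      field_simp
      ring
    rw [inner_sub_left] at h1
    linarith
  · intro hm
    have := hv1 l0 hm
    linarith

/-- the normal cones are generated by facet vertices. -/
theorem cone_gen (y : E3) : ∃ c : U → ℝ, (∀ u, 0 ≤ c u) ∧
    (∀ u, c u ≠ 0 → S.Fac u ∧ S.Mx y ⊆ S.Mx (X.p u)) ∧ y = ∑ u, c u • X.p u := by
  obtain ⟨n, hn⟩ : ∃ n, n = S.KF.card - (S.Mx y).card := ⟨_, rfl⟩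
  induction n using Nat.strong_induction_on generalizing y with
  | _ n ih =>
    by_cases hy : y = 0
    · refine ⟨fun _ => 0, fun _ => le_refl _, fun u h => absurd rfl h, ?_⟩
      rw [hy]; simp
    by_cases h3 : 3 ≤ (S.Mx y).card
    · obtain ⟨u, hu⟩ := vertex_of_three hy h3
      have hM : S.Mx (X.p u) = S.Mx y := by rw [← hu, Mx_nrm hy]
      refine ⟨fun v => if v = u then ‖y‖ else 0, ?_, ?_, ?_⟩
      · intro v; by_cases h : v = u <;> simp [h]
      · intro v hv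
        by_cases h : v = u
        · subst h
          exact ⟨by unfold Fac; rw [hM]; exact h3, by rw [hM]⟩
        · simp [h] at hv
      · simp only [ite_smul, zero_smul]
        rw [Finset.sum_ite_eq' Finset.univ u, if_pos (Finset.mem_univ u), ← hu]
        unfold nrm
        rw [smul_smul, mul_inv_cancel₀ (norm_ne_zero_iff.mpr hy), one_smul]
    · push Not at h3
      obtain ⟨k, hk⟩ := Mx_nonempty (S := S) y
      -- another maximizer
      obtain ⟨b, hb⟩ : ∃ b, ∀ m ∈ S.Mx y, m = k ∨ m = b := by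
        classical
        have hc : ((S.Mx y).erase k).card ≤ 1 := by
          rw [Finset.card_erase_of_mem hk]; omega
        rw [Finset.card_le_one_iff_subset_singleton] at hc
        obtain ⟨b, hb⟩ := hc
        refine ⟨b, fun m hm => ?_⟩
        by_cases h : m = k
        · left; exact h
        · right
          have := hb (Finset.mem_erase.mpr ⟨h, hm⟩)
          rwa [Finset.mem_singleton] at this
      obtain ⟨v, hv0, hv1, hv2⟩ := exists_perp2 (∑ l ∈ S.KF, (k - l)) (k - b)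
      have hvM : ∀ m ∈ S.Mx y, ⟪k - m, v⟫ = 0 := by
        intro m hm
        rcases hb m hm with h | h
        · rw [h, sub_self, inner_zero_left]
        · rw [h]; exact hv2
      obtain ⟨t1, ht1, hs1, hc1⟩ := move hk hv0 hvM hv1
      obtain ⟨t2, ht2, hs2, hc2⟩ := move hk (neg_ne_zero.mpr hv0)
        (fun m hm => by rw [inner_neg_right, hvM m hm, neg_zero])
        (by rw [inner_neg_right, hv1, neg_zero])
      have hle1 := Finset.card_le_card (Mx_subset_KF (S := S) (y + t1 • v))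
      have hle2 := Finset.card_le_card (Mx_subset_KF (S := S) (y + t2 • -v))
      obtain ⟨c1, a1, a2, a3⟩ := ih _ (by omega) (y + t1 • v) rfl
      obtain ⟨c2, b1, b2, b3⟩ := ih _ (by omega) (y + t2 • -v) rfl
      have ht : 0 < t1 + t2 := by linarith
      refine ⟨fun u => (t2 / (t1 + t2)) * c1 u + (t1 / (t1 + t2)) * c2 u, ?_, ?_, ?_⟩
      · intro u
        have := a1 u
        have := b1 u
        positivity
      · intro u hu
        by_cases h1 : c1 u = 0
        · have h2 : c2 u ≠ 0 := by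
            intro h2
            apply hu
            simp only
            rw [h1, h2]; ring
          exact ⟨(b2 u h2).1, hs2.trans (b2 u h2).2⟩
        · exact ⟨(a2 u h1).1, hs1.trans (a2 u h1).2⟩
      · simp only [add_smul, mul_smul]
        rw [Finset.sum_add_distrib, ← Finset.smul_sum, ← Finset.smul_sum, ← a3, ← b3, smul_add,
          smul_add, smul_neg, smul_neg, smul_smul, smul_smul]
        have e1 : t2 / (t1 + t2) * t1 = t1 / (t1 + t2) * t2 := by ring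
        rw [e1]
        have e2 : (t2 / (t1 + t2)) • y + (t1 / (t1 + t2)) • y = y := by
          rw [← add_smul, ← add_div, add_comm t2 t1, div_self ht.ne', one_smul]
        calc y = (t2 / (t1 + t2)) • y + (t1 / (t1 + t2)) • y := e2.symm
          _ = _ := by abel

theorem Fac.three {u : U} (hu : S.Fac u) : ∃ k1 k2 k3, k1 ∈ S.Mx (X.p u) ∧
    k2 ∈ S.Mx (X.p u) ∧ k3 ∈ S.Mx (X.p u) ∧ k1 ≠ k2 ∧ k1 ≠ k3 ∧ k2 ≠ k3 := by
  unfold Fac at hu
  obtain ⟨k1, h1, k2, h2, k3, h3, h12, h13, h23⟩ :=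
    Finset.two_lt_card.mp (by omega : 2 < (S.Mx (X.p u)).card)
  exact ⟨k1, k2, k3, h1, h2, h3, h12, h13, h23⟩

/-- a direction with the same values on the facet of u is parallel to it -/
theorem Fac.par {u : U} (hu : S.Fac u) {y : E3}
    (h : ∀ k ∈ S.Mx (X.p u), ∀ l ∈ S.Mx (X.p u), ⟪k, y⟫ = ⟪l, y⟫) : ∃ t : ℝ, y = t • X.p u := by
  obtain ⟨k1, k2, k3, h1, h2, h3, h12, h13, h23⟩ := hu.three
  exact par_of_three (mem_Mx.mp h1).1 (mem_Mx.mp h2).1 (mem_Mx.mp h3).1 h12 h13 h23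
    (ne_zero_of_unit (X.unit u)) (Mx_eq h2 h1) (Mx_eq h3 h1) (h _ h2 _ h1) (h _ h3 _ h1)

/-- two facet vertices, the maximizers of one contained in those of the other -/
theorem Fac.eq_of_subset {u v : U} (hu : S.Fac u) (h : S.Mx (X.p u) ⊆ S.Mx (X.p v))
    (hn : X.p v ≠ - X.p u) : v = u := by
  obtain ⟨t, ht⟩ := hu.par (y := X.p v) (fun k hk l hl => Mx_eq (h hk) (h hl))
  have h1 : |t| = 1 := by
    have := X.unit v
    rw [ht, norm_smul, X.unit u, mul_one, Real.norm_eq_abs] at this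
    exact this
  rcases (abs_eq zero_le_one).mp h1 with h2 | h2
  · apply X.inj
    rw [ht, h2, one_smul]
  · exfalso
    apply hn
    rw [ht, h2, neg_one_smul]

/-- support function at a facet vertex -/
noncomputable def ht (S : Str X) (y : E3) : ℝ := S.KF.sup' KF_nonempty (fun k => ⟪k, y⟫)

theorem ht_eq {k y : E3} (hk : k ∈ S.Mx y) : S.ht y = ⟪k, y⟫ := by
  unfold ht
  apply le_antisymm
  · apply Finset.sup'_le
    intro l hl
    exact (mem_Mx.mp hk).2 l hl
  · exact Finset.le_sup' (fun k => ⟪k, y⟫) (mem_Mx.mp hk).1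

theorem le_ht {k y : E3} (hk : k ∈ S.KF) : ⟪k, y⟫ ≤ S.ht y := by
  unfold ht
  exact Finset.le_sup' (fun k => ⟪k, y⟫) hk

theorem mem_Mx_iff_ht {k y : E3} (hk : k ∈ S.KF) : k ∈ S.Mx y ↔ ⟪k, y⟫ = S.ht y := by
  constructor
  · intro h; exact (ht_eq h).symm
  · intro h
    obtain ⟨l, hl⟩ := Mx_nonempty (S := S) y
    exact mem_Mx_of_eq hl hk (by rw [h, ht_eq hl])

/-- positivity of the heights when 0 is the barycentre -/
theorem ht_pos (h0 : ∑ c, S.x c = 0) {y : E3} (hy : y ≠ 0) : 0 < S.ht y := by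
  by_contra hcon
  push Not at hcon
  have h1 : ∀ c ∈ Finset.univ, ⟪S.x c, y⟫ ≤ 0 := fun c _ => (le_ht (x_mem c)).trans hcon
  have h2 : ∑ c, ⟪S.x c, y⟫ = 0 := by rw [← sum_inner, h0, inner_zero_left]
  have h3 := (Finset.sum_eq_zero_iff_of_nonpos h1).mp h2
  apply hy
  apply S.span
  intro c c'
  rw [inner_sub_left, h3 c (Finset.mem_univ _), h3 c' (Finset.mem_univ _), sub_self]

/-- a point of P with three independent active normals is a vertex -/
theorem all_vertices {y : E3} (hy : ∀ u, S.Fac u → ⟪X.p u, y⟫ ≤ S.ht (X.p u)) {i j l : U}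
    (hi : S.Fac i ∧ ⟪X.p i, y⟫ = S.ht (X.p i)) (hj : S.Fac j ∧ ⟪X.p j, y⟫ = S.ht (X.p j))
    (hl : S.Fac l ∧ ⟪X.p l, y⟫ = S.ht (X.p l)) (hd : det3 (X.p i) (X.p j) (X.p l) ≠ 0) :
    y ∈ S.KF := by
  obtain ⟨z, hz⟩ : ∃ z, z = X.p i + X.p j + X.p l := ⟨_, rfl⟩
  obtain ⟨c, c1, c2, c3⟩ := cone_gen (S := S) z
  obtain ⟨k, hk⟩ := Mx_nonempty (S := S) z
  have hkK := (mem_Mx.mp hk).1
  have e1 : ⟪z, y⟫ = S.ht (X.p i) + S.ht (X.p j) + S.ht (X.p l) := by
    rw [hz, inner_add_left, inner_add_left, hi.2, hj.2, hl.2]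
  have e2 : ⟪z, y⟫ ≤ ⟪z, k⟫ := by
    rw [c3, sum_inner, sum_inner]
    apply Finset.sum_le_sum
    intro u _
    rw [real_inner_smul_left, real_inner_smul_left]
    by_cases h : c u = 0
    · rw [h, zero_mul, zero_mul]
    · apply mul_le_mul_of_nonneg_left _ (c1 u)
      have h1 := hy u (c2 u h).1
      have h2 := ht_eq ((c2 u h).2 hk)
      rw [real_inner_comm] at h2
      linarith
  have e3 : ⟪z, k⟫ = ⟪X.p i, k⟫ + ⟪X.p j, k⟫ + ⟪X.p l, k⟫ := by
    rw [hz, inner_add_left, inner_add_left]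
  have q1 := le_ht (S := S) (y := X.p i) hkK
  have q2 := le_ht (S := S) (y := X.p j) hkK
  have q3 := le_ht (S := S) (y := X.p l) hkK
  rw [real_inner_comm] at q1 q2 q3
  have r1 : ⟪X.p i, y - k⟫ = 0 := by rw [inner_sub_right, hi.2]; linarith
  have r2 : ⟪X.p j, y - k⟫ = 0 := by rw [inner_sub_right, hj.2]; linarith
  have r3 : ⟪X.p l, y - k⟫ = 0 := by rw [inner_sub_right, hl.2]; linarith
  have hc : crs (X.p i) (X.p j) ≠ 0 := by
    intro h0
    apply hd
    rw [← crs_inner, h0, inner_zero_left]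
  have hp := par_of_crs hc r1 r2
  have h4 : y - k = 0 := by
    obtain ⟨s, hs⟩ : ∃ s, s = ⟪crs (X.p i) (X.p j), y - k⟫
      / ⟪crs (X.p i) (X.p j), crs (X.p i) (X.p j)⟫ := ⟨_, rfl⟩
    rw [← hs] at hp
    rw [hp, real_inner_smul_right, real_inner_comm, crs_inner] at r3
    rcases mul_eq_zero.mp r3 with h | h
    · rw [hp, h, zero_smul]
    · exact absurd h hd
  have : y = k := sub_eq_zero.mp h4
  rw [this]; exact hkK

/-- boundedness -/
theorem bounded : ∃ c > 0, ∀ y : E3, ∃ u, S.Fac u ∧ c * ‖y‖ ≤ ⟪X.p u, y⟫ := by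
  classical
  have hex : ∀ y : E3, y ≠ 0 → ∃ u, S.Fac u ∧ 0 < ⟪X.p u, y⟫ := by
    intro y hy
    obtain ⟨c, c1, c2, c3⟩ := cone_gen (S := S) y
    by_contra hcon
    push Not at hcon
    have h1 : ⟪y, y⟫ ≤ 0 := by
      calc ⟪y, y⟫ = ⟪∑ u, c u • X.p u, y⟫ := by rw [← c3]
        _ = ∑ u, c u * ⟪X.p u, y⟫ := by
          rw [sum_inner]
          exact Finset.sum_congr rfl fun u _ => real_inner_smul_left _ _ _
        _ ≤ 0 := by
          apply Finset.sum_nonpos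
          intro u _
          by_cases h : c u = 0
          · rw [h, zero_mul]
          · exact mul_nonpos_of_nonneg_of_nonpos (c1 u) (hcon u (c2 u h).1)
    rw [real_inner_self_eq_norm_sq] at h1
    have := norm_pos_iff.mpr hy
    nlinarith
  obtain ⟨e0, he0⟩ : ∃ e : E3, ‖e‖ = 1 := by
    obtain ⟨v, hv, _⟩ := exists_perp2 0 0
    exact ⟨nrm v, norm_nrm hv⟩
  obtain ⟨u0, hu0, _⟩ := hex e0 (ne_zero_of_unit he0)
  have hne : (Finset.univ.filter (fun u => S.Fac u)).Nonempty :=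
    ⟨u0, Finset.mem_filter.mpr ⟨Finset.mem_univ _, hu0⟩⟩
  obtain ⟨F, hF⟩ : ∃ F : E3 → ℝ, F = fun y =>
    (Finset.univ.filter (fun u => S.Fac u)).sup' hne (fun u => ⟪X.p u, y⟫) := ⟨_, rfl⟩
  have hFc : Continuous F := by
    rw [hF]
    apply Continuous.finset_sup'_apply
    intro u _
    fun_prop
  obtain ⟨y0, hy0, hmin⟩ := (isCompact_sphere (0 : E3) 1).exists_isMinOn
    ⟨e0, by rw [mem_sphere_zero_iff_norm]; exact he0⟩ hFc.continuousOn
  rw [mem_sphere_zero_iff_norm] at hy0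
  have hpos : 0 < F y0 := by
    obtain ⟨u, hu, hup⟩ := hex y0 (ne_zero_of_unit hy0)
    rw [hF]
    apply lt_of_lt_of_le hup
    exact Finset.le_sup' (fun u => ⟪X.p u, y0⟫)
      (Finset.mem_filter.mpr ⟨Finset.mem_univ _, hu⟩)
  refine ⟨F y0, hpos, fun y => ?_⟩
  by_cases hy : y = 0
  · exact ⟨u0, hu0, by rw [hy]; simp⟩
  · have h1 : F y0 ≤ F (nrm y) := hmin (by rw [mem_sphere_zero_iff_norm]; exact norm_nrm hy)
    obtain ⟨u, hu, hue⟩ := Finset.exists_mem_eq_sup' hne (fun u => ⟪X.p u, nrm y⟫)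
    have h2 : F (nrm y) = ⟪X.p u, nrm y⟫ := by rw [hF]; exact hue
    refine ⟨u, (Finset.mem_filter.mp hu).2, ?_⟩
    rw [h2, inner_nrm] at h1
    have h3 : 0 < ‖y‖ := norm_pos_iff.mpr hy
    calc F y0 * ‖y‖ ≤ ‖y‖⁻¹ * ⟪X.p u, y⟫ * ‖y‖ := mul_le_mul_of_nonneg_right h1 h3.le
      _ = ⟪X.p u, y⟫ := by field_simp

end Str

end Pool.Agent.Helper30.N9
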