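import Pool.Agent.Helper30.N9.Cx6

open scoped RealInnerProductSpace Topology

namespace Pool.Agent.Helper30.N9

theorem det3_sum3 {U : Type*} (s : Finset U) (f : U → ℝ) (P : U → E3) (a b : E3) :
    det3 a b (∑ u ∈ s, f u • P u) = ∑ u ∈ s, f u * det3 a b (P u) := by
  rw [← crs_inner, inner_sum]
  apply Finset.sum_congr rfl
  intro u _
  rw [real_inner_smul_right, crs_inner]

namespace Str

variable {U D C : Type} [Fintype U] [DecidableEq U] [Fintype D] [DecidableEq D]
    [Fintype C] [DecidableEq C] {X : Cx U D C} {S : Str X}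

open Cx

/-- three independent active normals at every vertex -/
theorem act_span {k : E3} (hk : k ∈ S.KF) : ∃ i j l, (S.Fac i ∧ k ∈ S.Mx (X.p i)) ∧
    (S.Fac j ∧ k ∈ S.Mx (X.p j)) ∧ (S.Fac l ∧ k ∈ S.Mx (X.p l)) ∧
    det3 (X.p i) (X.p j) (X.p l) ≠ 0 := by
  obtain ⟨y0, hy0, hM⟩ := exists_strict hk
  obtain ⟨δ, hδ, hb⟩ := Metric.mem_nhds_iff.mp (eventually_Mx (S := S) y0)
  have hin : ∀ y ∈ Metric.ball y0 δ, k ∈ S.Mx y := by
    intro y hy
    have h1 : S.Mx y ⊆ S.Mx y0 := hb hy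
    obtain ⟨m, hm⟩ := Mx_nonempty (S := S) y
    have h2 := h1 hm
    rw [hM, Finset.mem_singleton] at h2
    rwa [← h2]
  obtain ⟨e, he0, hey, _⟩ := exists_perp2 y0 y0
  have hcr : crs y0 e ≠ 0 := by
    intro h0
    have h1 := crs_inner_self y0 e
    rw [h0, inner_zero_left, hey] at h1
    have h2 : 0 < ⟪y0, y0⟫ := by
      rw [real_inner_self_eq_norm_sq]; have := norm_pos_iff.mpr hy0; positivity
    have h3 : 0 < ⟪e, e⟫ := by
      rw [real_inner_self_eq_norm_sq]; have := norm_pos_iff.mpr he0; positivity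
    have := mul_pos h2 h3
    linarith
  have hcrp : 0 < ⟪crs y0 e, crs y0 e⟫ := by
    rw [real_inner_self_eq_norm_sq]; have := norm_pos_iff.mpr hcr; positivity
  obtain ⟨ε, hε, h1, h2⟩ : ∃ ε : ℝ, 0 < ε ∧ y0 + ε • e ∈ Metric.ball y0 δ ∧
      y0 + ε • crs y0 e ∈ Metric.ball y0 δ := by
    have ev : ∀ᶠ t : ℝ in 𝓝[>] 0, 0 < t := self_mem_nhdsWithin
    obtain ⟨t, ⟨h1, h2⟩, h3⟩ := (((PlaneGraph.exists_small (c := y0) (u := e) hδ).and
      (PlaneGraph.exists_small (c := y0) (u := crs y0 e) hδ)).and ev).exists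
    exact ⟨t, h3, h1, h2⟩
  have hdet : det3 y0 (y0 + ε • e) (y0 + ε • crs y0 e) ≠ 0 := by
    have : det3 y0 (y0 + ε • e) (y0 + ε • crs y0 e) = ε ^ 2 * ⟪crs y0 e, crs y0 e⟫ := by
      rw [det3_add_right, det3_smul_right]
      have e1 : det3 y0 (y0 + ε • e) y0 = 0 := by simp only [det3]; ring
      have e2 : det3 y0 (y0 + ε • e) (crs y0 e) = ε * ⟪crs y0 e, crs y0 e⟫ := by
        rw [← crs_inner, crs_add_right, crs_self, zero_add, crs_smul_right,
          real_inner_smul_left]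
      rw [e1, e2]; ring
    rw [this]
    positivity
  obtain ⟨a, a1, a2, a3⟩ := cone_gen (S := S) y0
  obtain ⟨b, b1, b2, b3⟩ := cone_gen (S := S) (y0 + ε • e)
  obtain ⟨c, c1, c2, c3⟩ := cone_gen (S := S) (y0 + ε • crs y0 e)
  by_contra hcon
  push Not at hcon
  apply hdet
  have k0 := hin y0 (Metric.mem_ball_self hδ)
  have k1 := hin _ h1
  have k2 := hin _ h2
  rw [c3, det3_sum3]
  apply Finset.sum_eq_zero
  intro l _
  by_cases hl : c l = 0
  · rw [hl, zero_mul]
  have hl' : det3 y0 (y0 + ε • e) (X.p l) = 0 := by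
    rw [← det3_rot, ← det3_rot, b3, det3_sum3]
    apply Finset.sum_eq_zero
    intro j _
    by_cases hj : b j = 0
    · rw [hj, zero_mul]
    have hj' : det3 (X.p l) y0 (X.p j) = 0 := by
      rw [← det3_rot, ← det3_rot, ← det3_rot, ← det3_rot]
      have e1 : det3 (X.p j) (X.p l) y0 = det3 (X.p l) y0 (X.p j) := by
        simp only [det3]; ring
      have e2 : det3 (X.p j) (X.p l) y0 = 0 := by
        rw [a3, det3_sum3]
        apply Finset.sum_eq_zero
        intro i _
        by_cases hi : a i = 0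
        · rw [hi, zero_mul]
        · rw [hcon j l i ⟨(b2 j hj).1, (b2 j hj).2 k1⟩ ⟨(c2 l hl).1, (c2 l hl).2 k2⟩
            ⟨(a2 i hi).1, (a2 i hi).2 k0⟩, mul_zero]
      simp only [det3] at e2 ⊢
      linarith
    rw [hj', mul_zero]
  rw [hl', mul_zero]

/-- a point in the relative interior of a facet -/
theorem facet_pt {i : U} (hi : S.Fac i) : ∃ y : E3, ⟪X.p i, y⟫ = S.ht (X.p i) ∧
    ∀ j, S.Fac j → j ≠ i → ⟪X.p j, y⟫ < S.ht (X.p j) := by
  have hcard : (0 : ℝ) < ((S.Mx (X.p i)).card : ℝ) := by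
    have := Mx_nonempty (S := S) (X.p i)
    exact_mod_cast Finset.card_pos.mpr this
  obtain ⟨m, hm⟩ : ∃ m : ℝ, m = ((S.Mx (X.p i)).card : ℝ) := ⟨_, rfl⟩
  rw [← hm] at hcard
  refine ⟨m⁻¹ • ∑ k ∈ S.Mx (X.p i), k, ?_, ?_⟩
  · rw [real_inner_smul_right, inner_sum]
    have : ∑ k ∈ S.Mx (X.p i), ⟪X.p i, k⟫ = ∑ k ∈ S.Mx (X.p i), S.ht (X.p i) := by
      apply Finset.sum_congr rfl
      intro k hk
      rw [real_inner_comm, ht_eq hk]
    rw [this, Finset.sum_const, nsmul_eq_mul, ← hm, ← mul_assoc, inv_mul_cancel₀ hcard.ne',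
      one_mul]
  · intro j hj hji
    rw [real_inner_smul_right, inner_sum]
    have hle : ∀ k ∈ S.Mx (X.p i), ⟪X.p j, k⟫ ≤ S.ht (X.p j) := by
      intro k hk
      rw [real_inner_comm]
      exact le_ht (mem_Mx.mp hk).1
    have hlt : ∃ k ∈ S.Mx (X.p i), ⟪X.p j, k⟫ < S.ht (X.p j) := by
      by_contra hcon
      push Not at hcon
      have hsub : S.Mx (X.p i) ⊆ S.Mx (X.p j) := by
        intro k hk
        rw [mem_Mx_iff_ht (mem_Mx.mp hk).1, real_inner_comm]
        exact le_antisymm (hle k hk) (hcon k hk)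
      apply hji
      apply hi.eq_of_subset hsub
      intro h
      obtain ⟨k, hk⟩ := Mx_nonempty (S := S) (X.p i)
      have h1 := hsub hk
      rw [h] at h1
      exact not_both (ne_zero_of_unit (X.unit i)) hk h1
    have hs := Finset.sum_lt_sum hle hlt
    rw [Finset.sum_const, nsmul_eq_mul, ← hm] at hs
    calc m⁻¹ * ∑ k ∈ S.Mx (X.p i), ⟪X.p j, k⟫ < m⁻¹ * (m * S.ht (X.p j)) :=
          mul_lt_mul_of_pos_left hs (inv_pos.mpr hcard)
      _ = S.ht (X.p j) := by rw [← mul_assoc, inv_mul_cancel₀ hcard.ne', one_mul]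

/-- barycentre -/
noncomputable def bary (S : Str X) : E3 := (Fintype.card C : ℝ)⁻¹ • ∑ c, S.x c

theorem bary_lt {y : E3} (hy : y ≠ 0) : ⟪S.bary, y⟫ < S.ht y := by
  have hne : Nonempty C := by
    by_contra h
    rw [not_nonempty_iff] at h
    exact hy (S.span y (fun c _ => h.elim c))
  have hcard : (0 : ℝ) < (Fintype.card C : ℝ) := by exact_mod_cast Fintype.card_pos
  unfold bary
  rw [real_inner_smul_left, sum_inner]
  have hle : ∀ c ∈ Finset.univ, ⟪S.x c, y⟫ ≤ S.ht y := fun c _ => le_ht (x_mem c)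
  have hlt : ∃ c ∈ Finset.univ, ⟪S.x c, y⟫ < S.ht y := by
    by_contra hcon
    push Not at hcon
    apply hy
    apply S.span
    intro c c'
    have h1 := le_antisymm (hle c (Finset.mem_univ _)) (hcon c (Finset.mem_univ _))
    have h2 := le_antisymm (hle c' (Finset.mem_univ _)) (hcon c' (Finset.mem_univ _))
    rw [inner_sub_left, h1, h2, sub_self]
  have hs := Finset.sum_lt_sum hle hlt
  rw [Finset.sum_const, nsmul_eq_mul, Finset.card_univ] at hs
  calc (Fintype.card C : ℝ)⁻¹ * ∑ c, ⟪S.x c, y⟫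
      < (Fintype.card C : ℝ)⁻¹ * ((Fintype.card C : ℝ) * S.ht y) :=
        mul_lt_mul_of_pos_left hs (inv_pos.mpr hcard)
    _ = S.ht y := by rw [← mul_assoc, inv_mul_cancel₀ hcard.ne', one_mul]

/-- sides of the normal cone of k, by determinants -/
def SideE (S : Str X) (k : E3) (i j : U) : Prop :=
  (S.Fac i ∧ k ∈ S.Mx (X.p i)) ∧ (S.Fac j ∧ k ∈ S.Mx (X.p j)) ∧ i ≠ j ∧
    ∀ u, S.Fac u → k ∈ S.Mx (X.p u) → u ≠ i → u ≠ j → 0 < det3 (X.p i) (X.p j) (X.p u)

theorem Ends.side {k l : E3} {i j : U} (h : Ends S k l i j) : S.SideE k i j := by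
  refine ⟨⟨h.fi, h.ki⟩, ⟨h.fj, h.kj⟩, h.ij, ?_⟩
  intro u fu ku hui huj
  obtain ⟨c, hc, hori⟩ := h.ori
  rw [← crs_inner, hori, real_inner_smul_left]
  apply mul_pos hc
  have hlK := (mem_Mx.mp h.li).1
  have hlt : ⟪l, X.p u⟫ < ⟪k, X.p u⟫ := by
    apply lt_of_le_of_ne ((mem_Mx.mp ku).2 l hlK)
    intro he
    rcases h.only u fu ku (mem_Mx_of_eq ku hlK he) with h1 | h1
    · exact hui h1
    · exact huj h1
  rw [inner_sub_left]
  linarith

theorem Ends.unique {k l l' : E3} {i j : U} (h : Ends S k l i j) (h' : Ends S k l' i j) :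
    l = l' := by
  have h1 := (h'.of_cone zero_le_one zero_le_one).2
  rcases h.card_two one_pos one_pos l' h1 with h2 | h2
  · exact absurd h2.symm h'.ne
  · exact h2.symm

theorem side_ends {k : E3} (hk : k ∈ S.KF) {i j : U} (h : S.SideE k i j) :
    ∃ l, (S.DK k l).Nonempty ∧ Ends S k l i j := by
  obtain ⟨⟨fi, ki⟩, ⟨fj, kj⟩, hij, hpos⟩ := h
  have hne : X.p i ≠ X.p j := fun h => hij (X.inj h)
  have hnn : X.p i ≠ - X.p j := by
    intro h
    rw [h] at ki
    exact not_both (ne_zero_of_unit (X.unit j)) kj ki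
  have hcn : crs (X.p i) (X.p j) ≠ 0 := crs_ne_zero (X.unit i) (X.unit j) hne hnn
  have hcp := crs_pos (X.unit i) (X.unit j) hne hnn
  -- k is not the only maximizer at positive combinations
  have hnot : ∀ t : ℝ, 0 < t → ¬ S.Mx (X.p i + t • X.p j) ⊆ {k} := by
    intro t ht hsub
    have hev := eventually_Mx (S := S) (X.p i + t • X.p j)
    obtain ⟨τ, hτ, hm⟩ := PlaneGraph.exists_left (n := - crs (X.p i) (X.p j)) hev
    have hkm : k ∈ S.Mx (X.p i + t • X.p j + τ • -crs (X.p i) (X.p j)) := by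
      obtain ⟨m, hm'⟩ := Mx_nonempty (S := S) (X.p i + t • X.p j + τ • -crs (X.p i) (X.p j))
      have h1 := hsub (hm hm')
      rw [Finset.mem_singleton] at h1
      rwa [← h1]
    obtain ⟨c, c1, c2, c3⟩ := cone_gen (S := S) (X.p i + t • X.p j
      + τ • -crs (X.p i) (X.p j))
    have h1 : 0 ≤ det3 (X.p i) (X.p j) (X.p i + t • X.p j + τ • -crs (X.p i) (X.p j)) := by
      rw [c3, det3_sum3]
      apply Finset.sum_nonneg
      intro u _
      by_cases hu : c u = 0
      · rw [hu, zero_mul]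
      · apply mul_nonneg (c1 u)
        obtain ⟨fu, hs⟩ := c2 u hu
        by_cases hui : u = i
        · rw [hui, det3_self_left]
        by_cases huj : u = j
        · rw [huj, det3_self_right]
        exact (hpos u fu (hs hkm) hui huj).le
    rw [det3_add_right, det3_add_right, det3_smul_right, det3_smul_right, det3_neg_right,
      det3_crs, det3_self_left, det3_self_right] at h1
    have := mul_pos hτ hcp
    linarith
  -- a non-vertex direction
  obtain ⟨t, ht, hnv⟩ : ∃ t : ℝ, 0 < t ∧ ∀ v, nrm (X.p i + t • X.p j) ≠ X.p v := by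
    have hcont : Continuous (fun t : ℝ => X.p i + t • X.p j) := by fun_prop
    have htend := hcont.tendsto 0
    simp only [zero_smul, add_zero] at htend
    have htend' := htend.mono_left (nhdsWithin_le_nhds (s := Set.Ioi 0))
    have ev1 : ∀ᶠ y in 𝓝 (X.p i), ∀ v, v ≠ i → nrm y ≠ X.p v := by
      rw [Filter.eventually_all]
      intro v
      by_cases hv : v = i
      · exact Filter.Eventually.of_forall fun _ h => absurd hv h
      · have : ∀ᶠ y in 𝓝 (X.p i), nrm y ≠ X.p v :=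
          (continuousAt_nrm (ne_zero_of_unit (X.unit i))).eventually_ne
            (by rw [nrm_unit (X.unit i)]; exact fun h => hv (X.inj h).symm)
        filter_upwards [this] with y hy _
        exact hy
    have ev3 : ∀ᶠ t : ℝ in 𝓝[>] 0, 0 < t := self_mem_nhdsWithin
    obtain ⟨t, h1, ht⟩ := ((htend'.eventually ev1).and ev3).exists
    refine ⟨t, ht, fun v => ?_⟩
    by_cases hv : v = i
    · rw [hv]
      exact (pt_props (X.unit i) (X.unit j) hne hnn ht).2.2.1
    · exact h1 v hv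
  obtain ⟨z, hz⟩ : ∃ z, z = X.p i + t • X.p j := ⟨_, rfl⟩
  have hz' : z = (1 : ℝ) • X.p i + t • X.p j := by rw [hz, one_smul]
  have q0 : z ≠ 0 := by rw [hz]; exact (pt_props (X.unit i) (X.unit j) hne hnn ht).1
  have hnot' := hnot t ht
  rw [← hz] at hnot' hnv
  have hkz : k ∈ S.Mx z := by rw [hz']; exact Mx_comb ki kj zero_le_one ht.le
  rcases position (X := X) q0 with ⟨c', ho, hw⟩ | ⟨v, hv⟩ | ⟨e, e1, e2, e3⟩
  · exfalso
    have h1 := Mx_off (S := S) q0 ho hw
    apply hnot'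
    rw [h1] at hkz ⊢
    rw [Finset.mem_singleton] at hkz
    rw [hkz]
  · exact absurd hv (hnv v)
  · obtain ⟨m1, m2, m3⟩ := Mx_edge (S := S) e e1 e2 e3
    rw [Mx_nrm q0] at m1 m2 m3
    -- the other maximizer
    obtain ⟨l, hlz, hkl, hDK⟩ : ∃ l, l ∈ S.Mx z ∧ k ≠ l ∧ (S.DK k l).Nonempty := by
      rcases m3 k hkz with h1 | h1
      · refine ⟨S.x (X.left (X.rev e)), m2, ?_, ⟨e, mem_DK.mpr ⟨h1.symm, rfl⟩⟩⟩
        intro h2
        apply hnot'
        intro m hm
        rw [Finset.mem_singleton]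
        rcases m3 m hm with h3 | h3
        · rw [h3, ← h1]
        · rw [h3, ← h2]
      · refine ⟨S.x (X.left e), m1, ?_, ⟨X.rev e, mem_DK.mpr ⟨h1.symm, ?_⟩⟩⟩
        · intro h2
          apply hnot'
          intro m hm
          rw [Finset.mem_singleton]
          rcases m3 m hm with h3 | h3
          · rw [h3, ← h2]
          · rw [h3, ← h1]
        · rw [X.rev_rev]
    have hl : l ∈ S.Mx (X.p i) ∧ l ∈ S.Mx (X.p j) := by
      rw [hz'] at hlz
      exact Mx_comb_sub ki kj one_pos ht hlz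
    refine ⟨l, hDK, ?_⟩
    rcases exists_ends_aux hkl fi fj ki hl.1 kj hl.2 hcn with h1 | h1
    · exact h1
    · exfalso
      obtain ⟨a, b, c, ⟨fa, ka⟩, ⟨fb, kb⟩, ⟨fc, kc⟩, hd⟩ := act_span hk
      -- a third facet vertex
      obtain ⟨u, fu, ku, hui, huj⟩ : ∃ u, S.Fac u ∧ k ∈ S.Mx (X.p u) ∧ u ≠ i ∧ u ≠ j := by
        by_contra hcon
        push Not at hcon
        have hcase : ∀ u, S.Fac u → k ∈ S.Mx (X.p u) → u = i ∨ u = j := by
          intro u fu ku
          by_cases hui : u = i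
          · left; exact hui
          · right; exact hcon u fu ku hui
        apply hd
        rcases hcase a fa ka with h2 | h2 <;> rcases hcase b fb kb with h3 | h3 <;>
          rcases hcase c fc kc with h4 | h4 <;> rw [h2, h3, h4] <;> simp only [det3] <;> ring
      have h2 := hpos u fu ku hui huj
      have h3 := h1.side.2.2.2 u fu ku huj hui
      have h4 : det3 (X.p j) (X.p i) (X.p u) = - det3 (X.p i) (X.p j) (X.p u) := by
        simp only [det3]; ring
      linarith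

end Str

end Pool.Agent.Helper30.N9
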