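import Pool.Agent.Helper30.N9.Sheet4

open scoped RealInnerProductSpace Topology

namespace Pool.Agent.Helper30.N9

theorem slit_pos' {g a b : E3} (hg : ‖g‖ = 1) (ha : ‖a‖ = 1) (hb : ‖b‖ = 1)
    (h1 : 0 < ⟪g, a⟫) (h2 : 0 < ⟪g, b⟫) : zc g a b ∈ Complex.slitPlane :=
  slit_hemi hg ha hb (by rw [inner_self_one hg]; exact one_pos) h1 h2

theorem Om_self {g a : E3} (hg : ‖g‖ = 1) (ha : ‖a‖ = 1) (h : 0 < ⟪g, a⟫) : Om g a a = 0 := by
  have h1 := Om_swap (slit_pos' hg ha ha h h)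
  linarith

/-- the area seen from a centre, for closed chains that may have trivial members. -/
theorem centre_indep_gen {ι : Type*} {s : Finset ι} {a b : ι → E3} (ua : ∀ i ∈ s, ‖a i‖ = 1)
    (ub : ∀ i ∈ s, ‖b i‖ = 1) (nn : ∀ i ∈ s, a i ≠ - b i)
    (closed : ∀ g : E3 → Real.Angle, ∑ i ∈ s, g (b i) = ∑ i ∈ s, g (a i)) {h h' : E3}
    (hh : Centre s a b h) (hh' : Centre s a b h') : SA s a b h = SA s a b h' := by
  classical
  obtain ⟨s', hs'⟩ : ∃ s', s' = s.filter (fun i => a i ≠ b i) := ⟨_, rfl⟩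
  have hsub : ∀ i ∈ s', i ∈ s := fun i hi => by rw [hs', Finset.mem_filter] at hi; exact hi.1
  have hne : ∀ i ∈ s', a i ≠ b i := fun i hi => by
    rw [hs', Finset.mem_filter] at hi; exact hi.2
  have key : ∀ {A : Type} [AddCommGroup A] (F : ι → A), (∀ i ∈ s, a i = b i → F i = 0) →
      ∑ i ∈ s', F i = ∑ i ∈ s, F i := by
    intro A _ F hF
    apply Finset.sum_subset hsub
    intro i hi hi'
    apply hF i hi
    by_contra hcon
    exact hi' (by rw [hs', Finset.mem_filter]; exact ⟨hi, hcon⟩)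
  have hc : Chain s' a b := by
    refine ⟨fun i hi => ua i (hsub i hi), fun i hi => ub i (hsub i hi), hne,
      fun i hi => nn i (hsub i hi), fun g => ?_⟩
    have h1 := key (fun i => g (b i) - g (a i)) (fun i _ hi => by rw [hi, sub_self])
    rw [Finset.sum_sub_distrib, Finset.sum_sub_distrib, closed g, sub_self] at h1
    exact sub_eq_zero.mp h1
  have hS : ∀ x, Centre s a b x → SA s' a b x = SA s a b x := by
    intro x hx
    apply key (fun i => Om x (a i) (b i))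
    intro i hi he
    change Om x (a i) (b i) = 0
    rw [← he]
    exact Om_self hx.1 (ua i hi) (hx.2 i hi).1
  rw [← hS h hh, ← hS h' hh']
  exact hc.centre_indep ⟨hh.1, fun i hi => hh.2 i (hsub i hi)⟩
    ⟨hh'.1, fun i hi => hh'.2 i (hsub i hi)⟩

theorem inner_le_one {a b : E3} (ha : ‖a‖ = 1) (hb : ‖b‖ = 1) : ⟪a, b⟫ ≤ 1 := by
  have := real_inner_le_norm a b
  rwa [ha, hb, one_mul] at this

theorem neg_one_le_inner {a b : E3} (ha : ‖a‖ = 1) (hb : ‖b‖ = 1) : -1 ≤ ⟪a, b⟫ := by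
  have := inner_le_one ha (show ‖-b‖ = 1 by rwa [norm_neg])
  rw [inner_neg_right] at this
  linarith

theorem ang_le_iff {a b c d : E3} (ha : ‖a‖ = 1) (hb : ‖b‖ = 1) (hc : ‖c‖ = 1) (hd : ‖d‖ = 1) :
    ang a b ≤ ang c d ↔ ⟪c, d⟫ ≤ ⟪a, b⟫ := by
  unfold ang
  constructor
  · intro h
    by_contra hcon
    push Not at hcon
    have := Real.arccos_lt_arccos (neg_one_le_inner ha hb) hcon (inner_le_one hc hd)
    linarith
  · intro h
    exact Real.arccos_le_arccos h

theorem nn_of_ang {a b c d : E3} (ha : ‖a‖ = 1) (hb : ‖b‖ = 1) (hc : ‖c‖ = 1) (hd : ‖d‖ = 1)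
    (h : ang a b ≤ ang c d) (hcd : c ≠ -d) : a ≠ -b := by
  rw [ang_le_iff ha hb hc hd] at h
  have h1 := inner_gt_neg_one hc hd hcd
  intro he
  rw [he, inner_neg_left, inner_self_one hb] at h
  linarith

namespace Str

variable {U D C : Type} [Fintype U] [DecidableEq U] [Fintype D] [DecidableEq D]
    [Fintype C] [DecidableEq C] {X : Cx U D C} {S : Str X}

open Cx

/-- boundary of the cells of value k -/
noncomputable def bk (S : Str X) (k : E3) : Finset D := X.bd {c | S.x c = k}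

theorem mem_bk {k : E3} {d : D} : d ∈ S.bk k ↔
    S.x (X.left d) = k ∧ S.x (X.left (X.rev d)) ≠ k := by
  unfold bk Cx.bd
  simp

theorem DK_bk {k l : E3} (hkl : k ≠ l) {d : D} (h : d ∈ S.DK k l) : d ∈ S.bk k := by
  rw [mem_DK] at h
  rw [mem_bk, h.2]
  exact ⟨h.1, hkl.symm⟩

theorem Ends.uniq {k l : E3} {i j i' j' : U} (h : Ends S k l i j) (h' : Ends S k l i' j') :
    i = i' ∧ j = j' := by
  rcases h.only i' h'.fi h'.ki h'.li with h1 | h1
  · rcases h.only j' h'.fj h'.kj h'.lj with h2 | h2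
    · exact absurd (h1.trans h2.symm) h'.ij
    · exact ⟨h1.symm, h2.symm⟩
  · rcases h.only j' h'.fj h'.kj h'.lj with h2 | h2
    · exfalso
      obtain ⟨c, hc, e⟩ := h.ori
      obtain ⟨c', hc', e'⟩ := h'.ori
      rw [h1, h2, crs_swap, e, ← smul_neg, neg_sub] at e'
      have h3 : (c + c') • (k - l) = 0 := by
        rw [add_smul, ← e', ← smul_add]
        have : k - l + (l - k) = 0 := by abel
        rw [this, smul_zero]
      rcases smul_eq_zero.mp h3 with h4 | h4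
      · linarith
      · exact h.ne (sub_eq_zero.mp h4)
    · exact absurd (h1.trans h2.symm) h'.ij

/-- a dart leaves the start of the path -/
theorem Ends.start {k l : E3} {i j : U} (h : Ends S k l i j) : ∃ d ∈ S.DK k l, X.fst d = i := by
  obtain ⟨d, hd, hd2⟩ := h.swap.exists_in h.li h.ki h.ij
  exact ⟨X.rev d, rev_DK hd, by rw [X.fst_rev, hd2]⟩

theorem Ends.finish {k l : E3} {i j : U} (h : Ends S k l i j) : ∃ d ∈ S.DK k l, X.snd d = j :=
  h.exists_in h.kj h.lj h.ij.symm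

/-- hypotheses on the map q -/
structure Map (S : Str X) (q : U → E3) (g : E3 → E3) : Prop where
  unit : ∀ u, ‖q u‖ = 1
  con : ∀ d, S.om d ≠ 0 → ang (q (X.fst d)) (q (X.snd d)) ≤ ang (X.qa d) (X.qb d)
  cen : ∀ k ∈ S.KF, Centre (S.bk k) (fun d => q (X.fst d)) (fun d => q (X.snd d)) (g k)

theorem Map.con_DK {q : U → E3} {g : E3 → E3} (hq : Map S q g) {k l : E3} (hkl : k ≠ l) :
    ∀ d ∈ S.DK k l, ang (q (X.fst d)) (q (X.snd d)) ≤ ang (X.qa d) (X.qb d) :=
  fun d hd => hq.con d (om_pos hkl hd).1.ne'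

theorem Map.pos {q : U → E3} {g : E3 → E3} (hq : Map S q g) {k : E3} (hk : k ∈ S.KF) {d : D}
    (hd : d ∈ S.bk k) : 0 < ⟪g k, q (X.fst d)⟫ ∧ 0 < ⟪g k, q (X.snd d)⟫ := (hq.cen k hk).2 d hd

theorem Ends.kK {k l : E3} {i j : U} (h : Ends S k l i j) : k ∈ S.KF := (mem_Mx.mp h.ki).1
theorem Ends.lK {k l : E3} {i j : U} (h : Ends S k l i j) : l ∈ S.KF := (mem_Mx.mp h.li).1

theorem Map.pos_ends {q : U → E3} {g : E3 → E3} (hq : Map S q g) {k l : E3} {i j : U}
    (h : Ends S k l i j) : 0 < ⟪g k, q i⟫ ∧ 0 < ⟪g k, q j⟫ := by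
  obtain ⟨d, hd, hdi⟩ := h.start
  obtain ⟨e, he, hej⟩ := h.finish
  have h1 := (hq.pos h.kK (DK_bk h.ne hd)).1
  have h2 := (hq.pos h.kK (DK_bk h.ne he)).2
  rw [hdi] at h1
  rw [hej] at h2
  exact ⟨h1, h2⟩

theorem Map.ends_con {q : U → E3} {g : E3 → E3} (hq : Map S q g) {k l : E3} {i j : U}
    (h : Ends S k l i j) : ang (q i) (q j) ≤ ang (X.p i) (X.p j) :=
  h.contract hq.unit (hq.con_DK h.ne) h.kj h.lj

/-- the difference of the path and the side is antisymmetric -/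
theorem Map.antisymm {q : U → E3} {g : E3 → E3} (hq : Map S q g) {k l : E3} {i j : U}
    (h : Ends S k l i j) :
    ∑ d ∈ S.DK k l, Om (g k) (q (X.fst d)) (q (X.snd d)) - Om (g k) (q i) (q j)
      = -(∑ d ∈ S.DK l k, Om (g l) (q (X.fst d)) (q (X.snd d)) - Om (g l) (q j) (q i)) := by
  classical
  have gk := (hq.cen k h.kK).1
  have gl := (hq.cen l h.lK).1
  have pk := hq.pos_ends h
  have pl := hq.pos_ends h.swap
  -- reversal
  have e1 : ∑ d ∈ S.DK l k, Om (g l) (q (X.fst d)) (q (X.snd d))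
      = - ∑ d ∈ S.DK k l, Om (g l) (q (X.fst d)) (q (X.snd d)) := by
    rw [← Finset.sum_neg_distrib]
    refine Finset.sum_bij' (fun d _ => X.rev d) (fun d _ => X.rev d) ?_ ?_ ?_ ?_ ?_
    · intro d hd; exact rev_DK hd
    · intro d hd; exact rev_DK hd
    · intro d _; exact X.rev_rev d
    · intro d _; exact X.rev_rev d
    · intro d hd
      rw [X.fst_rev, X.snd_rev]
      have h1 := hq.pos h.lK (DK_bk h.ne.symm hd)
      have := Om_swap (slit_pos' gl (hq.unit _) (hq.unit _) h1.1 h1.2)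
      linarith
  have e2 : Om (g l) (q j) (q i) = - Om (g l) (q i) (q j) :=
    Om_swap (slit_pos' gl (hq.unit _) (hq.unit _) pl.2 pl.1)
  have e2' : Om (g k) (q j) (q i) = - Om (g k) (q i) (q j) :=
    Om_swap (slit_pos' gk (hq.unit _) (hq.unit _) pk.1 pk.2)
  have hpij : X.p i ≠ - X.p j := by
    intro h5
    have h6 := h.ki
    rw [h5] at h6
    exact not_both (ne_zero_of_unit (X.unit j)) h.kj h6
  have hqij := nn_of_ang (hq.unit i) (hq.unit j) (X.unit i) (X.unit j) (hq.ends_con h) hpij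
  -- the closed chain
  obtain ⟨s, hs⟩ : ∃ s : Finset (Option D), s = Finset.insertNone (S.DK k l) := ⟨_, rfl⟩
  obtain ⟨a, ha⟩ : ∃ a : Option D → E3, a = fun o => o.elim (q j) (fun d => q (X.fst d)) :=
    ⟨_, rfl⟩
  obtain ⟨b, hb⟩ : ∃ b : Option D → E3, b = fun o => o.elim (q i) (fun d => q (X.snd d)) :=
    ⟨_, rfl⟩
  have sumo : ∀ {A : Type} [AddCommMonoid A] (F : Option D → A),
      ∑ o ∈ s, F o = F none + ∑ d ∈ S.DK k l, F (some d) := by
    intro A _ F
    rw [hs]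
    exact Finset.sum_insertNone F (S.DK k l)
  have mems : ∀ o ∈ s, o = none ∨ ∃ d ∈ S.DK k l, o = some d := by
    intro o ho
    rcases o with _ | d
    · left; rfl
    · right
      rw [hs, Finset.some_mem_insertNone] at ho
      exact ⟨d, ho, rfl⟩
  have hcl : ∀ γ : E3 → Real.Angle, ∑ o ∈ s, γ (b o) = ∑ o ∈ s, γ (a o) := by
    intro γ
    rw [sumo, sumo, ha, hb]
    simp only [Option.elim]
    have := h.telescope (fun u => γ (q u))
    rw [sub_eq_sub_iff_add_eq_add] at this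
    rw [add_comm, this, add_comm]
  have ck : Centre s a b (g k) := by
    refine ⟨gk, fun o ho => ?_⟩
    rcases mems o ho with rfl | ⟨d, hd, rfl⟩
    · rw [ha, hb]; exact ⟨pk.2, pk.1⟩
    · rw [ha, hb]; exact hq.pos h.kK (DK_bk h.ne hd)
  have cl : Centre s a b (g l) := by
    refine ⟨gl, fun o ho => ?_⟩
    rcases mems o ho with rfl | ⟨d, hd, rfl⟩
    · rw [ha, hb]; exact ⟨pl.1, pl.2⟩
    · rw [ha, hb]
      have := hq.pos h.lK (DK_bk h.ne.symm (rev_DK hd))
      rw [X.fst_rev, X.snd_rev] at this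
      exact ⟨this.2, this.1⟩
  have key := centre_indep_gen (s := s) (a := a) (b := b) (by
      intro o ho
      rcases mems o ho with rfl | ⟨d, hd, rfl⟩ <;> rw [ha] <;> exact hq.unit _)
    (by
      intro o ho
      rcases mems o ho with rfl | ⟨d, hd, rfl⟩ <;> rw [hb] <;> exact hq.unit _)
    (by
      intro o ho
      rcases mems o ho with rfl | ⟨d, hd, rfl⟩
      · rw [ha, hb]
        intro h7
        exact hqij (by rw [show q j = - q i from h7, neg_neg])
      · rw [ha, hb]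
        exact nn_of_ang (hq.unit _) (hq.unit _) (X.unit _) (X.unit _)
          (hq.con_DK h.ne d hd) (X.nn d))
    hcl ck cl
  unfold SA at key
  rw [sumo, sumo, ha, hb] at key
  simp only [Option.elim] at key
  rw [e1, e2]
  rw [e2', e2] at key
  linarith

end Str

end Pool.Agent.Helper30.N9
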