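import Mathlib

open scoped RealInnerProductSpace

namespace Pool.Agent.Helper30.N9

abbrev E3 : Type := EuclideanSpace ℝ (Fin 3)

/-- The determinant (triple product) of three vectors. -/
noncomputable def det3 (a b c : E3) : ℝ :=
  a 0 * (b 1 * c 2 - b 2 * c 1) - a 1 * (b 0 * c 2 - b 2 * c 0)
    + a 2 * (b 0 * c 1 - b 1 * c 0)

/-- The complex number 1 + ab + bc + ca + i det(a,b,c). -/
noncomputable def zc (a b c : E3) : ℂ :=
  ⟨1 + ⟪a, b⟫ + ⟪b, c⟫ + ⟪c, a⟫, det3 a b c⟩

/-- Signed area of the geodesic triangle a b c of the unit sphere (its vertices in an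
open hemisphere), positive if a, b, c are positively oriented. -/
noncomputable def Om (a b c : E3) : ℝ := 2 * (zc a b c).arg

/-- The shortest geodesic arc between two unit vectors that are not opposite. -/
def arc (a b : E3) : Set E3 :=
  {x | ‖x‖ = 1 ∧ ∃ s t : ℝ, 0 ≤ s ∧ 0 ≤ t ∧ x = s • a + t • b}

/-- Geodesic distance of two unit vectors. -/
noncomputable def ang (a b : E3) : ℝ := Real.arccos ⟪a, b⟫

/-- A connected simple graph with a rotation system: `nxt` is the face permutation of the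
darts (`nxt d` follows `d` on the boundary of the face to the left of `d`), the darts leaving a
vertex form one orbit of `d ↦ nxt d.symm`, and V - E + F = 2. -/
structure PlaneGraph (V : Type) [Fintype V] [DecidableEq V] where
  G : SimpleGraph V
  decAdj : DecidableRel G.Adj
  nxt : Equiv.Perm G.Dart
  nxt_fst : ∀ d, (nxt d).fst = d.snd
  rot : Equiv.Perm G.Dart
  rot_eq : ∀ d, rot d = nxt d.symm
  trans : ∀ d e, d.fst = e.fst → rot.SameCycle d e
  euler : Fintype.card V + Nat.card (Quotient (Equiv.Perm.SameCycle.setoid nxt))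
    = G.edgeFinset.card + 2

attribute [instance] PlaneGraph.decAdj

namespace PlaneGraph

variable {V : Type} [Fintype V] [DecidableEq V] (M : PlaneGraph V)

/-- Vertex 3-connected. -/
def Conn3 : Prop :=
  4 ≤ Fintype.card V ∧ ∀ s : Finset V, s.card ≤ 2 → (M.G.induce {v | v ∉ s}).Connected

/-- The vertex v lies on the face to the left of the dart d. -/
def OnFace (d : M.G.Dart) (v : V) : Prop := ∃ e, M.nxt.SameCycle d e ∧ e.fst = v

/-- The faces are induced and nonseparating cycles. -/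
structure Peripheral : Prop where
  simple : ∀ d e, M.nxt.SameCycle d e → d.fst = e.fst → d = e
  induced : ∀ d e, M.OnFace d e.fst → M.OnFace d e.snd →
    M.nxt.SameCycle d e ∨ M.nxt.SameCycle d e.symm
  nonsep : ∀ d, (M.G.induce {v | ¬ M.OnFace d v}).Connected

open Classical in
/-- The darts of the face of d. -/
noncomputable def face (d : M.G.Dart) : Finset M.G.Dart :=
  Finset.univ.filter (fun e => M.nxt.SameCycle d e)

/-- The class C(G) of realizations. -/
structure InC (p : V → E3) : Prop where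
  unit : ∀ v, ‖p v‖ = 1
  inj : Function.Injective p
  ne_neg : ∀ d : M.G.Dart, p d.fst ≠ - p d.snd
  embed : ∀ d e : M.G.Dart, d.edge ≠ e.edge → ∀ x ∈ arc (p d.fst) (p d.snd),
    x ∈ arc (p e.fst) (p e.snd) → ∃ v, v ∈ d.edge ∧ v ∈ e.edge ∧ x = p v
  per : ∀ d, ∑ e ∈ M.face d, ang (p e.fst) (p e.snd) < 2 * Real.pi
  deg : ∃ h : M.G.Dart → E3, (∀ d, ‖h d‖ = 1) ∧ (∀ d, h (M.nxt d) = h d) ∧
    (∀ d, 0 < ⟪h d, p d.fst⟫) ∧
    ∑ d : M.G.Dart, Om (h d) (p d.fst) (p d.snd) = 4 * Real.pi

/-- No edge of q is longer than the same edge of p. -/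
def Le (q p : V → E3) : Prop :=
  ∀ d : M.G.Dart, ang (q d.fst) (q d.snd) ≤ ang (p d.fst) (p d.snd)

/-- Local minimality. -/
def LocMin (p : V → E3) : Prop :=
  M.InC p ∧ ∃ ε > 0, ∀ q, M.InC q → (∀ v, dist (q v) (p v) < ε) → M.Le q p →
    ∀ d : M.G.Dart, ang (q d.fst) (q d.snd) = ang (p d.fst) (p d.snd)

/-- Q1 of the problem for the plane graph M. -/
def Q1 : Prop :=
  ∀ p, M.LocMin p → ∀ q, M.InC q → M.Le q p →
    ∃ R : E3 ≃ₗᵢ[ℝ] E3, LinearMap.det (R.toLinearEquiv : E3 →ₗ[ℝ] E3) = 1 ∧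
      ∀ v, q v = R (p v)

end PlaneGraph

end Pool.Agent.Helper30.N9
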