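import Pool.Agent.Helper30.N9.Local2

open scoped RealInnerProductSpace Topology

namespace Pool.Agent.Helper30.N9

namespace PlaneGraph

variable {V : Type} [Fintype V] [DecidableEq V] (M : PlaneGraph V)

/-- faces -/
abbrev Face : Type := Quotient (Equiv.Perm.SameCycle.setoid M.nxt)

/-- face to the left of a dart -/
def fc (d : M.G.Dart) : M.Face := Quotient.mk _ d

theorem fc_eq {d e : M.G.Dart} : M.fc d = M.fc e ↔ M.nxt.SameCycle d e := Quotient.eq

theorem fc_nxt (d : M.G.Dart) : M.fc (M.nxt d) = M.fc d := by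
  rw [fc_eq]
  exact Equiv.Perm.sameCycle_apply_left.mpr (Equiv.Perm.SameCycle.refl _ _)

noncomputable instance : Fintype M.Face := Fintype.ofFinite _

noncomputable instance : DecidableEq M.Face := Classical.decEq _

/-- darts of a face -/
noncomputable def fdarts (w : M.Face) : Finset M.G.Dart :=
  Finset.univ.filter (fun e => M.fc e = w)

theorem mem_fdarts {w : M.Face} {e : M.G.Dart} : e ∈ M.fdarts w ↔ M.fc e = w := by
  simp [fdarts]

theorem face_eq (d : M.G.Dart) : M.face d = M.fdarts (M.fc d) := by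
  ext e
  rw [mem_fdarts]
  unfold face
  rw [Finset.mem_filter]
  rw [eq_comm, fc_eq]
  simp

/-- the start and end point of a dart -/
def ga (q : V → E3) (d : M.G.Dart) : E3 := q d.fst
def gb (q : V → E3) (d : M.G.Dart) : E3 := q d.snd

variable {M}

theorem sum_snd {A : Type*} [AddCommMonoid A] (w : M.Face) (g : V → A) :
    ∑ e ∈ M.fdarts w, g e.snd = ∑ e ∈ M.fdarts w, g e.fst := by
  have h1 : ∑ e ∈ M.fdarts w, g e.fst = ∑ e ∈ (M.fdarts w).map M.nxt.toEmbedding, g e.fst := by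
    congr 1
    ext e
    rw [Finset.mem_map]
    constructor
    · intro he
      refine ⟨M.nxt.symm e, ?_, by simp⟩
      rw [mem_fdarts] at he ⊢
      rw [← he, ← M.fc_nxt (M.nxt.symm e)]
      simp
    · rintro ⟨e', he', rfl⟩
      rw [mem_fdarts] at he' ⊢
      rw [← he']
      exact M.fc_nxt e'
  rw [h1, Finset.sum_map]
  apply Finset.sum_congr rfl
  intro e _
  have := M.nxt_fst e
  simp [this]

theorem InC.q_ne {q : V → E3} (hq : M.InC q) (d : M.G.Dart) : q d.fst ≠ q d.snd := fun h =>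
  d.adj.ne (hq.inj h)

theorem InC.chain {q : V → E3} (hq : M.InC q) (w : M.Face) :
    Chain (M.fdarts w) (M.ga q) (M.gb q) where
  ua := fun i _ => hq.unit _
  ub := fun i _ => hq.unit _
  ne := fun i _ => hq.q_ne i
  nn := fun i _ => hq.ne_neg i
  closed := fun g => sum_snd w (fun v => g (q v))

theorem sum_faces {A : Type*} [AddCommMonoid A] (f : M.G.Dart → A) :
    ∑ w : M.Face, ∑ e ∈ M.fdarts w, f e = ∑ e : M.G.Dart, f e := by
  unfold fdarts
  exact Finset.sum_fiberwise Finset.univ M.fc f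

/-- all faces have centres -/
def Cen (M : PlaneGraph V) (q : V → E3) (h : M.Face → E3) : Prop :=
  ∀ w, Centre (M.fdarts w) (M.ga q) (M.gb q) (h w)

theorem snd_mem_face {w : M.Face} {e : M.G.Dart} (he : e ∈ M.fdarts w) :
    ∃ e' ∈ M.fdarts w, e'.fst = e.snd :=
  ⟨M.nxt e, by rw [mem_fdarts] at he ⊢; rw [M.fc_nxt, he], M.nxt_fst e⟩

theorem InC.cen {q : V → E3} (hq : M.InC q) : ∃ h : M.Face → E3, M.Cen q h ∧
    ∑ w, SA (M.fdarts w) (M.ga q) (M.gb q) (h w) = 4 * Real.pi := by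
  obtain ⟨h, h1, h2, h3, h4⟩ := hq.deg
  have hcyc : ∀ d e, M.nxt.SameCycle d e → h e = h d := by
    rintro d e ⟨i, rfl⟩
    induction i using Int.induction_on with
    | zero => simp
    | succ i ih =>
      rw [add_comm, zpow_add, zpow_one, Equiv.Perm.mul_apply, h2, ih]
    | pred i ih =>
      rw [← h2, ← Equiv.Perm.mul_apply, ← zpow_one_add]
      have : (1 : ℤ) + (-(i : ℤ) - 1) = - (i : ℤ) := by ring
      rw [this, ih]
  have hout : ∀ d : M.G.Dart, h (M.fc d).out = h d := by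
    intro d
    apply hcyc
    rw [← fc_eq]
    exact (Quotient.out_eq (M.fc d)).symm
  refine ⟨fun w => h w.out, ?_, ?_⟩
  · intro w
    refine ⟨h1 _, fun i hi => ?_⟩
    rw [mem_fdarts] at hi
    have e1 : h w.out = h i := by rw [← hi]; exact hout i
    constructor
    · change 0 < ⟪h w.out, M.ga q i⟫
      rw [e1]; exact h3 i
    · have := h3 (M.nxt i)
      rw [h2, M.nxt_fst] at this
      change 0 < ⟪h w.out, M.gb q i⟫
      rw [e1]; exact this
  · rw [← h4, ← sum_faces]
    apply Finset.sum_congr rfl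
    intro w _
    unfold SA
    apply Finset.sum_congr rfl
    intro i hi
    rw [mem_fdarts] at hi
    rw [← hi]
    simp only [ga, gb]
    rw [hout i]

/-- any choice of centres gives total area 4 pi. -/
theorem InC.cen_sum {q : V → E3} (hq : M.InC q) {h : M.Face → E3} (hh : M.Cen q h) :
    ∑ w, SA (M.fdarts w) (M.ga q) (M.gb q) (h w) = 4 * Real.pi := by
  obtain ⟨h', hh', e⟩ := hq.cen
  rw [← e]
  apply Finset.sum_congr rfl
  intro w _
  exact (hq.chain w).centre_indep (hh w) (hh' w)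

theorem sum_darts_zero {f : M.G.Dart → ℝ} (hf : ∀ d, f d.symm = - f d) :
    ∑ d, f d = 0 := by
  have h1 : ∑ d, f d = ∑ d : M.G.Dart, f d.symm := by
    refine Finset.sum_bij' (fun d _ => d.symm) (fun d _ => d.symm) ?_ ?_ ?_ ?_ ?_ <;> simp
  have h2 : ∑ d : M.G.Dart, f d.symm = - ∑ d, f d := by
    rw [← Finset.sum_neg_distrib]
    exact Finset.sum_congr rfl fun d _ => hf d
  linarith

/-- z is off the drawing -/
def OffAll (M : PlaneGraph V) (q : V → E3) (z : E3) : Prop :=
  ∀ d : M.G.Dart, z ∉ arc (q d.fst) (q d.snd)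

theorem sum_SA_zero {q : V → E3} (hq : M.InC q) {z : E3} (hz : ‖z‖ = 1)
    (ho : M.OffAll q z) : ∑ w, SA (M.fdarts w) (M.ga q) (M.gb q) (-z) = 0 := by
  unfold SA
  rw [sum_faces]
  apply sum_darts_zero
  intro d
  simp only [ga, gb]
  exact Om_swap (slit_of_not_mem hz (hq.unit _) (hq.unit _) (hq.q_ne d) (hq.ne_neg d) (ho d))

/-- winding number of the face w at z -/
noncomputable def FW (M : PlaneGraph V) (q : V → E3) (h : M.Face → E3) (w : M.Face)
    (z : E3) : ℝ := W (M.fdarts w) (M.ga q) (M.gb q) (h w) z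

theorem sum_FW {q : V → E3} (hq : M.InC q) {h : M.Face → E3} (hh : M.Cen q h) {z : E3}
    (hz : ‖z‖ = 1) (ho : M.OffAll q z) : ∑ w, M.FW q h w z = 1 := by
  unfold FW W
  rw [← Finset.sum_div, Finset.sum_sub_distrib, hq.cen_sum hh, sum_SA_zero hq hz ho, sub_zero,
    div_self]
  have := Real.pi_pos
  positivity

/-- not all vertices lie in an open hemisphere. -/
theorem not_hemisphere {q : V → E3} (hq : M.InC q) {n : E3} (hn : ‖n‖ = 1)
    (h : ∀ v, 0 < ⟪n, q v⟫) : False := by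
  have hc : M.Cen q (fun _ => n) := fun w => ⟨hn, fun i _ => ⟨h _, h _⟩⟩
  have h1 := hq.cen_sum hc
  unfold SA at h1
  rw [sum_faces (fun d => Om n (M.ga q d) (M.gb q d)), sum_darts_zero] at h1
  · have := Real.pi_pos
    linarith
  · intro d
    simp only [ga, gb]
    exact Om_swap (slit_of_pos hn (hq.unit _) (hq.unit _) (hq.q_ne d) (hq.ne_neg d)
      (h _) (h _))

/-- the vertex v lies on the face w -/
def OnF (M : PlaneGraph V) (w : M.Face) (v : V) : Prop := ∃ e ∈ M.fdarts w, e.fst = v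

theorem onF_fc (d : M.G.Dart) (v : V) : M.OnF (M.fc d) v ↔ M.OnFace d v := by
  unfold OnF OnFace
  constructor
  · rintro ⟨e, he, hv⟩
    rw [mem_fdarts, eq_comm, fc_eq] at he
    exact ⟨e, he, hv⟩
  · rintro ⟨e, he, hv⟩
    rw [← fc_eq, eq_comm, ← mem_fdarts] at he
    exact ⟨e, he, hv⟩

theorem off_of_not_onF {q : V → E3} (hq : M.InC q) {w : M.Face} {d : M.G.Dart} {x : E3}
    (hx : x ∈ arc (q d.fst) (q d.snd)) (hd : d ∉ M.fdarts w) (hd' : d.symm ∉ M.fdarts w)
    (hv : ∀ v ∈ d.edge, M.OnF w v → x ≠ q v) : Off (M.fdarts w) (M.ga q) (M.gb q) x := by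
  intro e he hxe
  have hne : d.edge ≠ e.edge := by
    intro h
    rw [SimpleGraph.dart_edge_eq_iff] at h
    rcases h with rfl | h
    · exact hd he
    · rw [h, SimpleGraph.Dart.symm_symm] at hd'
      exact hd' he
  obtain ⟨v, hvd, hve, hxv⟩ := hq.embed d e hne x hx hxe
  apply hv v hvd _ hxv
  have hve' : v = e.fst ∨ v = e.snd := by
    have : e.edge = s(e.fst, e.snd) := rfl
    rw [this, Sym2.mem_iff] at hve
    exact hve
  rcases hve' with rfl | rfl
  · exact ⟨e, he, rfl⟩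
  · obtain ⟨e', he', h'⟩ := snd_mem_face he
    exact ⟨e', he', h'⟩

end PlaneGraph

/-- if the arc from z1 to z2 is off the chain then the winding numbers agree. -/
theorem Chain.W_arc {ι : Type*} {s : Finset ι} {a b : ι → E3} (hc : Chain s a b) {z1 z2 : E3}
    (h1 : ‖z1‖ = 1) (h2 : ‖z2‖ = 1) (h12 : z1 ≠ -z2)
    (ho : ∀ x ∈ arc z1 z2, Off s a b x) (h : E3) : W s a b h z1 = W s a b h z2 := by
  have h0 : ∀ x ∈ segment ℝ z1 z2, x ≠ 0 := by
    rintro x ⟨α, β, hα, hβ, hαβ, rfl⟩ h0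
    have e1 : ‖α • z1‖ = ‖β • z2‖ := by
      rw [eq_neg_of_add_eq_zero_left h0, norm_neg]
    rw [norm_smul, norm_smul, h1, h2, mul_one, mul_one, Real.norm_of_nonneg hα,
      Real.norm_of_nonneg hβ] at e1
    have hα' : α ≠ 0 := by linarith [hαβ, e1]
    rw [← e1, ← smul_add] at h0
    rcases smul_eq_zero.mp h0 with h3 | h3
    · exact hα' h3
    · exact h12 (eq_neg_of_add_eq_zero_left h3)
  have := hc.W_const (convex_segment z1 z2).isPreconnected h0 (by
    intro x hx
    apply ho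
    rw [nrm_mem_arc (h0 x hx)]
    obtain ⟨α, β, hα, hβ, hαβ, rfl⟩ := hx
    exact ⟨α, β, hα, hβ, rfl⟩) (left_mem_segment ℝ z1 z2) (right_mem_segment ℝ z1 z2) h
  rwa [nrm_unit h1, nrm_unit h2] at this

end Pool.Agent.Helper30.N9
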