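import Pool.Agent.Helper30.N9.Sheet4
import Pool.Agent.Helper97.N9.Flip
import Pool.Agent.Helper67.N9.FullCx

open scoped RealInnerProductSpace Topology

namespace Pool.Agent.Helper30.N9

namespace Cx

variable {U D C : Type} [Fintype U] [DecidableEq U] [Fintype D] [DecidableEq D]
    [Fintype C] [DecidableEq C] {X : Cx U D C}

theorem interior_near_aux {a b : E3} (ha : ‖a‖ = 1) (hb : ‖b‖ = 1) (hab : a ≠ b) (hab' : a ≠ -b)
    {O : Set E3} (hO : O ∈ 𝓝 a) : ∃ x ∈ O, x ∈ arc a b ∧ x ≠ a ∧ x ≠ b := by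
  have hcont : Continuous (fun t : ℝ => a + t • b) := by fun_prop
  have htend := hcont.tendsto 0
  simp only [zero_smul, add_zero] at htend
  have htend' := htend.mono_left (nhdsWithin_le_nhds (s := Set.Ioi 0))
  have h1 : Filter.Tendsto nrm (𝓝 a) (𝓝 a) := by
    have := continuousAt_nrm (ne_zero_of_unit ha)
    unfold ContinuousAt at this
    rwa [nrm_unit ha] at this
  have h2 := (h1.comp htend').eventually hO
  have h3 : ∀ᶠ t : ℝ in 𝓝[>] 0, 0 < t := self_mem_nhdsWithin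
  obtain ⟨t, ht, ht0⟩ := (h2.and h3).exists
  obtain ⟨_, p1, p2, p3⟩ := pt_props ha hb hab hab' ht0
  exact ⟨_, ht, p1, p2, p3⟩

theorem interior_near (d : D) {z : E3} (hz : z ∈ arc (X.qa d) (X.qb d)) {O : Set E3}
    (hO : O ∈ 𝓝 z) : ∃ x ∈ O, x ∈ arc (X.qa d) (X.qb d) ∧ x ≠ X.qa d ∧ x ≠ X.qb d := by
  by_cases h1 : z = X.qa d
  · rw [h1] at hO
    exact interior_near_aux (X.unit _) (X.unit _) (qne d) (X.nn d) hO
  by_cases h2 : z = X.qb d
  · rw [h2] at hO
    obtain ⟨x, a1, a2, a3, a4⟩ := interior_near_aux (X.unit (X.snd d)) (X.unit (X.fst d))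
      (qne d).symm (fun h => X.nn d (by rw [h, neg_neg])) hO
    exact ⟨x, a1, by rw [arc_comm]; exact a2, a4, a3⟩
  exact ⟨z, mem_of_mem_nhds hO, hz, h1, h2⟩

end Cx

theorem cover_pts {m : E3} (hm : ‖m‖ = 1) {P : E3 → Prop} (h : ∀ᶠ z in 𝓝 (-m), P z) :
    ∀ᶠ y in 𝓝 (-m), y ≠ 0 ∧ P (nrm y) := by
  have hm' : ‖-m‖ = 1 := by rwa [norm_neg]
  have h1 : Filter.Tendsto nrm (𝓝 (-m)) (𝓝 (-m)) := by
    have := continuousAt_nrm (ne_zero_of_unit hm')
    unfold ContinuousAt at this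
    rwa [nrm_unit hm'] at this
  have h0 : ∀ᶠ y in 𝓝 (-m), y ≠ 0 := isOpen_ne.mem_nhds (ne_zero_of_unit hm')
  exact h0.and (h1.eventually h)

open Classical in
/-- the q side of the hub theorem -/
theorem hub_q {V : Type} [Fintype V] [DecidableEq V] {M : PlaneGraph V} {q : V → E3}
    {hq : M.Face → E3} (H : Good M q hq) {T : Set M.Face} {m : E3} (hm : ‖m‖ = 1)
    (hcov : ∀ᶠ z in 𝓝 (-m), ‖z‖ = 1 → M.OffAll q z →
      ∑ w ∈ Finset.univ.filter (fun w => w ∈ T), M.FW q hq w z = 1) :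
    (∀ d ∈ M.bd T, zc m (q d.fst) (q d.snd) ∈ Complex.slitPlane) ∧
    SA (M.bd T) (M.ga q) (M.gb q) m
      = ∑ w ∈ Finset.univ.filter (fun w => w ∈ T), SA (M.fdarts w) (M.ga q) (M.gb q) (hq w)
        - 4 * Real.pi := by
  have hcov' := cover_pts hm hcov
  obtain ⟨X, hX⟩ : ∃ X, X = PlaneGraph.fullCx H := ⟨_, rfl⟩
  have hslit : ∀ d ∈ M.bd T, zc m (q d.fst) (q d.snd) ∈ Complex.slitPlane := by
    intro d hd
    by_contra hcon
    have hm1 : (-m) ∈ arc (q d.fst) (q d.snd) :=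
      mem_arc_of_not_slit (by rwa [norm_neg]) (H.inC.unit _) (H.inC.unit _) (H.inC.q_ne d)
        (H.inC.ne_neg d) (by rwa [neg_neg])
    rw [PlaneGraph.flip_mem_bd] at hd
    have hm2 : (-m) ∈ arc (X.qa d.symm) (X.qb d.symm) := by
      rw [arc_comm, hX]
      exact hm1
    obtain ⟨x, hxO, hx1, hx2, hx3⟩ := Cx.interior_near (X := X) d.symm hm2
      (eventually_eventually_nhds.mpr hcov')
    obtain ⟨y, ⟨hy1, hy2⟩, hy3, _⟩ := Cx.exists_left_pt d.symm hx1
      (Filter.inter_mem (hxO) (Cx.edge_left d.symm hx1 hx2 hx3))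
    obtain ⟨ho, hw⟩ := hy2 hy3
    have h1 := hy1.2 (norm_nrm hy1.1) (by rw [hX] at ho; exact ho)
    rw [Finset.sum_eq_zero] at h1
    · exact zero_ne_one h1
    · intro w hwT
      rw [Finset.mem_filter] at hwT
      have hne : w ≠ M.fc d.symm := by
        rintro rfl
        exact hd.2 hwT.2
      have := Cx.w_unique (X := X) (norm_nrm hy1.1) ho hw w (by rw [hX]; exact hne)
      rw [hX] at this
      exact this
  refine ⟨hslit, ?_⟩
  by_contra hcon
  have hcont : ContinuousAt (fun y => SA (M.bd T) (M.ga q) (M.gb q) (-nrm y)) (-m) := by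
    apply continuousAt_SA (continuousAt_nrm (ne_zero_of_unit (by rwa [norm_neg]))).neg
    intro d hd
    change zc (-nrm (-m)) (q d.fst) (q d.snd) ∈ Complex.slitPlane
    rw [nrm_neg, neg_neg, nrm_unit hm]
    exact hslit d hd
  obtain ⟨K, hK⟩ : ∃ K : ℝ, K = ∑ w ∈ Finset.univ.filter (fun w => w ∈ T),
    SA (M.fdarts w) (M.ga q) (M.gb q) (hq w) - 4 * Real.pi := ⟨_, rfl⟩
  have hne : SA (M.bd T) (M.ga q) (M.gb q) (-nrm (-m)) ≠ K := by
    rw [nrm_neg, neg_neg, nrm_unit hm, hK]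
    exact hcon
  have hev : ∀ᶠ y in 𝓝 (-m), SA (M.bd T) (M.ga q) (M.gb q) (-nrm y) ≠ K :=
    hcont.eventually_ne hne
  obtain ⟨δ, hδ, hb⟩ := Metric.mem_nhds_iff.mp (hev.and hcov')
  obtain ⟨y, hyb, hgen⟩ := exists_generic
    (Finset.univ.image (fun d : M.G.Dart => crs (q d.fst) (q d.snd))) (by
      intro n hn
      rw [Finset.mem_image] at hn
      obtain ⟨d, _, rfl⟩ := hn
      exact crs_ne_zero (H.inC.unit _) (H.inC.unit _) (H.inC.q_ne d) (H.inC.ne_neg d))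
    Metric.isOpen_ball ⟨-m, Metric.mem_ball_self hδ⟩
  obtain ⟨h1, h2, h3⟩ := hb hyb
  have hoff : M.OffAll q (nrm y) := by
    intro d
    apply not_mem_arc_of_det
    rw [← crs_inner]
    exact hgen _ (Finset.mem_image.mpr ⟨d, Finset.mem_univ _, rfl⟩)
  have h4 := h3 (norm_nrm h2) hoff
  have hT : (((Finset.univ.filter (fun w => w ∈ T)) : Finset M.Face) : Set M.Face) = T := by
    ext w
    simp
  have h5 := H.inC.flip_SA (Finset.univ.filter (fun w => w ∈ T)) (norm_nrm h2) hoff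
  rw [hT] at h5
  apply h1
  rw [hK, ← h5]
  unfold PlaneGraph.FW W at h4
  rw [← Finset.sum_div, Finset.sum_sub_distrib] at h4
  have hpi := Real.pi_pos
  rw [div_eq_one_iff_eq (by positivity)] at h4
  linarith

end Pool.Agent.Helper30.N9
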