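import Pool.Agent.Helper30.N9.HubA
import Pool.Agent.Helper30.N9.CellK
import Pool.Agent.Helper30.N9.Cx9

open scoped RealInnerProductSpace Topology

namespace Pool.Agent.Helper30.N9

variable {V : Type} [Fintype V] [DecidableEq V] {M : PlaneGraph V} {p : V → E3}
  {h : M.Face → E3} {T : Set M.Face} {ν : E3} {X : Cx (HU M T) (HD M T) (HC M T)}
  {sc : Equiv.Perm (BD M T)}

open PlaneGraph

/-- the stress of the hub complex -/
structure HubS (M : PlaneGraph V) (p : V → E3) (T : Set M.Face) (ν : E3)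
    (X : Cx (HU M T) (HD M T) (HC M T)) (x : M.Face → E3) (om : M.G.Dart → ℝ) (S : Str X)
    (s : BD M T → ℝ) (Tp : ℝ) : Prop where
  xT : ∀ w, S.x (Sum.inl w) = x w.1
  xs : ∀ e, 0 < s e ∧ S.x (Sum.inr e) = x (M.fc e.1) - s e • crs (p e.1.fst) (p e.1.snd)
  omT : ∀ d : TD M T, M.fc d.1 ∈ T → M.fc d.1.symm ∈ T → S.om (Sum.inl d) = om d.1
  omb : ∀ (d : TD M T) (hT : d.1 ∈ M.bd T), S.om (Sum.inl d) = s ⟨d.1, hT⟩
  top : ∀ e, ⟪-ν, S.x (Sum.inr e)⟫ = Tp
  low : ∀ w, ⟪-ν, S.x (Sum.inl w)⟫ < Tp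

variable {x : M.Face → E3} {om : M.G.Dart → ℝ} {S : Str X} {s : BD M T → ℝ} {Tp : ℝ}

theorem HubS.ne (HS : HubS M p T ν X x om S s Tp) (e : BD M T) (w : TC M T) :
    S.x (Sum.inr e) ≠ S.x (Sum.inl w) := by
  intro h1
  have h2 := HS.top e
  have h3 := HS.low w
  rw [← h1, h2] at h3
  exact lt_irrefl _ h3

theorem bd_of_not {d : TD M T} (h1 : M.fc d.1 ∉ T) : d.1.symm ∈ M.bd T := by
  rw [flip_mem_bd]
  have h2 : M.fc d.1.symm ∈ T := d.2.resolve_left h1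
  exact ⟨h2, by rw [SimpleGraph.Dart.symm_symm]; exact h1⟩

/-- left cell of a dart -/
theorem HubX.left_cases (HX : HubX M p h T ν X sc) (d : HD M T) :
    (∃ d' : TD M T, d = Sum.inl d' ∧ ∃ hT : M.fc d'.1 ∈ T,
      X.left d = Sum.inl ⟨M.fc d'.1, hT⟩) ∨
    (∃ d' : TD M T, d = Sum.inl d' ∧ ∃ hT : d'.1.symm ∈ M.bd T,
      X.left d = Sum.inr ⟨d'.1.symm, hT⟩) ∨
    (∃ e : BD M T, d = Sum.inr (Sum.inl e) ∧ X.left d = Sum.inr e) ∨
    (∃ e : BD M T, d = Sum.inr (Sum.inr e) ∧ X.left d = Sum.inr e) := by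
  rcases d with d' | e | e
  · by_cases h1 : M.fc d'.1 ∈ T
    · left; exact ⟨d', rfl, h1, HX.left_T d' h1⟩
    · right; left; exact ⟨d', rfl, bd_of_not h1, HX.left_bd d' (bd_of_not h1)⟩
  · right; right; left; exact ⟨e, rfl, HX.left_a e⟩
  · right; right; right; exact ⟨e, rfl, HX.left_b e⟩

theorem HubX.p_fst (HX : HubX M p h T ν X sc) (d : TD M T) : X.qa (Sum.inl d) = p d.1.fst := by
  obtain ⟨v, h1, h2⟩ := HX.fst_inl d
  unfold Cx.qa
  rw [h1, HX.p_some, h2]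

theorem HubX.p_snd (HX : HubX M p h T ν X sc) (d : TD M T) : X.qb (Sum.inl d) = p d.1.snd := by
  obtain ⟨v, h1, h2⟩ := HX.snd_inl d
  unfold Cx.qb
  rw [h1, HX.p_some, h2]

theorem HubX.rev_T (HX : HubX M p h T ν X sc) (d : TD M T) :
    X.rev (Sum.inl d) = Sum.inl ⟨d.1.symm, d.2.symm.imp id (by
      rw [SimpleGraph.Dart.symm_symm]; exact id)⟩ := by
  obtain ⟨d', h1, h2⟩ := HX.rev_inl d
  rw [h1]
  congr 1
  exact Subtype.ext h2

/-- darts of T as darts of the complex -/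
theorem sum_TD (F : HD M T → ℝ) : ∑ d : HD M T, F d = ∑ d : TD M T, F (Sum.inl d)
    + (∑ e : BD M T, F (Sum.inr (Sum.inl e)) + ∑ e : BD M T, F (Sum.inr (Sum.inr e))) := by
  rw [Fintype.sum_sum_type, Fintype.sum_sum_type]

/-- the cell of a face of T -/
theorem HubX.SA_face (HX : HubX M p h T ν X sc) (w : TC M T) (g : E3) :
    SA (X.cd (Sum.inl w)) X.qa X.qb g = SA (M.fdarts w.1) (M.ga p) (M.gb p) g := by
  classical
  unfold SA
  symm
  refine Finset.sum_bij (fun d hd => (Sum.inl ⟨d, Or.inl (by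
    rw [mem_fdarts] at hd; rw [hd]; exact w.2)⟩ : HD M T)) ?_ ?_ ?_ ?_
  · intro d hd
    rw [Cx.mem_cd]
    rw [mem_fdarts] at hd
    rw [HX.left_T _ (by rw [hd]; exact w.2)]
    congr 1
    exact Subtype.ext hd
  · intro d _ e _ hde
    have := Sum.inl.inj hde
    exact congrArg Subtype.val this
  · intro d hd
    rw [Cx.mem_cd] at hd
    rcases HX.left_cases d with ⟨d', h1, hT, h2⟩ | ⟨d', h1, hT, h2⟩ | ⟨e, h1, h2⟩ | ⟨e, h1, h2⟩
    · rw [h2] at hd
      have h3 := congrArg Subtype.val (Sum.inl.inj hd)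
      refine ⟨d'.1, by rw [mem_fdarts]; exact h3, ?_⟩
      rw [h1]
    · rw [h2] at hd; cases hd
    · rw [h2] at hd; cases hd
    · rw [h2] at hd; cases hd
  · intro d _
    rw [HX.p_fst, HX.p_snd]
    rfl

theorem HubX.w_face (HX : HubX M p h T ν X sc) (w : TC M T) (z : E3) :
    X.w (Sum.inl w) z = M.FW p h w.1 z := by
  unfold Cx.w FW W
  rw [HX.SA_face, HX.SA_face, HX.hc]

/-- arcs of hub darts -/
theorem HubX.arc_cases (HX : HubX M p h T ν X sc) {z : E3} (ho : M.OffAll p z) {d : HD M T}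
    (hz : z ∈ arc (X.qa d) (X.qb d)) : ∃ e : BD M T, ∃ b : V, (b = e.1.fst ∨ b = e.1.snd) ∧
      (∃ d0 : HD M T, X.left d0 = Sum.inr e ∧ ((X.qa d0 = p b ∧ X.qb d0 = -ν) ∨
        (X.qa d0 = -ν ∧ X.qb d0 = p b))) ∧ z ∈ arc (-ν) (p b) := by
  rcases d with d' | e | e
  · exfalso
    rw [HX.p_fst, HX.p_snd] at hz
    exact ho d'.1 hz
  · obtain ⟨v, h1, h2⟩ := HX.a_snd e
    have e1 : X.qa (Sum.inr (Sum.inl e)) = -ν := by
      unfold Cx.qa; rw [HX.a_fst, HX.p_hub]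
    have e2 : X.qb (Sum.inr (Sum.inl e)) = p e.1.snd := by
      unfold Cx.qb; rw [h1, HX.p_some, h2]
    refine ⟨e, e.1.snd, Or.inr rfl, ⟨_, HX.left_a e, Or.inr ⟨e1, e2⟩⟩, ?_⟩
    rwa [e1, e2] at hz
  · obtain ⟨v, h1, h2⟩ := HX.b_fst e
    have e1 : X.qb (Sum.inr (Sum.inr e)) = -ν := by
      unfold Cx.qb; rw [HX.b_snd, HX.p_hub]
    have e2 : X.qa (Sum.inr (Sum.inr e)) = p e.1.fst := by
      unfold Cx.qa; rw [h1, HX.p_some, h2]
    refine ⟨e, e.1.fst, Or.inl rfl, ⟨_, HX.left_b e, Or.inl ⟨e2, e1⟩⟩, ?_⟩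
    rw [e1, e2, arc_comm] at hz
    exact hz

/-- values of faces of T are not maximal on the hub arcs -/
theorem HubS.not_max (HX : HubX M p h T ν X sc) (HS : HubS M p T ν X x om S s Tp)
    (w : TC M T) {z : E3} (ho : M.OffAll p z) {d : HD M T} (hz : z ∈ arc (X.qa d) (X.qb d)) :
    S.x (Sum.inl w) ∉ S.Mx z := by
  obtain ⟨e, b, hb, ⟨d0, hd0, hq⟩, hz1, α, β, hα, hβ, hzz⟩ := HX.arc_cases ho hz
  intro hk
  have hm1 : S.x (Sum.inr e) ∈ S.Mx (-ν) ∧ S.x (Sum.inr e) ∈ S.Mx (p b) := by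
    have l1 := Str.left_qa (S := S) d0
    have l2 := Str.left_qb (S := S) d0
    rw [hd0] at l1 l2
    rcases hq with ⟨q1, q2⟩ | ⟨q1, q2⟩
    · rw [q1] at l1; rw [q2] at l2; exact ⟨l2, l1⟩
    · rw [q1] at l1; rw [q2] at l2; exact ⟨l1, l2⟩
  have hα' : 0 < α := by
    rcases hα.lt_or_eq with h1 | h1
    · exact h1
    · exfalso
      rw [← h1, zero_smul, zero_add] at hzz
      have hp : p b ∈ arc (p e.1.fst) (p e.1.snd) := by
        have e1 : X.qa (Sum.inl ⟨e.1, Or.inl (flip_mem_bd.mp e.2).1⟩) = p e.1.fst := HX.p_fst _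
        have e2 : X.qb (Sum.inl ⟨e.1, Or.inl (flip_mem_bd.mp e.2).1⟩) = p e.1.snd := HX.p_snd _
        rcases hb with hb | hb
        · rw [hb]; apply left_mem_arc; rw [← e1]; exact X.unit _
        · rw [hb]; apply right_mem_arc; rw [← e2]; exact X.unit _
      have hpb : ‖p b‖ = 1 := hp.1
      rw [hzz, norm_smul, hpb, mul_one, Real.norm_of_nonneg hβ] at hz1
      rw [hz1, one_smul] at hzz
      rw [← hzz] at hp
      exact ho e.1 hp
  have h1 := (Str.mem_Mx.mp hk).2 _ (Str.x_mem (S := S) (Sum.inr e))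
  have h2 := (Str.mem_Mx.mp hm1.2).2 _ (Str.x_mem (S := S) (Sum.inl w))
  have h3 := HS.top e
  have h4 := HS.low w
  rw [hzz, inner_add_right, inner_add_right, real_inner_smul_right, real_inner_smul_right,
    real_inner_smul_right, real_inner_smul_right, real_inner_comm (-ν) (S.x (Sum.inr e)),
    real_inner_comm (-ν) (S.x (Sum.inl w)), h3] at h1
  have h5 := mul_lt_mul_of_pos_left h4 hα'
  have h6 := mul_le_mul_of_nonneg_left h2 hβ
  linarith

open Classical in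
/-- the faces of T of value k form a cell of M -/
theorem HubS.cell (HG : Good M p h) (HX : HubX M p h T ν X sc)
    (HS : HubS M p T ν X x om S s Tp) (w0 : TC M T) :
    M.Cell p h {w | w ∈ T ∧ x w = S.x (Sum.inl w0)} {y | S.x (Sum.inl w0) ∈ S.Mx y} := by
  obtain ⟨k, hk⟩ : ∃ k, k = S.x (Sum.inl w0) := ⟨_, rfl⟩
  have hkK : k ∈ S.KF := by rw [hk]; exact Str.x_mem _
  have hC := st_CELLK _ _ _ X S k hkK
  rw [← hk]
  refine ⟨hC.closed, hC.cvx, ?_, hC.pointed, ⟨w0.1, w0.2, by rw [← HS.xT, hk]⟩⟩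
  intro z hz ho
  have hz0 := ne_zero_of_unit hz
  have hn := nrm_unit hz
  constructor
  · rintro ⟨w, ⟨hwT, hwk⟩, hw⟩
    -- a generic point near z
    have hch := HG.inC.chain w
    have hev := hch.W_eventually hz0 (fun d _ => by rw [hn]; exact ho d) (h w)
    have hev2 := Str.eventually_Mx (S := S) z
    obtain ⟨δ, hδ, hb⟩ := Metric.mem_nhds_iff.mp (hev.and hev2)
    obtain ⟨y, hyb, hgen⟩ := exists_generic
      (Finset.univ.image (fun d : HD M T => crs (X.qa d) (X.qb d))) (by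
        intro n hn
        rw [Finset.mem_image] at hn
        obtain ⟨d, _, rfl⟩ := hn
        exact crs_ne_zero (X.unit _) (X.unit _) (Cx.qne d) (X.nn d))
      Metric.isOpen_ball ⟨z, Metric.mem_ball_self hδ⟩
    obtain ⟨⟨h1, _, h2⟩, h3⟩ := hb hyb
    have hoff : X.Offa (nrm y) := by
      intro d
      apply not_mem_arc_of_det
      rw [← crs_inner]
      exact hgen _ (Finset.mem_image.mpr ⟨d, Finset.mem_univ _, rfl⟩)
    have hw1 : X.w (Sum.inl ⟨w, hwT⟩) (nrm y) = 1 := by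
      rw [HX.w_face]
      unfold FW at hw ⊢
      rw [h2, hn]
      exact hw
    have hM := Str.Mx_off (S := S) h1 hoff hw1
    apply h3
    rw [hM, HS.xT, Finset.mem_singleton]
    exact hwk.symm
  · intro hkz
    have hkz' : k ∈ S.Mx z := hkz
    have hoX : X.Offa z := by
      intro d hd
      apply HubS.not_max HX HS w0 ho hd
      rw [← hk]
      exact hkz'
    obtain ⟨c, hc, hw⟩ := (hC.reg z hz hoX).mpr hkz
    have hc' : S.x c = k := hc
    rcases c with w | e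
    · refine ⟨w.1, ⟨w.2, by rw [← HS.xT]; exact hc'⟩, ?_⟩
      rw [HX.w_face] at hw
      exact hw
    · exact absurd (hc'.trans hk) (HS.ne e w0)

end Pool.Agent.Helper30.N9
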