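import Pool.Agent.Helper30.N9.HubB

open scoped RealInnerProductSpace Topology

namespace Pool.Agent.Helper30.N9

variable {V : Type} [Fintype V] [DecidableEq V] {M : PlaneGraph V} {p : V → E3}
  {h : M.Face → E3} {T : Set M.Face} {ν : E3} {X : Cx (HU M T) (HD M T) (HC M T)}
  {sc : Equiv.Perm (BD M T)}

open PlaneGraph

variable {x : M.Face → E3} {om : M.G.Dart → ℝ} {S : Str X} {s : BD M T → ℝ} {Tp : ℝ}

/-- the map q on the hub complex -/
def qh (M : PlaneGraph V) (T : Set M.Face) (q : V → E3) (m : E3) : HU M T → E3 :=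
  fun u => u.elim m (fun v => q v.1)

theorem HubX.q_fst (HX : HubX M p h T ν X sc) (q : V → E3) (m : E3) (d : TD M T) :
    qh M T q m (X.fst (Sum.inl d)) = q d.1.fst := by
  obtain ⟨v, h1, h2⟩ := HX.fst_inl d
  rw [h1, ← h2]
  rfl

theorem HubX.q_snd (HX : HubX M p h T ν X sc) (q : V → E3) (m : E3) (d : TD M T) :
    qh M T q m (X.snd (Sum.inl d)) = q d.1.snd := by
  obtain ⟨v, h1, h2⟩ := HX.snd_inl d
  rw [h1, ← h2]
  rfl

theorem HubX.q_a (HX : HubX M p h T ν X sc) (q : V → E3) (m : E3) (e : BD M T) :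
    qh M T q m (X.fst (Sum.inr (Sum.inl e))) = m ∧
    qh M T q m (X.snd (Sum.inr (Sum.inl e))) = q e.1.snd := by
  obtain ⟨v, h1, h2⟩ := HX.a_snd e
  rw [HX.a_fst, h1, ← h2]
  exact ⟨rfl, rfl⟩

theorem HubX.q_b (HX : HubX M p h T ν X sc) (q : V → E3) (m : E3) (e : BD M T) :
    qh M T q m (X.fst (Sum.inr (Sum.inr e))) = q e.1.fst ∧
    qh M T q m (X.snd (Sum.inr (Sum.inr e))) = m := by
  obtain ⟨v, h1, h2⟩ := HX.b_fst e
  rw [HX.b_snd, h1, ← h2]
  exact ⟨rfl, rfl⟩

/-- boundary of the cells of a value of T -/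
theorem HubS.mem_bk_T (HX : HubX M p h T ν X sc) (HS : HubS M p T ν X x om S s Tp)
    (w0 : TC M T) {d : HD M T} : d ∈ S.bk (S.x (Sum.inl w0)) ↔
      ∃ d' : TD M T, d = Sum.inl d' ∧ d'.1 ∈ M.bd {w | w ∈ T ∧ x w = S.x (Sum.inl w0)} := by
  rw [Str.mem_bk]
  constructor
  · rintro ⟨h1, h2⟩
    rcases HX.left_cases d with ⟨d', e1, hT, e2⟩ | ⟨d', e1, hT, e2⟩ | ⟨e, e1, e2⟩ | ⟨e, e1, e2⟩
    · refine ⟨d', e1, ?_⟩
      rw [e2, HS.xT] at h1
      rw [flip_mem_bd]
      refine ⟨⟨hT, h1⟩, ?_⟩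
      rintro ⟨h3, h4⟩
      apply h2
      rw [e1, HX.rev_T, HX.left_T _ h3, HS.xT]
      exact h4
    · rw [e2] at h1; exact absurd h1 (HS.ne _ _)
    · rw [e2] at h1; exact absurd h1 (HS.ne _ _)
    · rw [e2] at h1; exact absurd h1 (HS.ne _ _)
  · rintro ⟨d', rfl, hd'⟩
    rw [flip_mem_bd] at hd'
    obtain ⟨⟨h1, h2⟩, h3⟩ := hd'
    rw [HX.left_T d' h1, HS.xT]
    refine ⟨h2, ?_⟩
    rw [HX.rev_T]
    intro h4
    by_cases h5 : M.fc d'.1.symm ∈ T
    · apply h3
      rw [HX.left_T _ h5, HS.xT] at h4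
      exact ⟨h5, h4⟩
    · have h6 : ((⟨d'.1.symm, d'.2.symm.imp id (by
          rw [SimpleGraph.Dart.symm_symm]; exact id)⟩ : TD M T)).1.symm ∈ M.bd T :=
        bd_of_not h5
      rw [HX.left_bd _ h6] at h4
      exact HS.ne _ _ h4

open Classical in
/-- claim A -/
theorem HubS.claimA (HG : Good M p h) (HX : HubX M p h T ν X sc)
    (HS : HubS M p T ν X x om S s Tp) {q : V → E3} {hq : M.Face → E3} {m : E3} {g : E3 → E3}
    (HM : Str.Map S (qh M T q m) g)
    (hNF : ∀ T' : Set M.Face, T' ⊆ T → T' ≠ T → (∃ N, M.Cell p h T' N) → NotFl M q hq T')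
    (w0 : TC M T) (hne : {w | w ∈ T ∧ x w = S.x (Sum.inl w0)} ≠ T) :
    SA (S.bk (S.x (Sum.inl w0))) (fun d => qh M T q m (X.fst d))
      (fun d => qh M T q m (X.snd d)) (g (S.x (Sum.inl w0)))
    = ∑ w : TC M T, if S.x (Sum.inl w) = S.x (Sum.inl w0) then
        SA (M.fdarts w.1) (M.ga q) (M.gb q) (hq w.1) else 0 := by
  obtain ⟨k, hk⟩ : ∃ k, k = S.x (Sum.inl w0) := ⟨_, rfl⟩
  have hkK : k ∈ S.KF := by rw [hk]; exact Str.x_mem _
  have hN := hNF {w | w ∈ T ∧ x w = S.x (Sum.inl w0)} (fun w hw => hw.1) hne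
    ⟨_, HS.cell HG HX w0⟩
  have hmem := fun d => HS.mem_bk_T HX w0 (d := d)
  rw [← hk] at hN hmem ⊢
  have hcen := HM.cen k hkK
  have hc2 : Centre (M.bd {w | w ∈ T ∧ x w = k}) (M.ga q) (M.gb q) (g k) := by
    refine ⟨hcen.1, fun d hd => ?_⟩
    have hd1 := hd
    rw [flip_mem_bd] at hd1
    have h1 := hcen.2 (Sum.inl ⟨d, Or.inl hd1.1.1⟩) ((hmem _).mpr ⟨_, rfl, hd⟩)
    change 0 < ⟪g k, qh M T q m (X.fst _)⟫ ∧ 0 < ⟪g k, qh M T q m (X.snd _)⟫ at h1
    rw [HX.q_fst, HX.q_snd] at h1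
    exact h1
  have h1 := hN (g k) hc2
  have h2 : SA (S.bk k) (fun d => qh M T q m (X.fst d)) (fun d => qh M T q m (X.snd d)) (g k)
      = SA (M.bd {w | w ∈ T ∧ x w = k}) (M.ga q) (M.gb q) (g k) := by
    unfold SA
    symm
    refine Finset.sum_bij (fun d hd => (Sum.inl ⟨d, Or.inl (by
      rw [flip_mem_bd] at hd; exact hd.1.1)⟩ : HD M T)) ?_ ?_ ?_ ?_
    · intro d hd
      exact (hmem _).mpr ⟨_, rfl, hd⟩
    · intro d _ e _ hde
      have := Sum.inl.inj hde
      exact congrArg Subtype.val this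
    · intro d hd
      obtain ⟨d', h3, h4⟩ := (hmem d).mp hd
      exact ⟨d'.1, h4, h3.symm⟩
    · intro d _
      change Om (g k) (q d.fst) (q d.snd) = Om (g k) (qh M T q m (X.fst _))
        (qh M T q m (X.snd _))
      rw [HX.q_fst, HX.q_snd]
  obtain ⟨T', hT'⟩ : ∃ T' : Set M.Face, T' = {w | w ∈ T ∧ x w = k} := ⟨_, rfl⟩
  have hmT : ∀ w, w ∈ T' ↔ w ∈ T ∧ x w = k := fun w => by rw [hT']; rfl
  rw [← hT'] at h1 h2
  rw [h2, ← h1]
  rw [← Finset.sum_filter]
  symm
  refine Finset.sum_bij (fun w _ => w.1) ?_ ?_ ?_ ?_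
  · intro w hw
    rw [Finset.mem_filter] at hw ⊢
    refine ⟨Finset.mem_univ _, ?_⟩
    rw [hmT, ← HS.xT w]
    exact ⟨w.2, hw.2⟩
  · intro w _ w' _ hww
    exact Subtype.ext hww
  · intro w hw
    rw [Finset.mem_filter, hmT] at hw
    refine ⟨⟨w, hw.2.1⟩, ?_, rfl⟩
    rw [Finset.mem_filter]
    refine ⟨Finset.mem_univ _, ?_⟩
    rw [HS.xT]
    exact hw.2.2
  · intro w _; rfl

/-- the dart opposite to a boundary dart -/
def od (e : BD M T) : TD M T := ⟨e.1.symm, Or.inr (by
  rw [SimpleGraph.Dart.symm_symm]; exact (flip_mem_bd.mp e.2).1)⟩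

theorem HubX.left_od (HX : HubX M p h T ν X sc) (e : BD M T) :
    X.left (Sum.inl (od e)) = Sum.inr e := by
  have h1 : (od e).1.symm ∈ M.bd T := by
    unfold od
    rw [SimpleGraph.Dart.symm_symm]
    exact e.2
  have h2 : (⟨(od e).1.symm, h1⟩ : BD M T) = e :=
    Subtype.ext (SimpleGraph.Dart.symm_symm e.1)
  rw [HX.left_bd _ h1, h2]

theorem HubX.left_rev_od (HX : HubX M p h T ν X sc) (e : BD M T) :
    ∃ w, X.left (X.rev (Sum.inl (od e))) = Sum.inl w := by
  rw [HX.rev_T]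
  have h1 : M.fc (od e).1.symm ∈ T := by
    unfold od
    rw [SimpleGraph.Dart.symm_symm]
    exact (flip_mem_bd.mp e.2).1
  exact ⟨_, HX.left_T _ h1⟩

open Classical in
/-- claim B -/
theorem HubS.claimB (HX : HubX M p h T ν X sc)
    (HS : HubS M p T ν X x om S s Tp) {q : V → E3} {m : E3} {g : E3 → E3}
    (HM : Str.Map S (qh M T q m) g) (hfac : S.Fac none) (e0 : BD M T) :
    SA (S.bk (S.x (Sum.inr e0))) (fun d => qh M T q m (X.fst d))
      (fun d => qh M T q m (X.snd d)) (g (S.x (Sum.inr e0)))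
    = ∑ e : BD M T, if S.x (Sum.inr e) = S.x (Sum.inr e0) then
        Om m (q e.1.snd) (q e.1.fst) else 0 := by
  obtain ⟨k, hk⟩ : ∃ k, k = S.x (Sum.inr e0) := ⟨_, rfl⟩
  have hkK : k ∈ S.KF := by rw [hk]; exact Str.x_mem _
  have hkT : ∀ w, k ≠ S.x (Sum.inl w) := fun w => by rw [hk]; exact HS.ne _ _
  rw [← hk]
  have hcen := HM.cen k hkK
  -- positivity at the hub
  have hmu : ‖m‖ = 1 := HM.unit none
  have hqu : ∀ v : TV M T, ‖q v.1‖ = 1 := fun v => HM.unit (some v)
  have hhub : 0 < ⟪g k, m⟫ := by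
    have hkM : k ∈ S.Mx (X.p none) := by
      rw [HX.p_hub, Str.mem_Mx]
      refine ⟨hkK, fun l hl => ?_⟩
      rw [real_inner_comm, real_inner_comm (-ν) k, hk, HS.top e0]
      obtain ⟨c, rfl⟩ := Str.mem_KF.mp hl
      rcases c with w | e
      · exact (HS.low w).le
      · exact (HS.top e).le
    obtain ⟨l, j, hE⟩ := Str.corner (S := S) (k := ⟨k, hkK⟩) (i := ⟨none, hfac⟩) hkM
    exact (HM.pos_ends hE).1
  have hpos : ∀ e : BD M T, S.x (Sum.inr e) = k →
      0 < ⟪g k, q e.1.fst⟫ ∧ 0 < ⟪g k, q e.1.snd⟫ := by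
    intro e he
    have h1 : (Sum.inl (od e) : HD M T) ∈ S.bk k := by
      rw [Str.mem_bk, HX.left_od]
      refine ⟨he, ?_⟩
      obtain ⟨w, hw⟩ := HX.left_rev_od e
      rw [hw]
      exact (hkT w).symm
    have h2 := HM.pos hkK h1
    rw [HX.q_fst, HX.q_snd] at h2
    exact ⟨h2.2, h2.1⟩
  have hun : ∀ e : BD M T, ‖q e.1.fst‖ = 1 ∧ ‖q e.1.snd‖ = 1 := by
    intro e
    have h1 := HM.unit (X.fst (Sum.inl (od e)))
    have h2 := HM.unit (X.snd (Sum.inl (od e)))
    rw [HX.q_fst] at h1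
    rw [HX.q_snd] at h2
    exact ⟨h2, h1⟩
  obtain ⟨F, hF⟩ : ∃ F : HD M T → ℝ, F = fun d => Om (g k) (qh M T q m (X.fst d))
    (qh M T q m (X.snd d)) := ⟨_, rfl⟩
  -- step 1: internal darts cancel
  have step1 : ∑ d ∈ S.bk k, F d = ∑ d : HD M T, if S.x (X.left d) = k then F d else 0 := by
    rw [← Finset.sum_filter]
    have h1 : Finset.univ.filter (fun d : HD M T => S.x (X.left d) = k)
        = S.bk k ∪ Finset.univ.filter (fun d : HD M T => S.x (X.left d) = k ∧
          S.x (X.left (X.rev d)) = k) := by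
      ext d
      rw [Finset.mem_union, Str.mem_bk]
      simp only [Finset.mem_filter, Finset.mem_univ, true_and]
      tauto
    have h2 : Disjoint (S.bk k) (Finset.univ.filter (fun d : HD M T => S.x (X.left d) = k ∧
          S.x (X.left (X.rev d)) = k)) := by
      rw [Finset.disjoint_left]
      intro d hd hd'
      rw [Str.mem_bk] at hd
      rw [Finset.mem_filter] at hd'
      exact hd.2 hd'.2.2
    rw [h1, Finset.sum_union h2]
    have h3 : ∑ d ∈ Finset.univ.filter (fun d : HD M T => S.x (X.left d) = k ∧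
          S.x (X.left (X.rev d)) = k), F d
        = - ∑ d ∈ Finset.univ.filter (fun d : HD M T => S.x (X.left d) = k ∧
          S.x (X.left (X.rev d)) = k), F d := by
      rw [← Finset.sum_neg_distrib]
      refine Finset.sum_bij' (fun d _ => X.rev d) (fun d _ => X.rev d) ?_ ?_ ?_ ?_ ?_
      · intro d hd
        rw [Finset.mem_filter] at hd ⊢
        rw [X.rev_rev]
        exact ⟨Finset.mem_univ _, hd.2.2, hd.2.1⟩
      · intro d hd
        rw [Finset.mem_filter] at hd ⊢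
        rw [X.rev_rev]
        exact ⟨Finset.mem_univ _, hd.2.2, hd.2.1⟩
      · intro d _; exact X.rev_rev d
      · intro d _; exact X.rev_rev d
      · intro d hd
        rw [Finset.mem_filter] at hd
        rw [hF]
        change Om (g k) (qh M T q m (X.fst d)) (qh M T q m (X.snd d))
          = -(Om (g k) (qh M T q m (X.fst (X.rev d))) (qh M T q m (X.snd (X.rev d))))
        rw [X.fst_rev, X.snd_rev]
        have hsl : zc (g k) (qh M T q m (X.fst d)) (qh M T q m (X.snd d))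
            ∈ Complex.slitPlane := by
          rcases HX.left_cases d with ⟨d', e1, hT, e2⟩ | ⟨d', e1, hT, e2⟩ | ⟨e, e1, e2⟩ |
            ⟨e, e1, e2⟩
          · exfalso
            have := hd.2.1
            rw [e2] at this
            exact hkT _ this.symm
          · exfalso
            have h4 := hd.2.2
            rw [e1] at h4
            have h5 : d' = od ⟨d'.1.symm, hT⟩ := by
              apply Subtype.ext
              unfold od
              exact (SimpleGraph.Dart.symm_symm _).symm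
            obtain ⟨w, hw⟩ := HX.left_rev_od ⟨d'.1.symm, hT⟩
            rw [h5, hw] at h4
            exact hkT _ h4.symm
          · have h4 := hd.2.1
            rw [e2] at h4
            rw [e1, (HX.q_a q m e).1, (HX.q_a q m e).2]
            exact slit_pos' hcen.1 hmu (hun e).2 hhub (hpos e h4).2
          · have h4 := hd.2.1
            rw [e2] at h4
            rw [e1, (HX.q_b q m e).1, (HX.q_b q m e).2]
            exact slit_pos' hcen.1 (hun e).1 hmu (hpos e h4).1 hhub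
        have := Om_swap hsl
        linarith
    linarith
  have hS : SA (S.bk k) (fun d => qh M T q m (X.fst d)) (fun d => qh M T q m (X.snd d)) (g k)
      = ∑ d ∈ S.bk k, F d := by rw [hF]; rfl
  rw [hS, step1, sum_TD]
  -- step 2: the darts of TD
  have step2 : ∑ d : TD M T, (if S.x (X.left (Sum.inl d)) = k then F (Sum.inl d) else 0)
      = ∑ e : BD M T, if S.x (Sum.inr e) = k then F (Sum.inl (od e)) else 0 := by
    rw [← Finset.sum_filter, ← Finset.sum_filter]
    symm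
    refine Finset.sum_bij (fun e _ => od e) ?_ ?_ ?_ ?_
    · intro e he
      rw [Finset.mem_filter] at he ⊢
      rw [HX.left_od]
      exact ⟨Finset.mem_univ _, he.2⟩
    · intro e _ e' _ hee
      have h1 := congrArg Subtype.val hee
      unfold od at h1
      exact Subtype.ext (SimpleGraph.Dart.symm_involutive.injective h1)
    · intro d hd
      rw [Finset.mem_filter] at hd
      by_cases h1 : M.fc d.1 ∈ T
      · exfalso
        have h2 := hd.2
        rw [HX.left_T d h1] at h2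
        exact hkT _ h2.symm
      · refine ⟨⟨d.1.symm, bd_of_not h1⟩, ?_, ?_⟩
        · rw [Finset.mem_filter]
          have h2 := hd.2
          rw [HX.left_bd d (bd_of_not h1)] at h2
          exact ⟨Finset.mem_univ _, h2⟩
        · apply Subtype.ext
          unfold od
          exact SimpleGraph.Dart.symm_symm _
    · intro e _; rfl
  rw [step2, ← Finset.sum_add_distrib, ← Finset.sum_add_distrib]
  apply Finset.sum_congr rfl
  intro e _
  rw [HX.left_a, HX.left_b]
  by_cases he : S.x (Sum.inr e) = k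
  · simp only [if_pos he]
    rw [hF]
    change Om (g k) (qh M T q m (X.fst (Sum.inl (od e)))) (qh M T q m (X.snd (Sum.inl (od e))))
      + (Om (g k) (qh M T q m (X.fst (Sum.inr (Sum.inl e))))
          (qh M T q m (X.snd (Sum.inr (Sum.inl e))))
        + Om (g k) (qh M T q m (X.fst (Sum.inr (Sum.inr e))))
          (qh M T q m (X.snd (Sum.inr (Sum.inr e))))) = _
    rw [HX.q_fst, HX.q_snd, (HX.q_a q m e).1, (HX.q_a q m e).2, (HX.q_b q m e).1,
      (HX.q_b q m e).2]
    have h1 := hpos e he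
    have h2 := hun e
    have hgg : 0 < ⟪g k, g k⟫ := by rw [inner_self_one hcen.1]; exact one_pos
    have hE := E4_hemi hcen.1 hmu h2.2 h2.1 hcen.1 hgg hhub h1.2 h1.1
    unfold E4 at hE
    have h3 : Om (g k) (q e.1.fst) m = - Om (g k) m (q e.1.fst) :=
      Om_swap (slit_pos' hcen.1 hmu h2.1 hhub h1.1)
    have e1 : (od e).1.fst = e.1.snd := rfl
    have e2 : (od e).1.snd = e.1.fst := rfl
    rw [e1, e2, h3]
    linarith
  · simp only [if_neg he]
    ring

end Pool.Agent.Helper30.N9
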