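import Pool.Agent.Helper30.N9.Core

open scoped RealInnerProductSpace Topology

namespace Pool.Agent.Helper30.N9

variable {ι : Type*}

theorem pt_props {c u : E3} (hc : ‖c‖ = 1) (hu : ‖u‖ = 1) (n1 : c ≠ u) (n1' : c ≠ -u)
    {t : ℝ} (ht : 0 < t) :
    c + t • u ≠ 0 ∧ nrm (c + t • u) ∈ arc c u ∧ nrm (c + t • u) ≠ c ∧ nrm (c + t • u) ≠ u := by
  have p := crs_pos hc hu n1 n1'
  have h0 : c + t • u ≠ 0 := by
    intro h
    have h1 : ⟪crs c u, crs c (c + t • u)⟫ = t * ⟪crs c u, crs c u⟫ := by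
      have := crs_comb (crs c u) c u 1 t
      rwa [one_smul] at this
    rw [h] at h1
    have h2 : crs c (0 : E3) = 0 := by
      ext i; fin_cases i <;> simp [crs]
    rw [h2, inner_zero_right] at h1
    have := mul_pos ht p
    linarith
  have hn : 0 < ‖c + t • u‖ := norm_pos_iff.mpr h0
  refine ⟨h0, ?_, ?_, ?_⟩
  · rw [nrm_mem_arc h0]
    exact ⟨1, t, zero_le_one, ht.le, by rw [one_smul]⟩
  · intro h
    have h1 : ⟪crs c u, crs c (nrm (c + t • u))⟫ = ‖c + t • u‖⁻¹ * t * ⟪crs c u, crs c u⟫ := by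
      have := crs_comb (crs c u) c u (‖c + t • u‖⁻¹) (‖c + t • u‖⁻¹ * t)
      rw [← this]
      congr 2
      unfold nrm
      rw [smul_add, smul_smul]
    rw [h] at h1
    have h2 : crs c c = 0 := by
      ext i; fin_cases i <;> simp [crs] <;> ring
    rw [h2, inner_zero_right] at h1
    have : 0 < ‖c + t • u‖⁻¹ * t * ⟪crs c u, crs c u⟫ := by positivity
    linarith
  · intro h
    have h1 : ⟪crs c u, crs u (nrm (c + t • u))⟫ = - (‖c + t • u‖⁻¹ * ⟪crs c u, crs c u⟫) := by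
      unfold nrm
      simp only [inner_def]
      simp [crs]
      ring
    rw [h] at h1
    have h2 : crs u u = 0 := by
      ext i; fin_cases i <;> simp [crs] <;> ring
    rw [h2, inner_zero_right] at h1
    have : 0 < ‖c + t • u‖⁻¹ * ⟪crs c u, crs c u⟫ := by positivity
    linarith

/-- Local structure of a chain at a vertex passed once. -/
theorem local2 {s : Finset ι} {a b : ι → E3} (hc : Chain s a b) {i1 i2 : ι}
    (h1 : i1 ∈ s) (h2 : i2 ∈ s) {c u1 u2 : E3} (ha1 : a i1 = c)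
    (hb1 : b i1 = u1) (ha2 : a i2 = u2) (hb2 : b i2 = c)
    (hoth : ∀ j ∈ s, j ≠ i1 → j ≠ i2 → c ∉ arc (a j) (b j))
    (disj : ∀ x ∈ arc c u1, x ∈ arc c u2 → x = c) (h : E3) :
    ∃ δ > 0, ∃ w : ℝ,
      (∀ y ∈ Metric.ball c δ, y ≠ 0 ∧ (nrm y ∉ arc c u1 → nrm y ∉ arc c u2 →
        Off s a b (nrm y) ∧ (W s a b h (nrm y) = w ∨ W s a b h (nrm y) = w + 1)))
      ∧ (∀ t : ℝ, 0 < t → c + t • u1 ∈ Metric.ball c δ → ∃ δ' > 0,
        ∀ y ∈ Metric.ball (c + t • u1) δ', (0 < det3 c u1 y → W s a b h (nrm y) = w + 1)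
          ∧ (det3 c u1 y < 0 → W s a b h (nrm y) = w))
      ∧ (∀ t : ℝ, 0 < t → c + t • u2 ∈ Metric.ball c δ → ∃ δ' > 0,
        ∀ y ∈ Metric.ball (c + t • u2) δ', (det3 c u2 y < 0 → W s a b h (nrm y) = w + 1)
          ∧ (0 < det3 c u2 y → W s a b h (nrm y) = w)) := by
  have uc : ‖c‖ = 1 := by rw [← ha1]; exact hc.ua i1 h1
  have uu1 : ‖u1‖ = 1 := by rw [← hb1]; exact hc.ub i1 h1
  have uu2 : ‖u2‖ = 1 := by rw [← ha2]; exact hc.ua i2 h2
  have n1 : c ≠ u1 := by rw [← ha1, ← hb1]; exact hc.ne i1 h1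
  have n1' : c ≠ -u1 := by rw [← ha1, ← hb1]; exact hc.nn i1 h1
  have n2 : c ≠ u2 := by rw [← ha2, ← hb2]; exact (hc.ne i2 h2).symm
  have n2' : c ≠ -u2 := by
    rw [← ha2, ← hb2]
    intro h
    exact hc.nn i2 h2 (by rw [h, neg_neg])
  have c0 : c ≠ 0 := ne_zero_of_unit uc
  have m1 : u1 ∉ cone c u2 := by
    intro hm
    rw [← mem_arc_iff uu1] at hm
    exact n1 (disj u1 (right_mem_arc uu1) hm).symm
  have m2 : u2 ∉ cone c u1 := by
    intro hm
    rw [← mem_arc_iff uu2] at hm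
    exact n2 (disj u2 hm (right_mem_arc uu2)).symm
  have h12 : i1 ≠ i2 := by
    intro h
    apply n1
    rw [← hb2, ← hb1, h]
  have ev1 : ∀ᶠ y in 𝓝 c, y ≠ 0 := isOpen_ne.mem_nhds c0
  have ev2 : ∀ᶠ y in 𝓝 c, ∀ j ∈ s, j ≠ i1 → j ≠ i2 → nrm y ∉ arc (a j) (b j) := by
    rw [Filter.eventually_all_finset]
    intro j hj
    by_cases q1 : j = i1
    · exact Filter.Eventually.of_forall fun y h => absurd q1 h
    by_cases q2 : j = i2
    · exact Filter.Eventually.of_forall fun y _ h => absurd q2 h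
    have := eventually_not_arc (x := c) (hc.ua j hj) (hc.ub j hj) (hc.ne j hj) (hc.nn j hj)
      c0 (by rw [nrm_unit uc]; exact hoth j hj q1 q2)
    filter_upwards [this] with y hy _ _
    exact hy
  obtain ⟨δ0, hδ0, hball⟩ := Metric.mem_nhds_iff.mp (ev1.and ev2)
  have hoff : ∀ y ∈ Metric.ball c δ0, nrm y ∉ arc c u1 → nrm y ∉ arc c u2 →
      Off s a b (nrm y) := by
    intro y hy q1 q2 j hj
    by_cases r1 : j = i1
    · rw [r1, ha1, hb1]; exact q1
    by_cases r2 : j = i2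
    · rw [r2, ha2, hb2, arc_comm]; exact q2
    exact (hball hy).2 j hj r1 r2
  have hA : ∀ T : Set E3, Convex ℝ T → T ⊆ Metric.ball c δ0 →
      (∀ y ∈ T, y ∉ cone c u1 ∧ y ∉ cone c u2) → ∀ y ∈ T, ∀ y' ∈ T,
      W s a b h (nrm y) = W s a b h (nrm y') := by
    intro T hT hsub hcn y hy y' hy'
    apply hc.W_const hT.isPreconnected (fun x hx => (hball (hsub hx)).1) _ hy hy'
    intro x hx
    have hx0 := (hball (hsub hx)).1
    exact hoff x (hsub hx) (by rw [nrm_mem_arc hx0]; exact (hcn x hx).1)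
      (by rw [nrm_mem_arc hx0]; exact (hcn x hx).2)
  have hB : ∀ t : ℝ, 0 < t → c + t • u1 ∈ Metric.ball c δ0 → ∃ δ' > 0, ∃ w : ℝ,
      ∀ y ∈ Metric.ball (c + t • u1) δ', (0 < det3 c u1 y → W s a b h (nrm y) = w + 1)
        ∧ (det3 c u1 y < 0 → W s a b h (nrm y) = w) := by
    intro t ht hmem
    obtain ⟨q0, q1, q2, q3⟩ := pt_props uc uu1 n1 n1' ht
    obtain ⟨δ', hδ', w, hw⟩ := local1 hc h1 q0 (by rw [ha1, hb1]; exact q1)
      (by rw [ha1]; exact q2) (by rw [hb1]; exact q3) (by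
        intro j hj hji
        by_cases r2 : j = i2
        · rw [r2, ha2, hb2, arc_comm]
          intro hm
          exact q2 (disj _ q1 hm)
        · exact (hball hmem).2 j hj hji r2) h
    refine ⟨δ', hδ', w, fun y hy => ?_⟩
    have := hw y hy
    rw [ha1, hb1] at this
    exact ⟨fun hd => (this.2.2.2.1 hd).2, fun hd => (this.2.2.2.2 hd).2⟩
  have hB' : ∀ t : ℝ, 0 < t → c + t • u2 ∈ Metric.ball c δ0 → ∃ δ' > 0, ∃ w : ℝ,
      ∀ y ∈ Metric.ball (c + t • u2) δ', (det3 c u2 y < 0 → W s a b h (nrm y) = w + 1)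
        ∧ (0 < det3 c u2 y → W s a b h (nrm y) = w) := by
    intro t ht hmem
    obtain ⟨q0, q1, q2, q3⟩ := pt_props uc uu2 n2 n2' ht
    obtain ⟨δ', hδ', w, hw⟩ := local1 hc h2 q0 (by rw [ha2, hb2, arc_comm]; exact q1)
      (by rw [ha2]; exact q3) (by rw [hb2]; exact q2) (by
        intro j hj hji
        by_cases r2 : j = i1
        · rw [r2, ha1, hb1]
          intro hm
          exact q2 (disj _ hm q1)
        · exact (hball hmem).2 j hj r2 hji) h
    refine ⟨δ', hδ', w, fun y hy => ?_⟩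
    have := hw y hy
    rw [ha2, hb2] at this
    have e : det3 u2 c y = - det3 c u2 y := by simp only [det3]; ring
    rw [e] at this
    exact ⟨fun hd => (this.2.2.2.1 (by linarith)).2, fun hd => (this.2.2.2.2 (by linarith)).2⟩
  rcases le_or_gt 0 (det3 c u1 u2) with hD | hD
  · obtain ⟨δ, hδ, w, r0, r1, r2⟩ := core uc uu1 uu2 n1 n1' n2 n2' m1 m2 hD hδ0 hA hB hB'
    refine ⟨min δ δ0, lt_min hδ hδ0, w, ?_, ?_, ?_⟩
    · intro y hy
      have hy1 : y ∈ Metric.ball c δ := Metric.ball_subset_ball (min_le_left _ _) hy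
      have hy2 : y ∈ Metric.ball c δ0 := Metric.ball_subset_ball (min_le_right _ _) hy
      refine ⟨(hball hy2).1, fun q1 q2 => ⟨hoff y hy2 q1 q2, r0 y hy1 ?_ ?_⟩⟩
      · rwa [← nrm_mem_arc (hball hy2).1]
      · rwa [← nrm_mem_arc (hball hy2).1]
    · exact fun t ht hm => r1 t ht (Metric.ball_subset_ball (min_le_left _ _) hm)
    · exact fun t ht hm => r2 t ht (Metric.ball_subset_ball (min_le_left _ _) hm)
  · have hD' : 0 ≤ det3 c u2 u1 := by
      have : det3 c u2 u1 = - det3 c u1 u2 := by simp only [det3]; ring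
      rw [this]; linarith
    obtain ⟨δ, hδ, w, r0, r1, r2⟩ := core (f := fun y => - W s a b h (nrm y)) uc uu2 uu1 n2 n2'
      n1 n1' m2 m1 hD' hδ0 (by
        intro T hT hs hcn y hy y' hy'
        rw [hA T hT hs (fun y hy => (hcn y hy).symm) y hy y' hy']) (by
        intro t ht hm
        obtain ⟨δ', hδ', w, hw⟩ := hB' t ht hm
        refine ⟨δ', hδ', -(w + 1), fun y hy => ⟨fun hd => ?_, fun hd => ?_⟩⟩
        · rw [(hw y hy).2 hd]; ring
        · rw [(hw y hy).1 hd]) (by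
        intro t ht hm
        obtain ⟨δ', hδ', w, hw⟩ := hB t ht hm
        refine ⟨δ', hδ', -(w + 1), fun y hy => ⟨fun hd => ?_, fun hd => ?_⟩⟩
        · rw [(hw y hy).2 hd]; ring
        · rw [(hw y hy).1 hd])
    refine ⟨min δ δ0, lt_min hδ hδ0, -(w + 1), ?_, ?_, ?_⟩
    · intro y hy
      have hy1 : y ∈ Metric.ball c δ := Metric.ball_subset_ball (min_le_left _ _) hy
      have hy2 : y ∈ Metric.ball c δ0 := Metric.ball_subset_ball (min_le_right _ _) hy
      refine ⟨(hball hy2).1, fun q1 q2 => ⟨hoff y hy2 q1 q2, ?_⟩⟩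
      have := r0 y hy1 (by rwa [← nrm_mem_arc (hball hy2).1])
        (by rwa [← nrm_mem_arc (hball hy2).1])
      rcases this with h | h
      · right; linarith
      · left; linarith
    · intro t ht hm
      obtain ⟨δ', hδ', hw⟩ := r2 t ht (Metric.ball_subset_ball (min_le_left _ _) hm)
      refine ⟨δ', hδ', fun y hy => ⟨fun hd => ?_, fun hd => ?_⟩⟩
      · have := (hw y hy).2 hd
        linarith
      · have := (hw y hy).1 hd
        linarith
    · intro t ht hm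
      obtain ⟨δ', hδ', hw⟩ := r1 t ht (Metric.ball_subset_ball (min_le_left _ _) hm)
      refine ⟨δ', hδ', fun y hy => ⟨fun hd => ?_, fun hd => ?_⟩⟩
      · have := (hw y hy).2 hd
        linarith
      · have := (hw y hy).1 hd
        linarith

end Pool.Agent.Helper30.N9
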