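import Pool.Agent.Helper30.N9.Cx8
import Pool.Agent.Helper67.N9.Cone

open scoped RealInnerProductSpace Topology Quaternion

namespace Pool.Agent.Helper30.N9

/-- coordinates -/
def toV (a : E3) : N9.V3 := fun i => a i

theorem toE_toV (a : E3) : N9.toE (toV a) = a := by
  ext i
  rfl

theorem toV_toE (y : N9.V3) : toV (N9.toE y) = y := rfl

theorem ip_toV (a b : E3) : N9.ip (toV a) (toV b) = ⟪a, b⟫ := by
  rw [N9.ip_eq, inner_def]
  rfl

theorem dt_toV (a b c : E3) : N9.dt (toV a) (toV b) (toV c) = det3 a b c := rfl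

theorem nsq_toV (a : E3) : N9.nsq (toV a) = ‖a‖ ^ 2 := by
  rw [← N9.ip_self, ip_toV, real_inner_self_eq_norm_sq]

theorem toV_sub (a b : E3) : toV (a - b) = toV a - toV b := rfl

/-- rotation matrix of a quaternion (not normalized) -/
def qmat (y : ℍ[ℝ]) : Matrix (Fin 3) (Fin 3) ℝ :=
  !![y.re ^ 2 + y.imI ^ 2 - y.imJ ^ 2 - y.imK ^ 2, 2 * (y.imI * y.imJ + y.re * y.imK),
      2 * (y.imI * y.imK - y.re * y.imJ);
    2 * (y.imI * y.imJ - y.re * y.imK), y.re ^ 2 - y.imI ^ 2 + y.imJ ^ 2 - y.imK ^ 2,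
      2 * (y.imJ * y.imK + y.re * y.imI);
    2 * (y.imI * y.imK + y.re * y.imJ), 2 * (y.imJ * y.imK - y.re * y.imI),
      y.re ^ 2 - y.imI ^ 2 - y.imJ ^ 2 + y.imK ^ 2]

/-- squared norm of a quaternion -/
def qn (y : ℍ[ℝ]) : ℝ := y.re ^ 2 + y.imI ^ 2 + y.imJ ^ 2 + y.imK ^ 2

theorem qn_pos {y : ℍ[ℝ]} (hy : y ≠ 0) : 0 < qn y := by
  have h0 : 0 ≤ qn y := by unfold qn; positivity
  rcases h0.lt_or_eq with h | h
  · exact h
  · exfalso
    apply hy
    unfold qn at h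
    ext
    · simp only [Quaternion.re_zero]; nlinarith [sq_nonneg y.re, sq_nonneg y.imI,
        sq_nonneg y.imJ, sq_nonneg y.imK]
    · simp only [Quaternion.imI_zero]; nlinarith [sq_nonneg y.re, sq_nonneg y.imI,
        sq_nonneg y.imJ, sq_nonneg y.imK]
    · simp only [Quaternion.imJ_zero]; nlinarith [sq_nonneg y.re, sq_nonneg y.imI,
        sq_nonneg y.imJ, sq_nonneg y.imK]
    · simp only [Quaternion.imK_zero]; nlinarith [sq_nonneg y.re, sq_nonneg y.imI,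
        sq_nonneg y.imJ, sq_nonneg y.imK]

theorem qmat_det (y : ℍ[ℝ]) : (qmat y).det = qn y ^ 3 := by
  rw [Matrix.det_fin_three]
  simp only [qmat, qn, Matrix.of_apply, Matrix.cons_val', Matrix.cons_val_zero,
    Matrix.cons_val_one, Matrix.cons_val, Matrix.cons_val_fin_one]
  ring

/-- conjugation by a quaternion is a rotation -/
theorem rot_of_quat {y : ℍ[ℝ]} (hy : y ≠ 0) : ∃ R : E3 ≃ₗᵢ[ℝ] E3,
    LinearMap.det (R.toLinearEquiv : E3 →ₗ[ℝ] E3) = 1 ∧
    ∀ a b : E3, N9.im (toV a) * y = y * N9.im (toV b) → b = R a := by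
  have hn := qn_pos hy
  obtain ⟨B, hB⟩ : ∃ B, B = PiLp.basisFun 2 ℝ (Fin 3) := ⟨_, rfl⟩
  obtain ⟨L, hL⟩ : ∃ L : E3 →ₗ[ℝ] E3, L = Matrix.toEuclideanLin ((qn y)⁻¹ • qmat y) := ⟨_, rfl⟩
  have hLa : ∀ a : E3, ∀ i, (L a) i = (qn y)⁻¹ * ∑ j, qmat y i j * a j := by
    intro a i
    rw [hL, Matrix.toLpLin_apply]
    simp [Matrix.mulVec, dotProduct, Finset.mul_sum, mul_assoc]
  have hnorm : ∀ a, ‖L a‖ = ‖a‖ := by
    intro a
    have h1 : ‖L a‖ ^ 2 = ‖a‖ ^ 2 := by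
      rw [← real_inner_self_eq_norm_sq, ← real_inner_self_eq_norm_sq, inner_def, inner_def]
      simp only [hLa, Fin.sum_univ_three]
      simp only [qmat, Matrix.of_apply, Matrix.cons_val', Matrix.cons_val_zero,
        Matrix.cons_val_one, Matrix.cons_val, Matrix.cons_val_fin_one]
      field_simp
      unfold qn
      ring
    exact (sq_eq_sq₀ (norm_nonneg _) (norm_nonneg _)).mp h1
  obtain ⟨R, hR⟩ : ∃ R : E3 ≃ₗᵢ[ℝ] E3, R = LinearIsometry.toLinearIsometryEquiv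
      (⟨L, hnorm⟩ : E3 →ₗᵢ[ℝ] E3) rfl := ⟨_, rfl⟩
  have hRa : ∀ a, R a = L a := by
    intro a
    rw [hR]
    rfl
  refine ⟨R, ?_, ?_⟩
  · have h1 : (R.toLinearEquiv : E3 →ₗ[ℝ] E3) = L := by
      ext1 a
      exact hRa a
    have h2 : Matrix.toEuclideanLin ((qn y)⁻¹ • qmat y) = Matrix.toLin (PiLp.basisFun 2 ℝ (Fin 3))
        (PiLp.basisFun 2 ℝ (Fin 3)) ((qn y)⁻¹ • qmat y) := by
      unfold Matrix.toEuclideanLin
      rw [Matrix.toLpLin_eq_toLin]
    rw [h1, hL, h2, LinearMap.det_toLin, Matrix.det_smul, qmat_det]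
    simp only [Fintype.card_fin]
    rw [← mul_pow, inv_mul_cancel₀ hn.ne', one_pow]
  · intro a b hab
    have e0 := congrArg (fun z : ℍ[ℝ] => z.re) hab
    have e1 := congrArg (fun z : ℍ[ℝ] => z.imI) hab
    have e2 := congrArg (fun z : ℍ[ℝ] => z.imJ) hab
    have e3 := congrArg (fun z : ℍ[ℝ] => z.imK) hab
    simp only [Quaternion.re_mul, Quaternion.imI_mul, Quaternion.imJ_mul, Quaternion.imK_mul,
      N9.im, toV] at e0 e1 e2 e3
    rw [hRa]
    ext i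
    rw [hLa]
    rw [eq_comm, inv_mul_eq_div, div_eq_iff hn.ne']
    fin_cases i
    · simp [Fin.sum_univ_three, qmat, qn]
      linear_combination (-y.imI) * e0 + y.re * e1 + y.imK * e2 - y.imJ * e3
    · simp [Fin.sum_univ_three, qmat, qn]
      linear_combination (-y.imJ) * e0 - y.imK * e1 + y.re * e2 + y.imI * e3
    · simp [Fin.sum_univ_three, qmat, qn]
      linear_combination (-y.imK) * e0 + y.imJ * e1 - y.imI * e2 + y.re * e3

end Pool.Agent.Helper30.N9
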