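import Pool.Agent.Helper30.N9.Faces

open scoped RealInnerProductSpace Topology

namespace Pool.Agent.Helper30.N9

namespace PlaneGraph

variable {V : Type} [Fintype V] [DecidableEq V] {M : PlaneGraph V}

theorem Peripheral.onF_iff (_ : M.Peripheral) (w : M.Face) (v : V) :
    M.OnF w v ↔ M.OnFace w.out v := by
  rw [← onF_fc]
  have : M.fc w.out = w := Quotient.out_eq w
  rw [this]

theorem fst_onF {w : M.Face} {e : M.G.Dart} (he : e ∈ M.fdarts w) : M.OnF w e.fst :=
  ⟨e, he, rfl⟩

theorem snd_onF {w : M.Face} {e : M.G.Dart} (he : e ∈ M.fdarts w) : M.OnF w e.snd := by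
  obtain ⟨e', he', h'⟩ := snd_mem_face he
  exact ⟨e', he', h'⟩

theorem mem_edge {d : M.G.Dart} {v : V} (h : v ∈ d.edge) : v = d.fst ∨ v = d.snd := by
  have : d.edge = s(d.fst, d.snd) := rfl
  rwa [this, Sym2.mem_iff] at h

/-- The winding number of a face vanishes at the vertices outside the face. -/
theorem FW_vertex {q : V → E3} (hP : M.Peripheral) (hq : M.InC q) {h : M.Face → E3}
    (hh : M.Cen q h) {w : M.Face} {v : V} (hv : ¬ M.OnF w v) : M.FW q h w (q v) = 0 := by
  have hconn : (M.G.induce {v | ¬ M.OnFace w.out v}).Connected := hP.nonsep w.out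
  have hstep : ∀ x y : {v | ¬ M.OnFace w.out v}, (M.G.induce {v | ¬ M.OnFace w.out v}).Adj x y →
      M.FW q h w (q x) = M.FW q h w (q y) := by
    rintro ⟨x, hx⟩ ⟨y, hy⟩ hadj
    have hadj' : M.G.Adj x y := hadj
    have hx' : ¬ M.OnF w x := by rw [hP.onF_iff]; exact hx
    have hy' : ¬ M.OnF w y := by rw [hP.onF_iff]; exact hy
    obtain ⟨d, hd⟩ : ∃ d : M.G.Dart, d = ⟨(x, y), hadj'⟩ := ⟨_, rfl⟩
    have hd1 : d.fst = x := by rw [hd]
    have hd2 : d.snd = y := by rw [hd]
    have hne := hq.ne_neg d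
    rw [hd1, hd2] at hne
    refine (hq.chain w).W_arc (hq.unit _) (hq.unit _) hne ?_ _
    intro z hz
    rw [← hd1, ← hd2] at hz
    refine off_of_not_onF hq hz (fun hm => hx' (hd1 ▸ fst_onF hm))
      (fun hm => hx' (hd1 ▸ snd_onF hm)) ?_
    intro v' hv' hon _
    rcases mem_edge hv' with h1 | h1
    · rw [h1, hd1] at hon; exact hx' hon
    · rw [h1, hd2] at hon; exact hy' hon
  have hreach : ∀ x y : {v | ¬ M.OnFace w.out v}, M.FW q h w (q x) = M.FW q h w (q y) := by
    intro x y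
    obtain ⟨p⟩ := hconn.preconnected x y
    induction p with
    | nil => rfl
    | cons hadj _ ih => exact (hstep _ _ hadj).trans ih
  by_contra hcon
  have hv' : ¬ M.OnFace w.out v := by rw [← hP.onF_iff]; exact hv
  have hall : ∀ x, ¬ M.OnF w x → 0 < ⟪h w, q x⟫ := by
    intro x hx
    by_contra hneg
    push Not at hneg
    have hx' : ¬ M.OnFace w.out x := by rw [← hP.onF_iff]; exact hx
    have h1 := (hq.chain w).W_zero (hh w) (hq.unit x) hneg
    have h2 := hreach ⟨v, hv'⟩ ⟨x, hx'⟩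
    apply hcon
    unfold FW at h2 ⊢
    rw [h2]; exact h1
  apply not_hemisphere hq (hh w).1
  intro x
  by_cases hx : M.OnF w x
  · obtain ⟨e, he, hv⟩ := hx
    rw [← hv]
    exact ((hh w).2 e he).1
  · exact hall x hx

/-- segments inside an arc -/
theorem seg_props {c u z : E3} (hc : ‖c‖ = 1) (hu : ‖u‖ = 1) (n1 : c ≠ u) (n1' : c ≠ -u)
    (hz : z ∈ arc c u) (hzu : z ≠ u) : ∀ y ∈ segment ℝ c z,
    y ≠ 0 ∧ nrm y ∈ arc c u ∧ nrm y ≠ u := by
  obtain ⟨hz1, s, t, hs, ht, he⟩ := hz
  have hs0 : 0 < s := by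
    apply lt_of_le_of_ne hs
    rintro rfl
    rw [zero_smul, zero_add] at he
    apply hzu
    rw [he, norm_smul, hu, mul_one, Real.norm_of_nonneg ht] at hz1
    rw [he, hz1, one_smul]
  rintro y ⟨α, β, hα, hβ, hαβ, rfl⟩
  have e : α • c + β • z = (α + β * s) • c + (β * t) • u := by
    rw [he, smul_add, smul_smul, smul_smul, add_smul, add_assoc]
  have hpos : 0 < α + β * s := by
    rcases hα.eq_or_lt with h | h
    · have : β = 1 := by linarith
      rw [← h, this]; linarith
    · have := mul_nonneg hβ hs; linarith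
  have hk := crs_pos hc hu n1 n1'
  have hF : ∀ r : ℝ, ⟪crs c u, crs u (r • (α • c + β • z))⟫
      = - (r * (α + β * s) * ⟪crs c u, crs c u⟫) := by
    intro r
    rw [e]
    simp only [inner_def]
    simp [crs]
    ring
  have h0 : α • c + β • z ≠ 0 := by
    intro h0
    have h1 := hF 1
    rw [h0, smul_zero] at h1
    have h2 : crs u (0 : E3) = 0 := by
      ext i; fin_cases i <;> simp [crs]
    rw [h2, inner_zero_right] at h1
    have : 0 < 1 * (α + β * s) * ⟪crs c u, crs c u⟫ := by positivity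
    linarith
  refine ⟨h0, ?_, ?_⟩
  · rw [nrm_mem_arc h0, e]
    exact ⟨_, _, hpos.le, mul_nonneg hβ ht, rfl⟩
  · intro h1
    have h2 := hF (‖α • c + β • z‖⁻¹)
    have h3 : ‖α • c + β • z‖⁻¹ • (α • c + β • z) = u := h1
    rw [h3] at h2
    have h4 : crs u u = 0 := by
      ext i; fin_cases i <;> simp [crs] <;> ring
    rw [h4, inner_zero_right] at h2
    have h5 : 0 < ‖α • c + β • z‖ := norm_pos_iff.mpr h0
    have : 0 < ‖α • c + β • z‖⁻¹ * (α + β * s) * ⟪crs c u, crs c u⟫ := by positivity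
    linarith

/-- The winding number of a face vanishes on the open edges outside the face. -/
theorem FW_edge {q : V → E3} (hP : M.Peripheral) (hq : M.InC q) {h : M.Face → E3}
    (hh : M.Cen q h) {w : M.Face} {d : M.G.Dart} (hd : d ∉ M.fdarts w)
    (hd' : d.symm ∉ M.fdarts w) {x : E3} (hx : x ∈ arc (q d.fst) (q d.snd))
    (hx1 : x ≠ q d.fst) (hx2 : x ≠ q d.snd) :
    Off (M.fdarts w) (M.ga q) (M.gb q) x ∧ M.FW q h w x = 0 := by
  constructor
  · apply off_of_not_onF hq hx hd hd'
    intro v hv _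
    rcases mem_edge hv with rfl | rfl
    · exact hx1
    · exact hx2
  have key : ∀ d : M.G.Dart, d ∉ M.fdarts w → d.symm ∉ M.fdarts w →
      x ∈ arc (q d.fst) (q d.snd) → x ≠ q d.snd → ¬ M.OnF w d.fst → M.FW q h w x = 0 := by
    intro d hd hd' hx hx2 hon
    have hne := hq.q_ne d
    have hnn := hq.ne_neg d
    have hsp := seg_props (hq.unit d.fst) (hq.unit d.snd) hne hnn hx hx2
    have hW := (hq.chain w).W_const (convex_segment (q d.fst) x).isPreconnected
      (fun y hy => (hsp y hy).1) (by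
        intro y hy
        apply off_of_not_onF hq (hsp y hy).2.1 hd hd'
        intro v hv hvw
        rcases mem_edge hv with rfl | rfl
        · exact absurd hvw hon
        · exact (hsp y hy).2.2) (left_mem_segment ℝ _ _) (right_mem_segment ℝ _ _) (h w)
    rw [nrm_unit (hq.unit _), nrm_unit hx.1] at hW
    have h2 := FW_vertex hP hq hh hon
    unfold FW at h2 ⊢
    rw [← hW]; exact h2
  by_cases h1 : M.OnF w d.fst
  · by_cases h2 : M.OnF w d.snd
    · exfalso
      have hout : M.fc w.out = w := Quotient.out_eq w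
      rw [hP.onF_iff] at h1 h2
      rcases hP.induced w.out d h1 h2 with h3 | h3
      · rw [← fc_eq, hout, eq_comm, ← mem_fdarts] at h3
        exact hd h3
      · rw [← fc_eq, hout, eq_comm, ← mem_fdarts] at h3
        exact hd' h3
    · refine key d.symm hd' (by rwa [SimpleGraph.Dart.symm_symm]) ?_ hx1 h2
      rw [arc_comm]; exact hx
  · exact key d hd hd' hx hx2 h1

/-- every vertex has three darts. -/
theorem exists_third (h3 : M.Conn3) (v : V) (d1 d2 : M.G.Dart) : ∃ d : M.G.Dart,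
    d.fst = v ∧ d ≠ d1 ∧ d ≠ d2 := by
  by_contra hcon
  push Not at hcon
  have hcard := h3.1
  obtain ⟨s, hs⟩ : ∃ s : Finset V, s = ({d1.snd, d2.snd} : Finset V).erase v := ⟨_, rfl⟩
  have hs2 : s.card ≤ 2 := by
    rw [hs]
    exact (Finset.card_erase_le).trans Finset.card_le_two
  have hconn := h3.2 s hs2
  have hvs : v ∉ s := by rw [hs]; exact Finset.notMem_erase v _
  obtain ⟨x, hx, hxv⟩ : ∃ x, x ∉ s ∧ x ≠ v := by
    by_contra hno
    push Not at hno
    have : (Finset.univ : Finset V) ⊆ insert v s := by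
      intro y _
      rw [Finset.mem_insert]
      by_contra hy
      push Not at hy
      exact hy.1 (hno y hy.2)
    have h5 := Finset.card_le_card this
    rw [Finset.card_univ] at h5
    have h6 := Finset.card_insert_le v s
    omega
  have key : ∀ (a b : {v | v ∉ s}) (_ : (M.G.induce {v | v ∉ s}).Walk a b), a ≠ b →
      ∃ y, (M.G.induce {v | v ∉ s}).Adj a y := by
    intro a b p hab
    cases p with
    | nil => exact absurd rfl hab
    | cons hadj _ => exact ⟨_, hadj⟩
  obtain ⟨p⟩ := hconn.preconnected ⟨v, hvs⟩ ⟨x, hx⟩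
  obtain ⟨⟨y, hy⟩, hadj⟩ := key _ _ p (fun h' => hxv (congrArg Subtype.val h').symm)
  have hadj' : M.G.Adj v y := hadj
  have hy' : y ∉ s := hy
  obtain ⟨d, hd⟩ : ∃ d : M.G.Dart, d = ⟨(v, y), hadj'⟩ := ⟨_, rfl⟩
  have hd1 : d.fst = v := by rw [hd]
  have hd2 : d.snd = y := by rw [hd]
  apply hy'
  rw [hs, Finset.mem_erase]
  refine ⟨hadj'.ne', ?_⟩
  rw [Finset.mem_insert, Finset.mem_singleton]
  by_cases hdd : d = d1
  · left; rw [← hd2, hdd]
  · right
    rw [← hd2, hcon d hd1 hdd]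

theorem fc_symm_ne (hP : M.Peripheral) (h3 : M.Conn3) (d : M.G.Dart) :
    M.fc d ≠ M.fc d.symm := by
  intro h
  have hcyc := M.fc_eq.mp h
  -- nxt d = d.symm
  have e1 : M.nxt d = d.symm := by
    apply hP.simple
    · rw [← fc_eq, M.fc_nxt, h]
    · rw [M.nxt_fst]; rfl
  have e2 : M.nxt d.symm = d := by
    apply hP.simple
    · rw [← fc_eq, M.fc_nxt, h]
    · rw [M.nxt_fst]; rfl
  obtain ⟨e, he, hne, _⟩ := exists_third h3 d.fst d d
  have h4 := M.trans d e he.symm
  have h5 : M.rot d = d := by rw [M.rot_eq, e2]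
  obtain ⟨i, hi⟩ := h4
  apply hne
  rw [← hi]
  exact Equiv.Perm.zpow_apply_eq_self_of_apply_eq_self h5 i

/-- local structure of a face at a vertex -/
theorem vertex_local {q : V → E3} (hP : M.Peripheral) (h3 : M.Conn3) (hq : M.InC q)
    {h : M.Face → E3} (hh : M.Cen q h) {d : M.G.Dart} {e : M.G.Dart} (hde : M.nxt e = d) :
    ∃ δ > 0, ∃ k : ℝ, (k = 0 ∨ k = -1) ∧
      (∀ y ∈ Metric.ball (q d.fst) δ, y ≠ 0 ∧
        (Off (M.fdarts (M.fc d)) (M.ga q) (M.gb q) (nrm y) →
        (M.FW q h (M.fc d) (nrm y) = k ∨ M.FW q h (M.fc d) (nrm y) = k + 1)))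
      ∧ (∀ t : ℝ, 0 < t → q d.fst + t • q d.snd ∈ Metric.ball (q d.fst) δ → ∃ δ' > 0,
        ∀ y ∈ Metric.ball (q d.fst + t • q d.snd) δ',
          (0 < det3 (q d.fst) (q d.snd) y → M.FW q h (M.fc d) (nrm y) = k + 1)
          ∧ (det3 (q d.fst) (q d.snd) y < 0 → M.FW q h (M.fc d) (nrm y) = k))
      ∧ (∀ t : ℝ, 0 < t → q d.fst + t • q e.fst ∈ Metric.ball (q d.fst) δ → ∃ δ' > 0,
        ∀ y ∈ Metric.ball (q d.fst + t • q e.fst) δ',
          (det3 (q d.fst) (q e.fst) y < 0 → M.FW q h (M.fc d) (nrm y) = k + 1)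
          ∧ (0 < det3 (q d.fst) (q e.fst) y → M.FW q h (M.fc d) (nrm y) = k)) := by
  have hes : e.snd = d.fst := by rw [← hde, M.nxt_fst]
  have hfe : M.fc e = M.fc d := by rw [← hde, M.fc_nxt]
  have hdm : d ∈ M.fdarts (M.fc d) := M.mem_fdarts.mpr rfl
  have hem : e ∈ M.fdarts (M.fc d) := M.mem_fdarts.mpr hfe
  have hds : d.symm ∉ M.fdarts (M.fc d) := by
    rw [mem_fdarts]; exact (fc_symm_ne hP h3 d).symm
  have hne_e : e ≠ d := by
    intro h'
    have : d.snd = d.fst := by rw [← hes, h']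
    exact d.adj.ne this.symm
  have hne_es : e ≠ d.symm := fun h' => hds (h' ▸ hem)
  -- outgoing and ingoing darts of the face at the vertex
  have hout : ∀ j ∈ M.fdarts (M.fc d), j.fst = d.fst → j = d := by
    intro j hj hjf
    apply hP.simple j d _ hjf
    rw [← fc_eq]; exact M.mem_fdarts.mp hj
  have hin : ∀ j ∈ M.fdarts (M.fc d), j.snd = d.fst → j = e := by
    intro j hj hjs
    have h1 : M.nxt j = d := by
      apply hout
      · rw [mem_fdarts, M.fc_nxt]; exact M.mem_fdarts.mp hj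
      · rw [M.nxt_fst]; exact hjs
    exact M.nxt.injective (h1.trans hde.symm)
  have hedge : ∀ j ∈ M.fdarts (M.fc d), d.fst ∈ j.edge → j = d ∨ j = e := by
    intro j hj hm
    rcases mem_edge hm with h1 | h1
    · left; exact hout j hj h1.symm
    · right; exact hin j hj h1.symm
  obtain ⟨δ, hδ, k, r0, r1, r2⟩ := local2 (hq.chain (M.fc d)) (i1 := d) (i2 := e) hdm hem
    (c := q d.fst) (u1 := q d.snd) (u2 := q e.fst) rfl rfl rfl (by
      show q e.snd = q d.fst
      rw [hes]) (by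
      intro j hj hjd hje hm
      have hne : d.edge ≠ j.edge := by
        intro h'
        rw [SimpleGraph.dart_edge_eq_iff] at h'
        rcases h' with h' | h'
        · exact hjd h'.symm
        · have h'' : d.symm = j := by rw [h', SimpleGraph.Dart.symm_symm]
          exact hds (by rw [h'']; exact hj)
      obtain ⟨v, hv1, hv2, hv3⟩ := hq.embed d j hne (q d.fst) (left_mem_arc (hq.unit _)) hm
      have : d.fst = v := hq.inj hv3
      rw [← this] at hv2
      rcases hedge j hj hv2 with h' | h'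
      · exact hjd h'
      · exact hje h') (by
      intro x hx1 hx2
      have hne : d.edge ≠ e.edge := by
        intro h'
        rw [SimpleGraph.dart_edge_eq_iff] at h'
        rcases h' with h' | h'
        · exact hne_e h'.symm
        · exact hne_es (by rw [h', SimpleGraph.Dart.symm_symm])
      have hx2' : x ∈ arc (q e.fst) (q e.snd) := by rw [arc_comm, hes]; exact hx2
      obtain ⟨v, hv1, hv2, hv3⟩ := hq.embed d e hne x hx1 hx2'
      rcases mem_edge hv1 with h' | h'
      · rw [hv3, h']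
      · exfalso
        rcases mem_edge hv2 with h'' | h''
        · apply hne_es
          apply SimpleGraph.Dart.ext
          apply Prod.ext
          · show e.fst = d.snd
            rw [← h'', ← h']
          · show e.snd = d.fst
            exact hes
        · have : d.snd = d.fst := by rw [← h', h'', hes]
          exact d.adj.ne this.symm) (h (M.fc d))
  -- third edge
  obtain ⟨f, hf1, hf2, hf3⟩ := exists_third h3 d.fst d e.symm
  have hfm : f ∉ M.fdarts (M.fc d) := fun hm => hf2 (hout f hm hf1)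
  have hfm' : f.symm ∉ M.fdarts (M.fc d) := by
    intro hm
    have := hin f.symm hm (by show f.fst = d.fst; exact hf1)
    apply hf3
    rw [← this, SimpleGraph.Dart.symm_symm]
  have hfq : q f.fst = q d.fst := by rw [hf1]
  have hfn := hq.q_ne f
  have hfn' := hq.ne_neg f
  obtain ⟨t, ht, hmem⟩ : ∃ t : ℝ, 0 < t ∧ q f.fst + t • q f.snd ∈ Metric.ball (q d.fst) δ := by
    have h1 : Continuous (fun t : ℝ => q f.fst + t • q f.snd) := by fun_prop
    have h2 := h1.tendsto 0
    simp only [zero_smul, add_zero] at h2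
    rw [hfq] at h2
    have h4 := (h2.mono_left (nhdsWithin_le_nhds (s := Set.Ioi 0))).eventually
      (Metric.ball_mem_nhds (q d.fst) hδ)
    have h5 : ∀ᶠ τ : ℝ in 𝓝[>] 0, 0 < τ := self_mem_nhdsWithin
    obtain ⟨t, ht, ht0⟩ := (h4.and h5).exists
    rw [← hfq] at ht
    exact ⟨t, ht0, by rw [← hfq]; exact ht⟩
  obtain ⟨q0, q1, q2, q3⟩ := pt_props (hq.unit f.fst) (hq.unit f.snd) hfn hfn' ht
  obtain ⟨hoff, hW0⟩ := FW_edge hP hq hh hfm hfm' q1 q2 q3
  have hoff1 : ∀ y : E3, Off (M.fdarts (M.fc d)) (M.ga q) (M.gb q) (nrm y) →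
      nrm y ∉ arc (q d.fst) (q d.snd) ∧ nrm y ∉ arc (q d.fst) (q e.fst) := by
    intro y hy
    refine ⟨hy d hdm, ?_⟩
    have := hy e hem
    simp only [ga, gb] at this
    rw [arc_comm, hes] at this
    exact this
  have hk : k = 0 ∨ k = -1 := by
    obtain ⟨h1, h2⟩ := hoff1 _ hoff
    have h4 := ((r0 _ hmem).2 h1 h2).2
    unfold FW at hW0
    rw [hW0] at h4
    rcases h4 with h4 | h4
    · left; exact h4.symm
    · right; linarith
  refine ⟨δ, hδ, k, hk, ?_, r1, r2⟩
  intro y hy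
  refine ⟨(r0 y hy).1, fun ho => ?_⟩
  obtain ⟨h1, h2⟩ := hoff1 _ ho
  exact ((r0 y hy).2 h1 h2).2

end PlaneGraph

end Pool.Agent.Helper30.N9
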