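import Pool.Agent.Helper30.N9.Tiling

open scoped RealInnerProductSpace Topology

namespace Pool.Agent.Helper30.N9

theorem Chain.W_eventually {ι : Type*} {s : Finset ι} {a b : ι → E3} (hc : Chain s a b)
    {y : E3} (hy : y ≠ 0) (ho : Off s a b (nrm y)) (h : E3) :
    ∀ᶠ y' in 𝓝 y, y' ≠ 0 ∧ Off s a b (nrm y') ∧ W s a b h (nrm y') = W s a b h (nrm y) := by
  obtain ⟨δ, hδ, hb⟩ := exists_ball_off hc hy ho
  filter_upwards [Metric.ball_mem_nhds y hδ] with y' hy'
  refine ⟨(hb y' hy').1, (hb y' hy').2, ?_⟩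
  exact hc.W_const (convex_ball y δ).isPreconnected (fun x hx => (hb x hx).1)
    (fun x hx => (hb x hx).2) hy' (Metric.mem_ball_self hδ) h

namespace PlaneGraph

variable {V : Type} [Fintype V] [DecidableEq V] {M : PlaneGraph V}

theorem arc_disj {q : V → E3} (hq : M.InC q) {d e : M.G.Dart} (h1 : e ≠ d) (h2 : e ≠ d.symm)
    {x : E3} (hx : x ∈ arc (q d.fst) (q d.snd)) (hx1 : x ≠ q d.fst) (hx2 : x ≠ q d.snd) :
    x ∉ arc (q e.fst) (q e.snd) := by
  intro hm
  have hne : d.edge ≠ e.edge := by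
    intro h'
    rw [SimpleGraph.dart_edge_eq_iff] at h'
    rcases h' with h' | h'
    · exact h1 h'.symm
    · exact h2 (by rw [h', SimpleGraph.Dart.symm_symm])
  obtain ⟨v, hv1, _, hv3⟩ := hq.embed d e hne x hx hm
  rcases mem_edge hv1 with h' | h'
  · exact hx1 (by rw [hv3, h'])
  · exact hx2 (by rw [hv3, h'])

/-- near an interior point of an edge, everything else is off. -/
theorem eventually_off_others {q : V → E3} (hq : M.InC q) {d : M.G.Dart} {y : E3}
    (hy : y ≠ 0) (hx : nrm y ∈ arc (q d.fst) (q d.snd)) (hx1 : nrm y ≠ q d.fst)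
    (hx2 : nrm y ≠ q d.snd) :
    ∀ᶠ y' in 𝓝 y, (det3 (q d.fst) (q d.snd) y' ≠ 0 → M.OffAll q (nrm y')) := by
  have h1 : ∀ᶠ y' in 𝓝 y, ∀ e : M.G.Dart, e ≠ d → e ≠ d.symm →
      nrm y' ∉ arc (q e.fst) (q e.snd) := by
    rw [Filter.eventually_all]
    intro e
    by_cases h1 : e = d
    · exact Filter.Eventually.of_forall fun _ h => absurd h1 h
    by_cases h2 : e = d.symm
    · exact Filter.Eventually.of_forall fun _ _ h => absurd h2 h
    filter_upwards [eventually_not_arc (hq.unit e.fst) (hq.unit e.snd) (hq.q_ne e)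
      (hq.ne_neg e) hy (arc_disj hq h1 h2 hx hx1 hx2)] with y' hy' _ _
    exact hy'
  filter_upwards [h1] with y' hy' hd e
  by_cases h1 : e = d
  · rw [h1]; exact not_mem_arc_of_det hd
  by_cases h2 : e = d.symm
  · rw [h2, arc_comm]
    exact not_mem_arc_of_det hd
  exact hy' e h1 h2

theorem eventually_other_faces {q : V → E3} (hP : M.Peripheral) (hq : M.InC q)
    {h : M.Face → E3} (hh : M.Cen q h) {d : M.G.Dart} {y : E3}
    (hy : y ≠ 0) (hx : nrm y ∈ arc (q d.fst) (q d.snd)) (hx1 : nrm y ≠ q d.fst)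
    (hx2 : nrm y ≠ q d.snd) :
    ∀ᶠ y' in 𝓝 y, ∀ w, w ≠ M.fc d → w ≠ M.fc d.symm →
      Off (M.fdarts w) (M.ga q) (M.gb q) (nrm y') ∧ M.FW q h w (nrm y') = 0 := by
  rw [Filter.eventually_all]
  intro w
  by_cases h1 : w = M.fc d
  · exact Filter.Eventually.of_forall fun _ h => absurd h1 h
  by_cases h2 : w = M.fc d.symm
  · exact Filter.Eventually.of_forall fun _ _ h => absurd h2 h
  have e1 : d ∉ M.fdarts w := by rw [mem_fdarts]; exact fun h => h1 h.symm
  have e2 : d.symm ∉ M.fdarts w := by rw [mem_fdarts]; exact fun h => h2 h.symm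
  obtain ⟨ho, hW⟩ := FW_edge hP hq hh e1 e2 hx hx1 hx2
  filter_upwards [(hq.chain w).W_eventually hy ho (h w)] with y' hy' _ _
  refine ⟨hy'.2.1, ?_⟩
  unfold FW at hW ⊢
  rw [hy'.2.2]; exact hW

theorem exists_small {c u : E3} {δ : ℝ} (hδ : 0 < δ) :
    ∀ᶠ t : ℝ in 𝓝[>] 0, c + t • u ∈ Metric.ball c δ := by
  have h1 : Continuous (fun t : ℝ => c + t • u) := by fun_prop
  have h2 := h1.tendsto 0
  simp only [zero_smul, add_zero] at h2
  exact (h2.mono_left (nhdsWithin_le_nhds (s := Set.Ioi 0))).eventually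
    (Metric.ball_mem_nhds c hδ)

/-- pick a point to the left near x -/
theorem exists_left {x n : E3} {U : Set E3} (hU : U ∈ 𝓝 x) :
    ∃ τ : ℝ, 0 < τ ∧ x + τ • n ∈ U := by
  have h1 : Continuous (fun t : ℝ => x + t • n) := by fun_prop
  have h2 := h1.tendsto 0
  simp only [zero_smul, add_zero] at h2
  have h3 := (h2.mono_left (nhdsWithin_le_nhds (s := Set.Ioi 0))).eventually hU
  have h4 : ∀ᶠ τ : ℝ in 𝓝[>] 0, 0 < τ := self_mem_nhdsWithin
  obtain ⟨t, ht, ht0⟩ := (h3.and h4).exists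
  exact ⟨t, ht0, ht⟩

/-- local structure at a vertex, with the values. -/
theorem vertex_local0 {q : V → E3} (hP : M.Peripheral) (h3 : M.Conn3) (hq : M.InC q)
    {h : M.Face → E3} (hh : M.Cen q h) (d : M.G.Dart) :
    ∃ δ > 0,
      (∀ y ∈ Metric.ball (q d.fst) δ, y ≠ 0 ∧
        (Off (M.fdarts (M.fc d)) (M.ga q) (M.gb q) (nrm y) →
        (M.FW q h (M.fc d) (nrm y) = 0 ∨ M.FW q h (M.fc d) (nrm y) = 1)))
      ∧ (∀ t : ℝ, 0 < t → q d.fst + t • q d.snd ∈ Metric.ball (q d.fst) δ → ∃ δ' > 0,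
        ∀ y ∈ Metric.ball (q d.fst + t • q d.snd) δ',
          (0 < det3 (q d.fst) (q d.snd) y → M.FW q h (M.fc d) (nrm y) = 1)
          ∧ (det3 (q d.fst) (q d.snd) y < 0 → M.FW q h (M.fc d) (nrm y) = 0)) := by
  obtain ⟨δ, hδ, k, hk, r0, r1, _⟩ := vertex_local hP h3 hq hh (d := d)
    (e := M.nxt.symm d) (by simp)
  obtain ⟨δ2, hδ2, k2, hk2, _, _, s2⟩ := vertex_local hP h3 hq hh (d := M.nxt d.symm)
    (e := d.symm) rfl
  have e1 : (M.nxt d.symm).fst = d.fst := M.nxt_fst d.symm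
  have e2 : M.fc (M.nxt d.symm) = M.fc d.symm := M.fc_nxt d.symm
  have e3 : (d.symm).fst = d.snd := rfl
  rw [e1, e2, e3] at s2
  have h0 : ∀ᶠ t : ℝ in 𝓝[>] 0, 0 < t := self_mem_nhdsWithin
  obtain ⟨t, ⟨ht1, ht2⟩, ht⟩ := (((exists_small (c := q d.fst) (u := q d.snd) hδ).and
    (exists_small (c := q d.fst) (u := q d.snd) hδ2)).and h0).exists
  obtain ⟨δ', hδ', hw1⟩ := r1 t ht ht1
  obtain ⟨δ'', hδ'', hw2⟩ := s2 t ht ht2
  obtain ⟨q0, q1, q2, q3⟩ := pt_props (hq.unit d.fst) (hq.unit d.snd) (hq.q_ne d)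
    (hq.ne_neg d) ht
  have ev1 := eventually_off_others hq q0 q1 q2 q3
  have ev2 := eventually_other_faces hP hq hh q0 q1 q2 q3
  have ev3 : ∀ᶠ y in 𝓝 (q d.fst + t • q d.snd), y ∈ Metric.ball (q d.fst + t • q d.snd) δ' :=
    Metric.ball_mem_nhds _ hδ'
  have ev4 : ∀ᶠ y in 𝓝 (q d.fst + t • q d.snd), y ∈ Metric.ball (q d.fst + t • q d.snd) δ'' :=
    Metric.ball_mem_nhds _ hδ''
  have ev5 : ∀ᶠ y in 𝓝 (q d.fst + t • q d.snd), y ≠ 0 := isOpen_ne.mem_nhds q0
  obtain ⟨τ, hτ, hmem⟩ := exists_left (n := crs (q d.fst) (q d.snd))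
    (ev1.and (ev2.and (ev3.and (ev4.and ev5))))
  obtain ⟨y, hye⟩ : ∃ y, y = q d.fst + t • q d.snd + τ • crs (q d.fst) (q d.snd) := ⟨_, rfl⟩
  rw [← hye] at hmem
  obtain ⟨m1, m2, m3, m4, m5⟩ := hmem
  have hdet : 0 < det3 (q d.fst) (q d.snd) y := by
    rw [hye, det3_add_right, det3_smul_right, det3_crs, det3_add_right, det3_smul_right,
      det3_self_left, det3_self_right]
    have := crs_pos (hq.unit d.fst) (hq.unit d.snd) (hq.q_ne d) (hq.ne_neg d)
    have := mul_pos hτ this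
    linarith
  have hsum := sum_FW hq hh (norm_nrm m5) (m1 hdet.ne')
  rw [Fintype.sum_eq_add (M.fc d) (M.fc d.symm) (fc_symm_ne hP h3 d)
    (fun w hw => (m2 w hw.1 hw.2).2), (hw1 y m3).1 hdet, (hw2 y m4).2 hdet] at hsum
  have hk0 : k = 0 := by
    rcases hk with hk | hk
    · exact hk
    · rcases hk2 with hk2 | hk2 <;> rw [hk, hk2] at hsum <;> norm_num at hsum
  rw [hk0, zero_add] at r0 r1
  exact ⟨δ, hδ, r0, r1⟩

/-- local structure of a face at an interior point of one of its edges. -/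
theorem edge_local {q : V → E3} (hP : M.Peripheral) (h3 : M.Conn3) (hq : M.InC q)
    {h : M.Face → E3} (hh : M.Cen q h) {d : M.G.Dart} {x : E3}
    (hx : x ∈ arc (q d.fst) (q d.snd)) (hx1 : x ≠ q d.fst) (hx2 : x ≠ q d.snd) :
    ∃ δ > 0, ∀ y ∈ Metric.ball x δ, y ≠ 0
      ∧ (det3 (q d.fst) (q d.snd) y = 0 → nrm y ∈ arc (q d.fst) (q d.snd))
      ∧ (0 < det3 (q d.fst) (q d.snd) y → M.FW q h (M.fc d) (nrm y) = 1)
      ∧ (det3 (q d.fst) (q d.snd) y < 0 → M.FW q h (M.fc d) (nrm y) = 0) := by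
  have hdm : d ∈ M.fdarts (M.fc d) := M.mem_fdarts.mpr rfl
  have hds : d.symm ∉ M.fdarts (M.fc d) := by
    rw [mem_fdarts]; exact (fc_symm_ne hP h3 d).symm
  have hx0 := ne_zero_of_unit hx.1
  have hnx := nrm_unit hx.1
  have hno : ∀ z ∈ arc (q d.fst) (q d.snd), z ≠ q d.fst → z ≠ q d.snd →
      ∀ j ∈ M.fdarts (M.fc d), j ≠ d → z ∉ arc (M.ga q j) (M.gb q j) := by
    intro z hz hz1 hz2 j hj hjd
    exact arc_disj hq hjd (fun h' => hds (h' ▸ hj)) hz hz1 hz2
  obtain ⟨δ, hδ, k, hk⟩ := local1 (hq.chain (M.fc d)) hdm hx0 (by rw [hnx]; exact hx)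
    (by rw [hnx]; exact hx1) (by rw [hnx]; exact hx2) (by
      intro j hj hjd
      rw [hnx]; exact hno x hx hx1 hx2 j hj hjd) (h (M.fc d))
  obtain ⟨δv, hδv, _, r1⟩ := vertex_local0 hP h3 hq hh d
  have h0 : ∀ᶠ t : ℝ in 𝓝[>] 0, 0 < t := self_mem_nhdsWithin
  obtain ⟨t, ht1, ht⟩ := ((exists_small (c := q d.fst) (u := q d.snd) hδv).and h0).exists
  obtain ⟨δ', hδ', hw1⟩ := r1 t ht ht1
  obtain ⟨x1, hx1e⟩ : ∃ x1, x1 = q d.fst + t • q d.snd := ⟨_, rfl⟩
  rw [← hx1e] at hw1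
  -- the segment
  have hseg : ∀ y ∈ segment ℝ x1 x, y ≠ 0 ∧ nrm y ∈ arc (q d.fst) (q d.snd)
      ∧ nrm y ≠ q d.fst ∧ nrm y ≠ q d.snd := by
    obtain ⟨hxn, s, s', hs, hs', hxe⟩ := hx
    have hs0 : 0 < s := by
      apply lt_of_le_of_ne hs
      rintro rfl
      rw [zero_smul, zero_add] at hxe
      apply hx2
      rw [hxe, norm_smul, hq.unit, mul_one, Real.norm_of_nonneg hs'] at hxn
      rw [hxe, hxn, one_smul]
    have hs0' : 0 < s' := by
      apply lt_of_le_of_ne hs'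
      rintro rfl
      rw [zero_smul, add_zero] at hxe
      apply hx1
      rw [hxe, norm_smul, hq.unit, mul_one, Real.norm_of_nonneg hs] at hxn
      rw [hxe, hxn, one_smul]
    rintro y ⟨α, β, hα, hβ, hαβ, rfl⟩
    have p1 : 0 < α + β * s := by
      rcases hα.eq_or_lt with h | h
      · have : β = 1 := by linarith
        rw [← h, this]; linarith
      · have := mul_nonneg hβ hs; linarith
    have p2 : 0 < α * t + β * s' := by
      rcases hα.eq_or_lt with h | h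
      · have : β = 1 := by linarith
        rw [← h, this]; linarith
      · have := mul_nonneg hβ hs'
        have := mul_pos h ht
        linarith
    have e : α • x1 + β • x = (α + β * s) • (q d.fst
        + ((α * t + β * s') / (α + β * s)) • q d.snd) := by
      rw [smul_add, smul_smul, mul_div_cancel₀ _ p1.ne', hx1e, hxe, smul_add, smul_add,
        smul_smul, smul_smul, smul_smul, add_smul, add_smul]
      abel
    obtain ⟨q0, q1, q2, q3⟩ := pt_props (hq.unit d.fst) (hq.unit d.snd) (hq.q_ne d)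
      (hq.ne_neg d) (div_pos p2 p1)
    rw [e, nrm_smul p1]
    exact ⟨smul_ne_zero p1.ne' q0, q1, q2, q3⟩
  have hcomp : IsCompact (segment ℝ x1 x) := by
    rw [segment_eq_image]
    exact isCompact_Icc.image (by fun_prop)
  obtain ⟨δs, hδs, hths⟩ := hcomp.exists_thickening_subset_open
    (t := {y | y ≠ 0 ∧ ∀ j ∈ M.fdarts (M.fc d), j ≠ d → nrm y ∉ arc (M.ga q j) (M.gb q j)})
    (by
      rw [isOpen_iff_mem_nhds]
      rintro y ⟨hy0, hy1⟩
      have ev1 : ∀ᶠ y' in 𝓝 y, y' ≠ 0 := isOpen_ne.mem_nhds hy0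
      have ev2 : ∀ᶠ y' in 𝓝 y, ∀ j ∈ M.fdarts (M.fc d), j ≠ d →
          nrm y' ∉ arc (M.ga q j) (M.gb q j) := by
        rw [Filter.eventually_all_finset]
        intro j hj
        by_cases hjd : j = d
        · exact Filter.Eventually.of_forall fun _ h => absurd hjd h
        · filter_upwards [eventually_not_arc (hq.unit j.fst) (hq.unit j.snd) (hq.q_ne j)
            (hq.ne_neg j) hy0 (hy1 j hj hjd)] with y' hy' _
          exact hy'
      exact ev1.and ev2) (by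
      intro y hy
      obtain ⟨q0, q1, q2, q3⟩ := hseg y hy
      exact ⟨q0, hno _ q1 q2 q3⟩)
  have hdx : det3 (q d.fst) (q d.snd) x = 0 := by
    by_contra hcon
    have := not_mem_arc_of_det hcon
    rw [hnx] at this
    exact this hx
  have hdx1 : det3 (q d.fst) (q d.snd) x1 = 0 := by
    rw [hx1e, det3_add_right, det3_smul_right, det3_self_left, det3_self_right]; ring
  have hcp := crs_pos (hq.unit d.fst) (hq.unit d.snd) (hq.q_ne d) (hq.ne_neg d)
  have hl : ∀ (z : E3) (τ : ℝ), 0 < τ → det3 (q d.fst) (q d.snd) z = 0 →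
      0 < det3 (q d.fst) (q d.snd) (z + τ • crs (q d.fst) (q d.snd)) := by
    intro z τ hτ hz
    rw [det3_add_right, det3_smul_right, det3_crs, hz]
    have := mul_pos hτ hcp
    linarith
  have hopen : IsOpen (Metric.thickening δs (segment ℝ x1 x)) := Metric.isOpen_thickening
  have hsub := Metric.self_subset_thickening hδs (segment ℝ x1 x)
  obtain ⟨τ1, hτ1, hm1⟩ := exists_left (n := crs (q d.fst) (q d.snd))
    (Filter.inter_mem (Metric.ball_mem_nhds x1 hδ')
      (hopen.mem_nhds (hsub (left_mem_segment ℝ x1 x))))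
  obtain ⟨τ2, hτ2, hm2⟩ := exists_left (n := crs (q d.fst) (q d.snd))
    (Filter.inter_mem (Metric.ball_mem_nhds x hδ)
      (hopen.mem_nhds (hsub (right_mem_segment ℝ x1 x))))
  have hW := (hq.chain (M.fc d)).W_const
    (T := Metric.thickening δs (segment ℝ x1 x) ∩ {y | 0 < det3 (q d.fst) (q d.snd) y})
    (((convex_segment x1 x).thickening δs).inter (convex_det_pos _ _)).isPreconnected
    (fun y hy => (hths hy.1).1) (by
      intro y hy j hj
      by_cases hjd : j = d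
      · rw [hjd]
        exact not_mem_arc_of_det (ne_of_gt hy.2)
      · exact (hths hy.1).2 j hj hjd)
    (x := x1 + τ1 • crs (q d.fst) (q d.snd)) (y := x + τ2 • crs (q d.fst) (q d.snd))
    ⟨hm1.2, hl x1 τ1 hτ1 hdx1⟩ ⟨hm2.2, hl x τ2 hτ2 hdx⟩ (h (M.fc d))
  have e1 := (hw1 _ hm1.1).1 (hl x1 τ1 hτ1 hdx1)
  have e2 := ((hk _ hm2.1).2.2.2.1 (hl x τ2 hτ2 hdx)).2
  unfold FW at e1
  have hk0 : k = 0 := by
    rw [← hW, e1] at e2
    linarith
  refine ⟨δ, hδ, fun y hy => ?_⟩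
  obtain ⟨p0, _, p2, p3, p4⟩ := hk y hy
  refine ⟨p0, p2, fun hd => ?_, fun hd => ?_⟩
  · have := (p3 hd).2
    unfold FW
    rw [this, hk0, zero_add]
  · have := (p4 hd).2
    unfold FW
    rw [this, hk0]

/-- The winding number of a face takes only the values 0 and 1. -/
theorem FW_01 {q : V → E3} (hP : M.Peripheral) (h3 : M.Conn3) (hq : M.InC q)
    {h : M.Face → E3} (hh : M.Cen q h) (w : M.Face) {z : E3} (hz : ‖z‖ = 1)
    (ho : Off (M.fdarts w) (M.ga q) (M.gb q) z) : M.FW q h w z = 0 ∨ M.FW q h w z = 1 := by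
  obtain ⟨P, hPd⟩ : ∃ P : E3 → Prop, P = fun y => y ≠ 0 ∧
      (Off (M.fdarts w) (M.ga q) (M.gb q) (nrm y) →
        (M.FW q h w (nrm y) = 0 ∨ M.FW q h w (nrm y) = 1)) := ⟨_, rfl⟩
  have hPi : ∀ y, P y ↔ (y ≠ 0 ∧ (Off (M.fdarts w) (M.ga q) (M.gb q) (nrm y) →
        (M.FW q h w (nrm y) = 0 ∨ M.FW q h w (nrm y) = 1))) := fun y => by rw [hPd]
  -- local statement at unit vectors
  have hloc : ∀ y : E3, ‖y‖ = 1 → P y → ∀ᶠ y' in 𝓝 y, P y' := by
    intro y hy1 hPy
    rw [hPi] at hPy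
    obtain ⟨hy0, hPy⟩ := hPy
    by_cases hoy : Off (M.fdarts w) (M.ga q) (M.gb q) (nrm y)
    · filter_upwards [(hq.chain w).W_eventually hy0 hoy (h w)] with y' hy'
      rw [hPi]
      refine ⟨hy'.1, fun _ => ?_⟩
      unfold FW
      rw [hy'.2.2]
      exact hPy hoy
    · unfold Off at hoy
      push Not at hoy
      obtain ⟨d, hd, hdm⟩ := hoy
      rw [nrm_unit hy1] at hdm
      have hfd : M.fc d = w := M.mem_fdarts.mp hd
      by_cases c1 : y = q d.fst
      · obtain ⟨δ, hδ, r0, _⟩ := vertex_local0 hP h3 hq hh d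
        rw [← c1, hfd] at r0
        filter_upwards [Metric.ball_mem_nhds y hδ] with y' hy'
        rw [hPi]
        exact r0 y' hy'
      by_cases c2 : y = q d.snd
      · obtain ⟨δ, hδ, r0, _⟩ := vertex_local0 hP h3 hq hh (M.nxt d)
        rw [M.nxt_fst, ← c2, M.fc_nxt, hfd] at r0
        filter_upwards [Metric.ball_mem_nhds y hδ] with y' hy'
        rw [hPi]
        exact r0 y' hy'
      obtain ⟨δ, hδ, r0⟩ := edge_local hP h3 hq hh hdm c1 c2
      rw [hfd] at r0
      filter_upwards [Metric.ball_mem_nhds y hδ] with y' hy'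
      rw [hPi]
      obtain ⟨p0, p1, p2, p3⟩ := r0 y' hy'
      refine ⟨p0, fun hoff => ?_⟩
      rcases lt_trichotomy (det3 (q d.fst) (q d.snd) y') 0 with hd' | hd' | hd'
      · left; exact p3 hd'
      · exact absurd (p1 hd') (hoff d hd)
      · right; exact p2 hd'
  have hnn : ∀ y : E3, y ≠ 0 → nrm (nrm y) = nrm y := fun y hy => nrm_unit (norm_nrm hy)
  have hPn : ∀ y : E3, y ≠ 0 → (P (nrm y) ↔ P y) := by
    intro y hy
    rw [hPi, hPi, hnn y hy]
    have := ne_zero_of_unit (norm_nrm hy)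
    tauto
  have hU1 : IsOpen {y | P y} := by
    rw [isOpen_iff_mem_nhds]
    intro y hy
    have hy' : P y := hy
    have hy0 : y ≠ 0 := ((hPi y).mp hy').1
    have h1 := (continuousAt_nrm hy0).eventually
      (hloc (nrm y) (norm_nrm hy0) ((hPn y hy0).mpr hy'))
    have h2 : ∀ᶠ y' in 𝓝 y, y' ≠ 0 := isOpen_ne.mem_nhds hy0
    filter_upwards [h1, h2] with y' h1 h2
    exact (hPn y' h2).mp h1
  have hU2 : IsOpen {y | y ≠ 0 ∧ ¬ P y} := by
    rw [isOpen_iff_mem_nhds]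
    rintro y ⟨hy0, hnP⟩
    rw [hPi] at hnP
    push Not at hnP
    obtain ⟨hoy, hne⟩ := hnP hy0
    filter_upwards [(hq.chain w).W_eventually hy0 hoy (h w)] with y' hy'
    refine ⟨hy'.1, ?_⟩
    rw [hPi]
    intro hP'
    have := hP'.2 hy'.2.1
    unfold FW at this
    rw [hy'.2.2] at this
    unfold FW at hne
    rcases this with h' | h'
    · exact hne.1 h'
    · exact hne.2 h'
  have hconn : IsPreconnected (Metric.sphere (0 : E3) 1) := by
    apply isPreconnected_sphere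
    rw [← Module.finrank_eq_rank, finrank_euclideanSpace_fin]
    norm_num
  by_contra hcon
  have hzP : ¬ P z := by
    rw [hPi, nrm_unit hz]
    exact fun h' => hcon (h'.2 ho)
  have hhP : P (- h w) := by
    rw [hPi, nrm_neg, nrm_unit (hh w).1]
    refine ⟨neg_ne_zero.mpr (ne_zero_of_unit (hh w).1), fun _ => Or.inl ?_⟩
    apply (hq.chain w).W_zero (hh w) (by rw [norm_neg]; exact (hh w).1)
    rw [inner_neg_right, inner_self_one (hh w).1]
    norm_num
  obtain ⟨y, _, hy1, hy2⟩ := hconn {y | P y} {y | y ≠ 0 ∧ ¬ P y} hU1 hU2 (by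
      intro y hy
      by_cases hPy : P y
      · left; exact hPy
      · right
        refine ⟨?_, hPy⟩
        rw [mem_sphere_zero_iff_norm] at hy
        exact ne_zero_of_unit hy)
    ⟨- h w, by rw [mem_sphere_zero_iff_norm, norm_neg]; exact (hh w).1, hhP⟩
    ⟨z, by rw [mem_sphere_zero_iff_norm]; exact hz, ne_zero_of_unit hz, hzP⟩
  exact hy2.2 hy1

/-- TILING: off the drawing exactly one face has winding number 1, the others 0. -/
theorem tiling {q : V → E3} (hP : M.Peripheral) (h3 : M.Conn3) (hq : M.InC q)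
    {h : M.Face → E3} (hh : M.Cen q h) {z : E3} (hz : ‖z‖ = 1) (ho : M.OffAll q z) :
    ∃ w, M.FW q h w z = 1 ∧ ∀ w', w' ≠ w → M.FW q h w' z = 0 := by
  have hsum := sum_FW hq hh hz ho
  have h01 : ∀ w, M.FW q h w z = 0 ∨ M.FW q h w z = 1 := fun w =>
    FW_01 hP h3 hq hh w hz (fun e _ => ho e)
  obtain ⟨w, hw⟩ : ∃ w, M.FW q h w z = 1 := by
    by_contra hcon
    push Not at hcon
    have : ∀ w, M.FW q h w z = 0 := fun w => (h01 w).resolve_right (hcon w)
    rw [Finset.sum_eq_zero (fun w _ => this w)] at hsum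
    norm_num at hsum
  refine ⟨w, hw, ?_⟩
  intro w' hw'
  rcases h01 w' with h1 | h1
  · exact h1
  · exfalso
    have h2 : ∀ x, 0 ≤ M.FW q h x z := fun x => by
      rcases h01 x with h | h <;> rw [h] <;> norm_num
    have h4 : M.FW q h w z + M.FW q h w' z ≤ ∑ x, M.FW q h x z := by
      rw [← Finset.sum_pair (f := fun x => M.FW q h x z) hw'.symm]
      exact Finset.sum_le_sum_of_subset_of_nonneg (Finset.subset_univ _) (fun x _ _ => h2 x)
    rw [hw, h1, hsum] at h4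
    norm_num at h4

end PlaneGraph

end Pool.Agent.Helper30.N9
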