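import Pool.Agent.Helper30.N9.Wind

open scoped RealInnerProductSpace Topology

namespace Pool.Agent.Helper30.N9

variable {ι : Type*}

/-- normalization -/
noncomputable def nrm (y : E3) : E3 := ‖y‖⁻¹ • y

theorem norm_nrm {y : E3} (hy : y ≠ 0) : ‖nrm y‖ = 1 := by
  unfold nrm
  rw [norm_smul, norm_inv, norm_norm, inv_mul_cancel₀ (norm_ne_zero_iff.mpr hy)]

theorem nrm_unit {y : E3} (hy : ‖y‖ = 1) : nrm y = y := by
  unfold nrm; rw [hy, inv_one, one_smul]

theorem nrm_neg (y : E3) : nrm (-y) = - nrm y := by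
  unfold nrm; rw [norm_neg, smul_neg]

theorem nrm_smul {t : ℝ} (ht : 0 < t) (y : E3) : nrm (t • y) = nrm y := by
  unfold nrm
  rw [norm_smul, Real.norm_of_nonneg ht.le, smul_smul, mul_inv, mul_comm t⁻¹, mul_assoc,
    inv_mul_cancel₀ ht.ne', mul_one]

theorem continuousAt_nrm {y : E3} (hy : y ≠ 0) : ContinuousAt nrm y := by
  unfold nrm
  exact (continuousAt_id.norm.inv₀ (norm_ne_zero_iff.mpr hy)).smul continuousAt_id

theorem ne_zero_of_unit {x : E3} (hx : ‖x‖ = 1) : x ≠ 0 := by
  rintro rfl; simp at hx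

/-- The slit condition is open. -/
theorem eventually_slit {s : Finset ι} {a b : ι → E3} {X : Type*} [TopologicalSpace X]
    {f : X → E3} {x : X} {l : Filter X} (hl : l ≤ 𝓝 x) (hf : ContinuousAt f x)
    (h : Slit s a b (f x)) : ∀ᶠ y in l, Slit s a b (f y) := by
  unfold Slit at h ⊢
  rw [Filter.eventually_all_finset]
  intro i hi
  apply hl
  have h1 : ContinuousAt (fun y => zc (f y) (a i) (b i)) x :=
    continuous_zc.continuousAt.comp (x := x) (f := fun y => (f y, a i, b i))
      (hf.prodMk (continuousAt_const.prodMk continuousAt_const))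
  exact h1 (Complex.isOpen_slitPlane.mem_nhds (h i hi))

theorem continuousAt_SA {s : Finset ι} {a b : ι → E3} {X : Type*} [TopologicalSpace X]
    {f : X → E3} {x : X} (hf : ContinuousAt f x)
    (h : Slit s a b (f x)) : ContinuousAt (fun y => SA s a b (f y)) x := by
  unfold SA
  apply tendsto_finsetSum
  intro i hi
  exact continuousAt_Om hf continuousAt_const continuousAt_const (h i hi)

/-- the differences of total areas are multiples of 4 pi. -/
theorem Chain.int {s : Finset ι} {a b : ι → E3} (hc : Chain s a b) {x y : E3}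
    (hx : ‖x‖ = 1) (hy : ‖y‖ = 1) (h1 : Slit s a b x) (h2 : Slit s a b y) :
    ∃ k : ℤ, SA s a b x - SA s a b y = 4 * Real.pi * k := by
  by_cases hxy : x = -y
  · obtain ⟨e, he, hxe⟩ := exists_perp hx
    have hf : ContinuousAt (fun t : ℝ => Real.cos t • x + Real.sin t • e) 0 := by fun_prop
    have h0 : (fun t : ℝ => Real.cos t • x + Real.sin t • e) 0 = x := by simp
    have hs : Slit s a b ((fun t : ℝ => Real.cos t • x + Real.sin t • e) 0) := by
      rw [h0]; exact h1
    have hev := eventually_slit (l := 𝓝[>] (0 : ℝ)) nhdsWithin_le_nhds hf hs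
    have hev2 : ∀ᶠ t : ℝ in 𝓝[>] 0, t < 1 :=
      nhdsWithin_le_nhds (gt_mem_nhds one_pos)
    have hev3 : ∀ᶠ t : ℝ in 𝓝[>] 0, 0 < t := self_mem_nhdsWithin
    obtain ⟨t, ht, ht1, ht0⟩ := (hev.and (hev2.and hev3)).exists
    have hsin : 0 < Real.sin t :=
      Real.sin_pos_of_pos_of_lt_pi ht0 (by linarith [Real.pi_gt_three])
    obtain ⟨w, hw⟩ : ∃ w, w = Real.cos t • x + Real.sin t • e := ⟨_, rfl⟩
    have ht' : Slit s a b w := by rw [hw]; exact ht
    have hwe : ⟪w, e⟫ = Real.sin t := by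
      rw [hw, inner_add_left, real_inner_smul_left, real_inner_smul_left, hxe,
        inner_self_one he]; ring
    have hwn : ‖w‖ = 1 := by
      rw [norm_one_iff, hw]
      simp only [inner_add_left, inner_add_right, real_inner_smul_left, real_inner_smul_right]
      rw [inner_self_one he, inner_self_one hx, hxe, real_inner_comm x e, hxe]
      nlinarith [Real.sin_sq_add_cos_sq t]
    have n1 : x ≠ -w := by
      intro h
      have : ⟪x, e⟫ = - ⟪w, e⟫ := by rw [h, inner_neg_left]
      rw [hxe, hwe] at this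
      linarith
    have n2 : w ≠ -y := by
      intro h
      rw [← hxy] at h
      rw [h, hxe] at hwe
      linarith
    obtain ⟨k1, hk1⟩ := hc.int1 hx hwn n1 h1 ht'
    obtain ⟨k2, hk2⟩ := hc.int1 hwn hy n2 ht' h2
    refine ⟨k1 + k2, ?_⟩
    push_cast
    linarith
  · exact hc.int1 hx hy hxy h1 h2

/-- a continuous function on a preconnected set whose differences are multiples of c is
constant. -/
theorem const_of_int {X : Type*} [TopologicalSpace X] {T : Set X} (hT : IsPreconnected T)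
    {f : X → ℝ} (hf : ContinuousOn f T) {c : ℝ} (hc : 0 < c)
    (h : ∀ x ∈ T, ∀ y ∈ T, ∃ k : ℤ, f x - f y = c * k) {x y : X} (hx : x ∈ T) (hy : y ∈ T) :
    f x = f y := by
  wlog hlt : f x < f y generalizing x y
  · rcases eq_or_ne (f x) (f y) with h' | h'
    · exact h'
    · have h1 : f y < f x := lt_of_le_of_ne (not_lt.mp hlt) h'.symm
      exact (this hy hx h1).symm
  exfalso
  have hiv := hT.intermediate_value hx hy hf
  have hm : f x + min (c / 2) (f y - f x) ∈ Set.Icc (f x) (f y) := by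
    constructor
    · have : 0 ≤ min (c / 2) (f y - f x) := le_min (by linarith) (by linarith)
      linarith
    · have := min_le_right (c / 2) (f y - f x)
      linarith
  obtain ⟨w, hw, hwe⟩ := hiv hm
  obtain ⟨k, hk⟩ := h w hw x hx
  have e1 : c * k = min (c / 2) (f y - f x) := by rw [← hk, hwe]; ring
  have p1 : 0 < min (c / 2) (f y - f x) := lt_min (by linarith) (by linarith)
  have p2 : min (c / 2) (f y - f x) ≤ c / 2 := min_le_left _ _
  have k1 : (0 : ℝ) < k := by
    by_contra hcon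
    push Not at hcon
    nlinarith
  have k2 : (k : ℝ) < 1 := by
    by_contra hcon
    push Not at hcon
    nlinarith
  have k1' : (0 : ℤ) < k := by exact_mod_cast k1
  have k2' : (k : ℤ) < 1 := by exact_mod_cast k2
  omega

/-- the total area seen from -z is constant on preconnected sets off the chain. -/
theorem Chain.const {s : Finset ι} {a b : ι → E3} (hc : Chain s a b) {X : Type*}
    [TopologicalSpace X] {T : Set X} (hT : IsPreconnected T) {f : X → E3}
    (hf : ContinuousOn f T) (hu : ∀ x ∈ T, ‖f x‖ = 1) (ho : ∀ x ∈ T, Slit s a b (f x))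
    {x y : X} (hx : x ∈ T) (hy : y ∈ T) : SA s a b (f x) = SA s a b (f y) := by
  refine const_of_int hT (f := fun x => SA s a b (f x)) ?_ (c := 4 * Real.pi)
    (by positivity) ?_ hx hy
  · unfold SA
    apply continuousOn_finsetSum
    intro i hi x hx
    exact continuousWithinAt_Om (hf x hx) continuousWithinAt_const continuousWithinAt_const
      (ho x hx i hi)
  · intro x hx y hy
    exact hc.int (hu x hx) (hu y hy) (ho x hx) (ho y hy)

/-- version for subsets of the space, after normalization. -/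
theorem Chain.constN {s : Finset ι} {a b : ι → E3} (hc : Chain s a b) {T : Set E3}
    (hT : IsPreconnected T) (h0 : ∀ x ∈ T, x ≠ 0) (ho : ∀ x ∈ T, Off s a b (nrm x))
    {x y : E3} (hx : x ∈ T) (hy : y ∈ T) : SA s a b (-nrm x) = SA s a b (-nrm y) := by
  refine hc.const hT (f := fun x => - nrm x) ?_ ?_ ?_ hx hy
  · intro x hx
    exact (continuousAt_nrm (h0 x hx)).neg.continuousWithinAt
  · intro x hx
    rw [norm_neg]; exact norm_nrm (h0 x hx)
  · intro x hx
    exact (hc.slit_iff (norm_nrm (h0 x hx))).mpr (ho x hx)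

/-- The cone over an arc. -/
def cone (a b : E3) : Set E3 := {x | ∃ s t : ℝ, 0 ≤ s ∧ 0 ≤ t ∧ x = s • a + t • b}

theorem nrm_mem_arc {a b y : E3} (hy : y ≠ 0) : nrm y ∈ arc a b ↔ y ∈ cone a b := by
  have hn : 0 < ‖y‖ := norm_pos_iff.mpr hy
  constructor
  · rintro ⟨_, s, t, hs, ht, h⟩
    refine ⟨‖y‖ * s, ‖y‖ * t, by positivity, by positivity, ?_⟩
    have : y = ‖y‖ • nrm y := by
      unfold nrm
      rw [smul_smul, mul_inv_cancel₀ hn.ne', one_smul]
    have e : ‖y‖ • nrm y = (‖y‖ * s) • a + (‖y‖ * t) • b := by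
      rw [h, smul_add, smul_smul, smul_smul]
    exact this.trans e
  · rintro ⟨s, t, hs, ht, h⟩
    refine ⟨norm_nrm hy, ‖y‖⁻¹ * s, ‖y‖⁻¹ * t, by positivity, by positivity, ?_⟩
    unfold nrm
    conv_lhs => rw [h]
    rw [smul_add, smul_smul, smul_smul, ← h]

theorem mem_arc_iff {a b y : E3} (hy : ‖y‖ = 1) : y ∈ arc a b ↔ y ∈ cone a b := by
  rw [← nrm_mem_arc (ne_zero_of_unit hy), nrm_unit hy]

theorem eventually_off {s : Finset ι} {a b : ι → E3} (hc : Chain s a b) {y : E3}
    (hy : y ≠ 0) (h : Off s a b (nrm y)) :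
    ∀ᶠ y' in 𝓝 y, y' ≠ 0 ∧ Off s a b (nrm y') := by
  have h1 : ∀ᶠ y' in 𝓝 y, y' ≠ 0 := isOpen_ne.mem_nhds hy
  have h2 : ∀ᶠ y' in 𝓝 y, Slit s a b (- nrm y') :=
    eventually_slit (f := fun y => - nrm y) le_rfl (continuousAt_nrm hy).neg
      ((hc.slit_iff (norm_nrm hy)).mpr h)
  filter_upwards [h1, h2] with y' h1 h2
  exact ⟨h1, (hc.slit_iff (norm_nrm h1)).mp h2⟩

/-- one closed chain and a point off it: there is a ball on which everything is off. -/
theorem exists_ball_off {s : Finset ι} {a b : ι → E3} (hc : Chain s a b) {y : E3}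
    (hy : y ≠ 0) (h : Off s a b (nrm y)) :
    ∃ δ > 0, ∀ y' ∈ Metric.ball y δ, y' ≠ 0 ∧ Off s a b (nrm y') := by
  obtain ⟨δ, hδ, h2⟩ := Metric.mem_nhds_iff.mp (eventually_off hc hy h)
  exact ⟨δ, hδ, fun y' hy' => h2 hy'⟩

/-- The set between z and w: if the segment from z to w avoids all cones then the areas
agree. -/
theorem Chain.seg {s : Finset ι} {a b : ι → E3} (hc : Chain s a b) {z w : E3}
    (h0 : ∀ x ∈ segment ℝ z w, x ≠ 0) (ho : ∀ x ∈ segment ℝ z w, Off s a b (nrm x)) :
    SA s a b (-nrm z) = SA s a b (-nrm w) :=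
  hc.constN (convex_segment z w).isPreconnected h0 ho (left_mem_segment ℝ z w)
    (right_mem_segment ℝ z w)

/-- winding number with respect to the centre h -/
noncomputable def W (s : Finset ι) (a b : ι → E3) (h z : E3) : ℝ :=
  (SA s a b h - SA s a b (-z)) / (4 * Real.pi)

def Centre (s : Finset ι) (a b : ι → E3) (h : E3) : Prop :=
  ‖h‖ = 1 ∧ ∀ i ∈ s, 0 < ⟪h, a i⟫ ∧ 0 < ⟪h, b i⟫

theorem Chain.slit_centre {s : Finset ι} {a b : ι → E3} (hc : Chain s a b) {h : E3}
    (hh : Centre s a b h) : Slit s a b h := fun i hi =>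
  slit_of_pos hh.1 (hc.ua i hi) (hc.ub i hi) (hc.ne i hi) (hc.nn i hi) (hh.2 i hi).1
    (hh.2 i hi).2

theorem Centre.off {s : Finset ι} {a b : ι → E3} {h : E3}
    (hh : Centre s a b h) {z : E3} (hz : ⟪h, z⟫ ≤ 0) : Off s a b z := fun i hi hm => by
  have := arc_pos (hh.2 i hi).1 (hh.2 i hi).2 hm
  linarith

theorem Chain.W_int {s : Finset ι} {a b : ι → E3} (hc : Chain s a b) {h z : E3}
    (hh : Centre s a b h) (hz : ‖z‖ = 1) (ho : Off s a b z) : ∃ k : ℤ, W s a b h z = k := by
  obtain ⟨k, hk⟩ := hc.int hh.1 (by rwa [norm_neg]) (hc.slit_centre hh)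
    ((hc.slit_iff hz).mpr ho)
  refine ⟨k, ?_⟩
  unfold W
  rw [hk]
  field_simp

theorem inner_nrm (h y : E3) : ⟪h, nrm y⟫ = ‖y‖⁻¹ * ⟪h, y⟫ := by
  unfold nrm; rw [real_inner_smul_right]

theorem Chain.W_zero {s : Finset ι} {a b : ι → E3} (hc : Chain s a b) {h z : E3}
    (hh : Centre s a b h) (hz : ‖z‖ = 1) (hz0 : ⟪h, z⟫ ≤ 0) : W s a b h z = 0 := by
  have key : SA s a b (- nrm z) = SA s a b (- nrm (-h)) := by
    have h1 : ∀ x ∈ segment ℝ z (-h), x ≠ 0 ∧ ⟪h, x⟫ ≤ 0 := by
      intro x hx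
      obtain ⟨α, β, hα, hβ, hαβ, rfl⟩ := hx
      have e : ⟪h, α • z + β • -h⟫ = α * ⟪h, z⟫ - β := by
        rw [inner_add_right, real_inner_smul_right, real_inner_smul_right, inner_neg_right,
          inner_self_one hh.1]; ring
      constructor
      · intro h0
        rw [h0, inner_zero_right] at e
        have e1 : α * ⟪h, z⟫ ≤ 0 := mul_nonpos_of_nonneg_of_nonpos hα hz0
        have e2 : β = 0 := by linarith
        have e3 : α = 1 := by linarith
        rw [e2, e3] at h0
        simp only [one_smul, zero_smul, add_zero] at h0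
        rw [h0] at hz
        simp at hz
      · rw [e]
        have e1 : α * ⟪h, z⟫ ≤ 0 := mul_nonpos_of_nonneg_of_nonpos hα hz0
        linarith
    apply hc.seg (fun x hx => (h1 x hx).1)
    intro x hx
    apply hh.off
    rw [inner_nrm]
    exact mul_nonpos_of_nonneg_of_nonpos (by positivity) (h1 x hx).2
  unfold W
  rw [nrm_unit hz, nrm_neg, nrm_unit hh.1, neg_neg] at key
  rw [key, sub_self, zero_div]

/-- the area seen from the centre does not depend on the centre. -/
theorem Chain.centre_indep {s : Finset ι} {a b : ι → E3} (hc : Chain s a b) {h h' : E3}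
    (hh : Centre s a b h) (hh' : Centre s a b h') : SA s a b h = SA s a b h' := by
  rcases s.eq_empty_or_nonempty with rfl | ⟨i0, hi0⟩
  · simp [SA]
  have h1 : ∀ x ∈ segment ℝ (-h) (-h'), x ≠ 0 ∧ ∀ i ∈ s, ⟪-x, a i⟫ > 0 ∧ ⟪-x, b i⟫ > 0 := by
    intro x hx
    obtain ⟨α, β, hα, hβ, hαβ, rfl⟩ := hx
    have h2 : ∀ i ∈ s, ⟪-(α • -h + β • -h'), a i⟫ > 0 ∧ ⟪-(α • -h + β • -h'), b i⟫ > 0 := by
      intro i hi
      have e : ∀ c : E3, ⟪-(α • -h + β • -h'), c⟫ = α * ⟪h, c⟫ + β * ⟪h', c⟫ := by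
        intro c
        rw [inner_neg_left, inner_add_left, real_inner_smul_left, real_inner_smul_left,
          inner_neg_left, inner_neg_left]; ring
      rw [e, e]
      have p1 := hh.2 i hi
      have p2 := hh'.2 i hi
      rcases hα.eq_or_lt with h0 | h0
      · have hβ1 : β = 1 := by linarith
        rw [← h0, hβ1]
        constructor <;> simp [p2.1, p2.2]
      · constructor
        · exact add_pos_of_pos_of_nonneg (mul_pos h0 p1.1) (mul_nonneg hβ p2.1.le)
        · exact add_pos_of_pos_of_nonneg (mul_pos h0 p1.2) (mul_nonneg hβ p2.2.le)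
    refine ⟨?_, h2⟩
    intro h0
    have := (h2 i0 hi0).1
    rw [h0, neg_zero, inner_zero_left] at this
    exact lt_irrefl _ this
  have key := hc.seg (z := -h) (w := -h') (fun x hx => (h1 x hx).1) (by
    intro x hx i hi hm
    rw [nrm_mem_arc (h1 x hx).1] at hm
    obtain ⟨s', t', hs', ht', he⟩ := hm
    have p := (h1 x hx).2 i hi
    have e : ⟪-x, x⟫ = s' * ⟪-x, a i⟫ + t' * ⟪-x, b i⟫ := by
      calc ⟪-x, x⟫ = ⟪-x, s' • a i + t' • b i⟫ := congrArg (fun z => ⟪-x, z⟫) he
        _ = _ := by rw [inner_add_right, real_inner_smul_right, real_inner_smul_right]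
    have e2 : ⟪-x, x⟫ = - ‖x‖ ^ 2 := by
      rw [inner_neg_left, real_inner_self_eq_norm_sq]
    have e3 : 0 < ‖x‖ := norm_pos_iff.mpr (h1 x hx).1
    have e4 := mul_nonneg hs' p.1.le
    have e5 := mul_nonneg ht' p.2.le
    nlinarith)
  rw [nrm_neg, nrm_neg, nrm_unit hh.1, nrm_unit hh'.1, neg_neg, neg_neg] at key
  exact key

/-- W is constant on preconnected sets off the chain. -/
theorem Chain.W_const {s : Finset ι} {a b : ι → E3} (hc : Chain s a b) {T : Set E3}
    (hT : IsPreconnected T) (h0 : ∀ x ∈ T, x ≠ 0) (ho : ∀ x ∈ T, Off s a b (nrm x))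
    {x y : E3} (hx : x ∈ T) (hy : y ∈ T) (h : E3) :
    W s a b h (nrm x) = W s a b h (nrm y) := by
  unfold W
  rw [hc.constN hT h0 ho hx hy]

end Pool.Agent.Helper30.N9
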